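import Pool.Agent.P.MP_20768c_nt.Defs
import Mathlib

-- part Pool.Agent.P.MP_20768c_nt.An1
section

open Complex UpperHalfPlane Filter Topology CongruenceSubgroup ModularForm Asymptotics
open scoped MatrixGroups

namespace Pool.Agent.P.MP_20768c_nt

variable {M : ℕ} [NeZero M]

open ConjAct Pointwise Matrix.SpecialLinearGroup in
lemma an1_arith (Γ : Subgroup (GL (Fin 2) ℝ)) [Γ.IsArithmetic] (g : SL(2, ℤ)) :
    (toConjAct (g : GL (Fin 2) ℝ)⁻¹ • Γ).IsArithmetic := by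
  simpa [(show Rat.castHom ℝ = algebraMap ℚ ℝ by rfl), map_inv, map_mapGL]
    using! Subgroup.IsArithmetic.conj Γ (mapGL ℚ g)⁻¹

lemma an1_prim {Γ : Subgroup (GL (Fin 2) ℝ)} [Γ.IsArithmetic] (g : CuspForm Γ 2) :
    ∃ E : ℂ → ℂ, (∀ z : ℍ, HasDerivAt E (g z) z) ∧
      Tendsto (fun z : ℍ => E z) atImInfty (𝓝 0) := by
  have hh : 0 < Γ.strictWidthInfty := Γ.strictWidthInfty_pos_iff.mpr Fact.out
  have hΓ : Γ.strictWidthInfty ∈ Γ.strictPeriods := Γ.strictWidthInfty_mem_strictPeriods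
  generalize Γ.strictWidthInfty = h at hh hΓ
  have hd : DifferentiableOn ℂ (cuspFunction h g) (Metric.ball 0 1) := fun q hq =>
    (ModularFormClass.differentiableAt_cuspFunction g hh hΓ
      (mem_ball_zero_iff.mp hq)).differentiableWithinAt
  have h0 : cuspFunction h g 0 = 0 := CuspFormClass.cuspFunction_apply_zero g hh hΓ
  have hds : DifferentiableOn ℂ (dslope (cuspFunction h g) 0) (Metric.ball 0 1) :=
    (Complex.differentiableOn_dslope (Metric.ball_mem_nhds _ one_pos)).2 hd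
  obtain ⟨Φ, hΦ0, hΦ⟩ := hds.isExactOn_ball.with_val_at 0 0
  have hc : (h : ℂ) ≠ 0 := by exact_mod_cast hh.ne'
  have hpi : (2 * Real.pi * Complex.I : ℂ) ≠ 0 := two_pi_I_ne_zero
  refine ⟨fun z => h / (2 * Real.pi * Complex.I) * Φ (Function.Periodic.qParam h z), fun z => ?_, ?_⟩
  · have hq : ‖Function.Periodic.qParam h z‖ < 1 := Function.Periodic.norm_qParam_lt_one hh z.im_pos
    have h1 : HasDerivAt (Function.Periodic.qParam h)
        (Function.Periodic.qParam h z * (2 * Real.pi * Complex.I / h)) z := by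
      have := (((hasDerivAt_id (z : ℂ)).const_mul (2 * Real.pi * Complex.I)).div_const (h : ℂ)).cexp
      simpa [Function.Periodic.qParam] using! this
    have h2 := ((hΦ _ (mem_ball_zero_iff.mpr hq)).comp (z : ℂ) h1).const_mul
      (h / (2 * Real.pi * Complex.I))
    have h3 := sub_smul_dslope (cuspFunction h g) 0 (Function.Periodic.qParam h z)
    rw [h0, sub_zero, sub_zero, SlashInvariantFormClass.eq_cuspFunction g z hΓ hh.ne',
      smul_eq_mul] at h3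
    refine h2.congr_deriv ?_
    rw [← h3]
    field_simp
  · have h1 : ContinuousAt Φ 0 := (hΦ 0 (Metric.mem_ball_self one_pos)).continuousAt
    have h2 := (h1.tendsto.comp (qParam_tendsto_atImInfty hh)).const_mul
      ((h : ℂ) / (2 * Real.pi * Complex.I))
    rw [hΦ0, mul_zero] at h2
    exact h2

/-- exponential decay at every cusp -/
lemma slash_decay (f : CuspForm (Gamma1 M) 2) (σ : SL(2, ℤ)) :
    ∃ c > 0, (⇑f ∣[(2 : ℤ)] σ) =O[atImInfty] fun τ : ℍ => Real.exp (-c * τ.im) := by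
  have := an1_arith (Gamma1 M) σ
  exact CuspFormClass.exp_decay_atImInfty' (CuspForm.translate f σ)

/-- the primitive of `f ∣ σ` that vanishes at infinity -/
lemma slash_prim (f : CuspForm (Gamma1 M) 2) (σ : SL(2, ℤ)) :
    ∃ E : ℂ → ℂ, (∀ z : ℍ, HasDerivAt E ((⇑f ∣[(2 : ℤ)] σ) z) z) ∧
      Tendsto (fun z : ℍ => E z) atImInfty (𝓝 0) := by
  have := an1_arith (Gamma1 M) σ
  exact an1_prim (CuspForm.translate f σ)

end Pool.Agent.P.MP_20768c_nt
end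

-- part Pool.Agent.P.MP_20768c_nt.An2
section

open Complex UpperHalfPlane Filter Topology CongruenceSubgroup ModularForm Asymptotics
open scoped MatrixGroups

namespace Pool.Agent.P.MP_20768c_nt

variable {M : ℕ} [NeZero M]

/-- `E` is the Eichler integral of `g` -/
def IsEich (g : ℍ → ℂ) (E : ℂ → ℂ) : Prop :=
  (∀ z : ℍ, HasDerivAt E (g z) z) ∧ Tendsto (fun z : ℍ => E z) atImInfty (𝓝 0)

/-- two primitives differ by a constant -/
lemma prim_const {E1 E2 : ℂ → ℂ} {g : ℍ → ℂ} (h1 : ∀ z : ℍ, HasDerivAt E1 (g z) z)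
    (h2 : ∀ z : ℍ, HasDerivAt E2 (g z) z) : ∃ κ : ℂ, ∀ z : ℍ, E1 z = κ + E2 z := by
  have ho : IsOpen {z : ℂ | 0 < z.im} := isOpen_lt continuous_const Complex.continuous_im
  have hp : IsPreconnected {z : ℂ | 0 < z.im} := (convex_halfSpace_im_gt 0).isPreconnected
  obtain ⟨κ, hκ⟩ := ho.exists_eq_add_of_deriv_eq (f := E1) (g := E2) hp
    (fun z hz => (h1 ⟨z, hz⟩).differentiableAt.differentiableWithinAt)
    (fun z hz => (h2 ⟨z, hz⟩).differentiableAt.differentiableWithinAt)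
    (fun z hz => (h1 ⟨z, hz⟩).deriv.trans (h2 ⟨z, hz⟩).deriv.symm)
  exact ⟨κ, fun z => by rw [add_comm]; exact hκ z.im_pos⟩

/-- chain rule: `E ∘ σ` is a primitive of `g ∣ σ` -/
lemma prim_comp {E : ℂ → ℂ} {g : ℍ → ℂ} (h : ∀ z : ℍ, HasDerivAt E (g z) z) (σ : SL(2, ℤ))
    (z : ℍ) : HasDerivAt (fun w : ℂ => E ((σ • ofComplex w : ℍ) : ℂ)) ((g ∣[(2 : ℤ)] σ) z) z := by
  have hdet : (σ : GL (Fin 2) ℝ).val.det = 1 :=
    (Matrix.SpecialLinearGroup.map (Int.castRingHom ℝ) σ).det_coe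
  have h1 := (hasStrictDerivAt_smul (g := (σ : GL (Fin 2) ℝ)) (hdet ▸ one_pos) z).hasDerivAt
  have h2 : HasDerivAt E (g (σ • z)) ((fun w : ℂ =>
      (((σ : GL (Fin 2) ℝ) • ofComplex w : ℍ) : ℂ)) z) := by
    simpa only [ofComplex_apply, ModularGroup.sl_moeb] using h (σ • z)
  have h3 := h2.comp (z : ℂ) h1
  have e : denom σ z ^ (-(2 : ℤ)) = ((1 : ℝ) : ℂ) / denom σ z ^ 2 := by
    rw [zpow_neg, ofReal_one, one_div, zpow_ofNat]
  rw [SL_slash_apply, e, ← hdet]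
  exact h3

/-- the value of `E` at the cusp `σ ∞` -/
lemma exists_kappa (f : CuspForm (Gamma1 M) 2) {E : ℂ → ℂ} (hE : IsEich f E) (σ : SL(2, ℤ)) :
    ∃ (κ : ℂ) (E' : ℂ → ℂ), IsEich (⇑f ∣[(2 : ℤ)] σ) E' ∧
      ∀ z : ℍ, E ((σ • z : ℍ) : ℂ) = κ + E' z := by
  obtain ⟨E', h1, h2⟩ := slash_prim f σ
  obtain ⟨κ, hκ⟩ := prim_const (prim_comp hE.1 σ) h1
  exact ⟨κ, E', ⟨h1, h2⟩, fun z => by simpa only [ofComplex_apply] using hκ z⟩

/-- every rational number is the image of infinity -/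
lemma exists_sl (r : ℚ) : ∃ σ : SL(2, ℤ), σ 1 0 ≠ 0 ∧ r = (σ 0 0 : ℚ) / (σ 1 0 : ℚ) := by
  have hc : IsCoprime r.num (r.den : ℤ) := by
    rw [Int.isCoprime_iff_gcd_eq_one]
    exact r.reduced
  obtain ⟨u, v, huv⟩ := hc
  refine ⟨⟨!![r.num, -v; (r.den : ℤ), u], ?_⟩, ?_, ?_⟩
  · rw [Matrix.det_fin_two_of]
    linear_combination huv
  · simp
  · simp [Rat.num_div_den]

/-- the vertical line at `a / c` pulled back by `σ` -/
lemma vert_eq (σ : SL(2, ℤ)) (hc : σ 1 0 ≠ 0) {y : ℝ} (hy : 0 < y) :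
    ∃ w : ℍ, w.im = 1 / ((σ 1 0 : ℝ) ^ 2 * y) ∧
      denom σ w = Complex.I / ((σ 1 0 : ℂ) * y) ∧
      σ • w = ofComplex ((((σ 0 0 : ℚ) / (σ 1 0 : ℚ) : ℚ) : ℂ) + (y : ℂ) * Complex.I) := by
  have hcR : (σ 1 0 : ℝ) ≠ 0 := by exact_mod_cast hc
  have hcC : (σ 1 0 : ℂ) ≠ 0 := by exact_mod_cast hc
  have hyC : (y : ℂ) ≠ 0 := by exact_mod_cast hy.ne'
  have hdet : (σ 0 0 : ℂ) * σ 1 1 - σ 0 1 * σ 1 0 = 1 := by
    have := σ.det_coe
    rw [Matrix.det_fin_two] at this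
    exact_mod_cast this
  have hpos : 0 < 1 / ((σ 1 0 : ℝ) ^ 2 * y) := by positivity
  let w : ℍ := ⟨((-(σ 1 1 : ℝ) / (σ 1 0 : ℝ) : ℝ) : ℂ) +
    ((1 / ((σ 1 0 : ℝ) ^ 2 * y) : ℝ) : ℂ) * Complex.I, by
      simpa only [add_im, ofReal_im, mul_im, ofReal_re, Complex.I_im, Complex.I_re, mul_one,
        mul_zero, add_zero, zero_add] using hpos⟩
  have hw : (w : ℂ) = -(σ 1 1 : ℂ) / (σ 1 0 : ℂ) + 1 / ((σ 1 0 : ℂ) ^ 2 * y) * Complex.I := by
    simp only [w]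
    push_cast
    rfl
  have hd : (σ 1 0 : ℂ) * w + σ 1 1 = Complex.I / ((σ 1 0 : ℂ) * y) := by
    rw [hw]
    field_simp
    ring
  refine ⟨w, ?_, ?_, ?_⟩
  · change (w : ℂ).im = _
    simp only [w, add_im, ofReal_im, mul_im, ofReal_re, Complex.I_im, Complex.I_re, mul_one,
      mul_zero, add_zero, zero_add]
  · rw [ModularGroup.denom_apply]
    exact hd
  · rw [ofComplex_apply_of_im_pos (by simpa using hy)]
    ext
    rw [coe_specialLinearGroup_apply]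
    simp only [eq_intCast, ofReal_intCast]
    rw [hd, hw]
    push_cast
    field_simp
    linear_combination (-(σ 1 0 : ℂ) * y) * hdet - ((σ 1 0 : ℂ) * y) * Complex.I_mul_I

end Pool.Agent.P.MP_20768c_nt
end

-- part Pool.Agent.P.MP_20768c_nt.An3
section

open Complex UpperHalfPlane Filter Topology CongruenceSubgroup ModularForm Asymptotics
open scoped MatrixGroups

namespace Pool.Agent.P.MP_20768c_nt

variable {M : ℕ} [NeZero M]

lemma an3_im (r : ℚ) (y : ℝ) : ((r : ℂ) + (y : ℂ) * Complex.I).im = y := by simp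

lemma an3_coe (r : ℚ) {y : ℝ} (hy : 0 < y) :
    ((ofComplex ((r : ℂ) + (y : ℂ) * Complex.I) : ℍ) : ℂ) = (r : ℂ) + (y : ℂ) * Complex.I := by
  rw [ofComplex_apply_of_im_pos (by rw [an3_im]; exact hy)]

lemma an3_top (r : ℚ) :
    Tendsto (fun y : ℝ => ofComplex ((r : ℂ) + (y : ℂ) * Complex.I)) atTop atImInfty := by
  rw [atImInfty, tendsto_comap_iff]
  refine tendsto_id.congr' ?_
  filter_upwards [eventually_gt_atTop 0] with y hy
  simp only [Function.comp, id]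
  rw [← coe_im, an3_coe r hy, an3_im]

lemma an3_inv {c : ℝ} (hc : c ≠ 0) :
    Tendsto (fun y : ℝ => 1 / (c ^ 2 * y)) (𝓝[>] 0) atTop := by
  have h : Tendsto (fun y : ℝ => (c ^ 2)⁻¹ * y⁻¹) (𝓝[>] 0) atTop :=
    tendsto_inv_nhdsGT_zero.const_mul_atTop (by positivity)
  refine h.congr fun y => ?_
  rw [one_div, mul_inv]

lemma an3_w (σ : SL(2, ℤ)) (hc : σ 1 0 ≠ 0) :
    ∃ w : ℝ → ℍ, Tendsto w (𝓝[>] 0) atImInfty ∧ ∀ y : ℝ, 0 < y →
      (w y).im = 1 / ((σ 1 0 : ℝ) ^ 2 * y) ∧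
      denom σ (w y) = Complex.I / ((σ 1 0 : ℂ) * y) ∧
      σ • w y = ofComplex ((((σ 0 0 : ℚ) / (σ 1 0 : ℚ) : ℚ) : ℂ) + (y : ℂ) * Complex.I) := by
  have h : ∀ y : ℝ, ∃ w : ℍ, 0 < y → (w.im = 1 / ((σ 1 0 : ℝ) ^ 2 * y) ∧
      denom σ w = Complex.I / ((σ 1 0 : ℂ) * y) ∧
      σ • w = ofComplex ((((σ 0 0 : ℚ) / (σ 1 0 : ℚ) : ℚ) : ℂ) + (y : ℂ) * Complex.I)) := by
    intro y
    by_cases hy : 0 < y
    · obtain ⟨w, hw⟩ := vert_eq σ hc hy
      exact ⟨w, fun _ => hw⟩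
    · exact ⟨UpperHalfPlane.I, fun h => absurd h hy⟩
  choose w hw using h
  refine ⟨w, ?_, hw⟩
  rw [atImInfty, tendsto_comap_iff]
  refine (an3_inv (c := (σ 1 0 : ℝ)) (by exact_mod_cast hc)).congr' ?_
  filter_upwards [self_mem_nhdsWithin] with y hy
  exact ((hw y hy).1).symm

lemma an3_zero (f : CuspForm (Gamma1 M) 2) (r : ℚ) :
    Tendsto (fun y : ℝ => f (ofComplex ((r : ℂ) + (y : ℂ) * Complex.I))) (𝓝[>] 0) (𝓝 0) := by
  obtain ⟨σ, hc, rfl⟩ := exists_sl r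
  obtain ⟨w, hw, h⟩ := an3_w σ hc
  obtain ⟨c, hc0, hO⟩ := slash_decay f σ
  have hcR : (σ 1 0 : ℝ) ≠ 0 := by exact_mod_cast hc
  have h1 := hO.comp_tendsto hw
  have h2 : (fun y : ℝ => denom σ (w y) ^ 2) =O[𝓝[>] 0] fun y : ℝ => (w y).im ^ 2 := by
    refine IsBigO.of_bound ((σ 1 0 : ℝ) ^ 2) ?_
    filter_upwards [self_mem_nhdsWithin] with y hy
    have hy' : (0 : ℝ) < y := hy
    rw [(h y hy').1, (h y hy').2.1, norm_pow, norm_div, norm_mul, Complex.norm_I,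
      Complex.norm_intCast, Complex.norm_real, Real.norm_eq_abs, Real.norm_eq_abs,
      abs_of_pos hy', abs_sq, div_pow, mul_pow, sq_abs]
    apply le_of_eq
    field_simp
  have h3 : Tendsto (fun t : ℝ => Real.exp (-c * t) * t ^ 2) atTop (𝓝 0) := by
    have h4 := (Real.tendsto_pow_mul_exp_neg_atTop_nhds_zero 2).comp
      (tendsto_id.const_mul_atTop hc0)
    have h5 := h4.const_mul (c ^ 2)⁻¹
    rw [mul_zero] at h5
    refine h5.congr fun t => ?_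
    simp only [Function.comp, id, neg_mul]
    field_simp
  have h6 : Tendsto (fun y : ℝ => (w y).im) (𝓝[>] 0) atTop := by
    have := hw
    rw [atImInfty, tendsto_comap_iff] at this
    exact this
  refine ((h1.mul h2).trans_tendsto (h3.comp h6)).congr' ?_
  filter_upwards [self_mem_nhdsWithin] with y hy
  have hy' : (0 : ℝ) < y := hy
  simp only [Function.comp]
  rw [SL_slash_apply, (h y hy').2.2, mul_assoc]
  have hd : denom σ (w y) ≠ 0 := denom_ne_zero _ _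
  have : denom σ (w y) ^ (-(2 : ℤ)) * denom σ (w y) ^ 2 = 1 := by
    rw [zpow_neg, zpow_ofNat, inv_mul_cancel₀ (pow_ne_zero 2 hd)]
  rw [this, mul_one]

omit [NeZero M] in
lemma an3_cont (f : CuspForm (Gamma1 M) 2) (r : ℚ) {y : ℝ} (hy : 0 < y) :
    ContinuousAt (fun y : ℝ => f (ofComplex ((r : ℂ) + (y : ℂ) * Complex.I))) y := by
  have h1 : DifferentiableOn ℂ (⇑f ∘ ofComplex) {z | 0 < z.im} :=
    UpperHalfPlane.mdifferentiable_iff.1 f.holo'
  have h2 : ContinuousAt (⇑f ∘ ofComplex) ((r : ℂ) + (y : ℂ) * Complex.I) :=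
    (h1.differentiableAt ((isOpen_lt continuous_const Complex.continuous_im).mem_nhds
      (by simpa using hy))).continuousAt
  exact ContinuousAt.comp (f := fun y : ℝ => (r : ℂ) + (y : ℂ) * Complex.I) h2 (by fun_prop)

lemma an3_ext {φ : ℝ → ℂ} {κ : ℂ} (h : Tendsto φ (𝓝[>] 0) (𝓝 κ)) :
    ContinuousWithinAt (fun y : ℝ => if 0 < y then φ y else κ) (Set.Ici 0) 0 := by
  rw [← continuousWithinAt_Ioi_iff_Ici, ContinuousWithinAt, if_neg (lt_irrefl _)]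
  refine h.congr' ?_
  filter_upwards [self_mem_nhdsWithin] with y hy
  rw [if_pos (show 0 < y from hy)]

theorem sym_int (f : CuspForm (Gamma1 M) 2) (r : ℚ) :
    MeasureTheory.IntegrableOn (fun y : ℝ => f (ofComplex ((r : ℂ) + (y : ℂ) * Complex.I)))
      (Set.Ioi 0) := by
  obtain ⟨c, hc, hO⟩ := slash_decay f 1
  rw [SlashAction.slash_one] at hO
  set F : ℝ → ℂ := fun y : ℝ => f (ofComplex ((r : ℂ) + (y : ℂ) * Complex.I)) with hF
  have hG : ContinuousOn (fun y : ℝ => if 0 < y then F y else 0) (Set.Ici 0) := by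
    intro y hy
    rcases eq_or_lt_of_le (show 0 ≤ y from hy) with rfl | hy'
    · exact an3_ext (an3_zero f r)
    · refine ((an3_cont f r hy').congr ?_).continuousWithinAt
      filter_upwards [lt_mem_nhds hy'] with t ht
      rw [if_pos ht]
  have hB : (fun y : ℝ => if 0 < y then F y else 0) =O[atTop] fun y : ℝ => Real.exp (-c * y) := by
    refine (hO.comp_tendsto (an3_top r)).congr' ?_ ?_
    · filter_upwards [eventually_gt_atTop 0] with y hy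
      rw [if_pos hy]; rfl
    · filter_upwards [eventually_gt_atTop 0] with y hy
      simp only [Function.comp]
      rw [← coe_im, an3_coe r hy, an3_im]
  have h1 := integrable_of_isBigO_exp_neg hc hG.norm hB.norm_left
  have h2 : MeasureTheory.IntegrableOn (fun y : ℝ => if 0 < y then F y else 0) (Set.Ioi 0) :=
    (MeasureTheory.integrable_norm_iff
      ((hG.mono Set.Ioi_subset_Ici_self).aestronglyMeasurable measurableSet_Ioi)).1 h1
  exact h2.congr_fun (fun y hy => if_pos hy) measurableSet_Ioi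

/-- the modular symbol is the value of the Eichler integral at the cusp -/
theorem sym_eq (f : CuspForm (Gamma1 M) 2) {E : ℂ → ℂ} (hE : IsEich f E) (σ : SL(2, ℤ))
    (hc : σ 1 0 ≠ 0) {κ : ℂ} (hκ : Tendsto (fun z : ℍ => E ((σ • z : ℍ) : ℂ)) atImInfty (𝓝 κ)) :
    sym f ((σ 0 0 : ℚ) / (σ 1 0 : ℚ)) = 2 * Real.pi * Complex.I * κ := by
  obtain ⟨w, hw, h⟩ := an3_w σ hc
  set r : ℚ := (σ 0 0 : ℚ) / (σ 1 0 : ℚ) with hr
  have h0 : Tendsto (fun y : ℝ => E ((r : ℂ) + (y : ℂ) * Complex.I)) (𝓝[>] 0) (𝓝 κ) := by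
    refine (hκ.comp hw).congr' ?_
    filter_upwards [self_mem_nhdsWithin] with y hy
    simp only [Function.comp]
    rw [(h y hy).2.2, an3_coe r hy]
  have hd : ∀ y ∈ Set.Ioi (0 : ℝ), HasDerivAt
      (fun y : ℝ => if 0 < y then E ((r : ℂ) + (y : ℂ) * Complex.I) else κ)
      (Complex.I * f (ofComplex ((r : ℂ) + (y : ℂ) * Complex.I))) y := by
    intro y hy
    have h1 := hE.1 (ofComplex ((r : ℂ) + (y : ℂ) * Complex.I))
    rw [an3_coe r hy] at h1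
    have h2 : HasDerivAt (fun z : ℂ => (r : ℂ) + z * Complex.I) Complex.I (y : ℂ) := by
      simpa using ((hasDerivAt_id (y : ℂ)).mul_const Complex.I).const_add (r : ℂ)
    have h3 := (HasDerivAt.comp (y : ℂ) (h₂ := E) h1 h2).comp_ofReal
    rw [mul_comm] at h3
    refine h3.congr_of_eventuallyEq ?_
    filter_upwards [lt_mem_nhds (show 0 < y from hy)] with t ht
    rw [if_pos ht]; rfl
  have ht : Tendsto (fun y : ℝ => if 0 < y then E ((r : ℂ) + (y : ℂ) * Complex.I) else κ)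
      atTop (𝓝 0) := by
    refine (hE.2.comp (an3_top r)).congr' ?_
    filter_upwards [eventually_gt_atTop 0] with y hy
    simp only [Function.comp]
    rw [if_pos hy, an3_coe r hy]
  have hI := MeasureTheory.integral_Ioi_of_hasDerivAt_of_tendsto (an3_ext h0) hd
    ((sym_int f r).const_mul Complex.I) ht
  rw [MeasureTheory.integral_const_mul, if_neg (lt_irrefl _)] at hI
  unfold sym
  have hI2 : Complex.I * Complex.I = -1 := Complex.I_mul_I
  linear_combination (-2 * (Real.pi : ℂ) * Complex.I) * hI +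
    (2 * (Real.pi : ℂ) * ∫ y in Set.Ioi (0 : ℝ),
      f (ofComplex ((r : ℂ) + (y : ℂ) * Complex.I))) * hI2

end Pool.Agent.P.MP_20768c_nt
end

-- part Pool.Agent.P.MP_20768c_nt.Grp
section

namespace Pool.Agent.P.MP_20768c_nt

/-- `SL(2,ℚ)` in coordinates. -/
@[ext] structure M2 where
  a : ℚ
  b : ℚ
  c : ℚ
  d : ℚ
  det : a * d - b * c = 1

namespace M2

instance : Mul M2 := ⟨fun g h => ⟨g.a * h.a + g.b * h.c, g.a * h.b + g.b * h.d,
  g.c * h.a + g.d * h.c, g.c * h.b + g.d * h.d, by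
    have h1 := g.det
    have h2 := h.det
    linear_combination (h.a * h.d - h.b * h.c) * h1 + h2⟩⟩
instance : One M2 := ⟨⟨1, 0, 0, 1, by norm_num⟩⟩
instance : Inv M2 := ⟨fun g => ⟨g.d, -g.b, -g.c, g.a, by
  have h1 := g.det
  linear_combination h1⟩⟩

@[simp] lemma mul_a (g h : M2) : (g * h).a = g.a * h.a + g.b * h.c := rfl
@[simp] lemma mul_b (g h : M2) : (g * h).b = g.a * h.b + g.b * h.d := rfl
@[simp] lemma mul_c (g h : M2) : (g * h).c = g.c * h.a + g.d * h.c := rfl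
@[simp] lemma mul_d (g h : M2) : (g * h).d = g.c * h.b + g.d * h.d := rfl
@[simp] lemma one_a : (1 : M2).a = 1 := rfl
@[simp] lemma one_b : (1 : M2).b = 0 := rfl
@[simp] lemma one_c : (1 : M2).c = 0 := rfl
@[simp] lemma one_d : (1 : M2).d = 1 := rfl
@[simp] lemma inv_a (g : M2) : g⁻¹.a = g.d := rfl
@[simp] lemma inv_b (g : M2) : g⁻¹.b = -g.b := rfl
@[simp] lemma inv_c (g : M2) : g⁻¹.c = -g.c := rfl
@[simp] lemma inv_d (g : M2) : g⁻¹.d = g.a := rfl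

instance : Group M2 where
  mul_assoc g h k := by ext <;> simp <;> ring
  one_mul g := by ext <;> simp
  mul_one g := by ext <;> simp
  inv_mul_cancel g := by
    have h1 := g.det
    ext <;> simp <;> linarith

/-- upper unipotent -/
def e (t : ℚ) : M2 := ⟨1, t, 0, 1, by ring⟩
/-- lower unipotent -/
def l (t : ℚ) : M2 := ⟨1, 0, t, 1, by ring⟩
/-- `diag (u, 1/u)` -/
def D (u : ℚ) (hu : u ≠ 0) : M2 := ⟨u, 0, 0, u⁻¹, by simp [hu]⟩
/-- conjugation by `diag (1, v)` -/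
def dl (v : ℚ) (hv : v ≠ 0) (g : M2) : M2 := ⟨g.a, g.b / v, v * g.c, g.d, by
  have h1 := g.det
  field_simp
  linarith⟩

@[simp] lemma e_a (t : ℚ) : (e t).a = 1 := rfl
@[simp] lemma e_b (t : ℚ) : (e t).b = t := rfl
@[simp] lemma e_c (t : ℚ) : (e t).c = 0 := rfl
@[simp] lemma e_d (t : ℚ) : (e t).d = 1 := rfl
@[simp] lemma l_a (t : ℚ) : (l t).a = 1 := rfl
@[simp] lemma l_b (t : ℚ) : (l t).b = 0 := rfl
@[simp] lemma l_c (t : ℚ) : (l t).c = t := rfl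
@[simp] lemma l_d (t : ℚ) : (l t).d = 1 := rfl
@[simp] lemma D_a (u : ℚ) (hu : u ≠ 0) : (D u hu).a = u := rfl
@[simp] lemma D_b (u : ℚ) (hu : u ≠ 0) : (D u hu).b = 0 := rfl
@[simp] lemma D_c (u : ℚ) (hu : u ≠ 0) : (D u hu).c = 0 := rfl
@[simp] lemma D_d (u : ℚ) (hu : u ≠ 0) : (D u hu).d = u⁻¹ := rfl
@[simp] lemma dl_a (v : ℚ) (hv : v ≠ 0) (g : M2) : (dl v hv g).a = g.a := rfl
@[simp] lemma dl_b (v : ℚ) (hv : v ≠ 0) (g : M2) : (dl v hv g).b = g.b / v := rfl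
@[simp] lemma dl_c (v : ℚ) (hv : v ≠ 0) (g : M2) : (dl v hv g).c = v * g.c := rfl
@[simp] lemma dl_d (v : ℚ) (hv : v ≠ 0) (g : M2) : (dl v hv g).d = g.d := rfl

lemma e_add (s t : ℚ) : e (s + t) = e s * e t := by ext <;> simp [add_comm]
lemma l_add (s t : ℚ) : l (s + t) = l s * l t := by ext <;> simp
lemma e_zero : e 0 = 1 := by ext <;> simp
lemma l_zero : l 0 = 1 := by ext <;> simp
lemma e_neg (t : ℚ) : e (-t) = (e t)⁻¹ := by ext <;> simp
lemma l_neg (t : ℚ) : l (-t) = (l t)⁻¹ := by ext <;> simp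
lemma e_pow (t : ℚ) (n : ℕ) : e t ^ n = e (n * t) := by
  induction n with
  | zero => simp [e_zero]
  | succ n ih => rw [pow_succ, ih, ← e_add]; congr 1; push_cast; ring
lemma l_pow (t : ℚ) (n : ℕ) : l t ^ n = l (n * t) := by
  induction n with
  | zero => simp [l_zero]
  | succ n ih => rw [pow_succ, ih, ← l_add]; congr 1; push_cast; ring
lemma dl_mul (v : ℚ) (hv : v ≠ 0) (g h : M2) : dl v hv (g * h) = dl v hv g * dl v hv h := by
  ext <;> simp <;> field_simp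
lemma dl_e (v : ℚ) (hv : v ≠ 0) (t : ℚ) : dl v hv (e t) = e (t / v) := by ext <;> simp
lemma dl_l (v : ℚ) (hv : v ≠ 0) (t : ℚ) : dl v hv (l t) = l (v * t) := by ext <;> simp

end M2

/-- `x` lies in `m ℤ[1/p]`. -/
def RM (p : ℕ) (m : ℤ) (x : ℚ) : Prop := ∃ (k : ℕ) (z : ℤ), x * (p : ℚ) ^ k = m * z

namespace RM
variable {p : ℕ} {m m' : ℤ} {x y : ℚ}

lemma int_mul (p : ℕ) (m z : ℤ) : RM p m ((m : ℚ) * z) := ⟨0, z, by simp⟩
lemma of_dvd (p : ℕ) {z : ℤ} (h : m ∣ z) : RM p m (z : ℚ) := by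
  obtain ⟨w, rfl⟩ := h
  exact ⟨0, w, by simp⟩
lemma int (p : ℕ) (z : ℤ) : RM p 1 (z : ℚ) := of_dvd p (one_dvd z)
lemma zero (p : ℕ) (m : ℤ) : RM p m 0 := ⟨0, 0, by simp⟩
lemma one (p : ℕ) : RM p 1 1 := ⟨0, 1, by simp⟩
lemma add (hx : RM p m x) (hy : RM p m y) : RM p m (x + y) := by
  obtain ⟨k, z, h⟩ := hx
  obtain ⟨j, w, h'⟩ := hy
  refine ⟨k + j, z * p ^ j + w * p ^ k, ?_⟩
  push_cast
  rw [pow_add]
  linear_combination (p : ℚ) ^ j * h + (p : ℚ) ^ k * h'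
lemma neg (hx : RM p m x) : RM p m (-x) := by
  obtain ⟨k, z, h⟩ := hx
  refine ⟨k, -z, ?_⟩
  push_cast
  linear_combination -h
lemma sub (hx : RM p m x) (hy : RM p m y) : RM p m (x - y) := by
  rw [sub_eq_add_neg]; exact hx.add hy.neg
lemma mul (hx : RM p m x) (hy : RM p m' y) : RM p (m * m') (x * y) := by
  obtain ⟨k, z, h⟩ := hx
  obtain ⟨j, w, h'⟩ := hy
  refine ⟨k + j, z * w, ?_⟩
  push_cast
  rw [pow_add]
  linear_combination (y * (p : ℚ) ^ j) * h + (m * z : ℚ) * h'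
lemma mul_r (hx : RM p m x) (hy : RM p 1 y) : RM p m (x * y) := by simpa using hx.mul hy
lemma mul_l (hx : RM p 1 x) (hy : RM p m y) : RM p m (x * y) := by simpa using hx.mul hy
lemma mono (h : m' ∣ m) (hx : RM p m x) : RM p m' x := by
  obtain ⟨k, z, hz⟩ := hx
  obtain ⟨w, rfl⟩ := h
  refine ⟨k, w * z, ?_⟩
  push_cast at hz ⊢
  linear_combination hz
lemma to_one (hx : RM p m x) : RM p 1 x := hx.mono (one_dvd m)
lemma of_sub_one (hx : RM p m (x - 1)) : RM p 1 x := by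
  simpa using hx.to_one.add (one p)
lemma zpow (hp : p ≠ 0) (i : ℤ) : RM p 1 ((p : ℚ) ^ i) := by
  have hp' : (p : ℚ) ≠ 0 := by exact_mod_cast hp
  obtain ⟨n, rfl | rfl⟩ := i.eq_nat_or_neg
  · exact ⟨0, p ^ n, by simp⟩
  · exact ⟨n, 1, by simp [hp']⟩
lemma pow (p n : ℕ) : RM p 1 ((p : ℚ) ^ n) := ⟨0, p ^ n, by simp⟩
lemma inv_pow (hp : p ≠ 0) (n : ℕ) : RM p 1 (((p : ℚ) ^ n)⁻¹) := by
  simpa using zpow hp (-(n : ℤ))
lemma div_pow (hp : p ≠ 0) (hx : RM p m x) (n : ℕ) : RM p m (x / (p : ℚ) ^ n) := by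
  rw [div_eq_mul_inv]; exact hx.mul_r (inv_pow hp n)
/-- division by the modulus -/
lemma div_self (hm : m ≠ 0) (hx : RM p m x) : RM p 1 (x / m) := by
  obtain ⟨k, z, h⟩ := hx
  have hm' : (m : ℚ) ≠ 0 := by exact_mod_cast hm
  refine ⟨k, z, ?_⟩
  field_simp
  push_cast
  linear_combination h
/-- an integer in `m ℤ[1/p]` is a multiple of `m` when `m` is prime to `p` -/
lemma dvd_of_int {z : ℤ} (hm : IsCoprime m (p : ℤ)) (h : RM p m (z : ℚ)) : m ∣ z := by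
  obtain ⟨k, w, hw⟩ := h
  have h1 : z * (p : ℤ) ^ k = m * w := by exact_mod_cast hw
  exact (hm.pow_right (n := k)).dvd_of_dvd_mul_right ⟨w, h1⟩

end RM

/-- The matrices over `ℤ[1/p]` with `a ≡ d ≡ 1`, `c ≡ 0` mod `N` and `b ≡ 0` mod `B`. -/
def Gam (p : ℕ) (N B : ℤ) : Subgroup M2 where
  carrier := {g | RM p N (g.a - 1) ∧ RM p B g.b ∧ RM p N g.c ∧ RM p N (g.d - 1)}
  one_mem' := by simp [RM.zero]
  mul_mem' := by
    rintro g h ⟨a1, b1, c1, d1⟩ ⟨a2, b2, c2, d2⟩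
    refine ⟨?_, ?_, ?_, ?_⟩
    · have : (g * h).a - 1 = (g.a - 1) * h.a + (h.a - 1) + g.b * h.c := by simp; ring
      rw [this]
      exact ((a1.mul_r a2.of_sub_one).add a2).add (b1.to_one.mul_l c2)
    · exact (a1.of_sub_one.mul_l b2).add (b1.mul_r d2.of_sub_one)
    · exact (c1.mul_r a2.of_sub_one).add (d1.of_sub_one.mul_l c2)
    · have : (g * h).d - 1 = g.c * h.b + ((g.d - 1) * h.d + (h.d - 1)) := by simp; ring
      rw [this]
      exact (c1.mul_r b2.to_one).add ((d1.mul_r d2.of_sub_one).add d2)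
  inv_mem' := by
    rintro g ⟨a1, b1, c1, d1⟩
    exact ⟨d1, b1.neg, c1.neg, a1⟩

lemma mem_Gam {p : ℕ} {N B : ℤ} {g : M2} :
    g ∈ Gam p N B ↔ RM p N (g.a - 1) ∧ RM p B g.b ∧ RM p N g.c ∧ RM p N (g.d - 1) := Iff.rfl

lemma Gam_mono {p : ℕ} {N B N' B' : ℤ} (hN : N ∣ N') (hB : B ∣ B') : Gam p N' B' ≤ Gam p N B := by
  rintro g ⟨a1, b1, c1, d1⟩
  exact ⟨a1.mono hN, b1.mono hB, c1.mono hN, d1.mono hN⟩

lemma e_mem {p : ℕ} {N B : ℤ} {t : ℚ} (ht : RM p B t) : M2.e t ∈ Gam p N B := by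
  simp [mem_Gam, RM.zero, ht]

lemma l_mem {p : ℕ} {N B : ℤ} {t : ℚ} (ht : RM p N t) : M2.l t ∈ Gam p N B := by
  simp [mem_Gam, RM.zero, ht]

lemma dl_mem {p : ℕ} (hp : p ≠ 0) {N B : ℤ} (i : ℤ) (hv : (p : ℚ) ^ i ≠ 0) {g : M2}
    (hg : g ∈ Gam p N B) : M2.dl ((p : ℚ) ^ i) hv g ∈ Gam p N B := by
  obtain ⟨a1, b1, c1, d1⟩ := hg
  refine ⟨a1, ?_, (RM.zpow hp i).mul_l c1, d1⟩
  rw [M2.dl_b, div_eq_mul_inv, ← zpow_neg]
  exact b1.mul_r (RM.zpow hp _)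

/-- `g` is an integer matrix in `Γ₁(M)`. -/
def Int1 (M : ℤ) (g : M2) : Prop :=
  ∃ a b c d : ℤ, g.a = a ∧ g.b = b ∧ g.c = c ∧ g.d = d ∧ M ∣ c ∧ M ∣ d - 1

lemma Int1.mem {p : ℕ} {N M : ℤ} (h : N ∣ M) {g : M2} (hg : Int1 M g) : g ∈ Gam p N 1 := by
  obtain ⟨a, b, c, d, ha, hb, hc, hd, h1, h2⟩ := hg
  have hdet := g.det
  rw [ha, hb, hc, hd] at hdet
  have hdet' : a * d - b * c = 1 := by exact_mod_cast hdet
  have h3 : M ∣ a - 1 := by
    have : a - 1 = b * c - a * (d - 1) := by linear_combination hdet'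
    rw [this]
    exact (h1.mul_left b).sub (h2.mul_left a)
  refine ⟨?_, ?_, ?_, ?_⟩
  · rw [ha]; exact_mod_cast RM.of_dvd p (h.trans h3)
  · rw [hb]; exact RM.int p b
  · rw [hc]; exact RM.of_dvd p (h.trans h1)
  · rw [hd]; exact_mod_cast RM.of_dvd p (h.trans h2)

/-- `χ` is additive on `H`. -/
def IsHom {A : Type*} [AddCommGroup A] (H : Subgroup M2) (χ : M2 → A) : Prop :=
  ∀ g ∈ H, ∀ h ∈ H, χ (g * h) = χ g + χ h

namespace IsHom
variable {A : Type*} [AddCommGroup A] {H H' : Subgroup M2} {χ : M2 → A}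

lemma mono (h : IsHom H χ) (hle : H' ≤ H) : IsHom H' χ :=
  fun g hg k hk => h g (hle hg) k (hle hk)
lemma one (h : IsHom H χ) : χ 1 = 0 := by
  have := h 1 H.one_mem 1 H.one_mem
  simpa using this
lemma inv (h : IsHom H χ) {g : M2} (hg : g ∈ H) : χ g⁻¹ = -χ g := by
  have := h g⁻¹ (H.inv_mem hg) g hg
  rw [inv_mul_cancel, h.one] at this
  exact eq_neg_of_add_eq_zero_left this.symm
lemma pow (h : IsHom H χ) {g : M2} (hg : g ∈ H) (n : ℕ) : χ (g ^ n) = n • χ g := by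
  induction n with
  | zero => simp [h.one]
  | succ n ih => rw [pow_succ, h _ (H.pow_mem hg n) _ hg, ih, succ_nsmul]

end IsHom

section unip
variable {A : Type*} [AddCommGroup A] {p k : ℕ} {N B : ℤ} {χ : M2 → A}

/-- C2: unipotent elements are `p`-divisible. -/
lemma hom_e (hp : p ≠ 0) (h : IsHom (Gam p N B) χ) (hk : ∀ g ∈ Gam p N B, p ^ k • χ g = 0)
    {t : ℚ} (ht : RM p B t) : χ (M2.e t) = 0 := by
  have hp' : (p : ℚ) ≠ 0 := by exact_mod_cast hp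
  have hm : M2.e (t / (p : ℚ) ^ k) ∈ Gam p N B := e_mem (ht.div_pow hp k)
  have : M2.e t = M2.e (t / (p : ℚ) ^ k) ^ (p ^ k) := by
    rw [M2.e_pow]; congr 1; push_cast; field_simp
  rw [this, h.pow hm, hk _ hm]

lemma hom_l (hp : p ≠ 0) (h : IsHom (Gam p N B) χ) (hk : ∀ g ∈ Gam p N B, p ^ k • χ g = 0)
    {t : ℚ} (ht : RM p N t) : χ (M2.l t) = 0 := by
  have hp' : (p : ℚ) ≠ 0 := by exact_mod_cast hp
  have hm : M2.l (t / (p : ℚ) ^ k) ∈ Gam p N B := l_mem (ht.div_pow hp k)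
  have : M2.l t = M2.l (t / (p : ℚ) ^ k) ^ (p ^ k) := by
    rw [M2.l_pow]; congr 1; push_cast; field_simp
  rw [this, h.pow hm, hk _ hm]

end unip

end Pool.Agent.P.MP_20768c_nt
end

-- part Pool.Agent.P.MP_20768c_nt.RA
section

namespace Pool.Agent.P.MP_20768c_nt

/-- a nonzero element of `ℤ[1/p]` is an integer prime to `p` times a power of `p` -/
lemma RM.strip {p : ℕ} (hp : p.Prime) {x : ℚ} (hx0 : x ≠ 0) (hx : RM p 1 x) :
    ∃ (C : ℤ) (i : ℤ), C ≠ 0 ∧ IsCoprime C (p : ℤ) ∧ x = C * (p : ℚ) ^ i := by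
  obtain ⟨k, z, h⟩ := hx
  have hp' : (p : ℚ) ≠ 0 := by exact_mod_cast hp.ne_zero
  have hz : z ≠ 0 := by
    rintro rfl
    simp [hx0, hp'] at h
  have hq := (Nat.prime_iff_prime_int.1 hp).irreducible
  obtain ⟨n, C, h1, rfl⟩ := WfDvdMonoid.max_power_factor hz hq
  refine ⟨C, (n : ℤ) - k, right_ne_zero_of_mul hz, (hq.coprime_iff_not_dvd.2 h1).symm, ?_⟩
  rw [zpow_sub₀ hp', zpow_natCast, zpow_natCast, ← mul_div_assoc, eq_div_iff (pow_ne_zero _ hp'), h]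
  push_cast
  ring

/-- `ℤ[1/p] = ℤ + C ℤ[1/p]`, with a prescribed residue mod `p ^ r` -/
lemma RM.cong_int {p : ℕ} (hp : p.Prime) {C : ℤ} (hC : IsCoprime C (p : ℤ)) {t : ℚ}
    (ht : RM p 1 t) (r : ℕ) (ρ : ℤ) : ∃ z : ℤ, RM p C (t - z) ∧ (p : ℤ) ^ r ∣ z - ρ := by
  obtain ⟨k, w, h⟩ := ht
  obtain ⟨u, v, h1⟩ := hC.pow_right (n := k)
  obtain ⟨u', v', h2⟩ := hC.pow_right (n := r)
  refine ⟨v * w + C * (u' * (ρ - v * w)), ⟨k, u * w - u' * (ρ - v * w) * p ^ k, ?_⟩,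
    ⟨-((ρ - v * w) * v'), by linear_combination (ρ - v * w) * h2⟩⟩
  have h3 : (u : ℚ) * C + v * (p : ℚ) ^ k = 1 := by exact_mod_cast h1
  push_cast at h ⊢
  linear_combination h - w * h3

/-- approximation modulo `t0 ℤ[1/p]` by an integer with a prescribed residue mod `p ^ r` -/
lemma RM.approx {p : ℕ} (hp : p.Prime) {t0 t : ℚ} (h0 : t0 ≠ 0) (ht0 : RM p 1 t0)
    (ht : RM p 1 t) (r : ℕ) (ρ : ℤ) :
    ∃ (z : ℤ) (s : ℚ), RM p 1 s ∧ t = z + t0 * s ∧ (p : ℤ) ^ r ∣ z - ρ := by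
  obtain ⟨C, i, hC0, hC, rfl⟩ := RM.strip hp h0 ht0
  obtain ⟨z, h1, h2⟩ := RM.cong_int hp hC ht r ρ
  have hp' : (p : ℚ) ≠ 0 := by exact_mod_cast hp.ne_zero
  have hC' : (C : ℚ) ≠ 0 := by exact_mod_cast hC0
  refine ⟨z, (t - z) / C * (p : ℚ) ^ (-i), (h1.div_self hC0).mul_r (RM.zpow hp.ne_zero _), ?_, h2⟩
  have h3 : (p : ℚ) ^ i ≠ 0 := zpow_ne_zero _ hp'
  rw [zpow_neg]
  field_simp
  ring

/-- for nonzero `x` in `ℤ[1/p]` some `p ^ (m i)`, `i > 0`, is `1` modulo `x` -/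
lemma RM.pow_one_mod {p : ℕ} (hp : p.Prime) {x : ℚ} (hx0 : x ≠ 0) (hx : RM p 1 x) (m : ℕ) :
    ∃ i : ℕ, 0 < i ∧ RM p 1 ((((p : ℚ) ^ m) ^ i - 1) / x) := by
  obtain ⟨C, i, hC0, hC, rfl⟩ := RM.strip hp hx0 hx
  have h1 : Nat.Coprime (p ^ m) C.natAbs := by
    have := Int.isCoprime_iff_gcd_eq_one.1 hC.symm
    exact Nat.Coprime.pow_left m this
  have h2 : C ∣ ((p : ℤ) ^ m) ^ C.natAbs.totient - 1 := by
    have := (Nat.ModEq.pow_totient h1).symm.dvd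
    rw [Int.natAbs_dvd] at this
    exact_mod_cast this
  refine ⟨C.natAbs.totient, Nat.totient_pos.2 (Int.natAbs_pos.2 hC0), ?_⟩
  have h3 := ((RM.of_dvd p h2).div_self hC0).mul_r (RM.zpow hp.ne_zero (-i))
  push_cast at h3
  rwa [zpow_neg, ← div_eq_mul_inv, div_div] at h3

/-- `(x, y) = p ^ j (x', y')` with coprime integers `x', y'` -/
def Prim (p : ℕ) (x y : ℚ) (j x' y' : ℤ) : Prop :=
  IsCoprime x' y' ∧ x = (p : ℚ) ^ j * x' ∧ y = (p : ℚ) ^ j * y'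

lemma Prim.exists {p : ℕ} (hp : p.Prime) {x y u v : ℚ} (hx : RM p 1 x) (hy : RM p 1 y)
    (hu : RM p 1 u) (hv : RM p 1 v) (h : u * x + v * y = 1) : ∃ j x' y', Prim p x y j x' y' := by
  obtain ⟨k, x0, h1⟩ := hx
  obtain ⟨l, y0, h2⟩ := hy
  obtain ⟨a, u0, h3⟩ := hu
  obtain ⟨b, v0, h4⟩ := hv
  have hp' : (p : ℚ) ≠ 0 := by exact_mod_cast hp.ne_zero
  push_cast at h1 h2 h3 h4
  have h5 : u0 * (p : ℤ) ^ b * (x0 * p ^ l) + v0 * (p : ℤ) ^ a * (y0 * p ^ k) =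
      (p ^ (a + b + k + l) : ℕ) := by
    have : (u0 : ℚ) * (p : ℚ) ^ b * (x0 * p ^ l) + v0 * (p : ℚ) ^ a * (y0 * p ^ k) =
        p ^ (a + b + k + l) := by
      rw [one_mul] at h1 h2 h3 h4
      rw [← h1, ← h2, ← h3, ← h4]
      linear_combination (p : ℚ) ^ (a + b + k + l) * h
    exact_mod_cast this
  have h6 : Int.gcd (x0 * p ^ l) (y0 * p ^ k) ∣ p ^ (a + b + k + l) := by
    rw [← Int.natCast_dvd_natCast, ← h5]
    exact ((Int.gcd_dvd_left _ _).mul_left _).add ((Int.gcd_dvd_right _ _).mul_left _)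
  obtain ⟨i, -, h7⟩ := (Nat.dvd_prime_pow hp).1 h6
  obtain ⟨x', y', h8, h9, h10⟩ := Int.exists_gcd_one (m := x0 * p ^ l) (n := y0 * p ^ k)
    (by rw [h7]; exact pow_pos hp.pos _)
  rw [h7] at h9 h10
  have h11 : (x0 : ℚ) * p ^ l = x' * p ^ i := by exact_mod_cast h9
  have h12 : (y0 : ℚ) * p ^ k = y' * p ^ i := by exact_mod_cast h10
  have h13 : (p : ℚ) ^ ((i : ℤ) - (k + l : ℕ)) = p ^ i / p ^ (k + l) := by
    rw [zpow_sub₀ hp', zpow_natCast, zpow_natCast]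
  refine ⟨(i : ℤ) - (k + l : ℕ), x', y', Int.isCoprime_iff_gcd_eq_one.2 h8, ?_, ?_⟩
  · rw [h13, div_mul_eq_mul_div, eq_div_iff (pow_ne_zero _ hp')]
    linear_combination (p : ℚ) ^ l * h1 + h11
  · rw [h13, div_mul_eq_mul_div, eq_div_iff (pow_ne_zero _ hp')]
    linear_combination (p : ℚ) ^ k * h2 + h12

lemma Prim.unique {p : ℕ} (hp : p.Prime) {x y : ℚ} {j x' y' j2 x2 y2 : ℤ}
    (h : Prim p x y j x' y') (h2 : Prim p x y j2 x2 y2) : j = j2 ∧ x' = x2 ∧ y' = y2 := by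
  have hp' : (p : ℚ) ≠ 0 := by exact_mod_cast hp.ne_zero
  have key : ∀ {j x' y' j2 x2 y2 : ℤ}, Prim p x y j x' y' → Prim p x y j2 x2 y2 → ¬ j < j2 := by
    rintro j x' y' j2 x2 y2 ⟨a1, a2, a3⟩ ⟨-, b2, b3⟩ hj
    obtain ⟨n, rfl⟩ : ∃ n : ℕ, j2 = j + (n + 1 : ℕ) := ⟨(j2 - j - 1).toNat, by omega⟩
    have d : ∀ {s t : ℤ}, (p : ℚ) ^ j * s = (p : ℚ) ^ (j + (n + 1 : ℕ)) * t → (p : ℤ) ∣ s := by
      intro s t e
      rw [zpow_add₀ hp', zpow_natCast, mul_assoc] at e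
      have e2 : s = (p : ℤ) ^ (n + 1) * t := by
        exact_mod_cast mul_left_cancel₀ (zpow_ne_zero _ hp') e
      exact ⟨p ^ n * t, by rw [e2]; ring⟩
    exact (Nat.prime_iff_prime_int.1 hp).not_isUnit
      (a1.isUnit_of_dvd' (d (a2.symm.trans b2)) (d (a3.symm.trans b3)))
  obtain rfl : j = j2 := le_antisymm (not_lt.1 (key h2 h)) (not_lt.1 (key h h2))
  refine ⟨rfl, ?_, ?_⟩
  · exact_mod_cast mul_left_cancel₀ (zpow_ne_zero _ hp') (h.2.1.symm.trans h2.2.1)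
  · exact_mod_cast mul_left_cancel₀ (zpow_ne_zero _ hp') (h.2.2.symm.trans h2.2.2)

/-- an element of `ℤ[1/p]` in lowest terms -/
lemma RM.lowest {p : ℕ} (hp : p.Prime) {t : ℚ} (ht : RM p 1 t) :
    ∃ (b : ℤ) (n : ℕ), t = b / (p : ℚ) ^ n ∧ (n = 0 ∨ ¬ (p : ℤ) ∣ b) := by
  rcases eq_or_ne t 0 with rfl | h0
  · exact ⟨0, 0, by simp, Or.inl rfl⟩
  obtain ⟨C, i, -, hC, rfl⟩ := RM.strip hp h0 ht
  obtain ⟨n, rfl | rfl⟩ := i.eq_nat_or_neg
  · exact ⟨C * p ^ n, 0, by simp, Or.inl rfl⟩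
  · refine ⟨C, n, by rw [zpow_neg, zpow_natCast, div_eq_mul_inv], Or.inr ?_⟩
    exact (Nat.prime_iff_prime_int.1 hp).irreducible.coprime_iff_not_dvd.1 hC.symm

end Pool.Agent.P.MP_20768c_nt
end

-- part Pool.Agent.P.MP_20768c_nt.SD
section

namespace Pool.Agent.P.MP_20768c_nt

/-- the value of a symbol at the cusp `x / y`, with value `0` at infinity -/
def Fv {K : Type*} [Zero K] (S : ℚ → K) (x y : ℚ) : K := if y = 0 then 0 else S (x / y)

lemma Fv_zero {K : Type*} [Zero K] (S : ℚ → K) (x : ℚ) : Fv S x 0 = 0 := by simp [Fv]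

lemma Fv_of_ne {K : Type*} [Zero K] (S : ℚ → K) (x : ℚ) {y : ℚ} (hy : y ≠ 0) :
    Fv S x y = S (x / y) := by simp [Fv, hy]

lemma Fv_smul {K : Type*} [Zero K] (S : ℚ → K) (x y : ℚ) {u : ℚ} (hu : u ≠ 0) :
    Fv S (u * x) (u * y) = Fv S x y := by
  by_cases hy : y = 0
  · simp [Fv, hy]
  · rw [Fv_of_ne S _ (mul_ne_zero hu hy), Fv_of_ne S _ hy, mul_div_mul_left _ _ hu]

/-- transformation law of a weight two modular symbol of level `M` and character `ε` -/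
def TLaw {K : Type*} [Field K] (M : ℕ) (ε : DirichletCharacter K M) (S : ℚ → K) : Prop :=
  ∀ a b c d : ℤ, a * d - b * c = 1 → (M : ℤ) ∣ c → ∀ x y : ℚ, (x ≠ 0 ∨ y ≠ 0) →
    Fv S (a * x + b * y) (c * x + d * y) = Fv S a c + ε (d : ZMod M) * Fv S x y

/-- Hecke relation at `p` with eigenvalue `A` -/
def HLaw {K : Type*} [Field K] (p M : ℕ) (ε : DirichletCharacter K M) (A : K) (S : ℚ → K) : Prop :=
  ∀ r : ℚ, A * S r = ∑ k ∈ Finset.range p, S ((r + k) / p) + ε (p : ZMod M) * S (p * r)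

section
variable {K : Type*} [Field K] {M : ℕ} {ε : DirichletCharacter K M} {S : ℚ → K}

lemma TLaw.per (hT : TLaw M ε S) (r : ℚ) (z : ℤ) : S (r + z) = S r := by
  have := hT 1 z 0 1 (by simp) (by simp) r 1 (Or.inr one_ne_zero)
  simpa [Fv] using this

lemma char_cong (ε : DirichletCharacter K M) {x y : ℤ} (h : (M : ℤ) ∣ x - y) :
    ε (x : ZMod M) = ε (y : ZMod M) := by
  congr 1
  rw [ZMod.intCast_eq_intCast_iff_dvd_sub]
  simpa using h.neg_right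

lemma char_one (ε : DirichletCharacter K M) {x : ℤ} (h : (M : ℤ) ∣ x - 1) :
    ε (x : ZMod M) = 1 := by
  rw [char_cong ε h]; simp

lemma char_zero (ε : DirichletCharacter K M) {p : ℕ} (hp : p.Prime) (hM : p ∣ M) {x : ℤ}
    (h : (p : ℤ) ∣ x) : ε (x : ZMod M) = 0 := by
  apply MulChar.map_nonunit
  rw [ZMod.coe_int_isUnit_iff_isCoprime]
  intro hc
  have h1 : (p : ℤ) ∣ (M : ℤ) := by exact_mod_cast hM
  have := hc.isUnit_of_dvd' h1 h
  rw [Int.isUnit_iff_natAbs_eq] at this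
  exact hp.one_lt.ne' (by simpa using this)

end

section
variable {K : Type*} [NormedField K] {M : ℕ}

lemma char_norm_le (ε : DirichletCharacter K M) (x : ZMod M) : ‖ε x‖ ≤ 1 :=
  DirichletCharacter.norm_le_one ε x

lemma char_norm_unit (ε : DirichletCharacter K M) {x : ZMod M} (hx : IsUnit x) : ‖ε x‖ = 1 := by
  obtain ⟨u, rfl⟩ := hx
  exact DirichletCharacter.unit_norm_eq_one ε u

end

end Pool.Agent.P.MP_20768c_nt
end

-- part Pool.Agent.P.MP_20768c_nt.An4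
section

open Complex UpperHalfPlane Filter Topology CongruenceSubgroup ModularForm Asymptotics
open scoped MatrixGroups

namespace Pool.Agent.P.MP_20768c_nt

variable {M : ℕ} [NeZero M]

/-- the same with the cusp at infinity allowed -/
theorem Fv_sym_eq (f : CuspForm (Gamma1 M) 2) {E : ℂ → ℂ} (hE : IsEich f E) (σ : SL(2, ℤ))
    {κ : ℂ} (hκ : Tendsto (fun z : ℍ => E ((σ • z : ℍ) : ℂ)) atImInfty (𝓝 κ)) :
    Fv (sym f) (σ 0 0 : ℚ) (σ 1 0 : ℚ) = 2 * Real.pi * Complex.I * κ := by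
  by_cases hc : σ 1 0 = 0
  · have h1 : Tendsto (fun z : ℍ => σ • z) atImInfty atImInfty :=
      UpperHalfPlane.tendsto_smul_atImInfty (g := (σ : GL (Fin 2) ℝ)) (by simp [hc])
    have h2 : κ = 0 := tendsto_nhds_unique hκ (hE.2.comp h1)
    simp [hc, h2, Fv_zero]
  · rw [Fv_of_ne _ _ (by exact_mod_cast hc)]
    exact sym_eq f hE σ hc hκ

lemma an4_lim (f : CuspForm (Gamma1 M) 2) {E : ℂ → ℂ} (hE : IsEich f E) (σ : SL(2, ℤ)) :
    ∃ κ : ℂ, Tendsto (fun z : ℍ => E ((σ • z : ℍ) : ℂ)) atImInfty (𝓝 κ) := by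
  obtain ⟨κ, E', hE', h⟩ := exists_kappa f hE σ
  refine ⟨κ, ?_⟩
  simp only [h]
  simpa using hE'.2.const_add κ

omit [NeZero M] in
lemma an4_col {x y : ℚ} (h : x ≠ 0 ∨ y ≠ 0) :
    ∃ (σ : SL(2, ℤ)) (u : ℚ), u ≠ 0 ∧ x = u * (σ 0 0 : ℚ) ∧ y = u * (σ 1 0 : ℚ) := by
  by_cases hy : y = 0
  · exact ⟨1, x, h.resolve_right (fun h' => h' hy), by simp, by simp [hy]⟩
  · obtain ⟨σ, hc, e⟩ := exists_sl (x / y)
    have hc' : (σ 1 0 : ℚ) ≠ 0 := by exact_mod_cast hc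
    refine ⟨σ, y / (σ 1 0 : ℚ), div_ne_zero hy hc', ?_, ?_⟩
    · rw [div_eq_div_iff hy hc'] at e
      field_simp
      linear_combination e
    · field_simp

theorem sym_T (ε : DirichletCharacter ℂ M) (f : CuspForm (Gamma1 M) 2)
    (hε : ∀ γ ∈ Gamma0 M, ⇑f ∣[(2 : ℤ)] γ = ε ((γ 1 1 : ℤ) : ZMod M) • ⇑f) :
    TLaw M ε (sym f) := by
  obtain ⟨E, hE1, hE2⟩ := slash_prim f 1
  rw [SlashAction.slash_one] at hE1
  have hE : IsEich f E := ⟨hE1, hE2⟩
  intro a b c d hdet hM x y hxy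
  let γ : SL(2, ℤ) := ⟨!![a, b; c, d], by rw [Matrix.det_fin_two_of]; exact hdet⟩
  have hγ : γ ∈ Gamma0 M := by
    rw [Gamma0_mem]
    exact (ZMod.intCast_zmod_eq_zero_iff_dvd c M).2 hM
  have hs : ⇑f ∣[(2 : ℤ)] γ = ε ((d : ℤ) : ZMod M) • ⇑f := hε γ hγ
  obtain ⟨κ, hκ⟩ := prim_const (g := ⇑f ∣[(2 : ℤ)] γ) (prim_comp hE1 γ)
    (E2 := fun w => ε ((d : ℤ) : ZMod M) * E w) (fun z => by
      rw [hs]
      exact (hE1 z).const_mul _)
  simp only [ofComplex_apply] at hκ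
  have lγ : Tendsto (fun z : ℍ => E ((γ • z : ℍ) : ℂ)) atImInfty (𝓝 κ) := by
    simp only [hκ]
    simpa using (hE2.const_mul (ε ((d : ℤ) : ZMod M))).const_add κ
  obtain ⟨σ, u, hu, rfl, rfl⟩ := an4_col hxy
  obtain ⟨κ', lσ⟩ := an4_lim f hE σ
  have lγσ : Tendsto (fun z : ℍ => E (((γ * σ) • z : ℍ) : ℂ)) atImInfty
      (𝓝 (κ + ε ((d : ℤ) : ZMod M) * κ')) := by
    simp only [mul_smul, hκ]
    exact (lσ.const_mul _).const_add κ
  have e1 := Fv_sym_eq f hE γ lγ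
  have e2 := Fv_sym_eq f hE σ lσ
  have e3 := Fv_sym_eq f hE (γ * σ) lγσ
  have m0 : (γ * σ) 0 0 = a * σ 0 0 + b * σ 1 0 := by
    simp [γ, Matrix.mul_apply, Fin.sum_univ_two]
  have m1 : (γ * σ) 1 0 = c * σ 0 0 + d * σ 1 0 := by
    simp [γ, Matrix.mul_apply, Fin.sum_univ_two]
  have g0 : γ 0 0 = a := rfl
  have g1 : γ 1 0 = c := rfl
  rw [g0, g1] at e1
  rw [m0, m1] at e3
  push_cast at e3
  have r0 : (a : ℚ) * (u * (σ 0 0 : ℚ)) + b * (u * (σ 1 0 : ℚ))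
      = u * (a * (σ 0 0 : ℚ) + b * (σ 1 0 : ℚ)) := by ring
  have r1 : (c : ℚ) * (u * (σ 0 0 : ℚ)) + d * (u * (σ 1 0 : ℚ))
      = u * (c * (σ 0 0 : ℚ) + d * (σ 1 0 : ℚ)) := by ring
  rw [r0, r1, Fv_smul _ _ _ hu, Fv_smul _ _ _ hu, e1, e2, e3]
  ring

end Pool.Agent.P.MP_20768c_nt
end

-- part Pool.Agent.P.MP_20768c_nt.An5
section

open Complex UpperHalfPlane Filter Topology CongruenceSubgroup ModularForm Asymptotics
open scoped MatrixGroups

namespace Pool.Agent.P.MP_20768c_nt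

variable {M : ℕ} [NeZero M]

theorem sym_H {p : ℕ} (hp : p ≠ 0) (ε : DirichletCharacter ℂ M) (f : CuspForm (Gamma1 M) 2) (a : ℂ)
    (hT : ∀ z : ℍ, (p : ℂ)⁻¹ * ∑ k ∈ Finset.range p, f (ofComplex (((z : ℂ) + k) / p)) +
      ε (p : ZMod M) * p * f (ofComplex (p * (z : ℂ))) = a * f z) :
    HLaw p M ε a (sym f) := by
  intro r
  have hp0 : (0 : ℝ) < p := by exact_mod_cast Nat.pos_of_ne_zero hp
  have hpc : (p : ℂ) ≠ 0 := by exact_mod_cast hp
  let g : ℚ → ℝ → ℂ := fun t y => f (ofComplex ((t : ℂ) + (y : ℂ) * Complex.I))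
  have hint : ∀ (t : ℚ) (b : ℝ), 0 < b →
      MeasureTheory.IntegrableOn (fun y => g t (b * y)) (Set.Ioi 0) := by
    intro t b hb
    rw [MeasureTheory.integrableOn_Ioi_comp_mul_left_iff (g t) 0 hb, mul_zero]
    exact sym_int f t
  have hsub : ∀ (t : ℚ) (b : ℝ), 0 < b →
      ∫ y in Set.Ioi (0 : ℝ), g t (b * y) = (b : ℂ)⁻¹ * ∫ y in Set.Ioi (0 : ℝ), g t y := by
    intro t b hb
    rw [MeasureTheory.integral_comp_mul_left_Ioi (g t) 0 hb, mul_zero, Complex.real_smul,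
      Complex.ofReal_inv]
  have hpt : ∀ y ∈ Set.Ioi (0 : ℝ), a * g r y =
      (p : ℂ)⁻¹ * ∑ k ∈ Finset.range p, g ((r + k) / p) ((p : ℝ)⁻¹ * y) +
        ε (p : ZMod M) * p * g (p * r) (p * y) := by
    intro y hy
    have him : 0 < ((r : ℂ) + (y : ℂ) * Complex.I).im := by simpa using hy
    have hz : ((ofComplex ((r : ℂ) + (y : ℂ) * Complex.I) : ℍ) : ℂ) =
        (r : ℂ) + (y : ℂ) * Complex.I := by
      rw [ofComplex_apply_of_im_pos him]
    have h := hT (ofComplex ((r : ℂ) + (y : ℂ) * Complex.I))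
    rw [hz] at h
    have e1 : ∀ k : ℕ, ((r : ℂ) + (y : ℂ) * Complex.I + k) / p =
        (((r + k) / p : ℚ) : ℂ) + (((p : ℝ)⁻¹ * y : ℝ) : ℂ) * Complex.I := by
      intro k
      push_cast
      field_simp
      ring
    have e2 : (p : ℂ) * ((r : ℂ) + (y : ℂ) * Complex.I) =
        ((p * r : ℚ) : ℂ) + (((p : ℝ) * y : ℝ) : ℂ) * Complex.I := by
      push_cast
      ring
    simp only [e1, e2] at h
    exact h.symm
  have hI : a * ∫ y in Set.Ioi (0 : ℝ), g r y =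
      ∑ k ∈ Finset.range p, (∫ y in Set.Ioi (0 : ℝ), g ((r + k) / p) y) +
        ε (p : ZMod M) * ∫ y in Set.Ioi (0 : ℝ), g (p * r) y := by
    have i1 : ∀ k ∈ Finset.range p, MeasureTheory.Integrable
        (fun y => g ((r + k) / p) ((p : ℝ)⁻¹ * y))
        (MeasureTheory.volume.restrict (Set.Ioi 0)) := fun k _ => hint _ _ (inv_pos.2 hp0)
    have i2 : MeasureTheory.Integrable (fun y => g (p * r) ((p : ℝ) * y))
        (MeasureTheory.volume.restrict (Set.Ioi 0)) := hint _ _ hp0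
    rw [← MeasureTheory.integral_const_mul,
      MeasureTheory.setIntegral_congr_fun measurableSet_Ioi hpt,
      MeasureTheory.integral_add
        ((MeasureTheory.integrable_finsetSum _ i1).const_mul _) (i2.const_mul _),
      MeasureTheory.integral_const_mul, MeasureTheory.integral_const_mul,
      MeasureTheory.integral_finsetSum _ i1, hsub _ _ hp0, Finset.mul_sum]
    congr 1
    · refine Finset.sum_congr rfl fun k _ => ?_
      rw [hsub _ _ (inv_pos.2 hp0)]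
      push_cast
      field_simp
    · push_cast
      field_simp
  have hs : ∀ t : ℚ, sym f t = 2 * Real.pi * ∫ y in Set.Ioi (0 : ℝ), g t y := fun _ => rfl
  simp only [hs]
  rw [← Finset.mul_sum]
  linear_combination (2 * Real.pi : ℂ) * hI

section
variable {K K' : Type*} [Field K] [Field K'] {p N : ℕ} {ε : DirichletCharacter K N} {S : ℚ → K}

lemma TLaw.map (ι : K →+* K') (h : TLaw N ε S) : TLaw N (ε.ringHomComp ι) fun r => ι (S r) := by
  have hF : ∀ x y : ℚ, Fv (fun r => ι (S r)) x y = ι (Fv S x y) := by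
    intro x y
    unfold Fv
    split_ifs <;> simp
  intro a b c d hd hc x y hxy
  rw [hF, hF, hF, h a b c d hd hc x y hxy, map_add, map_mul, MulChar.ringHomComp_apply]

lemma HLaw.map (ι : K →+* K') {A : K} (h : HLaw p N ε A S) :
    HLaw p N (ε.ringHomComp ι) (ι A) fun r => ι (S r) := by
  intro r
  have := congrArg ι (h r)
  simpa [map_sum, MulChar.ringHomComp_apply] using this

lemma TLaw.symm (s : K) (h : TLaw N ε S) : TLaw N ε fun r => S r + s * S (-r) := by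
  have hF : ∀ x y : ℚ, Fv (fun r => S r + s * S (-r)) x y = Fv S x y + s * Fv S (-x) y := by
    intro x y
    unfold Fv
    split_ifs
    · simp
    · rw [neg_div]
  intro a b c d hd hc x y hxy
  have h1 := h a b c d hd hc x y hxy
  have h2 := h a (-b) (-c) d (by linarith) hc.neg_right (-x) y
    (hxy.imp_left fun hx => neg_ne_zero.2 hx)
  have e1 : ((a : ℚ) * -x + ((-b : ℤ) : ℚ) * y) = -((a : ℚ) * x + b * y) := by push_cast; ring
  have e2 : (((-c : ℤ) : ℚ) * -x + (d : ℚ) * y) = (c : ℚ) * x + d * y := by push_cast; ring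
  have e3 : Fv S (a : ℚ) ((-c : ℤ) : ℚ) = Fv S (-(a : ℚ)) (c : ℚ) := by
    rw [← Fv_smul S (a : ℚ) ((-c : ℤ) : ℚ) (u := -1) (by norm_num)]
    congr 1
    · ring
    · push_cast; ring
  rw [e1, e2, e3] at h2
  rw [hF, hF, hF, h1, h2]
  ring

lemma HLaw.symm (hp : p ≠ 0) (s : K) {A : K} (hT : TLaw N ε S) (h : HLaw p N ε A S) :
    HLaw p N ε A fun r => S r + s * S (-r) := by
  intro r
  have hpq : (p : ℚ) ≠ 0 := by exact_mod_cast hp
  let G : ℕ → K := fun j => S ((-r + j) / p)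
  have hG : G p = G 0 := by
    have := hT.per ((-r + (0 : ℕ)) / p) 1
    simp only [G]
    rw [← this]
    congr 1
    push_cast
    field_simp
    ring
  have h1 : ∑ k ∈ Finset.range p, G (k + 1) = ∑ k ∈ Finset.range p, G k := by
    have a1 := Finset.sum_range_succ G p
    have a2 := Finset.sum_range_succ' G p
    rw [a1, hG] at a2
    exact (add_right_cancel a2).symm
  have h2 : ∑ k ∈ Finset.range p, S (-((r + k) / p)) = ∑ k ∈ Finset.range p, G k := by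
    rw [← h1, ← Finset.sum_range_reflect (fun k => G (k + 1)) p]
    refine Finset.sum_congr rfl fun k hk => ?_
    have hk' := Finset.mem_range.1 hk
    have e : ((p - 1 - k + 1 : ℕ) : ℚ) = p - k := by
      have : p - 1 - k + 1 = p - k := by omega
      rw [this, Nat.cast_sub hk'.le]
    simp only [G]
    rw [e, ← hT.per (-((r + k) / p)) 1]
    congr 1
    push_cast
    field_simp
    ring
  have h3 := h r
  have h4 := h (-r)
  rw [mul_neg] at h4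
  simp only
  rw [Finset.sum_add_distrib, ← Finset.mul_sum, h2]
  simp only [G]
  linear_combination h3 + s * h4

end

end Pool.Agent.P.MP_20768c_nt
end

-- part Pool.Agent.P.MP_20768c_nt.Bd
section

namespace Pool.Agent.P.MP_20768c_nt

lemma bd_ne {a b c d : ℤ} (h : a * d - b * c = 1) :
    ((a : ℚ) ≠ 0 ∨ (c : ℚ) ≠ 0) ∧ ((b : ℚ) ≠ 0 ∨ (d : ℚ) ≠ 0) := by
  constructor <;> by_contra hn <;> simp only [not_or, not_not, Int.cast_eq_zero] at hn <;>
    simp [hn.1, hn.2] at h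

lemma bd_cong {K : Type*} [Field K] {M : ℕ} {ε : DirichletCharacter K M} {S : ℚ → K}
    (hT : TLaw M ε S) {a b c d a' b' c' d' : ℤ} (h : a * d - b * c = 1)
    (h' : a' * d' - b' * c' = 1) (hc : (c : ZMod M) = c') (hd : (d : ZMod M) = d') :
    Fv S b' d' - Fv S a' c' = Fv S b d - Fv S a c := by
  obtain ⟨u, hu⟩ := (ZMod.intCast_eq_intCast_iff_dvd_sub _ _ _).1 hc
  obtain ⟨v, hv⟩ := (ZMod.intCast_eq_intCast_iff_dvd_sub _ _ _).1 hd
  have key := hT (a' * d - b' * c) (b' * a - a' * b) (c' * d - d' * c) (d' * a - c' * b)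
    (by linear_combination (a' * d' - b' * c') * h + h')
    ⟨u * d - v * c, by linear_combination d * hu - c * hv⟩
  rw [char_one ε ⟨v * a - u * b, by linear_combination h + a * hv - b * hu⟩] at key
  have hq : (a : ℚ) * d - b * c = 1 := by exact_mod_cast h
  have k1 := key a c (bd_ne h).1
  have k2 := key b d (bd_ne h).2
  rw [show ((a' * d - b' * c : ℤ) : ℚ) * a + (b' * a - a' * b : ℤ) * c = a' by
      push_cast; linear_combination a' * hq,
    show ((c' * d - d' * c : ℤ) : ℚ) * a + (d' * a - c' * b : ℤ) * c = c' by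
      push_cast; linear_combination c' * hq] at k1
  rw [show ((a' * d - b' * c : ℤ) : ℚ) * b + (b' * a - a' * b : ℤ) * d = b' by
      push_cast; linear_combination b' * hq,
    show ((c' * d - d' * c : ℤ) : ℚ) * b + (d' * a - c' * b : ℤ) * d = d' by
      push_cast; linear_combination d' * hq] at k2
  rw [k1, k2]
  ring

/-- Manin: the values of a symbol lie in a finitely generated group -/
theorem sd_fg {K : Type*} [Field K] {M : ℕ} [NeZero M] {ε : DirichletCharacter K M} {S : ℚ → K}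
    (hT : TLaw M ε S) : ∃ Λ : Submodule ℤ K, Λ.FG ∧ ∀ r, S r ∈ Λ := by
  have h1 : ∀ u : ZMod M × ZMod M, ∃ w : K, ∀ a b c d : ℤ, a * d - b * c = 1 →
      ((c : ZMod M), (d : ZMod M)) = u → Fv S b d - Fv S a c = w := by
    intro u
    by_cases h : ∃ a b c d : ℤ, a * d - b * c = 1 ∧ ((c : ZMod M), (d : ZMod M)) = u
    · obtain ⟨a, b, c, d, h, rfl⟩ := h
      exact ⟨_, fun a' b' c' d' h' e => bd_cong hT h h' (congrArg Prod.fst e).symm
        (congrArg Prod.snd e).symm⟩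
    · exact ⟨0, fun a b c d h' e => absurd ⟨a, b, c, d, h', e⟩ h⟩
  choose f hf using h1
  have h2 : ∀ (n : ℕ) (b : ℤ), IsCoprime b n → Fv S b n ∈ Submodule.span ℤ (Set.range f) := by
    intro n
    induction n using Nat.strong_induction_on with
    | _ n ih =>
      rintro b ⟨u, v, huv⟩
      rcases n.eq_zero_or_pos with rfl | hn
      · rw [Nat.cast_zero, Fv_zero]; exact zero_mem _
      have hn' : (0 : ℤ) < n := by exact_mod_cast hn
      obtain ⟨c, hc⟩ := Int.eq_ofNat_of_zero_le (Int.emod_nonneg (-u) hn'.ne')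
      have h3 := Int.emod_lt_of_pos (-u) hn'
      have h4 := Int.mul_ediv_add_emod (-u) n
      rw [hc] at h3 h4
      have h5 : (v - b * (-u / n)) * n - b * c = 1 := by linear_combination huv - b * h4
      have h6 := hf _ _ _ _ _ h5 rfl
      simp only [Int.cast_natCast] at h6
      rw [eq_add_of_sub_eq h6]
      exact add_mem (Submodule.subset_span ⟨_, rfl⟩)
        (ih c (by exact_mod_cast h3) _ ⟨n, -b, by linear_combination h5⟩)
  refine ⟨_, Submodule.fg_span (Set.finite_range f), fun r => ?_⟩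
  have := h2 r.den r.num (Int.isCoprime_iff_gcd_eq_one.2 r.reduced)
  rwa [Fv_of_ne S _ (Nat.cast_ne_zero.2 r.den_nz), Rat.num_div_den] at this

theorem fg_bdd {K : Type*} [NormedField K] [IsUltrametricDist K] {Λ : Submodule ℤ K}
    (h : Λ.FG) : ∃ B : ℝ, ∀ x ∈ Λ, ‖x‖ ≤ B := by
  obtain ⟨s, rfl⟩ := h
  refine ⟨∑ y ∈ s, ‖y‖, fun x hx => ?_⟩
  have h0 : 0 ≤ ∑ y ∈ s, ‖y‖ := Finset.sum_nonneg fun _ _ => norm_nonneg _
  induction hx using Submodule.span_induction with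
  | mem y hy => exact Finset.single_le_sum (fun y _ => norm_nonneg y) hy
  | zero => rwa [norm_zero]
  | add x y _ _ hx hy => exact (IsUltrametricDist.norm_add_le_max x y).trans (max_le hx hy)
  | smul n x _ hx => exact (IsUltrametricDist.norm_zsmul_le x n).trans hx

theorem fg_max {K : Type*} [NormedField K] [IsUltrametricDist K] {Λ : Submodule ℤ K}
    (h : Λ.FG) {T : Set K} (hT : ∀ x ∈ T, x ∈ Λ) (hne : T.Nonempty) :
    ∃ x ∈ T, ∀ y ∈ T, ‖y‖ ≤ ‖x‖ := by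
  have : IsNoetherian ℤ Λ := isNoetherian_of_fg_of_noetherian Λ h
  let P : K → Submodule ℤ Λ := fun t =>
    { carrier := {x | ‖(x : K)‖ ≤ ‖t‖}
      zero_mem' := by simp
      add_mem' := fun {x y} hx hy => (IsUltrametricDist.norm_add_le_max (x : K) y).trans
        (max_le hx hy)
      smul_mem' := fun n x hx => (IsUltrametricDist.norm_zsmul_le (x : K) n).trans hx }
  obtain ⟨_, ⟨x, hx, rfl⟩, hm⟩ := set_has_maximal_iff_noetherian.2 this (P '' T) (hne.image P)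
  refine ⟨x, hx, fun y hy => le_of_not_gt fun hlt => hm _ ⟨y, hy, rfl⟩ ?_⟩
  refine lt_of_le_of_ne (fun z (hz : ‖(z : K)‖ ≤ ‖x‖) => hz.trans hlt.le) fun e => hlt.not_ge ?_
  have h1 : (⟨y, hT y hy⟩ : Λ) ∈ P y := le_refl ‖y‖
  rw [← e] at h1
  exact h1

theorem sd_bdd {K : Type*} [NormedField K] [IsUltrametricDist K] {M : ℕ} [NeZero M]
    {ε : DirichletCharacter K M} {S : ℚ → K} (hT : TLaw M ε S) : ∃ B : ℝ, ∀ r, ‖S r‖ ≤ B := by
  obtain ⟨Λ, h1, h2⟩ := sd_fg hT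
  obtain ⟨B, hB⟩ := fg_bdd h1
  exact ⟨B, fun r => hB _ (h2 r)⟩

end Pool.Agent.P.MP_20768c_nt
end

-- part Pool.Agent.P.MP_20768c_nt.Intg
section

namespace Pool.Agent.P.MP_20768c_nt

section
variable {K : Type*} [NormedField K] [IsUltrametricDist K] {p M : ℕ}
  {ε : DirichletCharacter K M} {S : ℚ → K} {A α : K} {c : ℝ}

lemma intg_per (hp : p.Prime) (hT : TLaw M ε S) (n : ℕ) (a : ℤ) (k : ℕ) :
    S (((a + k * (p : ℤ) ^ n : ℤ) : ℚ) / (p : ℚ) ^ n) = S (a / (p : ℚ) ^ n) := by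
  have hp0 : (p : ℚ) ≠ 0 := by exact_mod_cast hp.ne_zero
  rw [← hT.per (a / (p : ℚ) ^ n) (k : ℤ)]
  congr 1
  push_cast
  field_simp

/-- distribution relation for `D(n, a) = α S(a/p^(n+1)) - e S(a/p^n)` -/
lemma dist_rel (hp : p.Prime) (hT : TLaw M ε S) (hH : HLaw p M ε A S)
    (hα : α ^ 2 - A * α + ε (p : ZMod M) * p = 0) (hα0 : α ≠ 0) (n : ℕ) (a : ℤ) :
    α * (α * S (a / (p : ℚ) ^ (n + 1)) - ε (p : ZMod M) * S (a / (p : ℚ) ^ n)) =
      ∑ k ∈ Finset.range p,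
        (α * S (((a + k * (p : ℤ) ^ (n + 1) : ℤ) : ℚ) / (p : ℚ) ^ (n + 2)) -
          ε (p : ZMod M) * S (((a + k * (p : ℤ) ^ (n + 1) : ℤ) : ℚ) / (p : ℚ) ^ (n + 1))) := by
  have hp0 : (p : ℚ) ≠ 0 := by exact_mod_cast hp.ne_zero
  have h1 := hH (a / (p : ℚ) ^ (n + 1))
  have e1 : (p : ℚ) * (a / (p : ℚ) ^ (n + 1)) = a / (p : ℚ) ^ n := by
    field_simp
    ring
  have e2 : ∀ k : ℕ, (((a + k * (p : ℤ) ^ (n + 1) : ℤ) : ℚ) / (p : ℚ) ^ (n + 2)) =
      (a / (p : ℚ) ^ (n + 1) + k) / p := by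
    intro k
    push_cast
    field_simp
    ring
  have e3 : ∀ k : ℕ, S (((a + k * (p : ℤ) ^ (n + 1) : ℤ) : ℚ) / (p : ℚ) ^ (n + 1)) =
      S (a / (p : ℚ) ^ (n + 1)) := fun k => intg_per hp hT (n + 1) a k
  rw [e1] at h1
  simp only [e2, e3]
  rw [Finset.sum_sub_distrib, ← Finset.mul_sum, Finset.sum_const, Finset.card_range, nsmul_eq_mul]
  linear_combination α * h1 + S (a / (p : ℚ) ^ (n + 1)) * hα

/-- `a / p ^ n` and `a' / p ^ n` are equivalent under `Γ₁(M)` -/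
lemma orbit_le (hp : p.Prime) {N : ℤ} {r : ℕ} (hN : IsCoprime N (p : ℤ))
    (hMN : (M : ℤ) = N * (p : ℤ) ^ r) (hT : TLaw M ε S)
    (hP : ∀ b d : ℤ, IsCoprime b d → (M : ℤ) ∣ d - 1 → ‖Fv S b d - S 0‖ ≤ c)
    {n : ℕ} (hn : r ≤ n) {a a' : ℤ} (ha : ¬ (p : ℤ) ∣ a) (ha' : ¬ (p : ℤ) ∣ a')
    (h : (p : ℤ) ^ r ∣ a' - a) : ‖S (a' / (p : ℚ) ^ n) - S (a / (p : ℚ) ^ n)‖ ≤ c := by
  have hp0 : (p : ℚ) ^ n ≠ 0 := pow_ne_zero _ (by exact_mod_cast hp.ne_zero)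
  have hpi : Prime (p : ℤ) := Nat.prime_iff_prime_int.mp hp
  have key : ∀ x : ℤ, ¬ (p : ℤ) ∣ x → ∃ u v : ℤ, u * (x * N) + v * (p : ℤ) ^ n = 1 := by
    intro x hx
    have h1 : IsCoprime x (p : ℤ) := ((hpi.coprime_iff_not_dvd).mpr hx).symm
    exact (h1.mul_left hN).pow_right
  obtain ⟨u, v, huv⟩ := key a ha
  obtain ⟨u', v', huv'⟩ := key a' ha'
  obtain ⟨m, rfl⟩ := Nat.exists_eq_add_of_le hn
  obtain ⟨w, hw⟩ := h
  set P : ℤ := (p : ℤ) ^ (r + m) with hPdef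
  have hPr : P = (p : ℤ) ^ r * (p : ℤ) ^ m := pow_add _ _ _
  have hdet : (a' * (u * N) + v' * P) * (a * (u' * N) + P * v) -
      (a' * v - a * v') * (P * (u * N - u' * N)) = 1 := by
    linear_combination (u' * (a' * N) + v' * P) * huv + huv'
  have hC : (M : ℤ) ∣ P * (u * N - u' * N) := by
    rw [hMN, hPr]
    exact ⟨(p : ℤ) ^ m * (u - u'), by ring⟩
  have hD : (M : ℤ) ∣ a * (u' * N) + P * v - 1 := by
    rw [hMN]
    refine (hN.pow_right (n := r)).mul_dvd ?_ ?_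
    · exact ⟨a * (u' - u), by linear_combination huv⟩
    · refine ⟨(p : ℤ) ^ m * (v - v') - w * (u' * N), ?_⟩
      linear_combination huv' - (u' * N) * hw + (v - v') * hPr
  have h1 := hT _ _ _ _ hdet hC (a : ℚ) ((p : ℚ) ^ (r + m)) (Or.inr hp0)
  have h2 := hT _ _ _ _ hdet hC 0 1 (Or.inr one_ne_zero)
  rw [char_one ε hD] at h1 h2
  have hPq : ((P : ℤ) : ℚ) = (p : ℚ) ^ (r + m) := by rw [hPdef]; push_cast; rfl
  have huq : (u : ℚ) * (a * N) + v * (p : ℚ) ^ (r + m) = 1 := by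
    rw [← hPq]; exact_mod_cast huv
  have e1 : ((a' * (u * N) + v' * P : ℤ) : ℚ) * a + ((a' * v - a * v' : ℤ) : ℚ) *
      (p : ℚ) ^ (r + m) = a' := by
    push_cast
    rw [hPq]
    linear_combination (a' : ℚ) * huq
  have e2 : ((P * (u * N - u' * N) : ℤ) : ℚ) * a + ((a * (u' * N) + P * v : ℤ) : ℚ) *
      (p : ℚ) ^ (r + m) = (p : ℚ) ^ (r + m) := by
    push_cast
    rw [hPq]
    linear_combination (p : ℚ) ^ (r + m) * huq
  rw [e1, e2, Fv_of_ne S _ hp0, Fv_of_ne S _ hp0] at h1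
  rw [mul_zero, mul_zero, mul_one, mul_one, zero_add, zero_add, Fv_of_ne S 0 one_ne_zero,
    zero_div] at h2
  have hcop : IsCoprime (a' * v - a * v') (a * (u' * N) + P * v) :=
    ⟨-(P * (u * N - u' * N)), a' * (u * N) + v' * P, by linear_combination hdet⟩
  have h3 := hP _ _ hcop hD
  have h4 : S (a' / (p : ℚ) ^ (r + m)) - S (a / (p : ℚ) ^ (r + m)) =
      Fv S ((a' * v - a * v' : ℤ) : ℚ) ((a * (u' * N) + P * v : ℤ) : ℚ) - S 0 := by
    linear_combination h1 - h2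
  rw [h4]
  exact h3

theorem integral_le [NeZero M] (hp : p.Prime) (hpn : ‖(p : K)‖ < 1) (hT : TLaw M ε S)
    (hH : HLaw p M ε A S) (hα : α ^ 2 - A * α + ε (p : ZMod M) * p = 0) (hα1 : ‖α‖ = 1)
    (hP : ∀ b d : ℤ, IsCoprime b d → (M : ℤ) ∣ d - 1 → ‖Fv S b d - S 0‖ ≤ c)
    (n : ℕ) (a : ℤ) (ha : ¬ (p : ℤ) ∣ a) :
    ‖α * S (a / (p : ℚ) ^ (n + 1)) - ε (p : ZMod M) * S (a / (p : ℚ) ^ n)‖ ≤ c := by
  have hpi : Prime (p : ℤ) := Nat.prime_iff_prime_int.mp hp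
  have hα0 : α ≠ 0 := by
    intro h
    rw [h, norm_zero] at hα1
    exact zero_ne_one hα1
  obtain ⟨r, N, hNp, hMN⟩ := Nat.exists_eq_pow_mul_and_not_dvd (NeZero.ne M) p hp.ne_one
  have hN : IsCoprime (N : ℤ) (p : ℤ) :=
    ((hpi.coprime_iff_not_dvd).mpr (by exact_mod_cast hNp)).symm
  have hMN' : (M : ℤ) = (N : ℤ) * (p : ℤ) ^ r := by rw [hMN]; push_cast; ring
  have hc : 0 ≤ c := (norm_nonneg _).trans (hP 0 1 isCoprime_one_right (by simp))
  obtain ⟨B, hB⟩ := sd_bdd hT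
  set D : ℕ → ℤ → K := fun n a =>
    α * S (a / (p : ℚ) ^ (n + 1)) - ε (p : ZMod M) * S (a / (p : ℚ) ^ n) with hD
  have hrel : ∀ n a, α * D n a = ∑ k ∈ Finset.range p, D (n + 1) (a + k * (p : ℤ) ^ (n + 1)) :=
    fun n a => dist_rel hp hT hH hα hα0 n a
  have hnd : ∀ (n k : ℕ) (a : ℤ), ¬ (p : ℤ) ∣ a → ¬ (p : ℤ) ∣ a + k * (p : ℤ) ^ (n + 1) := by
    intro n k a ha h
    exact ha ((dvd_add_left (Dvd.dvd.mul_left (dvd_pow_self _ (Nat.succ_ne_zero n)) _)).mp h)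
  have hDB : ∀ n a, ‖D n a‖ ≤ B := by
    intro n a
    simp only [hD, sub_eq_add_neg]
    refine (IsUltrametricDist.norm_add_le_max _ _).trans (max_le ?_ ?_)
    · rw [norm_mul, hα1, one_mul]
      exact hB _
    · rw [norm_neg, norm_mul]
      exact (mul_le_of_le_one_left (norm_nonneg _) (char_norm_le ε _)).trans (hB _)
  have hstep : ∀ n a, r ≤ n + 1 → ¬ (p : ℤ) ∣ a →
      ‖D n a‖ ≤ max (‖(p : K)‖ * ‖D (n + 1) a‖) c := by
    intro n a hn ha
    have h1 : α * D n a = p * D (n + 1) a +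
        ∑ k ∈ Finset.range p, (D (n + 1) (a + k * (p : ℤ) ^ (n + 1)) - D (n + 1) a) := by
      have h0 : ∑ k ∈ Finset.range p, (D (n + 1) (a + k * (p : ℤ) ^ (n + 1)) - D (n + 1) a) =
          ∑ k ∈ Finset.range p, D (n + 1) (a + k * (p : ℤ) ^ (n + 1)) - p * D (n + 1) a := by
        rw [Finset.sum_sub_distrib, Finset.sum_const, Finset.card_range, nsmul_eq_mul]
      rw [h0, ← hrel]
      ring
    have h2 : ‖∑ k ∈ Finset.range p,
        (D (n + 1) (a + k * (p : ℤ) ^ (n + 1)) - D (n + 1) a)‖ ≤ c := by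
      refine IsUltrametricDist.norm_sum_le_of_forall_le_of_nonneg hc fun k _ => ?_
      have h3 := orbit_le hp hN hMN' hT hP (n := n + 1 + 1) (by omega) ha (hnd n k a ha)
        (by
          rw [add_sub_cancel_left]
          exact Dvd.dvd.mul_left (pow_dvd_pow _ hn) _)
      have h4 : D (n + 1) (a + k * (p : ℤ) ^ (n + 1)) - D (n + 1) a =
          α * (S (((a + k * (p : ℤ) ^ (n + 1) : ℤ) : ℚ) / (p : ℚ) ^ (n + 1 + 1)) -
            S (a / (p : ℚ) ^ (n + 1 + 1))) := by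
        simp only [hD]
        rw [intg_per hp hT (n + 1) a k]
        ring
      rw [h4, norm_mul, hα1, one_mul]
      exact h3
    have h5 : ‖D n a‖ = ‖α * D n a‖ := by rw [norm_mul, hα1, one_mul]
    rw [h5, h1]
    refine (IsUltrametricDist.norm_add_le_max _ _).trans (max_le_max ?_ h2)
    rw [norm_mul]
  have hiter : ∀ m n a, r ≤ n + 1 → ¬ (p : ℤ) ∣ a → ‖D n a‖ ≤ max (‖(p : K)‖ ^ m * B) c := by
    intro m
    induction m with
    | zero =>
      intro n a _ _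
      rw [pow_zero, one_mul]
      exact (hDB n a).trans (le_max_left _ _)
    | succ m ih =>
      intro n a hn ha
      refine (hstep n a hn ha).trans (max_le ?_ (le_max_right _ _))
      rcases le_max_iff.mp (ih (n + 1) a (by omega) ha) with h | h
      · refine le_trans ?_ (le_max_left _ _)
        rw [pow_succ', mul_assoc]
        exact mul_le_mul_of_nonneg_left h (norm_nonneg _)
      · refine le_trans ?_ (le_max_right _ _)
        exact (mul_le_of_le_one_left (norm_nonneg _) hpn.le).trans h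
  have htop : ∀ n a, r ≤ n + 1 → ¬ (p : ℤ) ∣ a → ‖D n a‖ ≤ c := by
    intro n a hn ha
    have ht : Filter.Tendsto (fun m : ℕ => max (‖(p : K)‖ ^ m * B) c) Filter.atTop
        (nhds (max (0 * B) c)) :=
      ((tendsto_pow_atTop_nhds_zero_of_lt_one (norm_nonneg _) hpn).mul_const B).max
        tendsto_const_nhds
    have h := ge_of_tendsto' ht fun m => hiter m n a hn ha
    rwa [zero_mul, max_eq_right hc] at h
  have hall : ∀ j n a, r ≤ n + 1 + j → ¬ (p : ℤ) ∣ a → ‖D n a‖ ≤ c := by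
    intro j
    induction j with
    | zero => exact fun n a hn ha => htop n a hn ha
    | succ j ih =>
      intro n a hn ha
      have h5 : ‖D n a‖ = ‖α * D n a‖ := by rw [norm_mul, hα1, one_mul]
      rw [h5, hrel]
      exact IsUltrametricDist.norm_sum_le_of_forall_le_of_nonneg hc fun k _ =>
        ih (n + 1) _ (by omega) (hnd n k a ha)
  exact hall r n a (by omega) ha

end

/-- for `d = 0` (level one) the value at `0` vanishes -/
lemma Fv_sub_eq {K : Type*} [Field K] [CharZero K] {M : ℕ} {ε : DirichletCharacter K M}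
    {S : ℚ → K} (hT : TLaw M ε S) {b d : ℤ} (hd : (M : ℤ) ∣ d - 1) :
    Fv S b d - S 0 = S (b / d) - S 0 := by
  by_cases h0 : d = 0
  · subst h0
    have h1 : (M : ℤ) ∣ 1 := by simpa using hd
    have h2 := hT 0 (-1) 1 0 (by simp) h1 0 1 (Or.inr one_ne_zero)
    rw [char_one ε hd] at h2
    have h3 : S 0 + S 0 = 0 := by simpa [Fv] using h2.symm
    have h4 : S 0 = 0 := by simpa [← two_mul] using h3
    simp [Fv, h4]
  · rw [Fv_of_ne S _ (by exact_mod_cast h0)]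

end Pool.Agent.P.MP_20768c_nt
end

-- part Pool.Agent.P.MP_20768c_nt.Pos
section

open Complex UpperHalfPlane Filter Topology CongruenceSubgroup ModularForm Asymptotics
open scoped MatrixGroups

namespace Pool.Agent.P.MP_20768c_nt

variable {M : ℕ} [NeZero M]

/-- maximum principle on the compactified modular curve -/
lemma pos_max {F : ℂ → ℂ} {g : ℍ → ℂ} (hd : ∀ z : ℍ, HasDerivAt F (g z) z)
    (hinv : ∀ γ ∈ Gamma1 M, ∀ z : ℍ, ‖F ((γ • z : ℍ) : ℂ)‖ = ‖F z‖)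
    (hper : ∀ (σ : SL(2, ℤ)) (z : ℍ), F ((σ • ((M : ℝ) +ᵥ z) : ℍ) : ℂ) = F ((σ • z : ℍ) : ℂ))
    (hbd : ∀ σ : SL(2, ℤ), IsBoundedAtImInfty fun z : ℍ => F ((σ • z : ℍ) : ℂ)) :
    ∃ C : ℂ, ∀ z : ℍ, F z = C := by
  have hM : (0 : ℝ) < M := by exact_mod_cast Nat.pos_of_ne_zero (NeZero.ne M)
  let H : SL(2, ℤ) → ℍ → ℂ := fun σ z => F ((σ • z : ℍ) : ℂ)
  have hp : ∀ σ, Function.Periodic (H σ ∘ ofComplex) (M : ℝ) := by
    intro σ w
    by_cases hw : 0 < w.im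
    · have hw' : 0 < (w + (M : ℝ)).im := by simpa using hw
      have : ofComplex (w + (M : ℝ)) = (M : ℝ) +ᵥ ofComplex w := by
        ext
        rw [ofComplex_apply_of_im_pos hw', ofComplex_apply_of_im_pos hw]
        simp [add_comm]
      simp only [Function.comp, H, this, hper]
    · have hw' : (w + (M : ℝ)).im ≤ 0 := by simpa using hw
      simp only [Function.comp, ofComplex_apply_eq_of_im_nonpos hw' (not_lt.1 hw)]
  have hh : ∀ σ, DifferentiableOn ℂ (cuspFunction M (H σ)) (Metric.ball 0 1) := by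
    intro σ
    refine differentiableOn_cuspFunction_ball hM (hp σ) ?_ (hbd σ)
    rw [UpperHalfPlane.mdifferentiable_iff]
    intro w hw
    exact (prim_comp hd σ ⟨w, hw⟩).differentiableAt.differentiableWithinAt
  set r : ℝ := Real.exp (-Real.pi / M) with hr
  have hr0 : 0 ≤ r := (Real.exp_pos _).le
  have hr1 : r < 1 := by
    rw [hr, Real.exp_lt_one_iff]
    exact div_neg_of_neg_of_pos (by simpa using Real.pi_pos) hM
  have hmax : ∀ σ, ∃ q ∈ Metric.closedBall (0 : ℂ) r,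
      IsMaxOn (fun q => ‖cuspFunction M (H σ) q‖) (Metric.closedBall 0 r) q := fun σ =>
    (isCompact_closedBall (0 : ℂ) r).exists_isMaxOn (Metric.nonempty_closedBall.2 hr0)
      ((hh σ).continuousOn.mono (Metric.closedBall_subset_ball hr1)).norm
  choose q hq hq' using hmax
  obtain ⟨x0, hx0⟩ := Finite.exists_max fun x : SL(2, ℤ) ⧸ Gamma1 M =>
    ‖cuspFunction M (H x.out⁻¹) (q x.out⁻¹)‖
  have key : ∀ τ : ℍ, ‖F τ‖ ≤ ‖cuspFunction M (H x0.out⁻¹) (q x0.out⁻¹)‖ := by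
    intro τ
    obtain ⟨γ, hγ⟩ := ModularGroup.exists_one_half_le_im_smul τ
    obtain ⟨δ, hδ⟩ := QuotientGroup.mk_out_eq_mul (Gamma1 M) γ
    refine le_trans ?_ (hx0 (QuotientGroup.mk γ))
    have h1 : Function.Periodic.qParam M ((γ • τ : ℍ) : ℂ) ∈ Metric.closedBall (0 : ℂ) r := by
      rw [mem_closedBall_zero_iff, Function.Periodic.norm_qParam, hr, Real.exp_le_exp]
      apply div_le_div_of_nonneg_right _ hM.le
      have : (1 : ℝ) / 2 ≤ ((γ • τ : ℍ) : ℂ).im := hγ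
      nlinarith [Real.pi_pos]
    refine le_trans (le_of_eq ?_) (hq' _ h1)
    simp only
    rw [UpperHalfPlane.eq_cuspFunction _ hM.ne' (hp _), hδ]
    simp only [H, mul_inv_rev, mul_smul, inv_smul_smul]
    exact (hinv _ (inv_mem δ.2) τ).symm
  have hc := eq_const_of_exists_le (hh x0.out⁻¹) hr0 hr1 (fun w hw => by
    rcases eq_or_ne w 0 with rfl | hw0
    · exact ⟨0, Metric.mem_closedBall_self hr0, le_rfl⟩
    · refine ⟨_, hq x0.out⁻¹, ?_⟩
      have h2 := UpperHalfPlane.eq_cuspFunction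
        ⟨_, Function.Periodic.im_invQParam_pos_of_norm_lt_one hM (mem_ball_zero_iff.mp hw) hw0⟩
        hM.ne' (hp x0.out⁻¹)
      simp only [Function.Periodic.qParam_right_inv hM.ne' hw0] at h2
      rw [h2]
      exact key _)
  refine ⟨cuspFunction M (H x0.out⁻¹) 0, fun z => ?_⟩
  have h3 := hc (mem_ball_zero_iff.2
    (Function.Periodic.norm_qParam_lt_one hM (x0.out • z).im_pos))
  rw [UpperHalfPlane.eq_cuspFunction _ hM.ne' (hp _)] at h3
  simpa [H] using h3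

/-- a holomorphic function with imaginary periods and limits at the cusps is constant -/
lemma pos_zero {G : ℂ → ℂ} {g : ℍ → ℂ} (hd : ∀ z : ℍ, HasDerivAt G (g z) z)
    (hinv : ∀ γ ∈ Gamma1 M, ∃ c : ℂ, c.re = 0 ∧ ∀ z : ℍ, G ((γ • z : ℍ) : ℂ) = c + G z)
    (hlim : ∀ σ : SL(2, ℤ), ∃ κ : ℂ,
      Tendsto (fun z : ℍ => G ((σ • z : ℍ) : ℂ)) atImInfty (𝓝 κ)) (z : ℍ) : g z = 0 := by
  have hd' : ∀ z : ℍ, HasDerivAt (fun w => cexp (G w)) (cexp (G z) * g z) z := fun z =>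
    (hd z).cexp
  obtain ⟨C, hC⟩ := pos_max (M := M) hd' (fun γ hγ z => by
      obtain ⟨c, h0, hc⟩ := hinv γ hγ
      simp only [hc, norm_exp, add_re, h0, zero_add]) (fun σ z => by
      have hm : σ * ModularGroup.T ^ (M : ℤ) * σ⁻¹ ∈ Gamma1 M := by
        have h1 : ModularGroup.T ^ (M : ℤ) ∈ CongruenceSubgroup.Gamma M := by
          simpa using ModularGroup_T_pow_mem_Gamma M M dvd_rfl
        have h2 := (Gamma_normal M).conj_mem _ h1 σ
        rw [Gamma_mem] at h2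
        exact (Gamma1_mem _ _).2 ⟨h2.1, h2.2.2.2, h2.2.2.1⟩
      obtain ⟨c, -, hc⟩ := hinv _ hm
      obtain ⟨κ, hκ⟩ := hlim σ
      have h3 : ∀ z : ℍ, G ((σ • ((M : ℝ) +ᵥ z) : ℍ) : ℂ) = c + G ((σ • z : ℍ) : ℂ) := by
        intro z
        have := hc (σ • z)
        rw [mul_smul, mul_smul, inv_smul_smul, UpperHalfPlane.modular_T_zpow_smul] at this
        simpa using this
      have h4 : Tendsto (fun z : ℍ => (M : ℝ) +ᵥ z) atImInfty atImInfty := by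
        simp only [atImInfty, tendsto_comap_iff, Function.comp_def, vadd_im]
        exact tendsto_comap
      have h5 := tendsto_nhds_unique (hκ.comp h4) ((hκ.const_add c).congr fun z => (h3 z).symm)
      have h6 : c = 0 := by linear_combination -h5
      simp only [h3, h6, zero_add]) (fun σ => by
      obtain ⟨κ, hκ⟩ := hlim σ
      exact hκ.cexp.isBigO_one ℝ)
  have h1 : (fun w => cexp (G w)) =ᶠ[𝓝 (z : ℂ)] fun _ => C := by
    filter_upwards [(isOpen_lt continuous_const Complex.continuous_im).mem_nhds z.im_pos] with w hw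
    exact hC ⟨w, hw⟩
  have h2 := ((hd' z).congr_of_eventuallyEq h1.symm).unique (hasDerivAt_const (z : ℂ) C)
  exact (mul_eq_zero.1 h2).resolve_left (exp_ne_zero _)

/-- the reflection in the imaginary axis -/
def posJ (z : ℍ) : ℍ := ⟨-(starRingEnd ℂ) z, by simpa using z.im_pos⟩

/-- conjugation by the reflection -/
def posC (σ : SL(2, ℤ)) : SL(2, ℤ) :=
  ⟨!![σ 0 0, -σ 0 1; -σ 1 0, σ 1 1], by
    have := σ.det_coe
    rw [Matrix.det_fin_two] at this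
    simpa [Matrix.det_fin_two] using this⟩

lemma pos_J_smul (σ : SL(2, ℤ)) (z : ℍ) : posJ (σ • z) = posC σ • posJ z := by
  ext
  rw [coe_specialLinearGroup_apply]
  simp only [posJ, posC, coe_specialLinearGroup_apply]
  simp [← neg_div, add_comm]

lemma pos_J_tendsto : Tendsto posJ atImInfty atImInfty := by
  simp only [atImInfty, tendsto_comap_iff]
  have : UpperHalfPlane.im ∘ posJ = UpperHalfPlane.im := by
    funext z
    change (-(starRingEnd ℂ) (z : ℂ)).im = z.im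
    simp
  rw [this]
  exact tendsto_comap

lemma pos_kappa (f : CuspForm (Gamma1 M) 2) {E : ℂ → ℂ} (hE : IsEich f E) {γ : SL(2, ℤ)}
    (hγ : γ ∈ Gamma1 M) : ∃ κ : ℂ, Fv (sym f) (γ 0 0 : ℚ) (γ 1 0 : ℚ) = 2 * Real.pi * Complex.I * κ ∧
      ∀ z : ℍ, E ((γ • z : ℍ) : ℂ) = κ + E z := by
  have h1 : ⇑f ∣[(2 : ℤ)] γ = f :=
    SlashInvariantForm.slash_action_eqn f _ ⟨γ, hγ, rfl⟩
  obtain ⟨κ, hκ⟩ := prim_const (fun z => h1 ▸ prim_comp hE.1 γ z) hE.1
  simp only [ofComplex_apply] at hκ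
  refine ⟨κ, Fv_sym_eq f hE γ ?_, hκ⟩
  simpa only [hκ, add_zero] using hE.2.const_add κ

/-- Eichler, Shimura: the periods of either sign determine the form -/
theorem per_pos (ε : DirichletCharacter ℂ M) (f : CuspForm (Gamma1 M) 2)
    (hε : ∀ γ ∈ Gamma0 M, ⇑f ∣[(2 : ℤ)] γ = ε ((γ 1 1 : ℤ) : ZMod M) • ⇑f)
    {s : ℂ} (hs : s = 1 ∨ s = -1)
    (h : ∀ b d : ℤ, IsCoprime b d → (M : ℤ) ∣ d - 1 →
      sym f (b / d) - sym f 0 + s * (sym f (-(b / d)) - sym f 0) = 0) : f = 0 := by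
  obtain ⟨E, hE⟩ : ∃ E, IsEich f E := by
    simpa [IsEich] using slash_prim f 1
  have hT := sym_T ε f hε
  have h0 : ∀ a b c d : ℤ, a * d - b * c = 1 → (M : ℤ) ∣ c → (M : ℤ) ∣ d - 1 → d ≠ 0 →
      Fv (sym f) a c + s * Fv (sym f) a (-c : ℤ) = 0 := by
    intro a b c d h1 h2 h3 h4
    have e1 := hT a b c d h1 h2 0 1 (Or.inr one_ne_zero)
    have e2 := hT a (-b) (-c) d (by linear_combination h1) h2.neg_right 0 1 (Or.inr one_ne_zero)
    have h5 : (d : ℚ) ≠ 0 := by exact_mod_cast h4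
    have e3 := h b d ⟨-c, a, by linear_combination h1⟩ h3
    simp only [mul_zero, mul_one, zero_add, char_one ε h3, one_mul, Fv_of_ne _ _ h5,
      Fv_of_ne _ _ (one_ne_zero (α := ℚ)), zero_div, Int.cast_neg, neg_div] at e1 e2
    rw [Int.cast_neg]
    linear_combination e3 - e1 - s * e2
  have h1 : ∀ γ ∈ Gamma1 M, ∃ κ κ' : ℂ, κ + s * κ' = 0 ∧
      (∀ z : ℍ, E ((γ • z : ℍ) : ℂ) = κ + E z) ∧
      ∀ z : ℍ, E (posJ (γ • z)) = κ' + E (posJ z) := by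
    intro γ hγ
    have hm := (Gamma1_mem _ _).1 hγ
    have hγ' : posC γ ∈ Gamma1 M := by
      rw [Gamma1_mem]
      simpa [posC] using hm
    obtain ⟨κ, k1, k2⟩ := pos_kappa f hE hγ
    obtain ⟨κ', k3, k4⟩ := pos_kappa f hE hγ'
    refine ⟨κ, κ', ?_, k2, fun z => by rw [pos_J_smul, k4]⟩
    have hdet := γ.det_coe
    rw [Matrix.det_fin_two] at hdet
    have hc : (M : ℤ) ∣ γ 1 0 := (ZMod.intCast_zmod_eq_zero_iff_dvd _ _).1 hm.2.2
    have hd : (M : ℤ) ∣ γ 1 1 - 1 :=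
      (ZMod.intCast_zmod_eq_zero_iff_dvd _ _).1 (by push_cast; rw [hm.2.1, sub_self])
    have k5 : Fv (sym f) (γ 0 0 : ℤ) (γ 1 0 : ℤ) +
        s * Fv (sym f) (γ 0 0 : ℤ) (-γ 1 0 : ℤ) = 0 := by
      by_cases hz : γ 1 1 = 0
      · refine h0 _ (γ 0 0 + γ 0 1) _ (γ 1 0 + γ 1 1) (by linear_combination hdet) hc
          (by rw [add_sub_assoc]; exact hc.add hd) fun h => ?_
        rw [hz, add_zero] at h
        rw [hz, h] at hdet
        simp at hdet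
      · exact h0 _ _ _ _ hdet hc hd hz
    have k6 : Fv (sym f) (γ 0 0 : ℤ) (-γ 1 0 : ℤ) = 2 * Real.pi * Complex.I * κ' := by
      simpa [posC] using k3
    rw [k1, k6] at k5
    apply mul_left_cancel₀ two_pi_I_ne_zero
    linear_combination k5
  have h2 : ∀ σ : SL(2, ℤ), ∃ κ, Tendsto (fun z : ℍ => E ((σ • z : ℍ) : ℂ)) atImInfty (𝓝 κ) := by
    intro σ
    obtain ⟨κ, E', k1, k2⟩ := exists_kappa f hE σ
    exact ⟨κ, by simpa only [k2, add_zero] using k1.2.const_add κ⟩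
  let Es : ℂ → ℂ := fun w => (starRingEnd ℂ) (E (-(starRingEnd ℂ) w))
  have hEs : ∀ z : ℍ, Es z = (starRingEnd ℂ) (E (posJ z)) := fun z => rfl
  have h3 : ∀ z : ℍ, HasDerivAt Es (-(starRingEnd ℂ) (f (posJ z))) z := by
    intro z
    have k1 : HasDerivAt (fun w => E (-w)) (f (posJ z) * -1) ((starRingEnd ℂ) z) :=
      HasDerivAt.comp_of_eq _ (hE.1 (posJ z)) (hasDerivAt_neg _) rfl
    have k2 := k1.star_conj
    simp only [conj_conj, mul_neg, mul_one, star_neg] at k2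
    exact k2
  have h4 : ∀ σ : SL(2, ℤ), ∃ κ, Tendsto (fun z : ℍ => Es ((σ • z : ℍ) : ℂ)) atImInfty (𝓝 κ) := by
    intro σ
    obtain ⟨κ, k1⟩ := h2 (posC σ)
    refine ⟨(starRingEnd ℂ) κ, ?_⟩
    simp only [hEs, pos_J_smul]
    exact (continuous_conj.tendsto κ).comp (k1.comp pos_J_tendsto)
  have h5 : ∀ u v : ℂ, (∀ κ κ' : ℂ, κ + s * κ' = 0 → (u * κ + v * (starRingEnd ℂ) κ').re = 0) →
      ∀ z : ℍ, u * f z + v * -(starRingEnd ℂ) (f (posJ z)) = 0 := by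
    intro u v huv
    refine pos_zero (M := M) (G := fun w => u * E w + v * Es w)
      (fun z => ((hE.1 z).const_mul u).add ((h3 z).const_mul v)) (fun γ hγ => ?_) fun σ => ?_
    · obtain ⟨κ, κ', k1, k2, k3⟩ := h1 γ hγ
      refine ⟨_, huv κ κ' k1, fun z => ?_⟩
      simp only [hEs, k2, k3, map_add]
      ring
    · obtain ⟨κ, k1⟩ := h2 σ
      obtain ⟨κ', k2⟩ := h4 σ
      exact ⟨_, (k1.const_mul u).add (k2.const_mul v)⟩
  ext z
  have e1 := h5 1 s (fun κ κ' k => by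
    have := congrArg Complex.re k
    rcases hs with rfl | rfl <;> simpa using this) z
  have e2 := h5 Complex.I (-Complex.I * s) (fun κ κ' k => by
    have := congrArg Complex.im k
    rcases hs with rfl | rfl <;> simp at this ⊢ <;> linarith) z
  have e3 : 2 * Complex.I * f z = 0 := by linear_combination Complex.I * e1 + e2
  simpa using e3

end Pool.Agent.P.MP_20768c_nt
end

-- part Pool.Agent.P.MP_20768c_nt.EngB1
section

namespace Pool.Agent.P.MP_20768c_nt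

/-- `H(b,d) = F(b,d) - ε(d) L` on primitive vectors -/
def Hv {K : Type*} [Field K] {M : ℕ} (ε : DirichletCharacter K M) (S : ℚ → K) (b d : ℤ) : K :=
  Fv S b d - ε (d : ZMod M) * S 0

/-- the value of `H` at the primitive vector under `(b + k d, p d)` -/
def Hs {K : Type*} [Field K] {M : ℕ} (ε : DirichletCharacter K M) (S : ℚ → K) (p : ℕ)
    (b d : ℤ) (k : ℕ) : K :=
  if (p : ℤ) ∣ b + k * d then Hv ε S ((b + k * d) / p) d else Hv ε S (b + k * d) (p * d)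

lemma engb1_sum_lt {K ι : Type*} [NormedField K] [IsUltrametricDist K] {c : ℝ} (hc : 0 < c)
    (s : Finset ι) (f : ι → K) (h : ∀ i ∈ s, ‖f i‖ < c) : ‖∑ i ∈ s, f i‖ < c := by
  classical
  induction s using Finset.induction_on with
  | empty => simpa using hc
  | insert a s ha ih =>
    rw [Finset.sum_insert ha]
    exact (IsUltrametricDist.norm_add_le_max _ _).trans_lt
      (max_lt (h a (Finset.mem_insert_self _ _))
        (ih fun i hi => h i (Finset.mem_insert_of_mem hi)))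

lemma engb1_unique {p : ℕ} (hp : p.Prime) {d : ℤ} (hd : ¬ (p : ℤ) ∣ d) (b : ℤ) :
    ∃ k0 : ℕ, k0 < p ∧ (p : ℤ) ∣ b + k0 * d ∧
      ∀ k : ℕ, k < p → (p : ℤ) ∣ b + k * d → k = k0 := by
  have hpi : Prime (p : ℤ) := Nat.prime_iff_prime_int.mp hp
  have hp0 : (0 : ℤ) < p := by exact_mod_cast hp.pos
  obtain ⟨u, v, huv⟩ : IsCoprime (p : ℤ) d := (Prime.coprime_iff_not_dvd hpi).mpr hd
  have h0 := Int.emod_nonneg (-b * v) hp0.ne'
  have h1 := Int.emod_lt_of_pos (-b * v) hp0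
  obtain ⟨k0, hk0⟩ := Int.eq_ofNat_of_zero_le h0
  have hdiv : (p : ℤ) ∣ b + k0 * d := by
    rw [← hk0, Int.emod_def]
    refine ⟨b * u - (-b * v / p) * d, ?_⟩
    linear_combination (-b) * huv
  refine ⟨k0, by rw [hk0] at h1; exact_mod_cast h1, hdiv, fun k hk h => ?_⟩
  have h2 : (p : ℤ) ∣ ((k : ℤ) - k0) * d := by
    have : ((k : ℤ) - k0) * d = (b + k * d) - (b + k0 * d) := by ring
    rw [this]
    exact h.sub hdiv
  have h3 : (p : ℤ) ∣ (k : ℤ) - k0 := (hpi.dvd_or_dvd h2).resolve_right hd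
  have h4 : (k : ℤ) - k0 = 0 := by
    apply Int.eq_zero_of_abs_lt_dvd h3
    rw [hk0] at h1
    rw [abs_lt]
    constructor <;> omega
  omega

section
variable {K : Type*} [NormedField K] [IsUltrametricDist K] {p M : ℕ}
  {ε : DirichletCharacter K M} {S : ℚ → K} {α : K} {c : ℝ}

/-- the relation `U_p` on vectors -/
lemma engB_U (hp : p.Prime) (hM : p ∣ M) (hH : HLaw p M ε α S) (x y : ℤ) :
    α * Fv S x y = ∑ k ∈ Finset.range p, Fv S ((x + k * y : ℤ) : ℚ) ((p * y : ℤ) : ℚ) := by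
  have hp0 : (p : ℚ) ≠ 0 := by exact_mod_cast hp.ne_zero
  by_cases hy : y = 0
  · subst hy
    simp [Fv]
  have hy' : (y : ℚ) ≠ 0 := by exact_mod_cast hy
  have he : ε (p : ZMod M) = 0 := by
    have := char_zero ε hp hM (x := (p : ℤ)) dvd_rfl
    simpa using this
  rw [Fv_of_ne S _ hy', hH, he, zero_mul, add_zero]
  refine Finset.sum_congr rfl fun k _ => ?_
  have h2 : ((p * y : ℤ) : ℚ) ≠ 0 := by
    push_cast
    exact mul_ne_zero hp0 hy'
  rw [Fv_of_ne S _ h2]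
  congr 1
  push_cast
  field_simp

lemma engB_L (hp : p.Prime) (hM : p ∣ M) (hH : HLaw p M ε α S) (hc : 0 < c)
    (hμ : ∀ (n : ℕ) (a : ℤ), ¬ (p : ℤ) ∣ a → ‖S (a / (p : ℚ) ^ (n + 1))‖ < c) :
    ‖(α - 1) * S 0‖ < c := by
  have he : ε (p : ZMod M) = 0 := by
    have := char_zero ε hp hM (x := (p : ℤ)) dvd_rfl
    simpa using this
  have h0 := hH 0
  rw [he, zero_mul, add_zero] at h0
  obtain ⟨q, rfl⟩ : ∃ q, p = q + 1 := ⟨p - 1, by have := hp.pos; omega⟩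
  rw [Finset.sum_range_succ'] at h0
  have h1 : (α - 1) * S 0 =
      ∑ k ∈ Finset.range q, S ((0 + ((k + 1 : ℕ) : ℚ)) / ((q + 1 : ℕ) : ℚ)) := by
    have h2 : S ((0 + ((0 : ℕ) : ℚ)) / ((q + 1 : ℕ) : ℚ)) = S 0 := by simp
    rw [h2] at h0
    linear_combination h0
  rw [h1]
  refine engb1_sum_lt hc _ _ fun k hk => ?_
  have hk' : k < q := Finset.mem_range.mp hk
  have h3 := hμ 0 ((k + 1 : ℕ) : ℤ) (by
    intro h
    have h4 : q + 1 ∣ k + 1 := by exact_mod_cast h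
    have := Nat.le_of_dvd (Nat.succ_pos k) h4
    omega)
  simpa using h3

/-- `α H(y) = ∑ H(y_k)` up to `c` -/
lemma engB_step (hp : p.Prime) (hM : p ∣ M) (hH : HLaw p M ε α S)
    (hL : ‖(α - 1) * S 0‖ < c) {b d : ℤ} (hbd : IsCoprime b d) :
    ‖α * Hv ε S b d - ∑ k ∈ Finset.range p, Hs ε S p b d k‖ < c := by
  have hp0 : (p : ℚ) ≠ 0 := by exact_mod_cast hp.ne_zero
  have hc : 0 < c := (norm_nonneg _).trans_lt hL
  have hs : ∀ k : ℕ, Hs ε S p b d k = Fv S ((b + k * d : ℤ) : ℚ) ((p * d : ℤ) : ℚ) -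
      (if (p : ℤ) ∣ b + k * d then ε (d : ZMod M) * S 0 else 0) := by
    intro k
    unfold Hs Hv
    split_ifs with h
    · obtain ⟨w, hw⟩ := h
      have hp1 : (p : ℤ) ≠ 0 := by exact_mod_cast hp.ne_zero
      rw [hw, Int.mul_ediv_cancel_left _ hp1]
      have := Fv_smul S (w : ℚ) (d : ℚ) hp0
      push_cast
      rw [this]
    · rw [char_zero ε hp hM (x := p * d) (dvd_mul_right _ _)]
      simp
  simp only [hs]
  rw [Finset.sum_sub_distrib, ← engB_U hp hM hH b d]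
  unfold Hv
  by_cases hd : (p : ℤ) ∣ d
  · rw [char_zero ε hp hM hd]
    simpa using hc
  obtain ⟨k0, hk0, hk1, hk2⟩ := engb1_unique hp hd b
  rw [Finset.sum_eq_single k0 (fun k hk hne => if_neg fun h =>
    hne (hk2 k (Finset.mem_range.mp hk) h)) (fun h => absurd (Finset.mem_range.mpr hk0) h),
    if_pos hk1]
  have h1 : α * (Fv S b d - ε (d : ZMod M) * S 0) - (α * Fv S b d - ε (d : ZMod M) * S 0) =
      -(ε (d : ZMod M) * ((α - 1) * S 0)) := by ring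
  rw [h1, norm_neg, norm_mul]
  exact (mul_le_of_le_one_left (norm_nonneg _) (char_norm_le ε _)).trans_lt hL

/-- E1 -/
lemma engB_E1 (hp : p.Prime) (hM : p ∣ M) (hT : TLaw M ε S) (hc : 0 < c)
    (hμ : ∀ (n : ℕ) (a : ℤ), ¬ (p : ℤ) ∣ a → ‖S (a / (p : ℚ) ^ (n + 1))‖ < c)
    {a' c' b d : ℤ} {n : ℕ} (h1 : IsCoprime a' c') (h2 : IsCoprime b d) (hc' : (M : ℤ) ∣ c')
    (hdet : a' * d - b * c' = (p : ℤ) ^ n) : ‖Hv ε S b d - Fv S a' c'‖ < c := by
  have hp0 : (p : ℚ) ≠ 0 := by exact_mod_cast hp.ne_zero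
  obtain ⟨y, x0, hxy⟩ := h1
  have hpn : ((p : ℚ) ^ n) ≠ 0 := pow_ne_zero _ hp0
  have hb : b = a' * (y * b + x0 * d) + (-x0) * (p : ℤ) ^ n := by
    rw [← hdet]; linear_combination (-b) * hxy
  have hd : d = c' * (y * b + x0 * d) + y * (p : ℤ) ^ n := by
    rw [← hdet]; linear_combination (-d) * hxy
  set t : ℤ := y * b + x0 * d with ht
  have hT1 := hT a' (-x0) c' y (by linear_combination hxy) hc' (t : ℚ) ((p : ℚ) ^ n) (Or.inr hpn)
  have hb' : (a' : ℚ) * t + ((-x0 : ℤ) : ℚ) * (p : ℚ) ^ n = b := by exact_mod_cast hb.symm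
  have hd' : (c' : ℚ) * t + (y : ℚ) * (p : ℚ) ^ n = d := by exact_mod_cast hd.symm
  rw [hb', hd', Fv_of_ne S _ hpn] at hT1
  unfold Hv
  rw [hT1]
  rcases n with _ | n
  · have h3 : ε (d : ZMod M) = ε (y : ZMod M) := by
      apply char_cong
      have : d - y = c' * t := by rw [pow_zero, mul_one] at hd; linear_combination hd
      rw [this]
      exact hc'.mul_right t
    have h4 : S ((t : ℚ) / (p : ℚ) ^ 0) = S 0 := by
      have := hT.per 0 t
      simpa using this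
    rw [h3, h4]
    simpa using hc
  · have hpM : (p : ℤ) ∣ (M : ℤ) := by exact_mod_cast hM
    have hpp : (p : ℤ) ∣ (p : ℤ) ^ (n + 1) := dvd_pow_self _ (Nat.succ_ne_zero n)
    have hpd : (p : ℤ) ∣ d := by
      rw [hd]
      exact ((hpM.trans hc').mul_right t).add (hpp.mul_left y)
    have hpt : ¬ (p : ℤ) ∣ t := by
      intro h
      have hpb : (p : ℤ) ∣ b := by
        rw [hb]
        exact (h.mul_left a').add (hpp.mul_left _)
      have := h2.isUnit_of_dvd' hpb hpd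
      rw [Int.isUnit_iff_natAbs_eq] at this
      exact hp.one_lt.ne' (by simpa using this)
    rw [char_zero ε hp hM hpd, zero_mul, sub_zero, add_sub_cancel_left, norm_mul]
    exact (mul_le_of_le_one_left (norm_nonneg _) (char_norm_le ε _)).trans_lt (hμ n t hpt)

/-- the base case of E3: a parabolic element of `Γ₁(M)` -/
lemma engB_par {N : ℤ} {r : ℕ} (hMN : (M : ℤ) = N * (p : ℤ) ^ r) (hp : p.Prime)
    (hT : TLaw M ε S) {a' c' b1 d1 b2 d2 : ℤ} (hc' : N ∣ c') (hpc : ¬ (p : ℤ) ∣ c')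
    (h1 : a' * d1 - b1 * c' = 1) (h2 : a' * d2 - b2 * c' = 1)
    (hd1 : (p : ℤ) ^ r ∣ d1) (hd2 : (p : ℤ) ^ r ∣ d2) : Fv S b2 d2 = Fv S b1 d1 := by
  set s : ℤ := d1 * b2 - b1 * d2 with hs
  have hps : (p : ℤ) ^ r ∣ s := (hd1.mul_right b2).sub (hd2.mul_left b1)
  have hMs : (M : ℤ) ∣ s * c' := by
    rw [hMN, mul_comm N]
    exact mul_dvd_mul hps hc'
  have hM1 : (M : ℤ) ∣ -(s * c' ^ 2) := by
    have : -(s * c' ^ 2) = s * c' * (-c') := by ring
    rw [this]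
    exact hMs.mul_right _
  have he : ε ((1 + s * a' * c' : ℤ) : ZMod M) = 1 := by
    apply char_one
    have : 1 + s * a' * c' - 1 = s * c' * a' := by ring
    rw [this]
    exact hMs.mul_right _
  have hdet : (1 - s * a' * c') * (1 + s * a' * c') - (s * a' ^ 2) * (-(s * c' ^ 2)) = 1 := by
    ring
  have hc0 : (c' : ℚ) ≠ 0 := by
    intro h
    have : c' = 0 := by exact_mod_cast h
    exact hpc (this ▸ dvd_zero _)
  have hbd : (b1 : ℚ) ≠ 0 ∨ (d1 : ℚ) ≠ 0 := by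
    by_contra h
    rw [not_or, not_not, not_not] at h
    have e1 : b1 = 0 := by exact_mod_cast h.1
    have e2 : d1 = 0 := by exact_mod_cast h.2
    rw [e1, e2] at h1
    simp at h1
  have hA := hT _ _ _ _ hdet hM1 a' c' (Or.inr hc0)
  have hB := hT _ _ _ _ hdet hM1 b1 d1 hbd
  rw [he, one_mul] at hA hB
  have e1 : (1 - s * a' * c') * a' + (s * a' ^ 2) * c' = a' := by ring
  have e2 : (-(s * c' ^ 2)) * a' + (1 + s * a' * c') * c' = c' := by ring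
  have e3 : (1 - s * a' * c') * b1 + (s * a' ^ 2) * d1 = b2 := by
    rw [hs]
    linear_combination ((d1 * b2 - b1 * d2) * a' + b2) * h1 - b1 * h2
  have e4 : (-(s * c' ^ 2)) * b1 + (1 + s * a' * c') * d1 = d2 := by
    rw [hs]
    linear_combination ((d1 * b2 - b1 * d2) * c' + d2) * h1 - d1 * h2
  have f1 : ((1 - s * a' * c' : ℤ) : ℚ) * a' + ((s * a' ^ 2 : ℤ) : ℚ) * c' = a' := by
    exact_mod_cast e1
  have f2 : ((-(s * c' ^ 2) : ℤ) : ℚ) * a' + ((1 + s * a' * c' : ℤ) : ℚ) * c' = c' := by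
    exact_mod_cast e2
  have f3 : ((1 - s * a' * c' : ℤ) : ℚ) * b1 + ((s * a' ^ 2 : ℤ) : ℚ) * d1 = b2 := by
    exact_mod_cast e3
  have f4 : ((-(s * c' ^ 2) : ℤ) : ℚ) * b1 + ((1 + s * a' * c' : ℤ) : ℚ) * d1 = d2 := by
    exact_mod_cast e4
  rw [f1, f2] at hA
  rw [f3, f4] at hB
  linear_combination hB - hA

end

end Pool.Agent.P.MP_20768c_nt
end

-- part Pool.Agent.P.MP_20768c_nt.EngB2
section

namespace Pool.Agent.P.MP_20768c_nt

lemma engb2_add_lt {K : Type*} [NormedField K] [IsUltrametricDist K] {x y : K} {c : ℝ}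
    (hx : ‖x‖ < c) (hy : ‖y‖ < c) : ‖x + y‖ < c :=
  (IsUltrametricDist.norm_add_le_max x y).trans_lt (max_lt hx hy)

lemma engb2_sub_lt {K : Type*} [NormedField K] [IsUltrametricDist K] {x y : K} {c : ℝ}
    (hx : ‖x‖ < c) (hy : ‖y‖ < c) : ‖x - y‖ < c := by
  rw [sub_eq_add_neg]
  exact engb2_add_lt hx (by rwa [norm_neg])

lemma engb2_sum_lt {K : Type*} [NormedField K] [IsUltrametricDist K] {c : ℝ} (hc : 0 < c)
    (f : ℕ → K) (n : ℕ) (h : ∀ k, ‖f k‖ < c) : ‖∑ k ∈ Finset.range n, f k‖ < c := by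
  induction n with
  | zero => simpa using hc
  | succ n ih =>
    rw [Finset.sum_range_succ]
    exact engb2_add_lt ih (h n)

lemma engb2_cop {p : ℕ} (hp : p.Prime) {x : ℤ} (h : ¬ (p : ℤ) ∣ x) : IsCoprime x (p : ℤ) :=
  (((Nat.prime_iff_prime_int.mp hp).irreducible.coprime_iff_not_dvd).mpr h).symm

lemma engb2_shift {x y : ℤ} (h : IsCoprime x y) (k : ℤ) : IsCoprime (x + k * y) y :=
  h.add_mul_right_left k

section
variable {K : Type*} [Field K] {p M : ℕ} (ε : DirichletCharacter K M) (S : ℚ → K)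

/-- the neighbour data against `(a' + k c', p c')` -/
lemma engb2_data2 (hp : p.Prime) {a' c' b d : ℤ} {n : ℕ} (h2 : IsCoprime b d)
    (hdet : a' * d - b * c' = (p : ℤ) ^ n) (k : ℕ) :
    ∃ (b' d' : ℤ) (n' : ℕ), Hs ε S p b d k = Hv ε S b' d' ∧ IsCoprime b' d' ∧
      (a' + k * c') * d' - b' * (p * c') = (p : ℤ) ^ n' := by
  have hs := engb2_shift h2 (k : ℤ)
  by_cases h : (p : ℤ) ∣ b + k * d
  · refine ⟨(b + k * d) / p, d, n, by rw [Hs, if_pos h], ?_, ?_⟩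
    · exact hs.of_isCoprime_of_dvd_left (Int.ediv_dvd_of_dvd h)
    · have e := Int.ediv_mul_cancel h
      linear_combination hdet - c' * e
  · refine ⟨b + k * d, p * d, n + 1, by rw [Hs, if_neg h], (engb2_cop hp h).mul_right hs, ?_⟩
    rw [pow_succ]
    linear_combination (p : ℤ) * hdet

/-- the neighbour data against `((a' + k c') / p, c')` -/
lemma engb2_data3 (hp : p.Prime) {a' c' b d a2 : ℤ} {n r T : ℕ} (h2 : IsCoprime b d)
    (hpc : ¬ (p : ℤ) ∣ c') (hdet : a' * d - b * c' = (p : ℤ) ^ n) (k : ℕ)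
    (ha : a' + k * c' = p * a2) (hd : (p : ℤ) ^ (n + r) ∣ (p : ℤ) ^ (T + 1) * d) :
    ∃ (b' d' : ℤ) (n' : ℕ), Hs ε S p b d k = Hv ε S b' d' ∧ IsCoprime b' d' ∧
      a2 * d' - b' * c' = (p : ℤ) ^ n' ∧ (p : ℤ) ^ (n' + r) ∣ (p : ℤ) ^ T * d' := by
  have hs := engb2_shift h2 (k : ℤ)
  have hpp : Prime (p : ℤ) := Nat.prime_iff_prime_int.mp hp
  have key : (b + k * d) * c' = p * a2 * d - (p : ℤ) ^ n := by
    linear_combination d * ha - hdet
  cases n with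
  | zero =>
    have h : ¬ (p : ℤ) ∣ b + k * d := by
      intro h
      have h1 : (p : ℤ) ∣ p * a2 * d - (b + k * d) * c' :=
        dvd_sub (Dvd.intro _ (mul_assoc _ _ _).symm) (h.mul_right _)
      have h3 : (p : ℤ) * a2 * d - (b + k * d) * c' = 1 := by
        rw [key]; ring
      rw [h3] at h1
      exact hpp.not_dvd_one h1
    refine ⟨b + k * d, p * d, 0, by rw [Hs, if_neg h], (engb2_cop hp h).mul_right hs, ?_, ?_⟩
    · linear_combination (-1 : ℤ) * key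
    · have e : (p : ℤ) ^ T * (p * d) = (p : ℤ) ^ (T + 1) * d := by ring
      rw [e]
      exact hd
  | succ n =>
    have h : (p : ℤ) ∣ b + k * d := by
      have h1 : (p : ℤ) ∣ (b + k * d) * c' := ⟨a2 * d - (p : ℤ) ^ n, by rw [key]; ring⟩
      exact (hpp.dvd_or_dvd h1).resolve_right hpc
    refine ⟨(b + k * d) / p, d, n, by rw [Hs, if_pos h],
      hs.of_isCoprime_of_dvd_left (Int.ediv_dvd_of_dvd h), ?_, ?_⟩
    · have e := Int.ediv_mul_cancel h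
      apply mul_left_cancel₀ hpp.ne_zero
      linear_combination (-1 : ℤ) * key - c' * e
    · have e1 : (p : ℤ) ^ (n + 1 + r) = p * (p : ℤ) ^ (n + r) := by ring
      have e2 : (p : ℤ) ^ (T + 1) * d = p * ((p : ℤ) ^ T * d) := by ring
      rw [e1, e2] at hd
      exact (mul_dvd_mul_iff_left hpp.ne_zero).mp hd

end

section
variable {K : Type*} [NormedField K] [IsUltrametricDist K] {p M : ℕ}
  {ε : DirichletCharacter K M} {S : ℚ → K} {α : K} {c : ℝ} {N : ℤ} {r : ℕ}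

lemma engb2_E2_aux (hp : p.Prime) (hM : p ∣ M) (hN : IsCoprime N (p : ℤ))
    (hMN : (M : ℤ) = N * (p : ℤ) ^ r) (hT : TLaw M ε S) (hH : HLaw p M ε α S) (hα1 : ‖α‖ = 1)
    (hc : 0 < c) (hμ : ∀ (n : ℕ) (a : ℤ), ¬ (p : ℤ) ∣ a → ‖S (a / (p : ℚ) ^ (n + 1))‖ < c)
    (T : ℕ) : ∀ (a' c' b d : ℤ) (n : ℕ), IsCoprime a' c' → IsCoprime b d → N ∣ c' →
      (p : ℤ) ∣ c' → (p : ℤ) ^ r ∣ (p : ℤ) ^ T * c' → a' * d - b * c' = (p : ℤ) ^ n →
      ‖Hv ε S b d - Fv S a' c'‖ < c := by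
  induction T with
  | zero =>
    intro a' c' b d n h1 h2 hc' _ hr hdet
    rw [pow_zero, one_mul] at hr
    refine engB_E1 hp hM hT hc hμ h1 h2 ?_ hdet
    rw [hMN]
    exact IsCoprime.mul_dvd hN.pow_right hc' hr
  | succ T ih =>
    intro a' c' b d n h1 h2 hc' hpc hr hdet
    have hL := engB_L hp hM hH hc hμ
    have hst := engB_step hp hM hH hL h2
    have hU := engB_U hp hM hH a' c'
    have hk : ∀ k : ℕ,
        ‖Hs ε S p b d k - Fv S ((a' + k * c' : ℤ) : ℚ) ((p * c' : ℤ) : ℚ)‖ < c := by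
      intro k
      obtain ⟨b', d', n', e, hco, hdet'⟩ := engb2_data2 ε S hp h2 hdet k
      rw [e]
      have hs := engb2_shift h1 (k : ℤ)
      refine ih _ _ b' d' n' ((hs.of_isCoprime_of_dvd_right hpc).mul_right hs) hco
        (hc'.mul_left _) (Dvd.intro _ rfl) ?_ hdet'
      have e2 : (p : ℤ) ^ T * (p * c') = (p : ℤ) ^ (T + 1) * c' := by ring
      rw [e2]
      exact hr
    have hsum := engb2_sum_lt hc _ p hk
    have := engb2_add_lt hst hsum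
    rw [Finset.sum_sub_distrib, ← hU, sub_add_sub_cancel, ← mul_sub, norm_mul, hα1,
      one_mul] at this
    exact this

/-- E2: `N p ∣ c'`; the induction is on `T` with `p ^ r ∣ p ^ T c'` -/
lemma engB_E2 (hp : p.Prime) (hM : p ∣ M) (hN : IsCoprime N (p : ℤ))
    (hMN : (M : ℤ) = N * (p : ℤ) ^ r) (hT : TLaw M ε S) (hH : HLaw p M ε α S) (hα1 : ‖α‖ = 1)
    (hc : 0 < c) (hμ : ∀ (n : ℕ) (a : ℤ), ¬ (p : ℤ) ∣ a → ‖S (a / (p : ℚ) ^ (n + 1))‖ < c)
    {a' c' b d : ℤ} {n : ℕ} (h1 : IsCoprime a' c') (h2 : IsCoprime b d) (hc' : N ∣ c')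
    (hpc : (p : ℤ) ∣ c') (hdet : a' * d - b * c' = (p : ℤ) ^ n) :
    ‖Hv ε S b d - Fv S a' c'‖ < c :=
  engb2_E2_aux hp hM hN hMN hT hH hα1 hc hμ r a' c' b d n h1 h2 hc' hpc (Dvd.intro _ rfl) hdet

lemma engb2_E3_aux (hp : p.Prime) (hM : p ∣ M) (hN : IsCoprime N (p : ℤ))
    (hMN : (M : ℤ) = N * (p : ℤ) ^ r) (hT : TLaw M ε S) (hH : HLaw p M ε α S) (hα1 : ‖α‖ = 1)
    (hc : 0 < c) (hμ : ∀ (n : ℕ) (a : ℤ), ¬ (p : ℤ) ∣ a → ‖S (a / (p : ℚ) ^ (n + 1))‖ < c)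
    {c' : ℤ} (hc' : N ∣ c') (hpc : ¬ (p : ℤ) ∣ c')
    (T : ℕ) : ∀ (a' b1 d1 b2 d2 : ℤ) (n1 n2 : ℕ), IsCoprime a' c' → IsCoprime b1 d1 →
      IsCoprime b2 d2 → a' * d1 - b1 * c' = (p : ℤ) ^ n1 → a' * d2 - b2 * c' = (p : ℤ) ^ n2 →
      (p : ℤ) ^ (n1 + r) ∣ (p : ℤ) ^ T * d1 → (p : ℤ) ^ (n2 + r) ∣ (p : ℤ) ^ T * d2 →
      ‖Hv ε S b1 d1 - Hv ε S b2 d2‖ < c := by
  have hpp : Prime (p : ℤ) := Nat.prime_iff_prime_int.mp hp
  induction T with
  | zero =>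
    intro a' b1 d1 b2 d2 n1 n2 _ h1 h2 hdet1 hdet2 hd1 hd2
    rw [pow_zero, one_mul] at hd1 hd2
    have hr : r ≠ 0 := by
      rintro rfl
      have h3 : (p : ℤ) ∣ (M : ℤ) := by exact_mod_cast hM
      rw [hMN, pow_zero, mul_one] at h3
      exact hpp.not_isUnit (hN.isUnit_of_dvd' h3 dvd_rfl)
    have base : ∀ (b d : ℤ) (n : ℕ), IsCoprime b d → a' * d - b * c' = (p : ℤ) ^ n →
        (p : ℤ) ^ (n + r) ∣ d → a' * d - b * c' = 1 ∧ (p : ℤ) ^ r ∣ d ∧ (p : ℤ) ∣ d := by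
      intro b d n h hdet hd
      have hpr : (p : ℤ) ^ r ∣ d := (pow_dvd_pow _ (Nat.le_add_left r n)).trans hd
      have hpd : (p : ℤ) ∣ d := (dvd_pow_self _ hr).trans hpr
      refine ⟨?_, hpr, hpd⟩
      cases n with
      | zero => simpa using hdet
      | succ n =>
        exfalso
        have h3 : (p : ℤ) ∣ b * c' := by
          have e : b * c' = a' * d - (p : ℤ) ^ (n + 1) := by linear_combination (-1 : ℤ) * hdet
          rw [e]
          exact dvd_sub (hpd.mul_left _) (dvd_pow_self _ (Nat.succ_ne_zero n))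
        exact hpp.not_isUnit (h.isUnit_of_dvd' ((hpp.dvd_or_dvd h3).resolve_right hpc) hpd)
    obtain ⟨e1, r1, p1⟩ := base b1 d1 n1 h1 hdet1 hd1
    obtain ⟨e2, r2, p2⟩ := base b2 d2 n2 h2 hdet2 hd2
    have hF := engB_par hMN hp hT hc' hpc e1 e2 r1 r2
    rw [Hv, Hv, char_zero ε hp hM p1, char_zero ε hp hM p2, hF, sub_self, norm_zero]
    exact hc
  | succ T ih =>
    intro a' b1 d1 b2 d2 n1 n2 h0 h1 h2 hdet1 hdet2 hd1 hd2
    have hL := engB_L hp hM hH hc hμ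
    have hst1 := engB_step hp hM hH hL h1
    have hst2 := engB_step hp hM hH hL h2
    have hk : ∀ k : ℕ, ‖Hs ε S p b1 d1 k - Hs ε S p b2 d2 k‖ < c := by
      intro k
      have hs := engb2_shift h0 (k : ℤ)
      by_cases h : (p : ℤ) ∣ a' + k * c'
      · obtain ⟨a2, ha⟩ := h
        obtain ⟨b1', d1', n1', e1, co1, det1, dv1⟩ := engb2_data3 ε S hp h1 hpc hdet1 k ha hd1
        obtain ⟨b2', d2', n2', e2, co2, det2, dv2⟩ := engb2_data3 ε S hp h2 hpc hdet2 k ha hd2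
        rw [e1, e2]
        rw [ha] at hs
        exact ih a2 b1' d1' b2' d2' n1' n2' hs.of_mul_left_right co1 co2 det1 det2 dv1 dv2
      · obtain ⟨b1', d1', n1', e1, co1, det1⟩ := engb2_data2 ε S hp h1 hdet1 k
        obtain ⟨b2', d2', n2', e2, co2, det2⟩ := engb2_data2 ε S hp h2 hdet2 k
        have hco := (engb2_cop hp h).mul_right hs
        have q1 := engB_E2 hp hM hN hMN hT hH hα1 hc hμ hco co1 (hc'.mul_left _)
          (Dvd.intro _ rfl) det1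
        have q2 := engB_E2 hp hM hN hMN hT hH hα1 hc hμ hco co2 (hc'.mul_left _)
          (Dvd.intro _ rfl) det2
        have := engb2_sub_lt q1 q2
        rw [sub_sub_sub_cancel_right] at this
        rw [e1, e2]
        exact this
    have hsum := engb2_sum_lt hc _ p hk
    have := engb2_add_lt (engb2_sub_lt hst1 hst2) hsum
    rw [Finset.sum_sub_distrib] at this
    have e : α * Hv ε S b1 d1 - ∑ k ∈ Finset.range p, Hs ε S p b1 d1 k -
        (α * Hv ε S b2 d2 - ∑ k ∈ Finset.range p, Hs ε S p b2 d2 k) +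
        (∑ k ∈ Finset.range p, Hs ε S p b1 d1 k - ∑ k ∈ Finset.range p, Hs ε S p b2 d2 k) =
        α * (Hv ε S b1 d1 - Hv ε S b2 d2) := by ring
    rw [e, norm_mul, hα1, one_mul] at this
    exact this

/-- E3: `p ∤ c'`; the induction is on `T` with `p ^ (n_i + r) ∣ p ^ T d_i` -/
lemma engB_E3 (hp : p.Prime) (hM : p ∣ M) (hN : IsCoprime N (p : ℤ))
    (hMN : (M : ℤ) = N * (p : ℤ) ^ r) (hT : TLaw M ε S) (hH : HLaw p M ε α S) (hα1 : ‖α‖ = 1)
    (hc : 0 < c) (hμ : ∀ (n : ℕ) (a : ℤ), ¬ (p : ℤ) ∣ a → ‖S (a / (p : ℚ) ^ (n + 1))‖ < c)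
    {a' c' b1 d1 b2 d2 : ℤ} {n1 n2 : ℕ} (h0 : IsCoprime a' c') (h1 : IsCoprime b1 d1)
    (h2 : IsCoprime b2 d2) (hc' : N ∣ c') (hpc : ¬ (p : ℤ) ∣ c')
    (hdet1 : a' * d1 - b1 * c' = (p : ℤ) ^ n1) (hdet2 : a' * d2 - b2 * c' = (p : ℤ) ^ n2) :
    ‖Hv ε S b1 d1 - Hv ε S b2 d2‖ < c :=
  engb2_E3_aux hp hM hN hMN hT hH hα1 hc hμ hc' hpc (n1 + n2 + r) a' b1 d1 b2 d2 n1 n2 h0 h1 h2
    hdet1 hdet2 ((pow_dvd_pow _ (by omega)).mul_right _) ((pow_dvd_pow _ (by omega)).mul_right _)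

end

end Pool.Agent.P.MP_20768c_nt
end

-- part Pool.Agent.P.MP_20768c_nt.EngA1
section

namespace Pool.Agent.P.MP_20768c_nt

section
variable {K : Type*} [NormedField K] [IsUltrametricDist K]

lemma enga1_add_lt {x y : K} {c : ℝ} (hx : ‖x‖ < c) (hy : ‖y‖ < c) : ‖x + y‖ < c :=
  (IsUltrametricDist.norm_add_le_max x y).trans_lt (max_lt hx hy)

lemma enga1_pow_sub_one {x : K} (hx : ‖x‖ = 1) (n : ℕ) : ‖x ^ n - 1‖ ≤ ‖x - 1‖ := by
  induction n with
  | zero => simp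
  | succ n ih =>
    have e : x ^ (n + 1) - 1 = x * (x ^ n - 1) + (x - 1) := by ring
    rw [e]
    refine (IsUltrametricDist.norm_add_le_max _ _).trans (max_le ?_ le_rfl)
    rw [norm_mul, hx, one_mul]
    exact ih

lemma norm_zpow_sub_one {x : K} (hx : ‖x‖ = 1) (j : ℤ) : ‖x ^ j - 1‖ ≤ ‖x - 1‖ := by
  have hx0 : x ≠ 0 := by
    intro h
    rw [h, norm_zero] at hx
    exact zero_ne_one hx
  obtain ⟨n, rfl | rfl⟩ := Int.eq_nat_or_neg j
  · rw [zpow_natCast]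
    exact enga1_pow_sub_one hx n
  · have e : x ^ (-(n : ℤ)) - 1 = -((x ^ n - 1) / x ^ n) := by
      rw [zpow_neg, zpow_natCast]
      field_simp
      ring
    rw [e, norm_neg, norm_div, norm_pow, hx, one_pow, div_one]
    exact enga1_pow_sub_one hx n

lemma enga1_expand {w : K} (hw : ‖w‖ = 1) (n : ℕ) :
    ∃ y : K, ‖y‖ ≤ 1 ∧ w ^ n - 1 = n * (w - 1) + (w - 1) * (w - 1) * y := by
  induction n with
  | zero => exact ⟨0, by simp, by simp⟩
  | succ n ih =>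
    obtain ⟨y, hy, e⟩ := ih
    refine ⟨n + w * y, ?_, ?_⟩
    · refine (IsUltrametricDist.norm_add_le_max _ _).trans (max_le ?_ ?_)
      · exact IsUltrametricDist.norm_natCast_le_one K n
      · rw [norm_mul, hw, one_mul]
        exact hy
    · push_cast
      linear_combination w * e

/-- if `(w - 1) ^ 2 L` is small then `(w ^ (p ^ k) - 1) L` is small for some `k` -/
lemma unip_pow {p : ℕ} (hpn : ‖(p : K)‖ < 1) {w L : K} (hw : ‖w‖ = 1) {c : ℝ}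
    (h : ‖(w - 1) * (w - 1) * L‖ < c) : ∃ k : ℕ, ‖(w ^ (p ^ k) - 1) * L‖ < c := by
  have hc : 0 < c := (norm_nonneg _).trans_lt h
  have hB : 0 < ‖(w - 1) * L‖ + 1 := by positivity
  obtain ⟨k, hk⟩ := exists_pow_lt_of_lt_one (div_pos hc hB) hpn
  refine ⟨k, ?_⟩
  obtain ⟨y, hy, e⟩ := enga1_expand hw (p ^ k)
  have e2 : (w ^ (p ^ k) - 1) * L =
      (p : K) ^ k * ((w - 1) * L) + y * ((w - 1) * (w - 1) * L) := by
    rw [e]
    push_cast
    ring
  rw [e2]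
  refine enga1_add_lt ?_ ?_
  · rw [norm_mul, norm_pow]
    rw [lt_div_iff₀ hB] at hk
    have h0 : 0 ≤ ‖(p : K)‖ ^ k := by positivity
    nlinarith
  · rw [norm_mul]
    exact (mul_le_of_le_one_left (norm_nonneg _) hy).trans_lt h

variable {p M : ℕ} {ε : DirichletCharacter K M} {S : ℚ → K} {A α : K} {c : ℝ}

/-- case `p ∤ M`: the values on `ℤ[1/p]` -/
lemma engA_val (hp : p.Prime) (hT : TLaw M ε S) (hα1 : ‖α‖ = 1) (he : ‖ε (p : ZMod M)‖ = 1)
    (hc : 0 < c)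
    (hμ : ∀ (n : ℕ) (a : ℤ), ¬ (p : ℤ) ∣ a →
      ‖α * S (a / (p : ℚ) ^ (n + 1)) - ε (p : ZMod M) * S (a / (p : ℚ) ^ n)‖ < c)
    (n : ℕ) (a : ℤ) (ha : n = 0 ∨ ¬ (p : ℤ) ∣ a) :
    ‖S (a / (p : ℚ) ^ n) - (α / ε (p : ZMod M)) ^ (-(n : ℤ)) * S 0‖ < c := by
  have hα0 : α ≠ 0 := by
    intro h
    rw [h, norm_zero] at hα1
    exact zero_ne_one hα1
  have he0 : ε (p : ZMod M) ≠ 0 := by
    intro h
    rw [h, norm_zero] at he
    exact zero_ne_one he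
  induction n with
  | zero =>
    have := hT.per 0 a
    rw [zero_add] at this
    simpa [this] using hc
  | succ n ih =>
    have ha' : ¬ (p : ℤ) ∣ a := by
      rcases ha with h | h
      · omega
      · exact h
    have h1 := hμ n a ha'
    have h2 := ih (Or.inr ha')
    set e := ε (p : ZMod M) with hedef
    have e1 : (α / e) ^ (-((n + 1 : ℕ) : ℤ)) = (α / e) ^ (-(n : ℤ)) * (e / α) := by
      rw [zpow_neg, zpow_neg, zpow_natCast, zpow_natCast, pow_succ, mul_inv, inv_div]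
    have e2 : S (a / (p : ℚ) ^ (n + 1)) - (α / e) ^ (-((n + 1 : ℕ) : ℤ)) * S 0 =
        α⁻¹ * (α * S (a / (p : ℚ) ^ (n + 1)) - e * S (a / (p : ℚ) ^ n)) +
          (e / α) * (S (a / (p : ℚ) ^ n) - (α / e) ^ (-(n : ℤ)) * S 0) := by
      rw [e1]
      field_simp
      ring
    rw [e2]
    refine enga1_add_lt ?_ ?_
    · rw [norm_mul, norm_inv, hα1, inv_one, one_mul]
      exact h1
    · rw [norm_mul, norm_div, hα1, he, div_one, one_mul]
      exact h2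

/-- case `p ∤ M`: the Hecke relation at `0` -/
lemma engA_rel (hp : p.Prime) (hT : TLaw M ε S) (hH : HLaw p M ε A S)
    (hα : α ^ 2 - A * α + ε (p : ZMod M) * p = 0) (hα1 : ‖α‖ = 1)
    (he : ‖ε (p : ZMod M)‖ = 1) (hc : 0 < c)
    (hμ : ∀ (n : ℕ) (a : ℤ), ¬ (p : ℤ) ∣ a →
      ‖α * S (a / (p : ℚ) ^ (n + 1)) - ε (p : ZMod M) * S (a / (p : ℚ) ^ n)‖ < c) :
    ‖(α - 1) * (α / ε (p : ZMod M) - 1) * S 0‖ < c := by
  have he0 : ε (p : ZMod M) ≠ 0 := by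
    intro h
    rw [h, norm_zero] at he
    exact zero_ne_one he
  set e := ε (p : ZMod M) with hedef
  have key : ∀ m : ℕ, m + 1 ≤ p →
      ‖α * ∑ k ∈ Finset.range m, S (((k + 1 : ℕ) : ℚ) / p) - m * (e * S 0)‖ < c := by
    intro m
    induction m with
    | zero => intro _; simpa using hc
    | succ m ih =>
      intro hm
      have h1 := ih (by omega)
      have hnd : ¬ (p : ℤ) ∣ ((m + 1 : ℕ) : ℤ) := by
        rw [Int.natCast_dvd_natCast]
        exact Nat.not_dvd_of_pos_of_lt (by omega) (by omega)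
      have h2 := hμ 0 ((m + 1 : ℕ) : ℤ) hnd
      have h3 := hT.per 0 ((m + 1 : ℕ) : ℤ)
      rw [zero_add] at h3
      rw [zero_add, pow_one, pow_zero, div_one, h3, Int.cast_natCast] at h2
      have e1 : α * ∑ k ∈ Finset.range (m + 1), S (((k + 1 : ℕ) : ℚ) / p) -
          ((m + 1 : ℕ) : K) * (e * S 0) =
          (α * ∑ k ∈ Finset.range m, S (((k + 1 : ℕ) : ℚ) / p) - m * (e * S 0)) +
            (α * S (((m + 1 : ℕ) : ℚ) / p) - e * S 0) := by
        rw [Finset.sum_range_succ]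
        push_cast
        ring
      rw [e1]
      exact enga1_add_lt h1 h2
  obtain ⟨m, rfl⟩ : ∃ m, p = m + 1 := ⟨p - 1, by have := hp.pos; omega⟩
  have h1 := key m le_rfl
  have h2 := hH 0
  rw [Finset.sum_range_succ', mul_zero] at h2
  simp only [zero_add, Nat.cast_zero, zero_div] at h2
  have e1 : (α - 1) * (α / e - 1) * S 0 =
      e⁻¹ * (α * ∑ k ∈ Finset.range m, S (((k + 1 : ℕ) : ℚ) / ((m + 1 : ℕ) : ℚ)) -
        m * (e * S 0)) := by
    have hα' : α ^ 2 - A * α + e * ((m : K) + 1) = 0 := by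
      rw [← hα]
      push_cast
      ring
    field_simp
    linear_combination α * h2 + S 0 * hα'
  rw [e1, norm_mul, norm_inv, he, inv_one, one_mul]
  exact h1

end

end Pool.Agent.P.MP_20768c_nt
end

-- part Pool.Agent.P.MP_20768c_nt.C3a
section

namespace Pool.Agent.P.MP_20768c_nt

lemma c3a_pow_dvd_lcm {q e a b : ℕ} (hq : q.Prime) (ha : a ≠ 0) (hb : b ≠ 0)
    (h : q ^ e ∣ Nat.lcm a b) : q ^ e ∣ a ∨ q ^ e ∣ b := by
  rw [hq.pow_dvd_iff_le_factorization (Nat.lcm_ne_zero ha hb), Nat.factorization_lcm ha hb,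
    Finsupp.sup_apply, le_sup_iff] at h
  rcases h with h | h
  · exact Or.inl ((hq.pow_dvd_iff_le_factorization ha).2 h)
  · exact Or.inr ((hq.pow_dvd_iff_le_factorization hb).2 h)

lemma c3a_fermat {p r j : ℕ} (hp : p.Prime) (hr : r.Prime) (hpr : p < r) (hj : r - 1 ∣ j) :
    (r : ℤ) ∣ (p : ℤ) ^ j - 1 := by
  obtain ⟨k, rfl⟩ := hj
  have hc : IsCoprime (p : ℤ) (r : ℤ) :=
    Nat.isCoprime_iff_coprime.2 ((Nat.coprime_primes hp hr).2 hpr.ne)
  have h1 := (Int.ModEq.pow_card_sub_one_eq_one hr hc).pow k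
  rw [one_pow, ← pow_mul] at h1
  exact h1.symm.dvd

lemma c3a_cast_one {r Q : ℕ} (hr : r.Prime) (h : Q ∣ r - 1) : (r : ZMod Q) = 1 := by
  have h1 : ((r - 1 : ℕ) : ZMod Q) = 0 := (ZMod.natCast_eq_zero_iff _ _).2 h
  rw [Nat.cast_sub hr.one_lt.le, Nat.cast_one, sub_eq_zero] at h1
  exact h1

/-- two primes of Dirichlet: a modulus `a'` in the class of `a0` whose exponent avoids `q ^ e` -/
lemma c3_arith {p : ℕ} (hp : p.Prime) {a0 C : ℤ} (hC : C ≠ 0) (h : IsCoprime a0 C) {q e : ℕ}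
    (hq : q.Prime) (h3 : 3 ≤ Nat.totient (q ^ e)) :
    ∃ (a' : ℤ) (j : ℕ), a' ≠ 0 ∧ C ∣ a' - a0 ∧ a' ∣ (p : ℤ) ^ j - 1 ∧ ¬ q ^ e ∣ j := by
  classical
  have hn0 : C.natAbs ≠ 0 := Int.natAbs_ne_zero.2 hC
  have hQ0 : q ^ e ≠ 0 := pow_ne_zero _ hq.ne_zero
  have : NeZero C.natAbs := ⟨hn0⟩
  have : NeZero (q ^ e) := ⟨hQ0⟩
  have : NeZero (q ^ e * C.natAbs) := ⟨mul_ne_zero hQ0 hn0⟩
  have hu : IsUnit (a0 : ZMod C.natAbs) := by
    obtain ⟨u, v, huv⟩ := h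
    have h0 : (C : ZMod C.natAbs) = 0 :=
      (ZMod.intCast_zmod_eq_zero_iff_dvd _ _).2 (Int.natAbs_dvd.2 dvd_rfl)
    have h1 := congrArg (Int.cast : ℤ → ZMod C.natAbs) huv
    push_cast at h1
    rw [h0, mul_zero, add_zero] at h1
    exact IsUnit.of_mul_eq_one_right _ h1
  obtain ⟨a1, ha1⟩ := ZMod.unitsMap_surjective (dvd_mul_left C.natAbs (q ^ e)) hu.unit
  have hdQ : q ^ e ∣ q ^ e * C.natAbs := dvd_mul_right _ _
  obtain ⟨ρ, hρ⟩ : ∃ ρ : (ZMod (q ^ e))ˣ,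
      ρ ∉ ({1, ZMod.unitsMap hdQ a1} : Finset (ZMod (q ^ e))ˣ) := by
    by_contra hc
    push Not at hc
    have h4 : (Finset.univ : Finset (ZMod (q ^ e))ˣ) ⊆ {1, ZMod.unitsMap hdQ a1} :=
      fun x _ => hc x
    have h5 := Finset.card_le_card h4
    have h6 : ({1, ZMod.unitsMap hdQ a1} : Finset (ZMod (q ^ e))ˣ).card ≤ 2 := Finset.card_le_two
    rw [Finset.card_univ, ZMod.card_units_eq_totient] at h5
    omega
  obtain ⟨σ, rfl⟩ := ZMod.unitsMap_surjective hdQ ρ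
  simp only [Finset.mem_insert, Finset.mem_singleton, not_or] at hρ
  obtain ⟨r1, hr1, hp1, e1⟩ := Nat.forall_exists_prime_gt_and_eq_mod σ.isUnit p
  obtain ⟨r2, hr2, hp2, e2⟩ := Nat.forall_exists_prime_gt_and_eq_mod (a1 * σ⁻¹).isUnit r1
  have key : ∀ (r : ℕ) (τ : (ZMod (q ^ e * C.natAbs))ˣ), r.Prime →
      (r : ZMod (q ^ e * C.natAbs)) = τ → q ^ e ∣ r - 1 → ZMod.unitsMap hdQ τ = 1 := by
    intro r τ hr hτ hd
    ext
    rw [ZMod.unitsMap_val, ← hτ, ZMod.cast_natCast hdQ, c3a_cast_one hr hd, Units.val_one]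
  refine ⟨(r1 : ℤ) * r2, Nat.lcm (r1 - 1) (r2 - 1), ?_, ?_, ?_, ?_⟩
  · exact mul_ne_zero (Int.natCast_ne_zero.2 hp1.ne_zero) (Int.natCast_ne_zero.2 hp2.ne_zero)
  · have h7 : ((r1 * r2 : ℕ) : ZMod (q ^ e * C.natAbs)) = (a1 : ZMod (q ^ e * C.natAbs)) := by
      rw [Nat.cast_mul, e1, e2, ← Units.val_mul, mul_comm a1, mul_inv_cancel_left]
    have h8 : ((r1 * r2 : ℕ) : ZMod C.natAbs) = (a0 : ZMod C.natAbs) := by
      have h9 := congrArg Units.val ha1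
      rw [ZMod.unitsMap_val, ← h7, ZMod.cast_natCast (dvd_mul_left _ _), IsUnit.unit_spec] at h9
      exact h9
    rw [← Int.natAbs_dvd, ← ZMod.intCast_zmod_eq_zero_iff_dvd]
    push_cast at h8 ⊢
    rw [h8, sub_self]
  · refine IsCoprime.mul_dvd ?_ (c3a_fermat hp hp1 hr1 (Nat.dvd_lcm_left _ _))
      (c3a_fermat hp hp2 (hr1.trans hr2) (Nat.dvd_lcm_right _ _))
    exact Nat.isCoprime_iff_coprime.2 ((Nat.coprime_primes hp1 hp2).2 hr2.ne)
  · intro hd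
    have g1 : r1 - 1 ≠ 0 := by have := hp1.one_lt; omega
    have g2 : r2 - 1 ≠ 0 := by have := hp2.one_lt; omega
    rcases c3a_pow_dvd_lcm hq g1 g2 hd with h1 | h1
    · exact hρ.1 (key r1 σ hp1 e1 h1)
    · have h2 := key r2 _ hp2 e2 h1
      rw [map_mul, map_inv, mul_inv_eq_one] at h2
      exact hρ.2 h2.symm

lemma c3_twelve {K : ℕ} (h8 : ¬ 8 ∣ K) (h9 : ¬ 9 ∣ K) (h5 : ∀ q : ℕ, q.Prime → 5 ≤ q → ¬ q ∣ K) :
    K ∣ 12 := by
  refine (Nat.dvd_iff_prime_pow_dvd_dvd 12 K).2 fun q k hq hk => ?_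
  rcases Nat.eq_zero_or_pos k with rfl | hk0
  · simp
  have hqK : q ∣ K := (dvd_pow_self q hk0.ne').trans hk
  have h4 : q < 5 := by
    by_contra hc
    exact h5 q hq (by omega) hqK
  have h2 := hq.two_le
  interval_cases q
  · have : k ≤ 2 := by
      by_contra hc
      exact h8 ((pow_dvd_pow 2 (show 3 ≤ k by omega)).trans hk)
    exact (pow_dvd_pow 2 this).trans (by norm_num)
  · have : k ≤ 1 := by
      by_contra hc
      exact h9 ((pow_dvd_pow 3 (show 2 ≤ k by omega)).trans hk)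
    exact (pow_dvd_pow 3 this).trans (by norm_num)
  · exact absurd hq (by norm_num)

/-- a subgroup of `ℤ` that avoids `8`, `9` and the primes `≥ 5` contains `12` -/
lemma c3_mem (P : AddSubgroup ℤ)
    (h : ∀ q e : ℕ, q.Prime → 3 ≤ Nat.totient (q ^ e) → ∃ j : ℕ, (j : ℤ) ∈ P ∧ ¬ q ^ e ∣ j) :
    (12 : ℤ) ∈ P := by
  obtain ⟨a, rfl⟩ := Int.subgroup_cyclic P
  have hmem : ∀ x : ℤ, x ∈ AddSubgroup.closure ({a} : Set ℤ) ↔ a ∣ x := by
    intro x
    rw [← AddSubgroup.zmultiples_eq_closure, Int.mem_zmultiples_iff]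
  have key : ∀ q e : ℕ, q.Prime → 3 ≤ Nat.totient (q ^ e) → ¬ q ^ e ∣ a.natAbs := by
    intro q e hq h3 hd
    obtain ⟨j, hj, hn⟩ := h q e hq h3
    have := Int.natAbs_dvd_natAbs.2 ((hmem _).1 hj)
    rw [Int.natAbs_natCast] at this
    exact hn (hd.trans this)
  have h12 : a.natAbs ∣ 12 := by
    refine c3_twelve (key 2 3 Nat.prime_two (by decide)) (key 3 2 Nat.prime_three (by decide)) ?_
    intro q hq h5
    have := key q 1 hq (by rw [pow_one, Nat.totient_prime hq]; omega)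
    rwa [pow_one] at this
  rw [hmem, ← Int.natAbs_dvd]
  exact_mod_cast h12

end Pool.Agent.P.MP_20768c_nt
end

-- part Pool.Agent.P.MP_20768c_nt.C3
section

namespace Pool.Agent.P.MP_20768c_nt
open M2

/-- one period -/
lemma c3_step {A : Type*} [AddCommGroup A] {p k : ℕ} (hp : p.Prime) {m : ℤ} {χ : M2 → A}
    (h : IsHom (Gam p m m) χ) (hk : ∀ g ∈ Gam p m m, p ^ k • χ g = 0) {g : M2}
    (hg : g ∈ Gam p m m) (ha : g.a ≠ 0) (j : ℤ) (hv : (p : ℚ) ^ j ≠ 0)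
    (hj : RM p 1 ((1 - (p : ℚ) ^ j) / g.a)) : χ (dl ((p : ℚ) ^ j) hv g) = χ g := by
  have hp0 : p ≠ 0 := hp.ne_zero
  have hs : RM p m ((1 - (p : ℚ) ^ j) / g.a * g.c) := hj.mul_l hg.2.2.1
  have hd := dl_mem hp0 j hv hg
  have hl : l ((1 - (p : ℚ) ^ j) / g.a * g.c) ∈ Gam p m m := l_mem hs
  obtain ⟨x, hx⟩ : ∃ x, x = g⁻¹ * (l ((1 - (p : ℚ) ^ j) / g.a * g.c) * dl ((p : ℚ) ^ j) hv g) :=
    ⟨_, rfl⟩
  have hxm : x ∈ Gam p m m := by
    rw [hx]
    exact Subgroup.mul_mem _ (Subgroup.inv_mem _ hg) (Subgroup.mul_mem _ hl hd)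
  have hdet := g.det
  have xa : x.a = 1 := by
    rw [hx]
    simp only [mul_a, mul_c, inv_a, inv_b, l_a, l_b, l_c, l_d, dl_a, dl_c]
    field_simp
    linear_combination hdet
  have xc : x.c = 0 := by
    rw [hx]
    simp only [mul_a, mul_c, inv_c, inv_d, l_a, l_b, l_c, l_d, dl_a, dl_c]
    field_simp
    ring
  have xd : x.d = 1 := by
    have := x.det
    rw [xa, xc] at this
    linarith
  have xe : x = e x.b := by
    ext
    · rw [xa, e_a]
    · rw [e_b]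
    · rw [xc, e_c]
    · rw [xd, e_d]
  have h1 : χ x = 0 := by
    rw [xe]
    exact hom_e hp0 h hk hxm.2.1
  have h2 : g * x = l ((1 - (p : ℚ) ^ j) / g.a * g.c) * dl ((p : ℚ) ^ j) hv g := by
    rw [hx, mul_inv_cancel_left]
  have h3 := h g hg x hxm
  rw [h2, h _ hl _ hd, hom_l hp0 h hk hs, h1, zero_add, add_zero] at h3
  exact h3

lemma c3_dl {p : ℕ} (i j : ℤ) (h0 : (p : ℚ) ≠ 0) (g : M2) :
    dl ((p : ℚ) ^ j) (zpow_ne_zero j h0) (dl ((p : ℚ) ^ i) (zpow_ne_zero i h0) g) =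
      dl ((p : ℚ) ^ (i + j)) (zpow_ne_zero _ h0) g := by
  ext
  · rfl
  · simp only [dl_b]
    rw [zpow_add₀ h0, div_div]
  · simp only [dl_c]
    rw [zpow_add₀ h0]
    ring
  · rfl

/-- periods of a function on the integers -/
def c3_per {A : Type*} (f : ℤ → A) : AddSubgroup ℤ where
  carrier := {j | ∀ i, f (i + j) = f i}
  zero_mem' := fun i => by rw [add_zero]
  add_mem' := fun {a b} ha hb i => by rw [← add_assoc, hb, ha]
  neg_mem' := fun {a} ha i => by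
    have := ha (i + -a)
    rw [neg_add_cancel_right] at this
    exact this.symm

theorem c3 {A : Type*} [AddCommGroup A] {p k : ℕ} (hp : p.Prime) {m : ℤ} (hm : m ≠ 0)
    {χ : M2 → A} (h : IsHom (Gam p m m) χ) (hk : ∀ g ∈ Gam p m m, p ^ k • χ g = 0) {g : M2}
    (hg : g ∈ Gam p m m) (hv : (p : ℚ) ^ (12 : ℤ) ≠ 0) :
    χ (dl ((p : ℚ) ^ (12 : ℤ)) hv g) = χ g := by
  have hp0 : p ≠ 0 := hp.ne_zero
  have h0 : (p : ℚ) ≠ 0 := by exact_mod_cast hp0
  have hm' : (m : ℚ) ≠ 0 := by exact_mod_cast hm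
  have hdet := g.det
  have hA : RM p 1 g.a := hg.1.of_sub_one
  have hD : RM p 1 g.d := hg.2.2.2.of_sub_one
  by_cases hc : g.c = 0
  · rw [hc, mul_zero, sub_zero] at hdet
    have ha : g.a ≠ 0 := left_ne_zero_of_mul_eq_one hdet
    refine c3_step hp h hk hg ha 12 hv ?_
    have e1 : (1 - (p : ℚ) ^ (12 : ℤ)) / g.a = (1 - (p : ℚ) ^ (12 : ℤ)) * g.d := by
      rw [div_eq_iff ha]
      linear_combination (-(1 - (p : ℚ) ^ (12 : ℤ))) * hdet
    rw [e1]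
    exact ((RM.one p).sub (RM.zpow hp0 12)).mul_l hD
  · obtain ⟨C, i0, hC0, hCp, hC⟩ := RM.strip hp (mul_ne_zero hc hm')
      (hg.2.2.1.to_one.mul_l (RM.int p m))
    have hC' : (C : ℚ) ≠ 0 := by exact_mod_cast hC0
    obtain ⟨a0, ha0, -⟩ := RM.cong_int hp hCp hA 0 0
    obtain ⟨d0, hd0, -⟩ := RM.cong_int hp hCp hD 0 0
    have hbc : RM p C (g.b * g.c) := by
      have e1 : g.b * g.c = g.b / m * ((C : ℚ) * (1 : ℤ) * (p : ℚ) ^ i0) := by
        rw [Int.cast_one, mul_one, ← hC]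
        field_simp
      rw [e1]
      exact (hg.2.1.div_self hm).mul_l ((RM.int_mul p C 1).mul_r (RM.zpow hp0 i0))
    have hcop : IsCoprime a0 C := by
      have h1 : RM p C ((a0 * d0 - 1 : ℤ) : ℚ) := by
        have e1 : ((a0 * d0 - 1 : ℤ) : ℚ) = g.b * g.c - g.a * (g.d - d0) - (g.a - a0) * d0 := by
          push_cast
          linear_combination hdet
        rw [e1]
        exact (hbc.sub (hA.mul_l hd0)).sub (ha0.mul_r (RM.int p d0))
      obtain ⟨w, hw⟩ := RM.dvd_of_int hCp h1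
      exact ⟨d0, -w, by linear_combination hw⟩
    have key : (12 : ℤ) ∈ c3_per fun i : ℤ => χ (dl ((p : ℚ) ^ i) (zpow_ne_zero i h0) g) := by
      refine c3_mem _ fun q e' hq h3 => ?_
      obtain ⟨a', j, ha', hd1, hd2, hj⟩ := c3_arith hp hC0 hcop hq h3
      refine ⟨j, fun i => ?_, hj⟩
      have ha'' : (a' : ℚ) ≠ 0 := by exact_mod_cast ha'
      have ht : RM p m ((a' - g.a) / g.c) := by
        have h1 : RM p C ((a' : ℚ) - g.a) := by
          have e1 : (a' : ℚ) - g.a = ((a' - a0 : ℤ) : ℚ) - (g.a - a0) := by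
            push_cast
            ring
          rw [e1]
          exact (RM.of_dvd p hd1).sub ha0
        have e2 : (a' - g.a) / g.c =
            (m : ℚ) * (1 : ℤ) * ((a' - g.a) / C * (p : ℚ) ^ (-i0)) := by
          have e3 : g.c = C * (p : ℚ) ^ i0 / m := by
            rw [← hC]
            field_simp
          have h5 : (p : ℚ) ^ i0 ≠ 0 := zpow_ne_zero i0 h0
          rw [e3, zpow_neg]
          push_cast
          field_simp
        rw [e2]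
        exact (RM.int_mul p m 1).mul_r ((h1.div_self hC0).mul_l (RM.zpow hp0 _))
      have hg' : e ((a' - g.a) / g.c) * g ∈ Gam p m m := Subgroup.mul_mem _ (e_mem ht) hg
      have hsame : ∀ n : ℤ, χ (dl ((p : ℚ) ^ n) (zpow_ne_zero n h0) (e ((a' - g.a) / g.c) * g)) =
          χ (dl ((p : ℚ) ^ n) (zpow_ne_zero n h0) g) := fun n => by
        have h4 : RM p m ((a' - g.a) / g.c / (p : ℚ) ^ n) := by
          rw [div_eq_mul_inv _ ((p : ℚ) ^ n), ← zpow_neg]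
          exact ht.mul_r (RM.zpow hp0 _)
        rw [dl_mul, dl_e, h _ (e_mem h4) _ (dl_mem hp0 n _ hg), hom_e hp0 h hk h4, zero_add]
      have hGa : (dl ((p : ℚ) ^ i) (zpow_ne_zero i h0) (e ((a' - g.a) / g.c) * g)).a = a' := by
        simp only [dl_a, mul_a, e_a, e_b]
        field_simp
        ring
      have hst := c3_step hp h hk (dl_mem hp0 i (zpow_ne_zero i h0) hg') (by rw [hGa]; exact ha'')
        (j : ℤ) (zpow_ne_zero _ h0) (by
          obtain ⟨w, hw⟩ := hd2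
          have hw' : (p : ℚ) ^ j - 1 = a' * w := by exact_mod_cast hw
          have e1 : (1 - (p : ℚ) ^ (j : ℤ)) / a' = ((-w : ℤ) : ℚ) := by
            rw [zpow_natCast, div_eq_iff ha'']
            push_cast
            linear_combination -hw'
          rw [hGa, e1]
          exact RM.int p _)
      rw [c3_dl i j h0, hsame, hsame] at hst
      exact hst
    have h12 := key 0
    have e0 : dl ((p : ℚ) ^ (0 : ℤ)) (zpow_ne_zero 0 h0) g = g := by
      ext <;> simp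
    simp only [zero_add, e0] at h12
    exact h12

end Pool.Agent.P.MP_20768c_nt
end

-- part Pool.Agent.P.MP_20768c_nt.C4
section

namespace Pool.Agent.P.MP_20768c_nt
open M2

lemma c4_den (q : ℚ) {W : ℤ} (h : (q.den : ℤ) ∣ W) : ∃ z : ℤ, q * W = z := by
  obtain ⟨w, rfl⟩ := h
  refine ⟨q.num * w, ?_⟩
  push_cast
  rw [← mul_assoc, Rat.mul_den_eq_num]

lemma c4_scale {p : ℕ} {m W : ℤ} {q r y : ℚ} (hq : ∃ z : ℤ, q * W = z) (hr : ∃ z : ℤ, r * W = z)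
    (hy : RM p (m * W ^ 2) y) : RM p m (q * r * y) := by
  obtain ⟨z1, h1⟩ := hq
  obtain ⟨z2, h2⟩ := hr
  obtain ⟨k, z, h⟩ := hy
  refine ⟨k, z1 * z2 * z, ?_⟩
  push_cast at h ⊢
  rw [← h1, ← h2]
  linear_combination q * r * h

/-- conjugation is continuous for the principal congruence subgroups -/
lemma conj_cont (p : ℕ) (g : M2) {m : ℤ} (hm : m ≠ 0) :
    ∃ m' : ℤ, m' ≠ 0 ∧ ∀ x ∈ Gam p m' m', g * x * g⁻¹ ∈ Gam p m m := by
  obtain ⟨W, hW, ha, hb, hc, hd⟩ : ∃ W : ℤ, W ≠ 0 ∧ (∃ z : ℤ, g.a * W = z) ∧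
      (∃ z : ℤ, g.b * W = z) ∧ (∃ z : ℤ, g.c * W = z) ∧ ∃ z : ℤ, g.d * W = z := by
    refine ⟨g.a.den * g.b.den * g.c.den * g.d.den, ?_, c4_den _ ?_, c4_den _ ?_, c4_den _ ?_,
      c4_den _ ?_⟩
    · positivity
    · exact ⟨g.b.den * g.c.den * g.d.den, by ring⟩
    · exact ⟨g.a.den * g.c.den * g.d.den, by ring⟩
    · exact ⟨g.a.den * g.b.den * g.d.den, by ring⟩
    · exact ⟨g.a.den * g.b.den * g.c.den, by ring⟩
  refine ⟨m * W ^ 2, mul_ne_zero hm (pow_ne_zero 2 hW), ?_⟩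
  rintro x ⟨xa, xb, xc, xd⟩
  have hg := g.det
  refine ⟨?_, ?_, ?_, ?_⟩
  · have e : (g * x * g⁻¹).a - 1 = g.a * g.d * (x.a - 1) + g.b * g.d * x.c - g.a * g.c * x.b -
        g.b * g.c * (x.d - 1) := by
      simp only [mul_a, mul_b, inv_a, inv_c]
      linear_combination hg
    rw [e]
    exact (((c4_scale ha hd xa).add (c4_scale hb hd xc)).sub (c4_scale ha hc xb)).sub
      (c4_scale hb hc xd)
  · have e : (g * x * g⁻¹).b = g.a * g.a * x.b + g.a * g.b * (x.d - 1) - g.a * g.b * (x.a - 1) -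
        g.b * g.b * x.c := by
      simp only [mul_a, mul_b, inv_b, inv_d]
      ring
    rw [e]
    exact (((c4_scale ha ha xb).add (c4_scale ha hb xd)).sub (c4_scale ha hb xa)).sub
      (c4_scale hb hb xc)
  · have e : (g * x * g⁻¹).c = g.c * g.d * (x.a - 1) + g.d * g.d * x.c - g.c * g.c * x.b -
        g.c * g.d * (x.d - 1) := by
      simp only [mul_c, mul_d, inv_a, inv_c]
      ring
    rw [e]
    exact (((c4_scale hc hd xa).add (c4_scale hd hd xc)).sub (c4_scale hc hc xb)).sub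
      (c4_scale hc hd xd)
  · have e : (g * x * g⁻¹).d - 1 = g.a * g.c * x.b + g.a * g.d * (x.d - 1) -
        g.b * g.c * (x.a - 1) - g.b * g.d * x.c := by
      simp only [mul_c, mul_d, inv_b, inv_d]
      linear_combination hg
    rw [e]
    exact (((c4_scale ha hc xb).add (c4_scale ha hd xd)).sub (c4_scale hb hc xa)).sub
      (c4_scale hb hd xc)

/-- conjugation by `g` fixes `χ` on a principal congruence subgroup -/
def Inert {A : Type*} [AddCommGroup A] (p : ℕ) (χ : M2 → A) (g : M2) : Prop :=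
  ∃ m : ℤ, m ≠ 0 ∧ ∀ x ∈ Gam p m m, χ (g * x * g⁻¹) = χ x

lemma Inert.mul {A : Type*} [AddCommGroup A] {p : ℕ} {χ : M2 → A} {g h : M2}
    (hg : Inert p χ g) (hh : Inert p χ h) : Inert p χ (g * h) := by
  obtain ⟨m1, h1, H1⟩ := hg
  obtain ⟨m2, h2, H2⟩ := hh
  obtain ⟨m3, h3, H3⟩ := conj_cont p h h1
  refine ⟨m2 * m3, mul_ne_zero h2 h3, fun x hx => ?_⟩
  have e : g * h * x * (g * h)⁻¹ = g * (h * x * h⁻¹) * g⁻¹ := by group
  rw [e, H1 _ (H3 x (Gam_mono (dvd_mul_left _ _) (dvd_mul_left _ _) hx)),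
    H2 x (Gam_mono (dvd_mul_right _ _) (dvd_mul_right _ _) hx)]

lemma c4_dl_inv (v : ℚ) (hv : v ≠ 0) (g : M2) : dl v hv g⁻¹ = (dl v hv g)⁻¹ := by
  ext <;> simp [neg_div]

lemma c4_gen {A : Type*} [AddCommGroup A] {p k : ℕ} (hp : p.Prime) {N : ℤ} (hN : N ≠ 0)
    {χ : M2 → A} (h : IsHom (Gam p N 1) χ) (hk : ∀ g ∈ Gam p N 1, p ^ k • χ g = 0)
    (hv : (p : ℚ) ^ (12 : ℤ) ≠ 0) (w : M2) :
    Inert p χ (w * (dl ((p : ℚ) ^ (12 : ℤ)) hv w)⁻¹) := by
  set u := dl ((p : ℚ) ^ (12 : ℤ)) hv w with hu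
  have hle : Gam p N N ≤ Gam p N 1 := Gam_mono dvd_rfl (one_dvd N)
  obtain ⟨m1, h1, H1⟩ := conj_cont p u hN
  obtain ⟨m2, h2, H2⟩ := conj_cont p w hN
  obtain ⟨m3, h3, H3⟩ := conj_cont p u⁻¹ (mul_ne_zero h1 h2)
  have hh : IsHom (Gam p m1 m1) fun x => χ (u * x * u⁻¹) := fun x hx y hy => by
    have e : u * (x * y) * u⁻¹ = u * x * u⁻¹ * (u * y * u⁻¹) := by group
    simp only [e]
    exact h _ (hle (H1 x hx)) _ (hle (H1 y hy))
  have key : ∀ x ∈ Gam p (m1 * m2) (m1 * m2), χ (w * x * w⁻¹) = χ (u * x * u⁻¹) := by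
    intro x hx
    have x1 : x ∈ Gam p m1 m1 := Gam_mono (dvd_mul_right _ _) (dvd_mul_right _ _) hx
    have x2 : x ∈ Gam p m2 m2 := Gam_mono (dvd_mul_left _ _) (dvd_mul_left _ _) hx
    have e1 := c3 hp h1 hh (fun g hg => hk _ (hle (H1 g hg))) x1 hv
    have e2 := c3 hp hN (h.mono hle) (fun g hg => hk _ (hle hg)) (H2 x x2) hv
    rw [dl_mul, dl_mul, c4_dl_inv, ← hu] at e2
    exact e2.symm.trans e1
  refine ⟨m3, h3, fun y hy => ?_⟩
  have e3 := key _ (H3 y hy)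
  have e4 : u * (u⁻¹ * y * u⁻¹⁻¹) * u⁻¹ = y := by group
  have e5 : w * u⁻¹ * y * (w * u⁻¹)⁻¹ = w * (u⁻¹ * y * u⁻¹⁻¹) * w⁻¹ := by group
  rw [e5, e3, e4]

lemma c4_v {p : ℕ} (hp : p.Prime) : (1 : ℚ) < (p : ℚ) ^ (12 : ℤ) :=
  one_lt_zpow₀ (by exact_mod_cast hp.one_lt) (by norm_num)

lemma inert_e {A : Type*} [AddCommGroup A] {p k : ℕ} (hp : p.Prime) {N : ℤ} (hN : N ≠ 0)
    {χ : M2 → A} (h : IsHom (Gam p N 1) χ) (hk : ∀ g ∈ Gam p N 1, p ^ k • χ g = 0) (t : ℚ) :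
    Inert p χ (e t) := by
  have h1 := c4_v hp
  have hv : (p : ℚ) ^ (12 : ℤ) ≠ 0 := (zero_lt_one.trans h1).ne'
  have h2 := c4_gen hp hN h hk hv (e (t / ((p : ℚ) ^ (12 : ℤ) - 1) * (p : ℚ) ^ (12 : ℤ)))
  rw [dl_e, ← e_neg, ← e_add] at h2
  generalize (p : ℚ) ^ (12 : ℤ) = v at h1 hv h2
  have h3 : v - 1 ≠ 0 := (sub_pos.2 h1).ne'
  have h4 : t / (v - 1) * v + -(t / (v - 1) * v / v) = t := by
    field_simp
    ring
  rwa [h4] at h2

lemma inert_l {A : Type*} [AddCommGroup A] {p k : ℕ} (hp : p.Prime) {N : ℤ} (hN : N ≠ 0)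
    {χ : M2 → A} (h : IsHom (Gam p N 1) χ) (hk : ∀ g ∈ Gam p N 1, p ^ k • χ g = 0) (t : ℚ) :
    Inert p χ (l t) := by
  have h1 := c4_v hp
  have hv : (p : ℚ) ^ (12 : ℤ) ≠ 0 := (zero_lt_one.trans h1).ne'
  have h2 := c4_gen hp hN h hk hv (l (t / (1 - (p : ℚ) ^ (12 : ℤ))))
  rw [dl_l, ← l_neg, ← l_add] at h2
  generalize (p : ℚ) ^ (12 : ℤ) = v at h1 hv h2
  have h3 : 1 - v ≠ 0 := (sub_neg.2 h1).ne
  have h4 : t / (1 - v) + -(v * (t / (1 - v))) = t := by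
    field_simp
    ring
  rwa [h4] at h2

theorem c4 {A : Type*} [AddCommGroup A] {p k : ℕ} (hp : p.Prime) {N : ℤ} (hN : N ≠ 0)
    {χ : M2 → A} (h : IsHom (Gam p N 1) χ) (hk : ∀ g ∈ Gam p N 1, p ^ k • χ g = 0)
    {n : ℚ} (hn : n ^ 2 ≠ 0) :
    ∃ m : ℤ, m ≠ 0 ∧ ∀ x ∈ Gam p m m, χ (dl (n ^ 2) hn x) = χ x := by
  have hn0 : n ≠ 0 := fun h0 => hn (by rw [h0]; norm_num)
  obtain ⟨m, hm, H⟩ := (((inert_l hp hN h hk (n - 1)).mul (inert_e hp hN h hk 1)).mul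
    (inert_l hp hN h hk (n⁻¹ - 1))).mul (inert_e hp hN h hk (-n))
  have e1 : l (n - 1) * e 1 * l (n⁻¹ - 1) * e (-n) = D n⁻¹ (inv_ne_zero hn0) := by
    ext <;> simp only [mul_a, mul_b, mul_c, mul_d, e_a, e_b, e_c, e_d, l_a, l_b, l_c, l_d, D_a,
      D_b, D_c, D_d, inv_inv] <;> field_simp <;> ring
  refine ⟨m, hm, fun x hx => ?_⟩
  have e2 : D n⁻¹ (inv_ne_zero hn0) * x * (D n⁻¹ (inv_ne_zero hn0))⁻¹ = dl (n ^ 2) hn x := by
    ext <;> simp <;> field_simp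
  rw [← H x hx, e1, e2]

end Pool.Agent.P.MP_20768c_nt
end

-- part Pool.Agent.P.MP_20768c_nt.C5a
section

namespace Pool.Agent.P.MP_20768c_nt
open M2

lemma c5a_cop {a q m : ℤ} (h : IsCoprime a q) (hm : m ≠ 0) : ∃ x, IsCoprime (a + q * x) m := by
  classical
  refine ⟨∏ r ∈ m.natAbs.primeFactors.filter (fun r : ℕ => ¬ (r : ℤ) ∣ a), ((r : ℕ) : ℤ), ?_⟩
  refine isCoprime_of_prime_dvd (fun hh => hm hh.2) fun z hz h1 h2 => ?_
  have hz' : (z.natAbs).Prime := Int.prime_iff_natAbs_prime.1 hz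
  by_cases ha : z ∣ a
  · rcases hz.dvd_or_dvd ((dvd_add_right ha).1 h1) with h3 | h3
    · exact hz.not_unit (h.isUnit_of_dvd' ha h3)
    · obtain ⟨r, hr, h4⟩ := (hz.dvd_finset_prod_iff _).1 h3
      rw [Finset.mem_filter] at hr
      have h5 : z.natAbs = r := (Nat.prime_dvd_prime_iff_eq hz'
        (Nat.prime_of_mem_primeFactors hr.1)).1 (by simpa using Int.natAbs_dvd_natAbs.2 h4)
      exact hr.2 (h5 ▸ Int.natAbs_dvd.2 ha)
  · refine ha ((dvd_add_left (Dvd.dvd.mul_left ?_ q)).1 h1)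
    refine Int.natAbs_dvd.1 (Finset.dvd_prod_of_mem (fun r : ℕ => (r : ℤ)) ?_)
    exact Finset.mem_filter.2 ⟨Nat.mem_primeFactors.2 ⟨hz', Int.natAbs_dvd_natAbs.2 h2,
      Int.natAbs_ne_zero.2 hm⟩, fun hh => ha (Int.natAbs_dvd.1 hh)⟩

lemma c5a_e {g : M2} {a b c d : ℤ} (h : g.a = a ∧ g.b = b ∧ g.c = c ∧ g.d = d) (t : ℤ) :
    (e t * g).a = (a + t * c : ℤ) ∧ (e t * g).b = (b + t * d : ℤ) ∧ (e t * g).c = c ∧
      (e t * g).d = d := by
  obtain ⟨h1, h2, h3, h4⟩ := h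
  simp [h1, h2, h3, h4]

lemma c5a_l {g : M2} {a b c d : ℤ} (h : g.a = a ∧ g.b = b ∧ g.c = c ∧ g.d = d) (t : ℤ) :
    (l t * g).a = a ∧ (l t * g).b = b ∧ (l t * g).c = (c + t * a : ℤ) ∧
      (l t * g).d = (d + t * b : ℤ) := by
  obtain ⟨h1, h2, h3, h4⟩ := h
  simp [h1, h2, h3, h4, add_comm]

lemma c5a_det {g : M2} {a b c d : ℤ} (h : g.a = a ∧ g.b = b ∧ g.c = c ∧ g.d = d) :
    a * d - b * c = 1 := by
  have hdet := g.det
  rw [h.1, h.2.1, h.2.2.1, h.2.2.2] at hdet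
  exact_mod_cast hdet

lemma c5a_mem (p : ℕ) {N B : ℤ} {g : M2} {a b c d : ℤ}
    (h : g.a = a ∧ g.b = b ∧ g.c = c ∧ g.d = d) (h1 : N ∣ a - 1) (h2 : B ∣ b) (h3 : N ∣ c) :
    g ∈ Gam p N B := by
  have h4 : N ∣ d - 1 := by
    have : d - 1 = b * c - (a - 1) * d := by linear_combination c5a_det h
    rw [this]
    exact (h3.mul_left b).sub (h1.mul_right d)
  refine ⟨?_, ?_, ?_, ?_⟩
  · rw [h.1]; exact_mod_cast RM.of_dvd p h1
  · rw [h.2.1]; exact RM.of_dvd p h2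
  · rw [h.2.2.1]; exact RM.of_dvd p h3
  · rw [h.2.2.2]; exact_mod_cast RM.of_dvd p h4

/-- a homomorphism on `{B ∣ b}` that kills a principal congruence subgroup and the unipotents
kills the integer matrices with `a ≡ 1` mod `N B` -/
lemma c5_red {A : Type*} [AddCommGroup A] {p : ℕ} {N B m : ℤ} (hN : N ≠ 0) (hB : B ≠ 0)
    (hm : m ≠ 0) {ψ : M2 → A} (h : IsHom (Gam p N B) ψ)
    (he : ∀ t, RM p B t → ψ (e t) = 0) (hl : ∀ t, RM p N t → ψ (l t) = 0)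
    (h0 : ∀ x ∈ Gam p N B, x ∈ Gam p m m → ψ x = 0) {g : M2} {a b c d : ℤ}
    (ha : g.a = a) (hb : g.b = b) (hc : g.c = c) (hd : g.d = d)
    (h1 : N * B ∣ a - 1) (h2 : B ∣ b) (h3 : N ∣ c) : ψ g = 0 := by
  have hE : ∀ t : ℤ, B ∣ t → ∀ x, x ∈ Gam p N B ∧ ψ x = ψ g →
      e t * x ∈ Gam p N B ∧ ψ (e t * x) = ψ g := fun t ht x hx =>
    ⟨mul_mem (e_mem (RM.of_dvd p ht)) hx.1, by
      rw [h _ (e_mem (RM.of_dvd p ht)) _ hx.1, he _ (RM.of_dvd p ht), zero_add, hx.2]⟩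
  have hL : ∀ t : ℤ, N ∣ t → ∀ x, x ∈ Gam p N B ∧ ψ x = ψ g →
      l t * x ∈ Gam p N B ∧ ψ (l t * x) = ψ g := fun t ht x hx =>
    ⟨mul_mem (l_mem (RM.of_dvd p ht)) hx.1, by
      rw [h _ (l_mem (RM.of_dvd p ht)) _ hx.1, hl _ (RM.of_dvd p ht), zero_add, hx.2]⟩
  have g0 : g.a = a ∧ g.b = b ∧ g.c = c ∧ g.d = d := ⟨ha, hb, hc, hd⟩
  have k0 : g ∈ Gam p N B ∧ ψ g = ψ g := ⟨c5a_mem p g0 ((dvd_mul_right N B).trans h1) h2 h3, rfl⟩
  obtain ⟨a', ha'⟩ := h1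
  obtain ⟨c', rfl⟩ := h3
  have hcop : IsCoprime a (B * (N * c')) :=
    IsCoprime.mul_right ⟨1, -(N * a'), by linear_combination ha'⟩
      ⟨d, -b, by linear_combination c5a_det g0⟩
  obtain ⟨x, u, v, huv⟩ := c5a_cop hcop hm
  have g1 := c5a_e g0 (B * x)
  have k1 := hE _ (dvd_mul_right B x) _ k0
  have g2 := c5a_l g1 (N * ((1 - c') * u))
  have k2 := hL _ (dvd_mul_right N ((1 - c') * u)) _ k1
  have g3 := c5a_e g2 (B * -(a' + x * c'))
  have k3 := hE _ (dvd_mul_right B (-(a' + x * c'))) _ k2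
  have g4 := c5a_l g3 (-N)
  have k4 := hL _ (dvd_neg.2 dvd_rfl) _ k3
  have hb3 : B ∣ b + B * x * d + B * -(a' + x * c') *
      (d + N * ((1 - c') * u) * (b + B * x * d)) :=
    (h2.add ((dvd_mul_right B x).mul_right d)).add ((dvd_mul_right B _).mul_right _)
  have ec : N * c' + N * ((1 - c') * u) * (a + B * x * (N * c')) =
      N * (1 - (1 - c') * v * m) := by linear_combination N * (1 - c') * huv
  rw [ec] at g4
  have ea : a + B * x * (N * c') + B * -(a' + x * c') * (N * (1 - (1 - c') * v * m)) =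
      1 + m * (B * (a' + x * c') * N * (1 - c') * v) := by linear_combination ha'
  rw [ea] at g4
  generalize b + B * x * d + B * -(a' + x * c') *
      (d + N * ((1 - c') * u) * (b + B * x * d)) = b3 at g4 hb3
  generalize d + N * ((1 - c') * u) * (b + B * x * d) + -N * b3 = d4 at g4
  generalize B * (a' + x * c') * N * (1 - c') * v = w at g4
  have hc4 : m ∣ N * (1 - (1 - c') * v * m) + -N * (1 + m * w) :=
    ⟨-(N * ((1 - c') * v + w)), by ring⟩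
  generalize N * (1 - (1 - c') * v * m) + -N * (1 + m * w) = c4 at g4 hc4
  have hd4 : m ∣ d4 - 1 := by
    have : d4 - 1 = b3 * c4 - m * (w * d4) := by linear_combination c5a_det g4
    rw [this]
    exact (hc4.mul_left b3).sub (dvd_mul_right _ _)
  have g5 := c5a_e g4 (-b3)
  have k5 := hE _ (dvd_neg.2 hb3) _ k4
  rw [← k5.2]
  refine h0 _ k5.1 (c5a_mem p g5 ?_ ?_ hc4)
  · have : 1 + m * w + -b3 * c4 - 1 = m * w - b3 * c4 := by ring
    rw [this]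
    exact (dvd_mul_right _ _).sub (hc4.mul_left b3)
  · have : b3 + -b3 * d4 = -b3 * (d4 - 1) := by ring
    rw [this]
    exact hd4.mul_left _

end Pool.Agent.P.MP_20768c_nt
end

-- part Pool.Agent.P.MP_20768c_nt.C5
section

namespace Pool.Agent.P.MP_20768c_nt
open M2

/-- `χ` depends only on the first column -/
lemma col_eq {A : Type*} [AddCommGroup A] {p k : ℕ} (hp : p.Prime) {N : ℤ}
    {χ : M2 → A} (h : IsHom (Gam p N 1) χ) (hk : ∀ g ∈ Gam p N 1, p ^ k • χ g = 0)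
    {g g' : M2} (hg : g ∈ Gam p N 1) (hg' : g' ∈ Gam p N 1) (ha : g.a = g'.a) (hc : g.c = g'.c) :
    χ g = χ g' := by
  have hm : g⁻¹ * g' ∈ Gam p N 1 := (Gam p N 1).mul_mem ((Gam p N 1).inv_mem hg) hg'
  have hb : RM p 1 (g⁻¹ * g').b := (mem_Gam.1 hm).2.1
  have d1 := g.det
  have d2 := g'.det
  have he : g⁻¹ * g' = e (g⁻¹ * g').b := by
    ext
    · simp only [mul_a, inv_a, inv_b, e_a]
      rw [← ha, ← hc]
      linear_combination d1
    · simp only [e_b]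
    · simp only [mul_c, inv_c, inv_d, e_c]
      rw [← ha, ← hc]
      ring
    · simp only [mul_d, inv_c, inv_d, e_d]
      rw [ha, hc]
      linear_combination d2
  have h0 : χ (g⁻¹ * g') = 0 := by
    rw [he]
    exact hom_e hp.ne_zero h hk hb
  have h1 := h g hg (g⁻¹ * g') hm
  rw [mul_inv_cancel_left, h0, add_zero] at h1
  exact h1.symm

/-- first columns `(a, c)` and `(a, c')` with `c ≡ c'` mod `N a` -/
lemma col_cong {A : Type*} [AddCommGroup A] {p k : ℕ} (hp : p.Prime) {N : ℤ}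
    {χ : M2 → A} (h : IsHom (Gam p N 1) χ) (hk : ∀ g ∈ Gam p N 1, p ^ k • χ g = 0)
    {g g' : M2} (hg : g ∈ Gam p N 1) (hg' : g' ∈ Gam p N 1) (ha : g.a = g'.a) {s : ℚ}
    (hs : RM p N s) (hc : g'.c = g.c + s * g.a) : χ g = χ g' := by
  have hl : l s ∈ Gam p N 1 := l_mem hs
  have hm : l s * g ∈ Gam p N 1 := (Gam p N 1).mul_mem hl hg
  have h1 : χ (l s * g) = χ g := by
    rw [h _ hl _ hg, hom_l hp.ne_zero h hk hs, zero_add]
  rw [← h1]
  refine col_eq hp h hk hm hg' ?_ ?_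
  · simp only [mul_a, l_a, l_b]
    rw [← ha]
    ring
  · simp only [mul_c, l_c, l_d]
    rw [hc]
    ring

/-- an integer matrix with a given first column and `B ∣ b` -/
lemma exists_col (p : ℕ) {N B a c : ℤ} (h : IsCoprime a (B * c)) (h1 : N ∣ a - 1) (h3 : N ∣ c) :
    ∃ (g : M2) (b d : ℤ), g ∈ Gam p N B ∧ g.a = a ∧ g.b = b ∧ g.c = c ∧ g.d = d ∧ B ∣ b := by
  obtain ⟨u, v, huv⟩ := h
  have huv' : (u : ℚ) * a + v * (B * c) = 1 := by exact_mod_cast huv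
  have hB : B ∣ -(v * B) := (dvd_neg).2 (dvd_mul_left B v)
  have hd : N ∣ u - 1 := by
    have : u - 1 = -(u * (a - 1)) - v * B * c := by linear_combination huv
    rw [this]
    exact ((dvd_neg).2 (h1.mul_left u)).sub (h3.mul_left _)
  refine ⟨⟨a, ((-(v * B) : ℤ) : ℚ), c, u, ?_⟩, -(v * B), u, ?_, rfl, rfl, rfl, rfl, hB⟩
  · push_cast
    linear_combination huv'
  · refine mem_Gam.2 ⟨?_, RM.of_dvd p hB, RM.of_dvd p h3, ?_⟩
    · show RM p N ((a : ℚ) - 1)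
      exact_mod_cast RM.of_dvd p h1
    · show RM p N ((u : ℚ) - 1)
      exact_mod_cast RM.of_dvd p hd

lemma c5_dl_mem {p : ℕ} {N n : ℤ} (hn0 : n ≠ 0) (hn : (n : ℚ) ^ 2 ≠ 0) {g : M2}
    (hg : g ∈ Gam p N (n ^ 2)) : dl ((n : ℚ) ^ 2) hn g ∈ Gam p N 1 := by
  obtain ⟨a1, b1, c1, d1⟩ := mem_Gam.1 hg
  refine mem_Gam.2 ⟨a1, ?_, ?_, d1⟩
  · have := b1.div_self (pow_ne_zero 2 hn0)
    simpa using this
  · have h2 : RM p 1 ((n : ℚ) ^ 2) := by
      have := RM.int p (n ^ 2)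
      simpa using this
    exact h2.mul_l c1

lemma c5_nsmul {A : Type*} [AddCommGroup A] {p k s : ℕ} (hp : p.Prime) (hs : ¬ p ∣ s) {x : A}
    (h1 : s • x = 0) (h2 : p ^ k • x = 0) : x = 0 := by
  have hc : Nat.Coprime (p ^ k) s := Nat.Coprime.pow_left k ((Nat.Prime.coprime_iff_not_dvd hp).2 hs)
  have e1 := addOrderOf_dvd_of_nsmul_eq_zero h1
  have e2 := addOrderOf_dvd_of_nsmul_eq_zero h2
  have e3 : addOrderOf x = 1 := Nat.eq_one_of_dvd_coprimes hc e2 e1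
  exact AddMonoid.addOrderOf_eq_one_iff.1 e3

/-- the first columns `(q, c)` and `(q, n ^ 2 c)` have the same value -/
theorem c5 {A : Type*} [AddCommGroup A] {p k : ℕ} (hp : p.Prime) {N : ℤ} (hN : N ≠ 0)
    {χ : M2 → A} (h : IsHom (Gam p N 1) χ) (hk : ∀ g ∈ Gam p N 1, p ^ k • χ g = 0)
    {q n c : ℤ} {s : ℕ} (hn0 : n ≠ 0) (hs : ¬ p ∣ s) (hqs : q ∣ n ^ (2 * s) - 1)
    (hqn : IsCoprime q n) (hqc : IsCoprime q c) (h1 : N ∣ q - 1) (h3 : N ∣ c)
    {g g' : M2} (hg : g ∈ Gam p N 1) (hg' : g' ∈ Gam p N 1)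
    (ha : g.a = q) (hc : g.c = c) (ha' : g'.a = q) (hc' : g'.c = n ^ 2 * c) : χ g = χ g' := by
  have hn : (n : ℚ) ^ 2 ≠ 0 := pow_ne_zero 2 (by exact_mod_cast hn0)
  have hB : n ^ 2 ≠ 0 := pow_ne_zero 2 hn0
  have hle : Gam p N (n ^ 2) ≤ Gam p N 1 := Gam_mono dvd_rfl (one_dvd _)
  obtain ⟨ψ, hψ⟩ : ∃ ψ : M2 → A, ∀ x, ψ x = χ (dl ((n : ℚ) ^ 2) hn x) - χ x := ⟨_, fun _ => rfl⟩
  have hhom : IsHom (Gam p N (n ^ 2)) ψ := by
    intro x hx y hy
    rw [hψ, hψ, hψ, dl_mul, h _ (c5_dl_mem hn0 hn hx) _ (c5_dl_mem hn0 hn hy),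
      h _ (hle hx) _ (hle hy)]
    abel
  have he : ∀ t, RM p (n ^ 2) t → ψ (e t) = 0 := by
    intro t ht
    have h2 : RM p 1 (t / (n : ℚ) ^ 2) := by
      have := ht.div_self hB
      simpa using this
    rw [hψ, dl_e, hom_e hp.ne_zero h hk h2, hom_e hp.ne_zero h hk ht.to_one, sub_zero]
  have hl : ∀ t, RM p N t → ψ (l t) = 0 := by
    intro t ht
    have h2 : RM p 1 ((n : ℚ) ^ 2) := by
      have := RM.int p (n ^ 2)
      simpa using this
    rw [hψ, dl_l, hom_l hp.ne_zero h hk (h2.mul_l ht), hom_l hp.ne_zero h hk ht, sub_zero]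
  obtain ⟨m, hm, hc4⟩ := c4 hp hN h hk hn
  have h0 : ∀ x ∈ Gam p N (n ^ 2), x ∈ Gam p m m → ψ x = 0 := by
    intro x _ hx
    rw [hψ, hc4 x hx, sub_self]
  have hex : ∀ i : ℕ, ∃ (G : M2) (b d : ℤ), G ∈ Gam p N (n ^ 2) ∧ G.a = q ∧ G.b = b ∧
      G.c = ((n ^ (2 * i) * c : ℤ) : ℚ) ∧ G.d = d ∧ n ^ 2 ∣ b := by
    intro i
    exact exists_col p (hqn.pow_right.mul_right (hqn.pow_right.mul_right hqc)) h1 (h3.mul_left _)
  choose G b d hG hGa hGb hGc hGd hGn using hex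
  have hsame : ∀ i, ψ (G i) = ψ (G 0) := by
    intro i
    have hmem : (G 0)⁻¹ * G i ∈ Gam p N (n ^ 2) :=
      (Gam p N (n ^ 2)).mul_mem ((Gam p N (n ^ 2)).inv_mem (hG 0)) (hG i)
    have hdet := (G 0).det
    rw [hGa, hGb, hGc, hGd] at hdet
    have hdet' : q * d 0 - b 0 * (n ^ (2 * 0) * c) = 1 := by exact_mod_cast hdet
    have hz : ψ ((G 0)⁻¹ * G i) = 0 := by
      refine c5_red hN hB hm hhom he hl h0
        (a := d 0 * q - b 0 * (n ^ (2 * i) * c)) (b := d 0 * b i - b 0 * d i)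
        (c := -(n ^ (2 * 0) * c) * q + q * (n ^ (2 * i) * c))
        (d := -(n ^ (2 * 0) * c) * b i + q * d i) ?_ ?_ ?_ ?_ ?_ ?_ ?_
      · simp only [mul_a, inv_a, inv_b, hGa, hGb, hGc, hGd]
        push_cast
        ring
      · simp only [mul_b, inv_a, inv_b, hGb, hGd]
        push_cast
        ring
      · simp only [mul_c, inv_c, inv_d, hGa, hGc]
        push_cast
        ring
      · simp only [mul_d, inv_c, inv_d, hGa, hGb, hGc, hGd]
        push_cast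
        ring
      · have : d 0 * q - b 0 * (n ^ (2 * i) * c) - 1
            = (c * (n ^ (2 * 0) - n ^ (2 * i))) * b 0 := by linear_combination hdet'
        rw [this]
        exact mul_dvd_mul (h3.mul_right _) (hGn 0)
      · exact ((hGn i).mul_left _).sub ((hGn 0).mul_right _)
      · have : -(n ^ (2 * 0) * c) * q + q * (n ^ (2 * i) * c)
            = c * (q * (n ^ (2 * i) - n ^ (2 * 0))) := by ring
        rw [this]
        exact h3.mul_right _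
    have h2 := hhom _ (hG 0) _ hmem
    rw [mul_inv_cancel_left, hz, add_zero] at h2
    exact h2
  have hstep : ∀ i, χ (G (i + 1)) = χ (G i) + ψ (G 0) := by
    intro i
    have h2 : χ (G (i + 1)) = χ (dl ((n : ℚ) ^ 2) hn (G i)) := by
      refine col_eq hp h hk (hle (hG _)) (c5_dl_mem hn0 hn (hG i)) ?_ ?_
      · rw [dl_a, hGa, hGa]
      · rw [dl_c, hGc, hGc]
        push_cast
        ring
    rw [h2, ← hsame i, hψ]
    abel
  have hiter : ∀ i, χ (G i) = χ (G 0) + i • ψ (G 0) := by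
    intro i
    induction i with
    | zero => simp
    | succ i ih => rw [hstep, ih, succ_nsmul, add_assoc]
  have hper : χ (G 0) = χ (G s) := by
    obtain ⟨w, hw⟩ := hqs
    refine col_cong hp h hk (hle (hG 0)) (hle (hG s)) (by rw [hGa, hGa])
      (s := ((w * c : ℤ) : ℚ)) (RM.of_dvd p (h3.mul_left w)) ?_
    rw [hGc, hGc, hGa]
    have : n ^ (2 * s) * c = n ^ (2 * 0) * c + w * c * q := by linear_combination c * hw
    exact_mod_cast this
  have hs0 : s • ψ (G 0) = 0 := by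
    have := hiter s
    rw [← hper] at this
    simpa using this
  have hp0 : p ^ k • ψ (G 0) = 0 := by
    rw [hψ, smul_sub, hk _ (c5_dl_mem hn0 hn (hG 0)), hk _ (hle (hG 0)), sub_zero]
  have hz : ψ (G 0) = 0 := c5_nsmul hp hs hs0 hp0
  have e0 : χ g = χ (G 0) := by
    refine col_eq hp h hk hg (hle (hG 0)) (by rw [ha, hGa]) ?_
    rw [hc, hGc]
    push_cast
    ring
  have e1 : χ g' = χ (G 1) := by
    refine col_eq hp h hk hg' (hle (hG 1)) (by rw [ha', hGa]) ?_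
    rw [hc', hGc]
    push_cast
    ring
  rw [e0, e1, hstep 0, hz, add_zero]

end Pool.Agent.P.MP_20768c_nt
end

-- part Pool.Agent.P.MP_20768c_nt.C6a
section

namespace Pool.Agent.P.MP_20768c_nt

lemma c6a_crt {m1 m2 r1 r2 : ℤ} (h12 : IsCoprime m1 m2) (h1 : IsCoprime r1 m1)
    (h2 : IsCoprime r2 m2) (z1 : m1 ≠ 0) (z2 : m2 ≠ 0) (n : ℕ) :
    ∃ q : ℕ, n < q ∧ q.Prime ∧ m1 ∣ (q : ℤ) - r1 ∧ m2 ∣ (q : ℤ) - r2 := by
  obtain ⟨u, v, huv⟩ := h12
  have e1 : r1 * v * m2 + r2 * u * m1 = r1 + m1 * ((r2 - r1) * u) := by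
    linear_combination r1 * huv
  have e2 : r1 * v * m2 + r2 * u * m1 = r2 + m2 * ((r1 - r2) * v) := by
    linear_combination r2 * huv
  have c1 : IsCoprime (r1 * v * m2 + r2 * u * m1) m1 := e1 ▸ h1.add_mul_left_left _
  have c2 : IsCoprime (r1 * v * m2 + r2 * u * m1) m2 := e2 ▸ h2.add_mul_left_left _
  obtain ⟨q, hn, hq, hm⟩ := Nat.forall_exists_prime_gt_and_zmodEq n (q := (m1 * m2).natAbs)
    (a := r1 * v * m2 + r2 * u * m1) (Int.natAbs_ne_zero.2 (mul_ne_zero z1 z2))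
    ((c1.mul_right c2).of_isCoprime_of_dvd_right (Int.natAbs_dvd.2 dvd_rfl))
  have hd : m1 * m2 ∣ (q : ℤ) - (r1 * v * m2 + r2 * u * m1) := Int.natAbs_dvd.1 hm.symm.dvd
  refine ⟨q, hn, hq, ?_, ?_⟩
  · have := ((dvd_mul_right m1 m2).trans hd).add (dvd_mul_right m1 ((r2 - r1) * u))
    rwa [e1, show (q : ℤ) - (r1 + m1 * ((r2 - r1) * u)) + m1 * ((r2 - r1) * u) = q - r1 by ring]
      at this
  · have := ((dvd_mul_left m2 m1).trans hd).add (dvd_mul_right m2 ((r1 - r2) * v))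
    rwa [e2, show (q : ℤ) - (r2 + m2 * ((r1 - r2) * v)) + m2 * ((r1 - r2) * v) = q - r2 by ring]
      at this

lemma c6a_four {a : ℤ} (h : a % 2 = 1) : IsCoprime a 4 := by
  have h2 : IsCoprime a 2 := ⟨1, -(a / 2), by omega⟩
  exact h2.mul_right h2

/-- a prime `q` in the class of `a0` with `p ∤ (q-1)/2` such that `-1` or `p` is a nonsquare -/
lemma c6_prime {p : ℕ} (hp : p.Prime) {a0 C : ℤ} (hC : IsCoprime C (p : ℤ))
    (h : IsCoprime a0 C) :
    ∃ q s : ℕ, q.Prime ∧ q ≠ p ∧ q = 2 * s + 1 ∧ ¬ p ∣ s ∧ C ∣ (q : ℤ) - a0 ∧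
      (¬ IsSquare (-1 : ZMod q) ∨ ¬ IsSquare ((p : ℕ) : ZMod q)) := by
  have C0 : C ≠ 0 := by
    rintro rfl
    rw [isCoprime_zero_left, Int.isUnit_iff] at hC
    have := hp.two_le
    omega
  have p0 : (p : ℤ) ≠ 0 := by exact_mod_cast hp.ne_zero
  rcases hp.eq_two_or_odd with rfl | hodd
  · have h4 : IsCoprime C 4 := hC.mul_right hC
    obtain ⟨q, hn, hq, d1, d2⟩ := c6a_crt h4 h (c6a_four (a := 3) rfl) C0 (by norm_num) 2
    have := Fact.mk hq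
    exact ⟨q, q / 2, hq, hn.ne', by omega, by omega, d1,
      Or.inl fun hs => ZMod.exists_sq_eq_neg_one_iff.1 hs (by omega)⟩
  have p2 : p ≠ 2 := by omega
  have := Fact.mk hp
  obtain ⟨a, ha, hap, da, -⟩ := c6a_crt (m2 := 1) (r2 := 0) isCoprime_one_right h
    isCoprime_one_right C0 one_ne_zero 2
  have ao : a % 2 = 1 := hap.eq_two_or_odd.resolve_left ha.ne'
  have aC : IsCoprime (a : ℤ) (4 * C) := by
    refine (c6a_four (by omega)).mul_right ?_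
    obtain ⟨k, hk⟩ := da
    rw [show (a : ℤ) = a0 + C * k by linear_combination hk]
    exact h.add_mul_left_left _
  have Cp : IsCoprime (4 * C) (p : ℤ) := (c6a_four (by omega)).symm.mul_left hC
  have fin : ∀ q : ℕ, 4 * C ∣ (q : ℤ) - a → C ∣ (q : ℤ) - a0 ∧ q % 4 = a % 4 := fun q d => by
    have d4 := (dvd_mul_right 4 C).trans d
    refine ⟨?_, by omega⟩
    have := ((dvd_mul_left C 4).trans d).add da
    rwa [sub_add_sub_cancel] at this
  by_cases h3 : a % 4 = 3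
  · obtain ⟨q, hn, hq, d1, d2⟩ := c6a_crt Cp aC isCoprime_one_left.neg_left
      (mul_ne_zero (by norm_num) C0) p0 p
    have := Fact.mk hq
    obtain ⟨f1, f2⟩ := fin q d1
    refine ⟨q, q / 2, hq, hn.ne', by omega, fun hs => p2 ?_, f1,
      Or.inl fun hs => ZMod.exists_sq_eq_neg_one_iff.1 hs (by omega)⟩
    have d3 : (p : ℤ) ∣ (q : ℤ) - -1 - 2 * ((q / 2 : ℕ) : ℤ) :=
      d2.sub ((Int.natCast_dvd_natCast.2 hs).mul_left 2)
    rw [show (q : ℤ) - -1 - 2 * ((q / 2 : ℕ) : ℤ) = (2 : ℕ) by omega,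
      Int.natCast_dvd_natCast] at d3
    exact (Nat.prime_dvd_prime_iff_eq hp Nat.prime_two).1 d3
  · obtain ⟨ρ, hρ⟩ := FiniteField.exists_nonsquare (F := ZMod p)
      (by rw [ZMod.ringChar_zmod_n]; exact p2)
    obtain ⟨r, rfl⟩ := ZMod.intCast_surjective ρ
    have r0 : (r : ZMod p) ≠ 0 := fun e => hρ (e ▸ IsSquare.zero)
    obtain ⟨q, hn, hq, d1, d2⟩ := c6a_crt Cp aC
      ((ZMod.coe_int_isUnit_iff_isCoprime r p).1 r0.isUnit).symm (mul_ne_zero (by norm_num) C0) p0 p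
    have := Fact.mk hq
    obtain ⟨f1, f2⟩ := fin q d1
    have e : (q : ZMod p) = (r : ZMod p) := by
      have := (ZMod.intCast_zmod_eq_zero_iff_dvd _ p).2 d2
      push_cast at this
      exact sub_eq_zero.1 this
    refine ⟨q, q / 2, hq, hn.ne', by omega, fun hs => hρ ?_, f1, Or.inr fun hs => hρ ?_⟩
    · rw [← e, show q = 2 * (q / 2) + 1 by omega, Nat.cast_add, Nat.cast_mul,
        (ZMod.natCast_eq_zero_iff _ p).2 hs, mul_zero, zero_add, Nat.cast_one]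
      exact IsSquare.one
    · rw [← e]
      exact (ZMod.exists_sq_eq_prime_iff_of_mod_four_eq_one (p := q) (q := p) (by omega) p2).1 hs

/-- every unit is a square times `1`, `-1` or `p` -/
lemma c6_sq {p q : ℕ} (hp : p.Prime) (hq : q.Prime) (hqp : q ≠ p)
    (hns : ¬ IsSquare (-1 : ZMod q) ∨ ¬ IsSquare ((p : ℕ) : ZMod q)) {c1 : ℚ} (hc1 : RM p 1 c1)
    (hc : ¬ RM p q c1) :
    ∃ n w : ℤ, IsCoprime (q : ℤ) n ∧ (w = 1 ∨ w = -1 ∨ w = p) ∧
      RM p q (c1 - (n : ℚ) ^ 2 * w) := by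
  have := Fact.mk hq
  obtain ⟨z, hz, -⟩ := RM.cong_int hp (C := q)
    (Nat.isCoprime_iff_coprime.2 ((Nat.coprime_primes hq hp).2 hqp)) hc1 0 0
  have z0 : (z : ZMod q) ≠ 0 := fun e => hc (by
    simpa using hz.add (RM.of_dvd p ((ZMod.intCast_zmod_eq_zero_iff_dvd _ q).1 e)))
  have key : ∃ (y : ZMod q) (w : ℤ), (w = 1 ∨ w = -1 ∨ w = p) ∧ (z : ZMod q) = y ^ 2 * w := by
    by_cases hs : IsSquare (z : ZMod q)
    · obtain ⟨y, hy⟩ := hs
      exact ⟨y, 1, Or.inl rfl, by rw [hy]; push_cast; ring⟩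
    obtain ⟨w, hw, hw2⟩ : ∃ w : ℤ, (w = -1 ∨ w = p) ∧ ¬ IsSquare (w : ZMod q) := by
      rcases hns with h | h
      · exact ⟨-1, Or.inl rfl, by simpa using h⟩
      · exact ⟨p, Or.inr rfl, by simpa using h⟩
    have w0 : (w : ZMod q) ≠ 0 := fun e => hw2 (e ▸ IsSquare.zero)
    obtain ⟨y, hy⟩ := (quadraticChar_one_iff_isSquare (mul_ne_zero z0 w0)).1 (by
      rw [map_mul, quadraticChar_neg_one_iff_not_isSquare.2 hs,
        quadraticChar_neg_one_iff_not_isSquare.2 hw2]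
      norm_num)
    refine ⟨y / w, w, Or.inr hw, ?_⟩
    field_simp
    linear_combination hy
  obtain ⟨y, w, hw, hy⟩ := key
  obtain ⟨n, rfl⟩ := ZMod.intCast_surjective y
  have n0 : (n : ZMod q) ≠ 0 := fun e => z0 (by rw [hy, e]; ring)
  refine ⟨n, w, (ZMod.coe_int_isUnit_iff_isCoprime n q).1 n0.isUnit, hw, ?_⟩
  have d : (q : ℤ) ∣ z - n ^ 2 * w := (ZMod.intCast_zmod_eq_zero_iff_dvd _ q).1 (by
    push_cast
    exact sub_eq_zero.2 hy)
  have := hz.add (RM.of_dvd p d)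
  push_cast at this
  rwa [sub_add_sub_cancel] at this

end Pool.Agent.P.MP_20768c_nt
end

-- part Pool.Agent.P.MP_20768c_nt.B1a
section

namespace Pool.Agent.P.MP_20768c_nt
open M2

lemma b1a_D_pow (u : ℚ) (hu : u ≠ 0) (i : ℕ) : D u hu ^ i = D (u ^ i) (pow_ne_zero i hu) := by
  induction i with
  | zero => ext <;> simp
  | succ i ih =>
    rw [pow_succ, ih]
    ext <;> simp [pow_succ, mul_comm]

lemma b1a_e_zpow (t : ℚ) (z : ℤ) : e t ^ z = e (z * t) := by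
  obtain ⟨n, rfl | rfl⟩ := z.eq_nat_or_neg
  · rw [zpow_natCast, e_pow]
    simp
  · rw [zpow_neg, zpow_natCast, e_pow, ← e_neg]
    simp

lemma b1a_main {p : ℕ} (hp : p.Prime) {N : ℤ} {m : ℕ} (hm : 0 < m) (S : Subgroup M2)
    (hSe : ∀ t, RM p 1 t → e t ∈ S) (hSl : ∀ t, RM p N t → l t ∈ S)
    (hu : (p : ℚ) ^ m ≠ 0) (hSD : D ((p : ℚ) ^ m) hu ∈ S) {g : M2} (hg : g ∈ Gam p N 1)
    (hc : g.c ≠ 0) (hd : g.d ≠ 0) :
    ∃ t0 : ℚ, t0 ≠ 0 ∧ RM p 1 t0 ∧ ∀ s, RM p 1 s → g⁻¹ * e (t0 * s) * g ∈ S := by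
  obtain ⟨-, -, c1, d1⟩ := hg
  have hdR : RM p 1 g.d := d1.of_sub_one
  have hcR : RM p 1 g.c := c1.to_one
  obtain ⟨i, hi, hq⟩ := RM.pow_one_mod hp (mul_ne_zero hc hd) (hcR.mul_r hdR) (2 * m)
  have hp0 : (p : ℚ) ≠ 0 := by exact_mod_cast hp.ne_zero
  have hp1 : (1 : ℚ) < p := by exact_mod_cast hp.one_lt
  obtain ⟨u, hudef⟩ : ∃ u : ℚ, u = ((p : ℚ) ^ m) ^ i := ⟨_, rfl⟩
  have hu0 : u ≠ 0 := hudef ▸ pow_ne_zero i hu
  have hu2 : u ^ 2 = (p : ℚ) ^ (2 * m * i) := by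
    rw [hudef, ← pow_mul, ← pow_mul]
    congr 1
    ring
  have hq' : RM p 1 ((u ^ 2 - 1) / (g.c * g.d)) := by
    rw [hu2, pow_mul]
    exact hq
  have hpos : 0 < 2 * m * i := by positivity
  have hne : u ^ 2 - 1 ≠ 0 := by
    rw [hu2]
    exact (sub_pos.2 (one_lt_pow₀ hp1 hpos.ne')).ne'
  have hD : D u hu0 ∈ S := by
    have h1 := S.pow_mem hSD i
    rw [b1a_D_pow] at h1
    subst hudef
    exact h1
  have hdet := g.det
  let T : Subgroup M2 := S.comap (MulAut.conj g⁻¹).toMonoidHom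
  have hT : ∀ x : M2, x ∈ T ↔ g⁻¹ * x * g ∈ S := fun x => by
    simp [T, Subgroup.mem_comap]
  let x1 : M2 := ⟨u, (u⁻¹ - u) * g.a / g.c, 0, u⁻¹, by simp [hu0]⟩
  let x2 : M2 := ⟨u, (u⁻¹ - u) * g.b / g.d, 0, u⁻¹, by simp [hu0]⟩
  have hb : g.b = (g.a * g.d - 1) / g.c := by
    field_simp
    linear_combination -hdet
  have h1 : x1 ∈ T := by
    rw [hT]
    have : g⁻¹ * x1 * g =
        (D u hu0)⁻¹ * e (-((u ^ 2 - 1) / (g.c * g.d) * (g.d * g.d))) := by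
      ext <;> simp [x1, hb] <;> field_simp <;> ring
    rw [this]
    exact S.mul_mem (S.inv_mem hD) (hSe _ (hq'.mul_r (hdR.mul_r hdR)).neg)
  have h2 : x2 ∈ T := by
    rw [hT]
    have : g⁻¹ * x2 * g = D u hu0 * l (-((u ^ 2 - 1) / (g.c * g.d) * (g.c * g.c))) := by
      ext <;> simp [x2, hb] <;> field_simp <;> ring
    rw [this]
    exact S.mul_mem hD (hSl _ (hq'.mul_l (hcR.mul_l c1)).neg)
  obtain ⟨t0, ht0⟩ : ∃ t0 : ℚ, t0 = -((u ^ 2 - 1) / (g.c * g.d)) := ⟨_, rfl⟩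
  have h3 : e t0 ∈ T := by
    have : e t0 = x1 * x2⁻¹ := by
      ext <;> simp [x1, x2, hb, ht0, hu0]
      field_simp
      ring
    rw [this]
    exact T.mul_mem h1 (T.inv_mem h2)
  have h4 : ∀ t, e t ∈ T → e (t / u ^ 2) ∈ T := fun t ht => by
    have : e (t / u ^ 2) = x1⁻¹ * e t * x1 := by
      ext <;> simp [x1, hu0]
      field_simp
      ring
    rw [this]
    exact T.mul_mem (T.mul_mem (T.inv_mem h1) ht) h1
  have h5 : ∀ (k : ℕ) (t : ℚ), e t ∈ T → e (t / (u ^ 2) ^ k) ∈ T := fun k t ht => by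
    induction k with
    | zero => simpa using ht
    | succ k ih =>
      rw [pow_succ, ← div_div]
      exact h4 _ ih
  refine ⟨t0, ?_, ht0 ▸ hq'.neg, ?_⟩
  · rw [ht0]
    exact neg_ne_zero.2 (div_ne_zero hne (mul_ne_zero hc hd))
  · rintro s ⟨k, z, hz⟩
    rw [← hT]
    obtain ⟨j, hj⟩ : ∃ j, 2 * m * i = j + 1 := ⟨2 * m * i - 1, by omega⟩
    have h6 : e (((z * (p : ℤ) ^ (j * k) : ℤ) : ℚ) * t0) ∈ T := by
      rw [← b1a_e_zpow]
      exact T.zpow_mem h3 _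
    have h7 := h5 k _ h6
    have h8 : ((z * (p : ℤ) ^ (j * k) : ℤ) : ℚ) * t0 / (u ^ 2) ^ k = t0 * s := by
      have hz' : (z : ℚ) = s * (p : ℚ) ^ k := by simpa using hz.symm
      rw [hu2, hj, ← pow_mul, add_mul, one_mul, pow_add]
      push_cast
      rw [hz']
      field_simp
    rwa [h8] at h7

/-- conjugation by the matrix `(0, 1; -N, 0)` -/
def b1aTh (N : ℚ) (hN : N ≠ 0) : M2 →* M2 where
  toFun g := ⟨g.d, -g.c / N, -(N * g.b), g.a, by
    have h := g.det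
    field_simp
    linear_combination h⟩
  map_one' := by ext <;> simp
  map_mul' g h := by ext <;> simp <;> field_simp <;> ring

lemma b1a_th_a (N : ℚ) (hN : N ≠ 0) (g : M2) : (b1aTh N hN g).a = g.d := rfl
lemma b1a_th_b (N : ℚ) (hN : N ≠ 0) (g : M2) : (b1aTh N hN g).b = -g.c / N := rfl
lemma b1a_th_c (N : ℚ) (hN : N ≠ 0) (g : M2) : (b1aTh N hN g).c = -(N * g.b) := rfl
lemma b1a_th_d (N : ℚ) (hN : N ≠ 0) (g : M2) : (b1aTh N hN g).d = g.a := rfl

lemma b1_conj_e {p : ℕ} (hp : p.Prime) {N : ℤ} {m : ℕ} (hm : 0 < m) (S : Subgroup M2)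
    (hSe : ∀ t, RM p 1 t → e t ∈ S) (hSl : ∀ t, RM p N t → l t ∈ S)
    (hu : (p : ℚ) ^ m ≠ 0) (hSD : D ((p : ℚ) ^ m) hu ∈ S) {g : M2} (hg : g ∈ Gam p N 1) :
    ∃ t0 : ℚ, t0 ≠ 0 ∧ RM p 1 t0 ∧ ∀ s, RM p 1 s → g⁻¹ * e (t0 * s) * g ∈ S := by
  by_cases hc : g.c = 0
  · refine ⟨1, one_ne_zero, RM.one p, fun s hs => ?_⟩
    have hdet := g.det
    have hdR : RM p 1 g.d := hg.2.2.2.of_sub_one
    have : g⁻¹ * e (1 * s) * g = e (s * (g.d * g.d)) := by
      rw [hc] at hdet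
      ext <;> simp [hc] <;> linarith
    rw [this]
    exact hSe _ (hs.mul_r (hdR.mul_r hdR))
  by_cases hd : g.d = 0
  · have hg' : g * e 1 ∈ Gam p N 1 := (Gam p N 1).mul_mem hg (e_mem (RM.one p))
    obtain ⟨t0, h0, h1, h2⟩ := b1a_main hp hm S hSe hSl hu hSD hg' (by simpa using hc)
      (by simpa [hd] using hc)
    refine ⟨t0, h0, h1, fun s hs => ?_⟩
    have h3 := S.mul_mem (S.mul_mem (hSe 1 (RM.one p)) (h2 s hs)) (S.inv_mem (hSe 1 (RM.one p)))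
    have : e 1 * ((g * e 1)⁻¹ * e (t0 * s) * (g * e 1)) * (e 1)⁻¹ = g⁻¹ * e (t0 * s) * g := by
      group
    rwa [this] at h3
  · exact b1a_main hp hm S hSe hSl hu hSD hg hc hd

lemma b1_conj_l {p : ℕ} (hp : p.Prime) {N : ℤ} (hN : N ≠ 0) {m : ℕ} (hm : 0 < m) (S : Subgroup M2)
    (hSe : ∀ t, RM p 1 t → e t ∈ S) (hSl : ∀ t, RM p N t → l t ∈ S)
    (hu : (p : ℚ) ^ m ≠ 0) (hSD : D ((p : ℚ) ^ m) hu ∈ S) {g : M2} (hg : g ∈ Gam p N 1) :
    ∃ t0 : ℚ, t0 ≠ 0 ∧ RM p 1 t0 ∧ ∀ s, RM p N s → g⁻¹ * l (t0 * s) * g ∈ S := by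
  have hN' : (N : ℚ) ≠ 0 := by exact_mod_cast hN
  have he : ∀ t, b1aTh N hN' (e t) = l (-(N * t)) := fun t => by
    ext <;> simp [b1a_th_a, b1a_th_b, b1a_th_c, b1a_th_d]
  have hl : ∀ t, b1aTh N hN' (l t) = e (-(t / N)) := fun t => by
    ext <;> simp [b1a_th_a, b1a_th_b, b1a_th_c, b1a_th_d, neg_div]
  have hD : b1aTh N hN' (D ((p : ℚ) ^ m) hu) = (D ((p : ℚ) ^ m) hu)⁻¹ := by
    ext <;> simp [b1a_th_a, b1a_th_b, b1a_th_c, b1a_th_d]
  have hth : b1aTh N hN' (b1aTh N hN' g) = g := by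
    ext <;> simp [b1a_th_a, b1a_th_b, b1a_th_c, b1a_th_d] <;> field_simp
  have hNR : RM p N (N : ℚ) := RM.of_dvd p dvd_rfl
  have hg' : b1aTh N hN' g ∈ Gam p N 1 := by
    obtain ⟨a1, b1, c1, d1⟩ := hg
    exact ⟨d1, c1.neg.div_self hN, (hNR.mul_r b1).neg, a1⟩
  obtain ⟨t0, h0, h1, h2⟩ := b1_conj_e hp hm (S.comap (b1aTh N hN'))
    (fun t ht => by
      rw [Subgroup.mem_comap, he]
      exact hSl _ (hNR.mul_r ht).neg)
    (fun t ht => by
      rw [Subgroup.mem_comap, hl]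
      exact hSe _ (ht.div_self hN).neg)
    hu (by
      rw [Subgroup.mem_comap, hD]
      exact S.inv_mem hSD) hg'
  refine ⟨t0, h0, h1, fun s hs => ?_⟩
  have h3 := h2 _ (hs.div_self hN).neg
  rw [Subgroup.mem_comap, map_mul, map_mul, map_inv, hth, he] at h3
  have h4 : -((N : ℚ) * (t0 * -(s / N))) = t0 * s := by field_simp
  rwa [h4] at h3

end Pool.Agent.P.MP_20768c_nt
end

-- part Pool.Agent.P.MP_20768c_nt.B1
section

namespace Pool.Agent.P.MP_20768c_nt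
open M2

lemma b1_ne {p : ℕ} (hp : p.Prime) {N : ℤ} (hN : IsCoprime N (p : ℤ)) : N ≠ 0 := by
  rintro rfl
  exact (Nat.prime_iff_prime_int.1 hp).not_isUnit (isCoprime_zero_left.1 hN)

lemma b1_cop {p : ℕ} {z w : ℤ} {x y : ℚ} (hz : IsCoprime z (p : ℤ)) (hx : RM p 1 x)
    (hy : RM p 1 y) (h : z * x - y * w = 1) : IsCoprime z w := by
  obtain ⟨k, x', hx'⟩ := hx
  obtain ⟨j, y', hy'⟩ := hy
  have h1 : z * x' * (p : ℤ) ^ j - y' * (p : ℤ) ^ k * w = (p : ℤ) ^ (k + j) := by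
    have : (z : ℚ) * x' * (p : ℚ) ^ j - y' * (p : ℚ) ^ k * w = (p : ℚ) ^ (k + j) := by
      push_cast at hx' hy'
      rw [pow_add]
      linear_combination (p : ℚ) ^ k * (p : ℚ) ^ j * h - z * (p : ℚ) ^ j * hx' +
        w * (p : ℚ) ^ k * hy'
    exact_mod_cast this
  obtain ⟨u, v, huv⟩ := hz.pow_right (n := k + j)
  exact ⟨u + v * x' * (p : ℤ) ^ j, -(v * y' * (p : ℤ) ^ k), by linear_combination huv + v * h1⟩

lemma b1_gen0 {p : ℕ} (hp : p.Prime) {N : ℤ} (hN : IsCoprime N (p : ℤ)) (r : ℕ) {h : M2}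
    (hh : h ∈ Gam p N 1) (hc : h.c ≠ 0) : ∃ (t s' t' : ℚ) (g : M2), RM p 1 t ∧ RM p N s' ∧
      RM p 1 t' ∧ Int1 (N * (p : ℤ) ^ r) g ∧ h = e t * l s' * g * e t' := by
  have hN0 := b1_ne hp hN
  have hN1 : (N : ℚ) ≠ 0 := by exact_mod_cast hN0
  obtain ⟨z, t, ht, ha, hz⟩ := RM.approx hp hc hh.2.2.1.to_one hh.1.of_sub_one (r + 1) 1
  have hz1 : IsCoprime z (p : ℤ) := by
    obtain ⟨y, hy⟩ := hz
    exact ⟨1, -((p : ℤ) ^ r * y), by linear_combination hy⟩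
  have hz0 : (z : ℚ) ≠ 0 := by exact_mod_cast b1_ne hp hz1
  obtain ⟨w, s, hs, hc', hw⟩ := RM.approx hp hz0 (RM.int p z) (hh.2.2.1.div_self hN0) r 0
  rw [sub_zero] at hw
  have hs' : RM p N ((N : ℚ) * s) := (RM.of_dvd p (dvd_refl N)).mul_r hs
  obtain ⟨h2, hh2⟩ : ∃ h2, h2 = (l ((N : ℚ) * s))⁻¹ * ((e t)⁻¹ * h) := ⟨_, rfl⟩
  have m2 : h2 ∈ Gam p N 1 := hh2 ▸ mul_mem (inv_mem (l_mem hs')) (mul_mem (inv_mem (e_mem ht)) hh)
  have a2 : h2.a = z := by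
    rw [hh2]; simp; linear_combination ha
  have c2 : h2.c = ((N * w : ℤ) : ℚ) := by
    rw [div_eq_iff hN1] at hc'
    rw [hh2]; simp; linear_combination hc' - N * s * ha
  have d2 := h2.det
  rw [a2, c2] at d2
  obtain ⟨u, v, huv⟩ := b1_cop hz1 m2.2.2.2.of_sub_one m2.2.1 d2
  have huv' : (u : ℚ) * z + v * ((N * w : ℤ) : ℚ) = 1 := by exact_mod_cast huv
  have hNz : N ∣ z - 1 := RM.dvd_of_int hN (by
    have := m2.1
    rw [a2] at this
    exact_mod_cast this)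
  have hNz' : N * (p : ℤ) ^ r ∣ z - 1 :=
    (hN.pow_right (n := r)).mul_dvd hNz ((pow_dvd_pow _ (Nat.le_succ r)).trans hz)
  have hNw : N * (p : ℤ) ^ r ∣ N * w := mul_dvd_mul_left N hw
  let g : M2 := ⟨z, (-v : ℤ), (N * w : ℤ), u, by push_cast at huv' ⊢; linear_combination huv'⟩
  have hg : Int1 (N * (p : ℤ) ^ r) g := ⟨z, -v, N * w, u, rfl, rfl, rfl, rfl, hNw, by
    have : u - 1 = -(u * (z - 1)) - v * (N * w) := by linear_combination huv
    rw [this]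
    exact (hNz'.mul_left u).neg_right.sub (hNw.mul_left v)⟩
  have m3 : g⁻¹ * h2 ∈ Gam p N 1 := mul_mem (inv_mem (hg.mem (dvd_mul_right _ _))) m2
  have a3 : (g⁻¹ * h2).a = 1 := by
    rw [mul_a, a2, c2]
    simp only [g, inv_a, inv_b]
    push_cast at huv' ⊢
    linear_combination huv'
  have c3 : (g⁻¹ * h2).c = 0 := by
    rw [mul_c, a2, c2]
    simp only [g, inv_c, inv_d]
    ring
  have d3 := (g⁻¹ * h2).det
  rw [a3, c3, one_mul, mul_zero, sub_zero] at d3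
  have e3 : g⁻¹ * h2 = e (g⁻¹ * h2).b := M2.ext a3 rfl c3 d3
  refine ⟨t, N * s, (g⁻¹ * h2).b, g, ht, hs', m3.2.1, hg, ?_⟩
  rw [← e3, hh2]
  group

/-- `Γ₁(N p^r)` and the unipotents generate -/
lemma b1_gen {p : ℕ} (hp : p.Prime) {N : ℤ} (hN : IsCoprime N (p : ℤ)) (r : ℕ) {h : M2}
    (hh : h ∈ Gam p N 1) : ∃ (s t s' t' : ℚ) (g : M2), RM p N s ∧ RM p 1 t ∧ RM p N s' ∧
      RM p 1 t' ∧ Int1 (N * (p : ℤ) ^ r) g ∧ h = l s * e t * l s' * g * e t' := by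
  by_cases hc : h.c = 0
  · have hN1 : (N : ℚ) ≠ 0 := by exact_mod_cast b1_ne hp hN
    have hl : RM p N (N : ℚ) := RM.of_dvd p (dvd_refl N)
    have ha : h.a ≠ 0 := fun h0 => by
      have := h.det
      rw [h0, hc] at this
      simp at this
    obtain ⟨t, s', t', g, h1, h2, h3, h4, h5⟩ := b1_gen0 hp hN r (mul_mem (l_mem hl) hh)
      (by simp [hc, hN1, ha])
    refine ⟨-N, t, s', t', g, hl.neg, h1, h2, h3, h4, ?_⟩
    rw [l_neg, mul_assoc, mul_assoc, mul_assoc, eq_inv_mul_iff_mul_eq, h5]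
    group
  · obtain ⟨t, s', t', g, h1, h2, h3, h4, h5⟩ := b1_gen0 hp hN r hh hc
    exact ⟨0, t, s', t', g, RM.zero p N, h1, h2, h3, h4, by rw [l_zero, one_mul, h5]⟩

theorem b1 {A : Type*} [AddCommGroup A] {p : ℕ} (hp : p.Prime) {N : ℤ}
    (hN : IsCoprime N (p : ℤ)) (r : ℕ) {m : ℕ} (hm : 0 < m) (Φ : M2 → A)
    (hU : ∀ h ∈ Gam p N 1, ∀ t, RM p 1 t → Φ (h * e t) = Φ h)
    (hL : ∀ h ∈ Gam p N 1, ∀ t, RM p N t → Φ (h * l t) = Φ h)
    (hu : (p : ℚ) ^ m ≠ 0) (hDm : D ((p : ℚ) ^ m) hu ∈ Gam p N 1)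
    (hD : ∀ h ∈ Gam p N 1, Φ (h * D ((p : ℚ) ^ m) hu) = Φ h)
    (hΔ : ∀ g, Int1 (N * (p : ℤ) ^ r) g → ∀ h ∈ Gam p N 1, Φ (g * h) = Φ g + Φ h) :
    IsHom (Gam p N 1) Φ := by
  have hN0 := b1_ne hp hN
  have hN1 : (N : ℚ) ≠ 0 := by exact_mod_cast hN0
  let S : Subgroup M2 :=
    { carrier := {s | s ∈ Gam p N 1 ∧ ∀ h ∈ Gam p N 1, Φ (h * s) = Φ h}
      one_mem' := ⟨one_mem _, fun h _ => by rw [mul_one]⟩
      mul_mem' := fun {a b} ha hb => ⟨mul_mem ha.1 hb.1, fun h hh => by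
        rw [← mul_assoc, hb.2 _ (mul_mem hh ha.1), ha.2 h hh]⟩
      inv_mem' := fun {a} ha => ⟨inv_mem ha.1, fun h hh => by
        rw [← ha.2 _ (mul_mem hh (inv_mem ha.1)), inv_mul_cancel_right]⟩ }
  have hSe : ∀ t, RM p 1 t → e t ∈ S := fun t ht => ⟨e_mem ht, fun h hh => hU h hh t ht⟩
  have hSl : ∀ t, RM p N t → l t ∈ S := fun t ht => ⟨l_mem ht, fun h hh => hL h hh t ht⟩
  have hSD : D ((p : ℚ) ^ m) hu ∈ S := ⟨hDm, hD⟩
  have h1 : Φ 1 = 0 := by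
    have := hΔ 1 ⟨1, 0, 0, 1, by simp, by simp, by simp, by simp, by simp, by simp⟩ 1 (one_mem _)
    simpa using this
  have h0 : ∀ s ∈ S, Φ s = 0 := fun s hs => by
    have := hs.2 1 (one_mem _)
    rwa [one_mul, h1] at this
  have LE : ∀ t, RM p 1 t → ∀ g ∈ Gam p N 1, Φ (e t * g) = Φ g := fun t ht g hg => by
    obtain ⟨t0, k1, k2, k3⟩ := b1_conj_e hp hm S hSe hSl hu hSD hg
    obtain ⟨z, s, hs, rfl, -⟩ := RM.approx hp k1 k2 ht 0 0
    have e1 : e (z + t0 * s) * g = e z * (g * (g⁻¹ * e (t0 * s) * g)) := by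
      rw [e_add]; group
    rw [e1, hΔ _ ⟨1, z, 0, 1, by simp, by simp, by simp, by simp, by simp, by simp⟩ _
      (mul_mem hg (k3 s hs).1), (k3 s hs).2 g hg, h0 _ (hSe _ (RM.int p z)), zero_add]
  have LL : ∀ t, RM p N t → ∀ g ∈ Gam p N 1, Φ (l t * g) = Φ g := fun t ht g hg => by
    obtain ⟨t0, k1, k2, k3⟩ := b1_conj_l hp hN0 hm S hSe hSl hu hSD hg
    obtain ⟨z, s, hs, k4, k5⟩ := RM.approx hp k1 k2 (ht.div_self hN0) r 0
    rw [sub_zero] at k5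
    rw [div_eq_iff hN1] at k4
    have hs' : RM p N ((N : ℚ) * s) := (RM.of_dvd p (dvd_refl N)).mul_r hs
    have e0 : t = N * z + t0 * (N * s) := by linear_combination k4
    have e1 : l t * g = l (N * z) * (g * (g⁻¹ * l (t0 * (N * s)) * g)) := by
      rw [e0, l_add]; group
    rw [e1, hΔ _ ⟨1, 0, N * z, 1, by simp, by simp, by simp, by simp, mul_dvd_mul_left N k5,
      by simp⟩ _ (mul_mem hg (k3 _ hs').1), (k3 _ hs').2 g hg, h0 _ (hSl _ (RM.int_mul p N z)),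
      zero_add]
  intro h hh
  obtain ⟨s, t, s', t', g, k1, k2, k3, k4, k5, rfl⟩ := b1_gen hp hN r hh
  have hg : g ∈ Gam p N 1 := k5.mem (dvd_mul_right _ _)
  have key : ∀ k ∈ Gam p N 1, Φ (l s * e t * l s' * g * e t' * k) = Φ g + Φ k := fun k hk => by
    have m1 := mul_mem (e_mem (N := N) k4) hk
    have m2 := mul_mem hg m1
    have m3 := mul_mem (l_mem (B := 1) k3) m2
    have m4 := mul_mem (e_mem (N := N) k2) m3
    rw [mul_assoc, mul_assoc, mul_assoc, mul_assoc, LL _ k1 _ m4, LE _ k2 _ m3, LL _ k3 _ m2,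
      hΔ g k5 _ m1, LE _ k4 _ hk]
  intro k hk
  have k6 := key 1 (one_mem _)
  rw [mul_one, h1, add_zero] at k6
  rw [key k hk, k6]

end Pool.Agent.P.MP_20768c_nt
end

-- part Pool.Agent.P.MP_20768c_nt.C6
section

namespace Pool.Agent.P.MP_20768c_nt
open M2

lemma c6_last {A : Type*} [AddCommGroup A] {p k : ℕ} (hp : p.Prime) {N : ℤ} (hN0 : N ≠ 0)
    {χ : M2 → A} (h : IsHom (Gam p N 1) χ) (hk : ∀ g ∈ Gam p N 1, p ^ k • χ g = 0) {q w : ℤ}
    (h1 : N ∣ q - 1) (hw : w = 1 ∨ w = -1 ∨ w = p) {g : M2} (hg : g ∈ Gam p N 1) (ha : g.a = q)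
    (hc : g.c = (N * w : ℤ)) : χ g = 0 := by
  obtain ⟨m, hm⟩ := h1
  have hp' : (p : ℚ) ≠ 0 := by exact_mod_cast hp.ne_zero
  have hw0 : (w : ℚ) ≠ 0 := by
    rcases hw with rfl | rfl | rfl
    · norm_num
    · norm_num
    · exact_mod_cast hp.ne_zero
  have ht : RM p 1 (-(m : ℚ) / w) := by
    rcases hw with rfl | rfl | rfl
    · simpa using (RM.int p m).neg
    · have e : -(m : ℚ) / ((-1 : ℤ) : ℚ) = m := by push_cast; ring
      rw [e]
      exact RM.int p m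
    · simpa using ((RM.int p m).neg).div_pow hp.ne_zero 1
  have hm' : (q : ℚ) - 1 = N * m := by exact_mod_cast hm
  have hl : RM p N ((N * w : ℤ) : ℚ) := RM.of_dvd p (dvd_mul_right N w)
  have h2 := col_eq hp h hk ((Gam p N 1).mul_mem (e_mem ht) hg) (l_mem hl)
    (by
      rw [mul_a, e_a, e_b, l_a, ha, hc]
      push_cast
      field_simp
      linear_combination hm')
    (by rw [mul_c, e_c, e_d, l_c, hc]; ring)
  rwa [h _ (e_mem ht) _ hg, hom_e hp.ne_zero h hk ht, hom_l hp.ne_zero h hk hl, zero_add] at h2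

lemma c6_prime_col {A : Type*} [AddCommGroup A] {p k : ℕ} (hp : p.Prime) {N : ℤ} (hN0 : N ≠ 0)
    {χ : M2 → A} (h : IsHom (Gam p N 1) χ) (hk : ∀ g ∈ Gam p N 1, p ^ k • χ g = 0) {q s : ℕ}
    (hq : q.Prime) (hqp : q ≠ p) (hqs : q = 2 * s + 1) (hs : ¬ p ∣ s)
    (hns : ¬ IsSquare (-1 : ZMod q) ∨ ¬ IsSquare ((p : ℕ) : ZMod q)) (h1 : N ∣ (q : ℤ) - 1)
    {g : M2} (hg : g ∈ Gam p N 1) (ha : g.a = ((q : ℤ) : ℚ)) : χ g = 0 := by
  have hcp : IsCoprime (q : ℤ) (p : ℤ) :=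
    Nat.isCoprime_iff_coprime.2 ((Nat.coprime_primes hq hp).2 hqp)
  have hN' : (N : ℚ) ≠ 0 := by exact_mod_cast hN0
  have hq0 : (q : ℤ) ≠ 0 := by exact_mod_cast hq.ne_zero
  have hq' : ((q : ℤ) : ℚ) ≠ 0 := by exact_mod_cast hq.ne_zero
  have hqu : ¬ (q : ℤ) ∣ 1 := fun hd => hq.one_lt.ne' (Nat.dvd_one.1 (by exact_mod_cast hd))
  have hc1 : RM p 1 (g.c / N) := hg.2.2.1.div_self hN0
  have hnc : ¬ RM p q (g.c / N) := fun hc => by
    have h2 : RM p q (g.a * g.d - g.b * (N * (g.c / N))) := by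
      refine RM.sub ?_ (hg.2.1.mul_l ((RM.int p N).mul_l hc))
      rw [ha]
      exact (RM.of_dvd p (dvd_refl _)).mul_r hg.2.2.2.of_sub_one
    rw [mul_div_cancel₀ _ hN', g.det] at h2
    exact hqu (RM.dvd_of_int hcp (by exact_mod_cast h2))
  obtain ⟨n, w, hqn, hw, hr⟩ := c6_sq hp hq hqp hns hc1 hnc
  have hn0 : n ≠ 0 := by
    rintro rfl
    exact hqu (isUnit_iff_dvd_one.1 (isCoprime_zero_right.1 hqn))
  have hqN : IsCoprime (q : ℤ) N := by
    obtain ⟨m, hm⟩ := h1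
    exact ⟨1, -m, by linear_combination hm⟩
  have hqw : IsCoprime (q : ℤ) w := by
    rcases hw with rfl | rfl | rfl
    · exact isCoprime_one_right
    · exact isCoprime_one_right.neg_right
    · exact hcp
  have hqc : IsCoprime (q : ℤ) (N * w) := hqN.mul_right hqw
  obtain ⟨g2, -, -, hg2, a2, -, c2, -, -⟩ := exists_col p (N := N) (B := 1) (a := q) (c := N * w)
    (by rwa [one_mul]) h1 (dvd_mul_right N w)
  obtain ⟨g3, -, -, hg3, a3, -, c3, -, -⟩ := exists_col p (N := N) (B := 1) (a := q)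
    (c := n ^ 2 * (N * w)) (by rw [one_mul]; exact (hqn.pow_right).mul_right hqc) h1
    ((dvd_mul_right N w).mul_left _)
  have hF : (q : ℤ) ∣ n ^ (2 * s) - 1 := by
    have h3 := Int.ModEq.pow_card_sub_one_eq_one hq hqn.symm
    have h4 : q - 1 = 2 * s := by omega
    rw [h4] at h3
    exact h3.symm.dvd
  have e1 : χ g = χ g3 := col_cong hp h hk hg hg3 (ha.trans a3.symm)
    (s := N * -((g.c / N - (n : ℚ) ^ 2 * w) / ((q : ℤ) : ℚ)))
    ((RM.of_dvd p (dvd_refl N)).mul_r (hr.div_self hq0).neg)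
    (by
      rw [c3, ha]
      field_simp
      push_cast
      ring)
  have e2 : χ g2 = χ g3 := c5 hp hN0 h hk hn0 hs hF hqn hqc h1 (dvd_mul_right N w) hg2 hg3 a2 c2 a3
    (by rw [c3]; push_cast; ring)
  rw [e1, ← e2]
  exact c6_last hp hN0 h hk h1 hw hg2 a2 c2

lemma c6_ne {A : Type*} [AddCommGroup A] {p k : ℕ} (hp : p.Prime) {N : ℤ}
    (hN : IsCoprime N (p : ℤ)) (hN0 : N ≠ 0) {χ : M2 → A} (h : IsHom (Gam p N 1) χ)
    (hk : ∀ g ∈ Gam p N 1, p ^ k • χ g = 0) {g : M2} (hg : g ∈ Gam p N 1) (hc0 : g.c ≠ 0) :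
    χ g = 0 := by
  have hp' : (p : ℚ) ≠ 0 := by exact_mod_cast hp.ne_zero
  obtain ⟨C, i, hC0, hC, hc⟩ := RM.strip hp hc0 hg.2.2.1.to_one
  have hC' : (C : ℚ) ≠ 0 := by exact_mod_cast hC0
  have hpi : (p : ℚ) ^ i ≠ 0 := zpow_ne_zero i hp'
  have hCc : RM p C g.c := by
    rw [hc]
    exact (RM.of_dvd p (dvd_refl C)).mul_r (RM.zpow hp.ne_zero i)
  obtain ⟨a0, ha0, -⟩ := RM.cong_int hp hC hg.1.of_sub_one 0 0
  obtain ⟨d0, hd0, -⟩ := RM.cong_int hp hC hg.2.2.2.of_sub_one 0 0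
  have hco : IsCoprime a0 C := by
    have h1 : RM p C ((a0 * d0 - 1 : ℤ) : ℚ) := by
      have e : ((a0 * d0 - 1 : ℤ) : ℚ) =
          g.b * g.c - (g.a - a0) * g.d - a0 * (g.d - d0) := by
        push_cast
        linear_combination g.det
      rw [e]
      exact ((hg.2.1.mul_l hCc).sub (ha0.mul_r hg.2.2.2.of_sub_one)).sub ((RM.int p a0).mul_l hd0)
    obtain ⟨u, hu⟩ := RM.dvd_of_int hC h1
    exact ⟨d0, -u, by linear_combination hu⟩
  obtain ⟨q, s, hq, hqp, hqs, hs, hqa, hns⟩ := c6_prime hp hC hco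
  have h2 : RM p C (((q : ℤ) : ℚ) - g.a) := by
    have e : ((q : ℤ) : ℚ) - g.a = (((q : ℤ) - a0 : ℤ) : ℚ) - (g.a - a0) := by
      push_cast
      ring
    rw [e]
    exact (RM.of_dvd p hqa).sub ha0
  have ht : RM p 1 ((((q : ℤ) : ℚ) - g.a) / C * (p : ℚ) ^ (-i)) :=
    (h2.div_self hC0).mul_r (RM.zpow hp.ne_zero _)
  have hg1 := (Gam p N 1).mul_mem (e_mem ht) hg
  have ha1 : (e ((((q : ℤ) : ℚ) - g.a) / C * (p : ℚ) ^ (-i)) * g).a = ((q : ℤ) : ℚ) := by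
    rw [mul_a, e_a, e_b, hc, zpow_neg]
    field_simp
    ring
  have h3 : N ∣ (q : ℤ) - 1 := by
    have h4 := hg1.1
    rw [ha1] at h4
    exact RM.dvd_of_int hN (by exact_mod_cast h4)
  have h5 := c6_prime_col hp hN0 h hk hq hqp hqs hs hns h3 hg1 ha1
  rwa [h _ (e_mem ht) _ hg, hom_e hp.ne_zero h hk ht, zero_add] at h5

/-- B2: the group has no nonzero homomorphism to a group killed by `p ^ k` -/
theorem c6 {A : Type*} [AddCommGroup A] {p k : ℕ} (hp : p.Prime) {N : ℤ}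
    (hN : IsCoprime N (p : ℤ)) {χ : M2 → A} (h : IsHom (Gam p N 1) χ)
    (hk : ∀ g ∈ Gam p N 1, p ^ k • χ g = 0) : ∀ g ∈ Gam p N 1, χ g = 0 := by
  have hN0 : N ≠ 0 := by
    rintro rfl
    have h1 := isUnit_iff_dvd_one.1 (isCoprime_zero_left.1 hN)
    exact hp.one_lt.ne' (Nat.dvd_one.1 (by exact_mod_cast h1))
  intro g hg
  by_cases hc : g.c = 0
  · have hl : RM p N (N : ℚ) := RM.of_dvd p (dvd_refl N)
    have ha : g.a ≠ 0 := fun h0 => by
      have h1 := g.det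
      rw [h0, hc] at h1
      norm_num at h1
    have h2 := c6_ne hp hN hN0 h hk ((Gam p N 1).mul_mem (l_mem hl) hg) (by
      rw [mul_c, l_c, l_d, hc, mul_zero, add_zero]
      exact mul_ne_zero (by exact_mod_cast hN0) ha)
    rwa [h _ (l_mem hl) _ hg, hom_l hp.ne_zero h hk hl, zero_add] at h2
  · exact c6_ne hp hN hN0 h hk hg hc

theorem core {A : Type*} [AddCommGroup A] {p k : ℕ} (hp : p.Prime) {N : ℤ}
    (hN : IsCoprime N (p : ℤ)) (r : ℕ) {m : ℕ} (hm : 0 < m) (Φ : M2 → A)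
    (hk : ∀ g ∈ Gam p N 1, p ^ k • Φ g = 0)
    (hU : ∀ h ∈ Gam p N 1, ∀ t, RM p 1 t → Φ (h * e t) = Φ h)
    (hL : ∀ h ∈ Gam p N 1, ∀ t, RM p N t → Φ (h * l t) = Φ h)
    (hu : (p : ℚ) ^ m ≠ 0) (hDm : D ((p : ℚ) ^ m) hu ∈ Gam p N 1)
    (hD : ∀ h ∈ Gam p N 1, Φ (h * D ((p : ℚ) ^ m) hu) = Φ h)
    (hΔ : ∀ g, Int1 (N * (p : ℤ) ^ r) g → ∀ h ∈ Gam p N 1, Φ (g * h) = Φ g + Φ h) :
    ∀ g ∈ Gam p N 1, Φ g = 0 :=
  c6 hp hN (b1 hp hN r hm Φ hU hL hu hDm hD hΔ) hk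

end Pool.Agent.P.MP_20768c_nt
end

-- part Pool.Agent.P.MP_20768c_nt.Eng0
section

namespace Pool.Agent.P.MP_20768c_nt
open M2

/-- the open ball of radius `c` as an additive subgroup -/
def eng0_ball (K : Type*) [NormedField K] [IsUltrametricDist K] {c : ℝ} (hc : 0 < c) :
    AddSubgroup K where
  carrier := {x | ‖x‖ < c}
  zero_mem' := by simpa using hc
  add_mem' := fun {x y} hx hy =>
    (IsUltrametricDist.norm_add_le_max x y).trans_lt (max_lt hx hy)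
  neg_mem' := fun {x} hx => by simpa using hx

/-- application of `core` to `h ↦ F(b,d) - Q(b,d)` modulo the open ball of radius `c` -/
theorem eng0 {K : Type*} [NormedField K] [IsUltrametricDist K] {p : ℕ} (hp : p.Prime)
    (hpn : ‖(p : K)‖ < 1) {M : ℕ} [NeZero M] {N : ℤ} {r : ℕ} (hN : IsCoprime N (p : ℤ))
    (hM : (M : ℤ) = N * (p : ℤ) ^ r) {ε : DirichletCharacter K M} {S : ℚ → K} (hT : TLaw M ε S)
    {c : ℝ} (hc : 0 < c) (Q : ℚ → ℚ → K)
    (q0 : Q 0 1 = S 0)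
    (q1 : ∃ B : ℝ, ∀ h ∈ Gam p N 1, ‖Q h.b h.d‖ ≤ B)
    (q2 : ∀ g, Int1 (M : ℤ) g → ∀ h ∈ Gam p N 1, Q (g * h).b (g * h).d = Q h.b h.d)
    (q3 : ∀ h ∈ Gam p N 1, ∀ h' ∈ Gam p N 1, h.a = h'.a → h.c = h'.c →
      ‖(Fv S h.b h.d - Q h.b h.d) - (Fv S h'.b h'.d - Q h'.b h'.d)‖ < c)
    (q4 : ∃ m : ℕ, 0 < m ∧ RM p N ((p : ℚ) ^ m - 1) ∧ ∀ h ∈ Gam p N 1,
      ‖Q (h.b * ((p : ℚ) ^ m)⁻¹) (h.d * ((p : ℚ) ^ m)⁻¹) - Q h.b h.d‖ < c)
    {b d : ℤ} (hbd : IsCoprime b d) (hd : (M : ℤ) ∣ d - 1) : ‖Fv S b d - S 0‖ < c := by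
  obtain ⟨B1, hB1⟩ := sd_bdd hT
  obtain ⟨B2, hB2⟩ := q1
  obtain ⟨m, hm, hm1, hm2⟩ := q4
  have hp0 : (p : ℚ) ≠ 0 := by exact_mod_cast hp.ne_zero
  have hu : (p : ℚ) ^ m ≠ 0 := pow_ne_zero _ hp0
  have hB0 : 0 ≤ B1 := (norm_nonneg _).trans (hB1 0)
  have hF : ∀ x y : ℚ, ‖Fv S x y‖ ≤ B1 := by
    intro x y
    unfold Fv
    split_ifs
    · simpa using hB0
    · exact hB1 _
  have hB20 : 0 ≤ B2 := (norm_nonneg _).trans (hB2 1 (Gam p N 1).one_mem)
  obtain ⟨k, hk⟩ := exists_pow_lt_of_lt_one (show 0 < c / (B1 + B2 + 1) by positivity) hpn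
  have hQ : ∀ g, Int1 (M : ℤ) g → Q g.b g.d = S 0 := by
    intro g hg
    have := q2 g hg 1 (Gam p N 1).one_mem
    rw [mul_one] at this
    rw [this]
    exact q0
  have hmk : ∀ x y : K, ‖x - y‖ < c →
      (QuotientAddGroup.mk x : K ⧸ eng0_ball K hc) = QuotientAddGroup.mk y := by
    intro x y h
    rw [QuotientAddGroup.eq]
    show ‖-x + y‖ < c
    rwa [neg_add_eq_sub, norm_sub_rev]
  have key := core (A := K ⧸ eng0_ball K hc) (k := k) hp hN r hm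
    (fun h => QuotientAddGroup.mk (Fv S h.b h.d - Q h.b h.d)) ?_ ?_ ?_ hu ?_ ?_ ?_
  · have hcop : IsCoprime d (b * (M : ℤ)) := by
      refine IsCoprime.mul_right hbd.symm ?_
      obtain ⟨w, hw⟩ := hd
      exact ⟨1, -w, by linear_combination hw⟩
    obtain ⟨u, v, huv⟩ := hcop
    have hdet : (u : ℚ) * d - b * ((-(v * M) : ℤ) : ℚ) = 1 := by
      have : u * d - b * (-(v * M)) = 1 := by linear_combination huv
      exact_mod_cast this
    have hg : Int1 (M : ℤ) ⟨u, b, ((-(v * M) : ℤ) : ℚ), d, hdet⟩ :=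
      ⟨u, b, -(v * M), d, rfl, rfl, rfl, rfl, (Dvd.intro_left v rfl).neg_right, hd⟩
    have h1 := key _ (hg.mem (p := p) (N := N) ⟨_, hM⟩)
    have h2 := hQ _ hg
    simp only at h1 h2
    rw [h2, QuotientAddGroup.eq_zero_iff] at h1
    exact h1
  · intro g hg
    rw [← QuotientAddGroup.mk_nsmul, QuotientAddGroup.eq_zero_iff]
    show ‖p ^ k • (Fv S g.b g.d - Q g.b g.d)‖ < c
    rw [nsmul_eq_mul, norm_mul, Nat.cast_pow, norm_pow]
    have h1 : ‖Fv S g.b g.d - Q g.b g.d‖ ≤ B1 + B2 + 1 :=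
      (norm_sub_le _ _).trans (by linarith [hF g.b g.d, hB2 g hg])
    rw [lt_div_iff₀ (by positivity)] at hk
    exact lt_of_le_of_lt (mul_le_mul_of_nonneg_left h1 (by positivity)) hk
  · intro h hh t ht
    exact hmk _ _ (q3 _ ((Gam p N 1).mul_mem hh (e_mem ht)) h hh (by simp) (by simp))
  · intro h _ t _
    simp
  · refine ⟨hm1, RM.zero _ _, RM.zero _ _, ?_⟩
    have : (D ((p : ℚ) ^ m) hu).d - 1 = -(((p : ℚ) ^ m - 1) * ((p : ℚ) ^ m)⁻¹) := by
      rw [D_d]; field_simp; ring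
    rw [this]
    exact (hm1.mul_r (RM.inv_pow hp.ne_zero m)).neg
  · intro h hh
    have e1 : (h * D ((p : ℚ) ^ m) hu).b = h.b * ((p : ℚ) ^ m)⁻¹ := by simp
    have e2 : (h * D ((p : ℚ) ^ m) hu).d = h.d * ((p : ℚ) ^ m)⁻¹ := by simp
    have e3 : Fv S (h.b * ((p : ℚ) ^ m)⁻¹) (h.d * ((p : ℚ) ^ m)⁻¹) = Fv S h.b h.d := by
      rw [mul_comm h.b, mul_comm h.d]
      exact Fv_smul S _ _ (inv_ne_zero hu)
    refine hmk _ _ ?_
    rw [e1, e2, e3, sub_sub_sub_cancel_left, norm_sub_rev]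
    exact hm2 h hh
  · intro g hg h hh
    rw [← hM] at hg
    rw [← QuotientAddGroup.mk_add, q2 g hg h hh, hQ g hg]
    obtain ⟨a', b', c', d', ha, hb, hc', hd', h1, h2⟩ := hg
    have hdet := g.det
    rw [ha, hb, hc', hd'] at hdet
    have hdet' : a' * d' - b' * c' = 1 := by exact_mod_cast hdet
    have hne : h.b ≠ 0 ∨ h.d ≠ 0 := by
      by_contra hcon
      push Not at hcon
      have := h.det
      rw [hcon.1, hcon.2] at this
      simp at this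
    have t1 := hT a' b' c' d' hdet' h1 h.b h.d hne
    have t2 := hT a' b' c' d' hdet' h1 0 1 (Or.inr one_ne_zero)
    rw [char_one ε h2, one_mul] at t1 t2
    have t3 : Fv S 0 1 = S 0 := by simp [Fv]
    rw [mul_zero, mul_zero, mul_one, mul_one, zero_add, zero_add, t3] at t2
    rw [mul_b, mul_d, ha, hb, hc', hd', t1, t2]
    congr 1
    ring

open Classical in
/-- the exponent and the primitive vector of `(x, y)` -/
noncomputable def prim (p : ℕ) (x y : ℚ) : ℤ × ℤ × ℤ :=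
  if h : ∃ v : ℤ × ℤ × ℤ, Prim p x y v.1 v.2.1 v.2.2 then h.choose else 0

lemma prim_eq {p : ℕ} (hp : p.Prime) {x y : ℚ} {j x' y' : ℤ} (h : Prim p x y j x' y') :
    prim p x y = (j, x', y') := by
  unfold prim
  have hex : ∃ v : ℤ × ℤ × ℤ, Prim p x y v.1 v.2.1 v.2.2 := ⟨(j, x', y'), h⟩
  rw [dif_pos hex]
  obtain ⟨h1, h2, h3⟩ := Prim.unique hp hex.choose_spec h
  exact Prod.ext h1 (Prod.ext h2 h3)

lemma prim_col1 {p : ℕ} (hp : p.Prime) {N : ℤ} (hN : IsCoprime N (p : ℤ)) {h : M2}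
    (hh : h ∈ Gam p N 1) : ∃ j a c, Prim p h.a h.c j a c ∧ N ∣ c := by
  obtain ⟨ha, hb, hc, hd⟩ := hh
  obtain ⟨j, a, c, hP⟩ := Prim.exists hp ha.of_sub_one hc.to_one hd.of_sub_one hb.neg
    (by linear_combination h.det)
  refine ⟨j, a, c, hP, RM.dvd_of_int hN ?_⟩
  have hp0 : (p : ℚ) ≠ 0 := by exact_mod_cast hp.ne_zero
  have : (c : ℚ) = (p : ℚ) ^ (-j) * h.c := by
    rw [hP.2.2, ← mul_assoc, ← zpow_add₀ hp0]; simp
  rw [this]
  exact (RM.zpow hp.ne_zero _).mul_l hc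

lemma prim_col2 {p : ℕ} (hp : p.Prime) {N : ℤ} {h : M2}
    (hh : h ∈ Gam p N 1) : ∃ j b d, Prim p h.b h.d j b d := by
  obtain ⟨ha, hb, hc, hd⟩ := hh
  exact Prim.exists hp hb hd.of_sub_one hc.to_one.neg ha.of_sub_one
    (by linear_combination h.det)

/-- the determinant of the two primitive columns is a power of `p` -/
lemma prim_det {p : ℕ} (hp : p.Prime) {h : M2} {j a c j' b d : ℤ}
    (h1 : Prim p h.a h.c j a c) (h2 : Prim p h.b h.d j' b d) :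
    ∃ n : ℕ, j + j' = -(n : ℤ) ∧ a * d - b * c = (p : ℤ) ^ n := by
  have hp0 : (p : ℚ) ≠ 0 := by exact_mod_cast hp.ne_zero
  have hdet := h.det
  rw [h1.2.1, h1.2.2, h2.2.1, h2.2.2] at hdet
  have key : (p : ℚ) ^ (j + j') * ((a * d - b * c : ℤ) : ℚ) = 1 := by
    rw [zpow_add₀ hp0]; push_cast; linear_combination hdet
  obtain ⟨n, hn | hn⟩ := (j + j').eq_nat_or_neg
  · rw [hn, zpow_natCast] at key
    have k2 : (p : ℤ) ^ n * (a * d - b * c) = 1 := by exact_mod_cast key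
    have hn0 : n = 0 := by
      by_contra h0
      have : (p : ℤ) ∣ 1 := k2 ▸ (dvd_pow_self _ h0).mul_right _
      have := Int.natCast_dvd_natCast.1 (show (p : ℤ) ∣ ((1 : ℕ) : ℤ) by simpa using this)
      exact hp.one_lt.ne' (Nat.dvd_one.1 this)
    subst hn0
    exact ⟨0, by simpa using hn, by simpa using k2⟩
  · refine ⟨n, hn, ?_⟩
    rw [hn, zpow_neg, zpow_natCast, inv_mul_eq_iff_eq_mul₀ (pow_ne_zero _ hp0), mul_one] at key
    exact_mod_cast key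

lemma prim_mul {p : ℕ} {M : ℤ} {g h : M2} (hg : Int1 M g) {j b d : ℤ}
    (h2 : Prim p h.b h.d j b d) :
    ∃ b' d', Prim p (g * h).b (g * h).d j b' d' ∧ M ∣ d' - d := by
  obtain ⟨a', b', c', d', ha, hb, hc, hd, h1, h3⟩ := hg
  have hdet := g.det
  rw [ha, hb, hc, hd] at hdet
  have hdet' : a' * d' - b' * c' = 1 := by exact_mod_cast hdet
  obtain ⟨⟨u, v, huv⟩, e1, e2⟩ := h2
  refine ⟨a' * b + b' * d, c' * b + d' * d, ⟨⟨u * d' - v * c', v * a' - u * b', ?_⟩, ?_, ?_⟩, ?_⟩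
  · linear_combination (u * b + v * d) * hdet' + huv
  · rw [mul_b, ha, hb, e1, e2]; push_cast; ring
  · rw [mul_d, hc, hd, e1, e2]; push_cast; ring
  · have : c' * b + d' * d - d = c' * b + (d' - 1) * d := by ring
    rw [this]
    exact (h1.mul_right b).add (h3.mul_right d)

lemma prim_scale {p : ℕ} (hp : p.Prime) {x y : ℚ} {j x' y' : ℤ} (h : Prim p x y j x' y') (m : ℕ) :
    Prim p (x * ((p : ℚ) ^ m)⁻¹) (y * ((p : ℚ) ^ m)⁻¹) (j - m) x' y' := by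
  have hp0 : (p : ℚ) ≠ 0 := by exact_mod_cast hp.ne_zero
  refine ⟨h.1, ?_, ?_⟩
  · rw [zpow_sub₀ hp0, zpow_natCast, h.2.1]; ring
  · rw [zpow_sub₀ hp0, zpow_natCast, h.2.2]; ring

lemma Fv_prim {K : Type*} [Zero K] (S : ℚ → K) {p : ℕ} (hp : p.Prime) {x y : ℚ} {j x' y' : ℤ}
    (h : Prim p x y j x' y') : Fv S x y = Fv S x' y' := by
  have hp0 : (p : ℚ) ≠ 0 := by exact_mod_cast hp.ne_zero
  rw [h.2.1, h.2.2]
  exact Fv_smul S _ _ (zpow_ne_zero _ hp0)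

end Pool.Agent.P.MP_20768c_nt
end

-- part Pool.Agent.P.MP_20768c_nt.EngA
section

namespace Pool.Agent.P.MP_20768c_nt
open M2

lemma enga_norm_e {K : Type*} [NormedField K] {p M : ℕ} (hM : IsCoprime (M : ℤ) (p : ℤ))
    (ε : DirichletCharacter K M) : ‖ε (p : ZMod M)‖ = 1 := by
  apply char_norm_unit
  have := (ZMod.coe_int_isUnit_iff_isCoprime (p : ℤ) M).2 hM
  simpa using this

lemma enga_lt {K : Type*} [NormedField K] [IsUltrametricDist K] {x y : K} {c : ℝ}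
    (hx : ‖x‖ < c) (hy : ‖y‖ < c) : ‖x + y‖ < c :=
  (IsUltrametricDist.norm_add_le_max x y).trans_lt (max_lt hx hy)

lemma enga_prod {K : Type*} [NormedField K] [IsUltrametricDist K] {α u L : K} {c : ℝ}
    (hα : ‖α‖ = 1) (hu : ‖u‖ = 1) (h : ‖(α - 1) * (u - 1) * L‖ < c) (i j : ℤ) :
    ‖(α ^ i - 1) * (u ^ j - 1) * L‖ < c := by
  refine lt_of_le_of_lt ?_ h
  simp only [norm_mul]
  have h1 := norm_zpow_sub_one hα i
  have h2 := norm_zpow_sub_one hu j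
  gcongr

lemma enga_eps {K : Type*} [Field K] {p M : ℕ} (hM : IsCoprime (M : ℤ) (p : ℤ))
    (hp : p ≠ 0) (ε : DirichletCharacter K M) (he : ε (p : ZMod M) ≠ 0) {j a : ℤ}
    (h : RM p M ((p : ℚ) ^ j * a - 1)) : ε (p : ZMod M) ^ j * ε (a : ZMod M) = 1 := by
  have hp' : (p : ℚ) ≠ 0 := by exact_mod_cast hp
  obtain ⟨k, rfl | rfl⟩ := j.eq_nat_or_neg
  · have h1 : (M : ℤ) ∣ (p : ℤ) ^ k * a - 1 := by
      apply RM.dvd_of_int hM
      push_cast
      simpa using h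
    have h2 := char_one ε h1
    push_cast at h2
    rw [map_mul, map_pow] at h2
    rw [zpow_natCast]
    exact h2
  · have h1 : (M : ℤ) ∣ a - (p : ℤ) ^ k := by
      apply RM.dvd_of_int hM
      have h3 := (RM.pow p k).mul_l h
      have e : (p : ℚ) ^ k * ((p : ℚ) ^ (-(k : ℤ)) * a - 1) = ((a - (p : ℤ) ^ k : ℤ) : ℚ) := by
        rw [zpow_neg, zpow_natCast]
        push_cast
        field_simp
      rwa [e] at h3
    have h2 := char_cong ε h1
    push_cast at h2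
    rw [map_pow] at h2
    rw [h2, zpow_neg, zpow_natCast]
    exact inv_mul_cancel₀ (pow_ne_zero _ he)

/-- case `p ∤ M`: `F(b,d) - u ^ j' L` depends only on the first column -/
lemma engA_col {K : Type*} [NormedField K] [IsUltrametricDist K] {p M : ℕ} (hp : p.Prime)
    (hM : IsCoprime (M : ℤ) (p : ℤ)) {ε : DirichletCharacter K M} {S : ℚ → K} {α : K} {c : ℝ}
    (hT : TLaw M ε S) (hα1 : ‖α‖ = 1)
    (hval : ∀ (n : ℕ) (a : ℤ), (n = 0 ∨ ¬ (p : ℤ) ∣ a) →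
      ‖S (a / (p : ℚ) ^ n) - (α / ε (p : ZMod M)) ^ (-(n : ℤ)) * S 0‖ < c)
    (hrel : ‖(α - 1) * (α / ε (p : ZMod M) - 1) * S 0‖ < c)
    {h : M2} (hh : h ∈ Gam p M 1) {j a' c' j' b' d' : ℤ}
    (h1 : Prim p h.a h.c j a' c') (h2 : Prim p h.b h.d j' b' d') :
    ‖(Fv S h.b h.d - (α / ε (p : ZMod M)) ^ j' * S 0) - (Fv S a' c' + (α ^ j - 1) * S 0)‖ < c := by
  have hp' : (p : ℚ) ≠ 0 := by exact_mod_cast hp.ne_zero
  have he1 := enga_norm_e hM ε
  have he0 : ε (p : ZMod M) ≠ 0 := by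
    intro h0; rw [h0, norm_zero] at he1; exact zero_ne_one he1
  have hα0 : α ≠ 0 := by
    intro h0; rw [h0, norm_zero] at hα1; exact zero_ne_one hα1
  have hu1 : ‖α / ε (p : ZMod M)‖ = 1 := by rw [norm_div, hα1, he1, div_one]
  obtain ⟨n, hn, hdet⟩ := prim_det hp h1 h2
  obtain ⟨ha, -, hc, -⟩ := mem_Gam.1 hh
  have hc' : (M : ℤ) ∣ c' := by
    apply RM.dvd_of_int hM
    have h3 := (RM.zpow hp.ne_zero (-j)).mul_l hc
    have e : (p : ℚ) ^ (-j) * h.c = c' := by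
      rw [h1.2.2, zpow_neg]
      field_simp
    rwa [e] at h3
  obtain ⟨y, x', hxy⟩ := h1.1
  have hγ : a' * y - (-x') * c' = 1 := by linear_combination hxy
  set x : ℤ := -x' with hx
  set t : ℤ := y * b' - x * d' with ht
  have hb : b' = a' * t + x * (p : ℤ) ^ n := by
    rw [ht, ← hdet]; linear_combination (-b') * hγ
  have hd : d' = c' * t + y * (p : ℤ) ^ n := by
    rw [ht, ← hdet]; linear_combination (-d') * hγ
  have hlow : n = 0 ∨ ¬ (p : ℤ) ∣ t := by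
    by_cases h0 : n = 0
    · exact Or.inl h0
    · refine Or.inr fun hpt => ?_
      have hpn : (p : ℤ) ∣ (p : ℤ) ^ n := dvd_pow_self _ h0
      have d1 : (p : ℤ) ∣ b' := by rw [hb]; exact (hpt.mul_left _).add (hpn.mul_left _)
      have d2 : (p : ℤ) ∣ d' := by rw [hd]; exact (hpt.mul_left _).add (hpn.mul_left _)
      have := h2.1.isUnit_of_dvd' d1 d2
      rw [Int.isUnit_iff_natAbs_eq] at this
      exact hp.one_lt.ne' (by simpa using this)
  have hpn0 : (p : ℚ) ^ n ≠ 0 := pow_ne_zero _ hp'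
  have hF := hT a' x c' y hγ hc' t ((p : ℚ) ^ n) (Or.inr hpn0)
  have eb : (a' : ℚ) * t + x * (p : ℚ) ^ n = b' := by rw [hb]; push_cast; ring
  have ed : (c' : ℚ) * t + y * (p : ℚ) ^ n = d' := by rw [hd]; push_cast; ring
  rw [eb, ed, Fv_of_ne S _ hpn0] at hF
  have e1 : ε (p : ZMod M) ^ j * ε (a' : ZMod M) = 1 := by
    apply enga_eps hM hp.ne_zero ε he0
    rw [← h1.2.1]; exact ha
  have e2 : ε (a' : ZMod M) * ε (y : ZMod M) = 1 := by
    have h3 : (M : ℤ) ∣ a' * y - 1 := by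
      have : a' * y - 1 = x * c' := by linear_combination hγ
      rw [this]; exact hc'.mul_left _
    have h4 := char_one ε h3
    push_cast at h4
    rwa [map_mul] at h4
  have e3 : ε (y : ZMod M) = ε (p : ZMod M) ^ j := by
    linear_combination (-ε (y : ZMod M)) * e1 + ε (p : ZMod M) ^ j * e2
  have e4 : ε (p : ZMod M) ^ j * (α / ε (p : ZMod M)) ^ (-(n : ℤ)) =
      α ^ j * (α / ε (p : ZMod M)) ^ j' := by
    rw [← hn, zpow_add₀ (div_ne_zero hα0 he0), div_zpow, ← mul_assoc,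
      mul_div_cancel₀ _ (zpow_ne_zero j he0)]
  rw [Fv_prim S hp h2, hF, e3]
  have key : Fv S a' c' + ε (p : ZMod M) ^ j * S (t / (p : ℚ) ^ n) -
      (α / ε (p : ZMod M)) ^ j' * S 0 - (Fv S a' c' + (α ^ j - 1) * S 0) =
      ε (p : ZMod M) ^ j * (S (t / (p : ℚ) ^ n) - (α / ε (p : ZMod M)) ^ (-(n : ℤ)) * S 0) +
        (α ^ j - 1) * ((α / ε (p : ZMod M)) ^ j' - 1) * S 0 := by
    linear_combination (S 0) * e4
  rw [key]
  refine enga_lt ?_ (enga_prod hα1 hu1 hrel j j')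
  rw [norm_mul, norm_zpow, he1, one_zpow, one_mul]
  exact hval n t hlow

theorem engA {K : Type*} [NormedField K] [IsUltrametricDist K] {p M : ℕ} [NeZero M]
    (hp : p.Prime) (hpn : ‖(p : K)‖ < 1) (hM : ¬ p ∣ M) {ε : DirichletCharacter K M}
    {S : ℚ → K} {A α : K} {c : ℝ} (hT : TLaw M ε S) (hH : HLaw p M ε A S)
    (hα : α ^ 2 - A * α + ε (p : ZMod M) * p = 0) (hα1 : ‖α‖ = 1) (hc : 0 < c)
    (hμ : ∀ (n : ℕ) (a : ℤ), ¬ (p : ℤ) ∣ a →
      ‖α * S (a / (p : ℚ) ^ (n + 1)) - ε (p : ZMod M) * S (a / (p : ℚ) ^ n)‖ < c)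
    {b d : ℤ} (hbd : IsCoprime b d) (hd : (M : ℤ) ∣ d - 1) : ‖Fv S b d - S 0‖ < c := by
  have hcop : Nat.Coprime p M := (Nat.Prime.coprime_iff_not_dvd hp).2 hM
  have hM' : IsCoprime (M : ℤ) (p : ℤ) := Nat.isCoprime_iff_coprime.2 hcop.symm
  have he1 := enga_norm_e hM' ε
  have he0 : ε (p : ZMod M) ≠ 0 := by
    intro h0; rw [h0, norm_zero] at he1; exact zero_ne_one he1
  have hα0 : α ≠ 0 := by
    intro h0; rw [h0, norm_zero] at hα1; exact zero_ne_one hα1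
  have hu1 : ‖α / ε (p : ZMod M)‖ = 1 := by rw [norm_div, hα1, he1, div_one]
  have hu0 : α / ε (p : ZMod M) ≠ 0 := div_ne_zero hα0 he0
  have hval := engA_val hp hT hα1 he1 hc hμ
  have hrel := engA_rel hp hT hH hα hα1 he1 hc hμ
  refine eng0 hp hpn (N := M) (r := 0) hM' (by simp) hT hc
    (fun x y => (α / ε (p : ZMod M)) ^ (prim p x y).1 * S 0) ?_ ?_ ?_ ?_ ?_ hbd hd
  · have h0 : Prim p 0 1 0 0 1 := ⟨isCoprime_one_right, by simp, by simp⟩
    simp only [prim_eq hp h0, zpow_zero, one_mul]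
  · refine ⟨‖S 0‖, fun h _ => ?_⟩
    rw [norm_mul, norm_zpow, hu1, one_zpow, one_mul]
  · intro g hg h hh
    obtain ⟨j, b1, d1, h2⟩ := prim_col2 hp hh
    obtain ⟨b2, d2, h3, -⟩ := prim_mul hg h2
    simp only [prim_eq hp h2, prim_eq hp h3]
  · intro h hh h' hh' ea ec
    obtain ⟨j, a1, c1, h1, -⟩ := prim_col1 hp hM' hh
    have h1' : Prim p h'.a h'.c j a1 c1 := by rw [← ea, ← ec]; exact h1
    obtain ⟨j1, b1, d1, h2⟩ := prim_col2 hp hh
    obtain ⟨j2, b2, d2, h2'⟩ := prim_col2 hp hh'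
    have k1 := engA_col hp hM' hT hα1 hval hrel hh h1 h2
    have k2 := engA_col hp hM' hT hα1 hval hrel hh' h1' h2'
    rw [← norm_neg] at k2
    have k3 := enga_lt k1 k2
    simp only [prim_eq hp h2, prim_eq hp h2']
    refine lt_of_eq_of_lt ?_ k3
    congr 1
    ring
  · have hφ : (M : ℤ) ∣ (p : ℤ) ^ (Nat.totient M) - 1 := by
      have h1 := (Nat.ModEq.pow_totient hcop).symm.dvd
      push_cast at h1
      exact h1
    have heφ : ε (p : ZMod M) ^ (Nat.totient M) = 1 := by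
      have h1 := char_one ε hφ
      push_cast at h1
      rwa [map_pow] at h1
    have hw : (α / ε (p : ZMod M)) ^ (Nat.totient M) = α ^ (Nat.totient M) := by
      rw [div_pow, heφ, div_one]
    have hsq : ‖((α / ε (p : ZMod M)) ^ (Nat.totient M) - 1) *
        ((α / ε (p : ZMod M)) ^ (Nat.totient M) - 1) * S 0‖ < c := by
      have h1 := enga_prod hα1 hu1 hrel (Nat.totient M : ℤ) (Nat.totient M : ℤ)
      rw [zpow_natCast, zpow_natCast, ← hw] at h1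
      exact h1
    obtain ⟨k, hk⟩ := unip_pow hpn (by rw [norm_pow, hu1, one_pow]) hsq
    rw [← pow_mul] at hk
    refine ⟨Nat.totient M * p ^ k,
      Nat.mul_pos (Nat.totient_pos.2 (Nat.pos_of_ne_zero (NeZero.ne M))) (pow_pos hp.pos k),
      ?_, fun h hh => ?_⟩
    · have h1 : (M : ℤ) ∣ (p : ℤ) ^ (Nat.totient M * p ^ k) - 1 := by
        rw [pow_mul]
        exact hφ.trans (by simpa using sub_dvd_pow_sub_pow ((p : ℤ) ^ (Nat.totient M)) 1 (p ^ k))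
      have h2 := RM.of_dvd p h1
      push_cast at h2
      exact h2
    · obtain ⟨j, b1, d1, h2⟩ := prim_col2 hp hh
      have h3 := prim_scale hp h2 (Nat.totient M * p ^ k)
      simp only [prim_eq hp h2, prim_eq hp h3]
      generalize Nat.totient M * p ^ k = m at hk ⊢
      have e : (α / ε (p : ZMod M)) ^ (j - (m : ℤ)) * S 0 - (α / ε (p : ZMod M)) ^ j * S 0 =
          -(α / ε (p : ZMod M)) ^ (j - (m : ℤ)) * (((α / ε (p : ZMod M)) ^ m - 1) * S 0) := by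
        have e1 : (α / ε (p : ZMod M)) ^ j =
            (α / ε (p : ZMod M)) ^ (j - (m : ℤ)) * (α / ε (p : ZMod M)) ^ m := by
          rw [← zpow_natCast, ← zpow_add₀ hu0, sub_add_cancel]
        rw [e1]
        generalize (α / ε (p : ZMod M)) ^ (j - (m : ℤ)) = v
        ring
      rw [e, norm_mul, norm_neg, norm_zpow, hu1, one_zpow, one_mul]
      exact hk

end Pool.Agent.P.MP_20768c_nt
end

-- part Pool.Agent.P.MP_20768c_nt.EngB
section

namespace Pool.Agent.P.MP_20768c_nt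
open M2

theorem engB {K : Type*} [NormedField K] [IsUltrametricDist K] {p M : ℕ} [NeZero M]
    (hp : p.Prime) (hpn : ‖(p : K)‖ < 1) (hM : p ∣ M) {ε : DirichletCharacter K M}
    {S : ℚ → K} {α : K} {c : ℝ} (hT : TLaw M ε S) (hH : HLaw p M ε α S)
    (hα1 : ‖α‖ = 1) (hc : 0 < c)
    (hμ : ∀ (n : ℕ) (a : ℤ), ¬ (p : ℤ) ∣ a → ‖S (a / (p : ℚ) ^ (n + 1))‖ < c)
    {b d : ℤ} (hbd : IsCoprime b d) (hd : (M : ℤ) ∣ d - 1) : ‖Fv S b d - S 0‖ < c := by
  obtain ⟨r, N, hN0, hMN0⟩ := Nat.exists_eq_pow_mul_and_not_dvd (NeZero.ne M) p hp.one_lt.ne'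
  have hN : IsCoprime (N : ℤ) (p : ℤ) :=
    Nat.isCoprime_iff_coprime.2 ((Nat.Prime.coprime_iff_not_dvd hp).2 hN0).symm
  have hMN : (M : ℤ) = (N : ℤ) * (p : ℤ) ^ r := by rw [hMN0]; push_cast; ring
  have hNne : ((N : ℤ) : ℚ) ≠ 0 := by
    have : N ≠ 0 := by rintro rfl; exact hN0 (dvd_zero p)
    exact_mod_cast this
  refine eng0 hp hpn hN hMN hT hc (fun x y => ε (((prim p x y).2.2 : ℤ) : ZMod M) * S 0)
    ?_ ?_ ?_ ?_ ?_ hbd hd
  · have h0 : Prim p 0 1 0 0 1 := ⟨isCoprime_one_right, by simp, by simp⟩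
    simp [prim_eq hp h0]
  · refine ⟨‖S 0‖, fun h _ => ?_⟩
    rw [norm_mul]
    exact mul_le_of_le_one_left (norm_nonneg _) (char_norm_le ε _)
  · intro g hg h hh
    obtain ⟨j, b1, d1, h1⟩ := prim_col2 hp hh
    obtain ⟨b2, d2, h2, h3⟩ := prim_mul hg h1
    simp only [prim_eq hp h1, prim_eq hp h2]
    rw [char_cong ε h3]
  · intro h hh h' hh' ea ec
    obtain ⟨j, a', c', h0, hc'⟩ := prim_col1 hp hN hh
    have h0' : Prim p h'.a h'.c j a' c' := by rw [← ea, ← ec]; exact h0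
    obtain ⟨j1, b1, d1, h1⟩ := prim_col2 hp hh
    obtain ⟨j2, b2, d2, h2⟩ := prim_col2 hp hh'
    obtain ⟨n1, -, e1⟩ := prim_det hp h0 h1
    obtain ⟨n2, -, e2⟩ := prim_det hp h0' h2
    simp only [prim_eq hp h1, prim_eq hp h2]
    rw [Fv_prim S hp h1, Fv_prim S hp h2]
    change ‖Hv ε S b1 d1 - Hv ε S b2 d2‖ < c
    by_cases hpc : (p : ℤ) ∣ c'
    · have k1 := engB_E2 hp hM hN hMN hT hH hα1 hc hμ h0.1 h1.1 hc' hpc e1
      have k2 := engB_E2 hp hM hN hMN hT hH hα1 hc hμ h0.1 h2.1 hc' hpc e2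
      have e : Hv ε S b1 d1 - Hv ε S b2 d2 =
          (Hv ε S b1 d1 - Fv S a' c') + -(Hv ε S b2 d2 - Fv S a' c') := by ring
      rw [e]
      refine (IsUltrametricDist.norm_add_le_max _ _).trans_lt (max_lt k1 ?_)
      rwa [norm_neg]
    · exact engB_E3 hp hM hN hMN hT hH hα1 hc hμ h0.1 h1.1 h2.1 hc' hpc e1 e2
  · obtain ⟨i, hi, h1⟩ := RM.pow_one_mod hp hNne (RM.int p N) 1
    refine ⟨i, hi, ?_, fun h hh => ?_⟩
    · have h2 := (RM.of_dvd p (dvd_refl (N : ℤ))).mul_r h1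
      rwa [pow_one, mul_div_cancel₀ _ hNne] at h2
    · obtain ⟨j, b1, d1, h2⟩ := prim_col2 hp hh
      simp only [prim_eq hp h2, prim_eq hp (prim_scale hp h2 i)]
      simpa using hc

/-- both cases -/
theorem engine {K : Type*} [NormedField K] [IsUltrametricDist K] {p M : ℕ} [NeZero M]
    (hp : p.Prime) (hpn : ‖(p : K)‖ < 1) {ε : DirichletCharacter K M}
    {S : ℚ → K} {A α : K} {c : ℝ} (hT : TLaw M ε S) (hH : HLaw p M ε A S)
    (hα : α ^ 2 - A * α + ε (p : ZMod M) * p = 0) (hα1 : ‖α‖ = 1) (hc : 0 < c)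
    (hμ : ∀ (n : ℕ) (a : ℤ), ¬ (p : ℤ) ∣ a →
      ‖α * S (a / (p : ℚ) ^ (n + 1)) - ε (p : ZMod M) * S (a / (p : ℚ) ^ n)‖ < c)
    {b d : ℤ} (hbd : IsCoprime b d) (hd : (M : ℤ) ∣ d - 1) : ‖Fv S b d - S 0‖ < c := by
  by_cases hM : p ∣ M
  · have h0 : ε (p : ZMod M) = 0 := by
      simpa using char_zero ε hp hM (dvd_refl (p : ℤ))
    have hα0 : α ≠ 0 := by
      rintro rfl
      simp at hα1
    have hA : A = α := by
      rw [h0] at hα
      apply mul_right_cancel₀ hα0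
      linear_combination -hα
    subst hA
    refine engB hp hpn hM hT hH hα1 hc (fun n a ha => ?_) hbd hd
    have := hμ n a ha
    rwa [h0, zero_mul, sub_zero, norm_mul, hα1, one_mul] at this
  · exact engA hp hpn hM hT hH hα hα1 hc hμ hbd hd

end Pool.Agent.P.MP_20768c_nt
end

-- part Pool.Agent.P.MP_20768c_nt.Ser1a
section

namespace Pool.Agent.P.MP_20768c_nt

variable {p n a a' j j' : ℕ}

lemma wd_pos (p : ℕ) : 0 < wd p := by unfold wd; split_ifs <;> norm_num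

lemma ser1a_exp (n p : ℕ) : n + 2 * wd p - 1 = n + (2 * wd p - 1) := by
  have := wd_pos p
  omega

lemma ser1a_pow (p m : ℕ) : ∃ y : ℕ, (1 + p) ^ m = 1 + p * (m + p * y) := by
  induction m with
  | zero => exact ⟨0, by simp⟩
  | succ m ih =>
    obtain ⟨y, hy⟩ := ih
    exact ⟨y + m + p * y, by rw [pow_succ, hy]; ring⟩

lemma ser1a_v (hp : p.Prime) : ∃ c : ℕ, ¬ p ∣ c ∧
    (1 + p ^ wd p) ^ (p ^ wd p).totient = 1 + p ^ (2 * wd p - 1) * c ∧
    2 * wd p - 1 + 2 ≤ p * (2 * wd p - 1) := by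
  by_cases h2 : p = 2
  · subst h2
    refine ⟨3, by norm_num, ?_, by simp [wd]⟩
    have h4 : Nat.totient 4 = 2 := by decide
    simp [wd, h4]
  · have h3 : 3 ≤ p := by have := hp.two_le; omega
    obtain ⟨y, hy⟩ := ser1a_pow p (p - 1)
    refine ⟨p - 1 + p * y, fun h => ?_, ?_, ?_⟩
    · have h1 : p ∣ p - 1 := (Nat.dvd_add_left (Dvd.intro y rfl)).1 h
      have := Nat.le_of_dvd (by omega) h1
      omega
    · simp only [wd, if_neg h2, pow_one, Nat.totient_prime hp]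
      simpa using hy
    · simp only [wd, if_neg h2]
      omega

lemma ser1a_a (hp : p.Prime) (ha : ¬ p ∣ a) :
    a ^ (p ^ wd p).totient ≡ 1 [MOD p ^ (2 * wd p - 1)] := by
  by_cases h2 : p = 2
  · subst h2
    have h4 : Nat.totient 4 = 2 := by decide
    have h8 : a % 8 = 1 ∨ a % 8 = 3 ∨ a % 8 = 5 ∨ a % 8 = 7 := by omega
    have e : a ^ 2 % 8 = 1 := by
      rw [Nat.pow_mod]
      rcases h8 with h | h | h | h <;> rw [h]
    simpa [wd, h4, Nat.ModEq] using e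
  · have hc : a.Coprime p := ((Nat.Prime.coprime_iff_not_dvd hp).2 ha).symm
    simpa [wd, if_neg h2] using Nat.ModEq.pow_totient hc

lemma ser1a_ord (hp : p.Prime) (n i i' : ℕ) :
    ((1 + p ^ wd p) ^ (p ^ wd p).totient) ^ i ≡ ((1 + p ^ wd p) ^ (p ^ wd p).totient) ^ i'
      [MOD p ^ (n + (2 * wd p - 1))] ↔ i ≡ i' [MOD p ^ n] := by
  obtain ⟨c, hc, hv, ht⟩ := ser1a_v hp
  have hw := wd_pos p
  have ho := ZMod.orderOf_one_add_mul_prime_pow hp (2 * wd p - 1) (by omega) ht (c : ℤ)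
    (by exact_mod_cast hc) n
  rw [hv, ← ZMod.natCast_eq_natCast_iff]
  push_cast at ho ⊢
  have hf : IsOfFinOrder (1 + (p : ZMod (p ^ (n + (2 * wd p - 1)))) ^ (2 * wd p - 1) * c) := by
    rw [← orderOf_pos_iff, ho]
    exact pow_pos hp.pos n
  rw [hf.pow_eq_pow_iff_modEq, ho]

lemma ser1a_iff (p n a j : ℕ) : IsLog p n a j ↔
    a ^ (p ^ wd p).totient ≡ ((1 + p ^ wd p) ^ (p ^ wd p).totient) ^ j
      [MOD p ^ (n + (2 * wd p - 1))] := by
  rw [IsLog, ser1a_exp, ← pow_mul, mul_comm j]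

lemma isLog_exists (hp : p.Prime) (n : ℕ) (ha : ¬ p ∣ a) : ∃ j, j < p ^ n ∧ IsLog p n a j := by
  have hb := ser1a_a hp ha
  have hord := ser1a_ord hp n
  obtain ⟨c, -, hv, -⟩ := ser1a_v hp
  simp only [ser1a_iff]
  set V := (1 + p ^ wd p) ^ (p ^ wd p).totient with hV
  set b := a ^ (p ^ wd p).totient with hbd
  set t := 2 * wd p - 1 with ht
  have hQ : 0 < p ^ t := pow_pos hp.pos t
  have hP : 0 < p ^ (n + t) := pow_pos hp.pos _
  have hdv : p ^ t ∣ p ^ (n + t) := pow_dvd_pow p (by omega)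
  have hV1 : ∀ i, V ^ i ≡ 1 [MOD p ^ t] := fun i => by
    have h1 : V ≡ 1 [MOD p ^ t] := by
      rw [hv]
      simp [Nat.ModEq]
    simpa using h1.pow i
  have key : ∀ x y : ℕ, x ≡ 1 [MOD p ^ t] → y ≡ 1 [MOD p ^ t] →
      x % p ^ (n + t) / p ^ t = y % p ^ (n + t) / p ^ t → x ≡ y [MOD p ^ (n + t)] := by
    intro x y hx hy h
    have h1 : x % p ^ (n + t) % p ^ t = y % p ^ (n + t) % p ^ t := by
      rw [Nat.mod_mod_of_dvd _ hdv, Nat.mod_mod_of_dvd _ hdv]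
      exact hx.trans hy.symm
    unfold Nat.ModEq
    rw [← Nat.div_add_mod (x % p ^ (n + t)) (p ^ t), ← Nat.div_add_mod (y % p ^ (n + t)) (p ^ t),
      h, h1]
  have hlt : ∀ x : ℕ, x % p ^ (n + t) / p ^ t < p ^ n := fun x => by
    rw [Nat.div_lt_iff_lt_mul hQ, ← pow_add]
    exact Nat.mod_lt _ hP
  obtain ⟨j, hj, e⟩ := Finset.surj_on_of_inj_on_of_card_le (s := Finset.range (p ^ n))
    (t := Finset.range (p ^ n)) (fun i _ => V ^ i % p ^ (n + t) / p ^ t)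
    (fun i _ => Finset.mem_range.2 (hlt _))
    (fun i i' hi hi' h => by
      have h1 := (hord i i').1 (key _ _ (hV1 i) (hV1 i') h)
      exact Nat.ModEq.eq_of_lt_of_lt h1 (Finset.mem_range.1 hi) (Finset.mem_range.1 hi'))
    le_rfl (b % p ^ (n + t) / p ^ t) (Finset.mem_range.2 (hlt _))
  exact ⟨j, Finset.mem_range.1 hj, key _ _ hb (hV1 j) e⟩

lemma isLog_unique (hp : p.Prime) (h : IsLog p n a j) (h' : IsLog p n a j') :
    j ≡ j' [MOD p ^ n] := by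
  rw [ser1a_iff] at h h'
  exact (ser1a_ord hp n j j').1 (h.symm.trans h')

lemma isLog_of_modEq (hp : p.Prime) (h : IsLog p n a j) (hj : j ≡ j' [MOD p ^ n]) :
    IsLog p n a j' := by
  rw [ser1a_iff] at h ⊢
  exact h.trans ((ser1a_ord hp n j j').2 hj)

lemma isLog_succ (h : IsLog p (n + 1) a j) : IsLog p n a j := by
  rw [ser1a_iff] at h ⊢
  exact h.of_dvd (pow_dvd_pow p (by omega))

end Pool.Agent.P.MP_20768c_nt
end

-- part Pool.Agent.P.MP_20768c_nt.Ser1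
section

namespace Pool.Agent.P.MP_20768c_nt

variable {p n a a' j j' : ℕ}

lemma ser1_wd_two : wd 2 = 2 := by simp [wd]

lemma ser1_wd_odd (h : p ≠ 2) : wd p = 1 := by simp [wd, h]

lemma ser1_tot_two : (2 ^ wd 2).totient = 2 := by
  rw [ser1_wd_two]; decide

lemma ser1_tot_odd (hp : p.Prime) (h : p ≠ 2) : (p ^ wd p).totient = p - 1 := by
  rw [ser1_wd_odd h, pow_one, Nat.totient_prime hp]

/-- half of `φ(q)` is prime to `p` -/
lemma ser1_totient_half (hp : p.Prime) :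
    ∃ t : ℕ, (p ^ wd p).totient = 2 * t ∧ ¬ p ∣ t := by
  by_cases h : p = 2
  · subst h
    exact ⟨1, by rw [ser1_tot_two], by norm_num⟩
  · obtain ⟨k, hk⟩ := hp.odd_of_ne_two h
    refine ⟨k, by rw [ser1_tot_odd hp h]; omega, fun hd => ?_⟩
    have h2 := hp.two_le
    have hk0 : 0 < k := by omega
    have := Nat.le_of_dvd hk0 hd
    omega

lemma ser1_pow_cong (hp : p.Prime) {x y : ℤ} (h : x ≡ y [ZMOD ((p : ℤ) ^ (n + wd p))]) :
    x ^ (p ^ wd p).totient ≡ y ^ (p ^ wd p).totient [ZMOD ((p : ℤ) ^ (n + 2 * wd p - 1))] := by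
  by_cases h2 : p = 2
  · subst h2
    rw [ser1_tot_two]
    rw [ser1_wd_two] at h ⊢
    obtain ⟨k, hk⟩ := h.dvd
    have hy : y = x + (2 : ℤ) ^ (n + 2) * k := by push_cast at hk; linarith
    apply (Int.modEq_iff_dvd).2
    refine ⟨x * k + 2 ^ (n + 1) * k ^ 2, ?_⟩
    have e : n + 2 * 2 - 1 = n + 3 := by omega
    rw [e, hy]
    push_cast
    ring
  · rw [ser1_wd_odd h2] at h
    have e : n + 2 * wd p - 1 = n + 1 := by rw [ser1_wd_odd h2]; omega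
    rw [e]
    exact h.pow _

lemma ser1_isLog_iff : IsLog p n a j ↔
    (a : ℤ) ^ (p ^ wd p).totient ≡ (((1 + p ^ wd p) ^ (j * (p ^ wd p).totient) : ℕ) : ℤ)
      [ZMOD ((p : ℤ) ^ (n + 2 * wd p - 1))] := by
  unfold IsLog
  rw [← Int.natCast_modEq_iff]
  push_cast
  rfl

lemma isLog_not_dvd (hp : p.Prime) (h : IsLog p n a j) : ¬ p ∣ a := by
  intro hd
  have hw := wd_pos p
  have hm : p ∣ p ^ (n + 2 * wd p - 1) := dvd_pow_self p (by omega)
  have h1 : a ^ (p ^ wd p).totient ≡ (1 + p ^ wd p) ^ (j * (p ^ wd p).totient) [MOD p] :=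
    Nat.ModEq.of_dvd hm h
  have hφ : (p ^ wd p).totient ≠ 0 := (Nat.totient_pos.2 (pow_pos hp.pos _)).ne'
  have h2 : p ∣ a ^ (p ^ wd p).totient := hd.trans (dvd_pow_self a hφ)
  have h3 : p ∣ (1 + p ^ wd p) ^ (j * (p ^ wd p).totient) :=
    (Nat.ModEq.dvd_iff h1 dvd_rfl).1 h2
  have h4 : p ∣ 1 + p ^ wd p := hp.dvd_of_dvd_pow h3
  have h5 : p ∣ p ^ wd p := dvd_pow_self p hw.ne'
  have h6 : p ∣ 1 := (Nat.dvd_add_left h5).1 h4
  exact hp.one_lt.ne' (Nat.dvd_one.1 h6)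

lemma isLog_cong (hp : p.Prime) (h : IsLog p n a j) (ha : a ≡ a' [MOD p ^ (n + wd p)]) :
    IsLog p n a' j := by
  rw [ser1_isLog_iff] at h ⊢
  have ha' : (a : ℤ) ≡ a' [ZMOD ((p : ℤ) ^ (n + wd p))] := by
    have := Int.natCast_modEq_iff.2 ha
    push_cast at this
    exact this
  exact (ser1_pow_cong hp ha').symm.trans h

lemma isLog_neg (hp : p.Prime) (h : IsLog p n a j) (ha : a ≤ p ^ (n + wd p)) :
    IsLog p n (p ^ (n + wd p) - a) j := by
  rw [ser1_isLog_iff] at h ⊢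
  have h1 : ((p ^ (n + wd p) - a : ℕ) : ℤ) ≡ -(a : ℤ) [ZMOD ((p : ℤ) ^ (n + wd p))] := by
    rw [Nat.cast_sub ha]
    push_cast
    apply (Int.modEq_iff_dvd).2
    exact ⟨-1, by ring⟩
  have h2 := ser1_pow_cong hp h1
  obtain ⟨t, ht, -⟩ := ser1_totient_half hp
  have h3 : (-(a : ℤ)) ^ (p ^ wd p).totient = (a : ℤ) ^ (p ^ wd p).totient := by
    rw [ht, pow_mul, pow_mul, neg_sq]
  rw [h3] at h2
  exact h2.trans h

lemma isLog_inj (hp : p.Prime) (h : IsLog p n a j) (h' : IsLog p n a' j)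
    (ha : a ≡ a' [MOD p ^ wd p]) : a ≡ a' [MOD p ^ (n + wd p)] := by
  have hna := isLog_not_dvd hp h
  rw [ser1_isLog_iff] at h h'
  have h1 := (h'.trans h.symm).dvd
  have ha' : ((p : ℤ) ^ wd p) ∣ (a : ℤ) - a' := by
    have := (Int.natCast_modEq_iff.2 ha.symm).dvd
    push_cast at this
    exact this
  have hpz : Prime (p : ℤ) := Nat.prime_iff_prime_int.1 hp
  have hnaz : ¬ (p : ℤ) ∣ (a : ℤ) := fun hd => hna (Int.natCast_dvd_natCast.1 hd)
  have key : ((p : ℤ) ^ (n + wd p)) ∣ (a : ℤ) - a' := by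
    by_cases h2 : p = 2
    · subst h2
      rw [ser1_tot_two] at h1
      rw [ser1_wd_two] at h1 ha' ⊢
      have e : n + 2 * 2 - 1 = (n + 2) + 1 := by omega
      rw [e] at h1
      obtain ⟨k, hk⟩ := ha'
      have e2 : (a : ℤ) ^ 2 - (a' : ℤ) ^ 2 = (((a : ℤ) - a') * (a - 2 * k)) * ((2 : ℕ) : ℤ) := by
        have : (a' : ℤ) = a - 4 * k := by push_cast at hk; linarith
        rw [this]; push_cast; ring
      rw [e2, pow_succ] at h1
      have h3 := (mul_dvd_mul_iff_right (by norm_num : ((2 : ℕ) : ℤ) ≠ 0)).1 h1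
      have h4 : ¬ ((2 : ℕ) : ℤ) ∣ (a : ℤ) - 2 * k := by
        intro hd
        apply hnaz
        have : (a : ℤ) = (a - 2 * k) + ((2 : ℕ) : ℤ) * k := by push_cast; ring
        rw [this]
        exact dvd_add hd (dvd_mul_right _ _)
      exact hpz.pow_dvd_of_dvd_mul_right _ h4 h3
    · rw [ser1_tot_odd hp h2] at h1
      rw [ser1_wd_odd h2] at h1 ha' ⊢
      rw [pow_one] at ha'
      have e : n + 2 * 1 - 1 = n + 1 := by omega
      rw [e] at h1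
      have hn : ¬ (p : ℤ) ∣ ((p - 1 : ℕ) : ℤ) := by
        intro hd
        have h5 := Int.natCast_dvd_natCast.1 hd
        have h6 := hp.two_le
        have := Nat.le_of_dvd (by omega) h5
        omega
      have h3 := not_dvd_geom_sum₂ hpz ha' hnaz hn
      rw [← Commute.geom_sum₂_mul (Commute.all _ _)] at h1
      exact hpz.pow_dvd_of_dvd_mul_left _ h3 h1
  have : (a' : ℤ) ≡ a [ZMOD ((p ^ (n + wd p) : ℕ) : ℤ)] := by
    apply (Int.modEq_iff_dvd).2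
    push_cast
    exact key
  exact (Int.natCast_modEq_iff.1 this).symm

/-- half of `φ(q)` is prime to `p` -/
lemma totient_half (hp : p.Prime) : ∃ t : ℕ, (p ^ wd p).totient = 2 * t ∧ ¬ p ∣ t :=
  ser1_totient_half hp

end Pool.Agent.P.MP_20768c_nt
end

-- part Pool.Agent.P.MP_20768c_nt.Ser2
section

open Filter Topology

namespace Pool.Agent.P.MP_20768c_nt

/-- Riemann sum of `C(x, k)` against the distribution `ν` at level `p ^ n` -/
def Rs {K : Type*} [Field K] (p : ℕ) (ν : ℕ → ℕ → K) (k n : ℕ) : K :=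
  ∑ j ∈ Finset.range (p ^ n), ν n j * (j.choose k : K)

/-- `ν n j` is the mass of `j + p ^ n ℤ_p` -/
def Compat {K : Type*} [Field K] (p : ℕ) (ν : ℕ → ℕ → K) : Prop :=
  ∀ n j, j < p ^ n → ν n j = ∑ t ∈ Finset.range p, ν (n + 1) (j + t * p ^ n)

variable {K : Type*} [NormedField K] [IsUltrametricDist K] {p : ℕ} {ν : ℕ → ℕ → K}

lemma ser2_sum_mul {A : Type*} [AddCommMonoid A] (m q : ℕ) (g : ℕ → A) :
    ∑ x ∈ Finset.range (m * q), g x =
      ∑ j ∈ Finset.range q, ∑ t ∈ Finset.range m, g (j + t * q) := by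
  induction m with
  | zero => simp
  | succ m ih =>
    rw [Nat.succ_mul, Finset.sum_range_add, ih, ← Finset.sum_add_distrib]
    refine Finset.sum_congr rfl fun j _ => ?_
    rw [Finset.sum_range_succ, add_comm (m * q) j]

/-- sums over `range (p ^ (n + 1))` by residue mod `p ^ n` -/
lemma sum_range_succ_pow {A : Type*} [AddCommMonoid A] (p n : ℕ) (g : ℕ → A) :
    ∑ x ∈ Finset.range (p ^ (n + 1)), g x =
      ∑ j ∈ Finset.range (p ^ n), ∑ t ∈ Finset.range p, g (j + t * p ^ n) := by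
  rw [pow_succ', ser2_sum_mul]

lemma ser2_choose [CharZero K] (j y k : ℕ) :
    ‖(((j + y).choose k : ℕ) : K) - (j.choose k : K)‖ ≤ ‖(y : K)‖ / ‖(k.factorial : K)‖ := by
  have hk : (0 : ℝ) < ‖(k.factorial : K)‖ :=
    norm_pos_iff.2 (Nat.cast_ne_zero.2 k.factorial_ne_zero)
  obtain ⟨z, hz⟩ := Polynomial.sub_dvd_eval_sub ((j + y : ℕ) : ℤ) (j : ℤ) (descPochhammer ℤ k)
  rw [descPochhammer_eval_eq_descFactorial, descPochhammer_eval_eq_descFactorial,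
    Nat.descFactorial_eq_factorial_mul_choose, Nat.descFactorial_eq_factorial_mul_choose] at hz
  have h2 : ((((j + y).choose k : ℕ) : K) - (j.choose k : K)) * (k.factorial : K) = (y : K) * (z : K) := by
    have := congrArg (fun x : ℤ => (x : K)) hz
    push_cast at this
    linear_combination this
  rw [le_div_iff₀ hk, ← norm_mul, h2, norm_mul]
  exact mul_le_of_le_one_right (norm_nonneg _) (IsUltrametricDist.norm_intCast_le_one K z)

lemma ser2_step [CharZero K] (hν : Compat p ν) {B : ℝ}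
    (hB : ∀ n j, j < p ^ n → ‖ν n j‖ ≤ B) (k n : ℕ) :
    ‖Rs p ν k (n + 1) - Rs p ν k n‖ ≤ B / ‖(k.factorial : K)‖ * ‖(p : K)‖ ^ n := by
  have hB0 : 0 ≤ B := (norm_nonneg _).trans (hB 0 0 (by simp))
  have e : Rs p ν k (n + 1) - Rs p ν k n = ∑ j ∈ Finset.range (p ^ n), ∑ t ∈ Finset.range p,
      ν (n + 1) (j + t * p ^ n) * ((((j + t * p ^ n).choose k : ℕ) : K) - (j.choose k : K)) := by
    unfold Rs
    rw [sum_range_succ_pow, ← Finset.sum_sub_distrib]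
    refine Finset.sum_congr rfl fun j hj => ?_
    rw [hν n j (Finset.mem_range.1 hj), Finset.sum_mul, ← Finset.sum_sub_distrib]
    exact Finset.sum_congr rfl fun t _ => by ring
  rw [e]
  have h0 : 0 ≤ B / ‖(k.factorial : K)‖ * ‖(p : K)‖ ^ n := by positivity
  refine IsUltrametricDist.norm_sum_le_of_forall_le_of_nonneg h0 fun j hj => ?_
  refine IsUltrametricDist.norm_sum_le_of_forall_le_of_nonneg h0 fun t ht => ?_
  have hj' := Finset.mem_range.1 hj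
  have ht' := Finset.mem_range.1 ht
  have hlt : j + t * p ^ n < p ^ (n + 1) := by
    have : (t + 1) * p ^ n ≤ p * p ^ n := Nat.mul_le_mul_right _ ht'
    rw [pow_succ']
    nlinarith
  have h1 := ser2_choose (K := K) j (t * p ^ n) k
  have h2 : ‖((t * p ^ n : ℕ) : K)‖ ≤ ‖(p : K)‖ ^ n := by
    push_cast
    rw [norm_mul, norm_pow]
    exact mul_le_of_le_one_left (by positivity) (IsUltrametricDist.norm_natCast_le_one K t)
  rw [norm_mul]
  calc _ ≤ B * (‖(p : K)‖ ^ n / ‖(k.factorial : K)‖) :=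
        mul_le_mul (hB _ _ hlt) (h1.trans (by gcongr)) (norm_nonneg _) hB0
    _ = _ := by ring

theorem ser_conv [CompleteSpace K] [CharZero K] (hpn : ‖(p : K)‖ < 1) (hν : Compat p ν) {B : ℝ}
    (hB : ∀ n j, j < p ^ n → ‖ν n j‖ ≤ B) (k : ℕ) : ∃ c, Tendsto (Rs p ν k) atTop (𝓝 c) := by
  refine cauchySeq_tendsto_of_complete
    (cauchySeq_of_le_geometric ‖(p : K)‖ (B / ‖(k.factorial : K)‖) hpn fun n => ?_)
  rw [dist_comm, dist_eq_norm]
  exact ser2_step hν hB k n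

theorem ser_le {C : ℝ} (hC : 0 ≤ C) (hB : ∀ n j, j < p ^ n → ‖ν n j‖ ≤ C) {k : ℕ} {c : K}
    (hc : Tendsto (Rs p ν k) atTop (𝓝 c)) : ‖c‖ ≤ C := by
  refine le_of_tendsto' hc.norm fun n => ?_
  refine IsUltrametricDist.norm_sum_le_of_forall_le_of_nonneg hC fun j hj => ?_
  rw [norm_mul]
  exact (mul_le_of_le_one_right (norm_nonneg _)
    (IsUltrametricDist.norm_natCast_le_one K _)).trans (hB n j (Finset.mem_range.1 hj))

end Pool.Agent.P.MP_20768c_nt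
end

-- part Pool.Agent.P.MP_20768c_nt.Ser3
section

namespace Pool.Agent.P.MP_20768c_nt

open Classical in
/-- the branch `ψ` of `μ`, pushed to `ℤ_p` by the logarithm -/
noncomputable def nu {p : ℕ} [Fact p.Prime] (μ : ℕ → ℕ → ℂ_[p])
    (ψ : DirichletCharacter ℂ_[p] (p ^ wd p)) (n j : ℕ) : ℂ_[p] :=
  ∑ a ∈ Finset.range (p ^ (n + wd p)),
    if IsLog p n a j then ψ (a : ZMod (p ^ wd p)) * μ (n + wd p) a else 0

variable {p : ℕ} [Fact p.Prime] {μ : ℕ → ℕ → ℂ_[p]}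

lemma riem_eq (ψ : DirichletCharacter ℂ_[p] (p ^ wd p)) (k : ℕ) :
    riem μ ψ k = Rs p (nu μ ψ) k := by
  funext n
  unfold riem Rs nu
  refine Finset.sum_congr rfl fun j _ => ?_
  rw [Finset.sum_mul]
  refine Finset.sum_congr rfl fun a _ => ?_
  rw [ite_mul, zero_mul]

open Classical in
lemma ser3_fib {n a j : ℕ} (hj : j < p ^ n) (x : ℂ_[p]) :
    ∑ t ∈ Finset.range p, (if IsLog p (n + 1) a (j + t * p ^ n) then x else 0) =
      if IsLog p n a j then x else 0 := by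
  have hp : p.Prime := Fact.out
  have hpn : 0 < p ^ n := pow_pos hp.pos n
  split_ifs with h
  · obtain ⟨j', hj', h'⟩ := isLog_exists hp (n + 1) (isLog_not_dvd hp h)
    have e1 : j' % p ^ n = j := by
      have := isLog_unique hp (isLog_succ h') h
      rwa [Nat.ModEq, Nat.mod_eq_of_lt hj] at this
    have e2 : j + j' / p ^ n * p ^ n = j' := by rw [← e1, Nat.mod_add_div']
    have e3 : j' / p ^ n < p := (Nat.div_lt_iff_lt_mul hpn).2 (by rwa [← pow_succ'])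
    rw [Finset.sum_eq_single (j' / p ^ n), e2, if_pos h']
    · intro t ht hne
      refine if_neg fun h2 => hne ?_
      have h3 : j + t * p ^ n < p ^ (n + 1) := by
        have := Nat.mul_le_mul_right (p ^ n) (Nat.succ_le_of_lt (Finset.mem_range.1 ht))
        rw [pow_succ']
        rw [Nat.succ_mul] at this
        omega
      have h4 := (isLog_unique hp h2 h').eq_of_lt_of_lt h3 hj'
      exact Nat.eq_of_mul_eq_mul_right hpn (by omega)
    · exact fun h2 => absurd (Finset.mem_range.2 e3) h2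
  · refine Finset.sum_eq_zero fun t _ => if_neg fun h2 => h ?_
    exact isLog_of_modEq hp (isLog_succ h2) (by simp [Nat.ModEq])

lemma nu_compat
    (hμ : ∀ n a, 0 < n → ¬ p ∣ a → μ n a = ∑ t ∈ Finset.range p, μ (n + 1) (a + t * p ^ n))
    (ψ : DirichletCharacter ℂ_[p] (p ^ wd p)) : Compat p (nu μ ψ) := by
  have hp : p.Prime := Fact.out
  intro n j hj
  unfold nu
  rw [Finset.sum_comm, Finset.sum_congr rfl fun a _ => ser3_fib hj _, Nat.add_right_comm n 1,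
    sum_range_succ_pow]
  refine Finset.sum_congr rfl fun a _ => ?_
  have hc : ∀ t, a ≡ a + t * p ^ (n + wd p) [MOD p ^ (n + wd p)] := fun t => by simp [Nat.ModEq]
  split_ifs with h
  · rw [hμ _ a (Nat.add_pos_right _ (wd_pos p)) (isLog_not_dvd hp h), Finset.mul_sum]
    refine Finset.sum_congr rfl fun t _ => ?_
    rw [if_pos (isLog_cong hp h (hc t)), (ZMod.natCast_eq_natCast_iff _ _ _).2
      ((hc t).of_dvd (pow_dvd_pow p (Nat.le_add_left _ _)))]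
  · exact (Finset.sum_eq_zero fun t _ => if_neg fun h2 => h (isLog_cong hp h2 (hc t).symm)).symm

lemma nu_bdd {B : ℝ} (hB0 : 0 ≤ B) (hB : ∀ n a, ‖μ n a‖ ≤ B)
    (ψ : DirichletCharacter ℂ_[p] (p ^ wd p)) (n j : ℕ) : ‖nu μ ψ n j‖ ≤ B := by
  refine IsUltrametricDist.norm_sum_le_of_forall_le_of_nonneg hB0 fun a _ => ?_
  split_ifs
  · rw [norm_mul]
    exact (mul_le_of_le_one_left (norm_nonneg _) (ψ.norm_le_one _)).trans (hB _ _)
  · rwa [norm_zero]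

lemma nu_le {s : ℂ_[p]} {ψ : DirichletCharacter ℂ_[p] (p ^ wd p)} (hψ : ψ (-1) = s) {C : ℝ}
    (hC : 0 ≤ C) {n : ℕ}
    (h : ∀ a, a < p ^ (n + wd p) → ¬ p ∣ a →
      ‖μ (n + wd p) a + s * μ (n + wd p) (p ^ (n + wd p) - a)‖ ≤ C) (j : ℕ) :
    ‖nu μ ψ n j‖ ≤ C := by
  classical
  have hp : p.Prime := Fact.out
  obtain ⟨g, hg⟩ : ∃ g : ℕ → ℂ_[p], ∀ a, g a =
    if IsLog p n a j then ψ (a : ZMod (p ^ wd p)) * μ (n + wd p) a else 0 := ⟨_, fun _ => rfl⟩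
  have hQ : p ∣ p ^ (n + wd p) := dvd_pow_self p (Nat.add_pos_right _ (wd_pos p)).ne'
  have h2 : ∀ a, ¬ p ∣ a → 2 * a ≠ p ^ (n + wd p) := by
    intro a ha e
    obtain rfl : p = 2 := (Nat.prime_dvd_prime_iff_eq hp Nat.prime_two).1
      ((hp.dvd_mul.1 (e ▸ hQ)).resolve_right ha)
    have : wd 2 = 2 := rfl
    rw [this, pow_add] at e
    omega
  have h3 : ∀ a, a < p ^ (n + wd p) → ¬ p ∣ a → 0 < a ∧ ¬ p ∣ p ^ (n + wd p) - a := by
    intro a ha ha'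
    refine ⟨Nat.pos_of_ne_zero (by rintro rfl; exact ha' (dvd_zero p)), fun e => ha' ?_⟩
    have := Nat.dvd_sub hQ e
    rwa [Nat.sub_sub_self ha.le] at this
  have e1 : nu μ ψ n j = ∑ a ∈ (Finset.range (p ^ (n + wd p))).filter (¬ p ∣ ·), g a := by
    rw [Finset.sum_filter_of_ne]
    · exact Finset.sum_congr rfl fun a _ => by rw [hg]
    · intro a _ ha
      rw [hg] at ha
      exact isLog_not_dvd hp (ite_ne_right_iff.1 ha).1
  have e2 : ∑ a ∈ ((Finset.range (p ^ (n + wd p))).filter (¬ p ∣ ·)).filter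
      (fun a => ¬ 2 * a < p ^ (n + wd p)), g a =
      ∑ a ∈ ((Finset.range (p ^ (n + wd p))).filter (¬ p ∣ ·)).filter
        (fun a => 2 * a < p ^ (n + wd p)), g (p ^ (n + wd p) - a) := by
    refine Finset.sum_nbij' (fun a => p ^ (n + wd p) - a) (fun a => p ^ (n + wd p) - a)
      ?_ ?_ ?_ ?_ ?_
    all_goals
      intro a ha
      simp only [Finset.mem_filter, Finset.mem_range] at ha ⊢
      obtain ⟨⟨a1, a2⟩, a3⟩ := ha
      obtain ⟨a4, a5⟩ := h3 a a1 a2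
      have a6 := h2 a a2
    · exact ⟨⟨by omega, a5⟩, by omega⟩
    · exact ⟨⟨by omega, a5⟩, by omega⟩
    · omega
    · omega
    · rw [Nat.sub_sub_self a1.le]
  rw [e1, ← Finset.sum_filter_add_sum_filter_not _ (fun a => 2 * a < p ^ (n + wd p)), e2,
    ← Finset.sum_add_distrib]
  refine IsUltrametricDist.norm_sum_le_of_forall_le_of_nonneg hC fun a ha => ?_
  simp only [Finset.mem_filter, Finset.mem_range] at ha
  obtain ⟨⟨a1, a2⟩, -⟩ := ha
  rw [hg, hg]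
  by_cases hl : IsLog p n a j
  · have e3 : ψ ((p ^ (n + wd p) - a : ℕ) : ZMod (p ^ wd p)) = ψ (a : ZMod (p ^ wd p)) * s := by
      rw [Nat.cast_sub a1.le, (ZMod.natCast_eq_zero_iff _ _).2
        (pow_dvd_pow p (Nat.le_add_left _ _)), zero_sub, ← hψ, ← map_mul, mul_neg_one]
    rw [if_pos hl, if_pos (isLog_neg hp hl a1.le), e3, mul_assoc, ← mul_add, norm_mul]
    exact (mul_le_of_le_one_left (norm_nonneg _) (ψ.norm_le_one _)).trans (h a a1 a2)
  · rw [if_neg hl, if_neg fun h4 => hl (by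
      have := isLog_neg hp h4 (Nat.sub_le _ _)
      rwa [Nat.sub_sub_self a1.le] at this), add_zero, norm_zero]
    exact hC

end Pool.Agent.P.MP_20768c_nt
end

-- part Pool.Agent.P.MP_20768c_nt.Ser4
section

namespace Pool.Agent.P.MP_20768c_nt

variable {p : ℕ} [Fact p.Prime] {μ : ℕ → ℕ → ℂ_[p]}

lemma ser4_two_lt (hp : p.Prime) : 2 < p ^ wd p := by
  unfold wd
  split_ifs with h
  · subst h; norm_num
  · have := hp.two_le
    rw [pow_one]; omega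

lemma ser4_neg_one (ψ : DirichletCharacter ℂ_[p] (p ^ wd p)) : ψ (-1) = 1 ∨ ψ (-1) = -1 := by
  have h : ψ (-1) * ψ (-1) = 1 := by rw [← map_mul]; simp
  exact mul_self_eq_one_iff.1 h

lemma ser4_norm_nat {t : ℕ} (ht : ¬ p ∣ t) : ‖(t : ℂ_[p])‖ = 1 := by
  have hp : p.Prime := Fact.out
  have h1 : (t : ℂ_[p]) = algebraMap ℚ_[p] ℂ_[p] (t : ℚ_[p]) := by simp
  rw [h1, norm_algebraMap']
  exact Padic.norm_natCast_eq_one_iff.2 ((Nat.Prime.coprime_iff_not_dvd hp).2 ht)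

open Classical in
lemma ser4_sum {s : ℂ_[p]} (hs : s = 1 ∨ s = -1) {t : ℕ}
    (ht : (p ^ wd p).totient = 2 * t) {a : ZMod (p ^ wd p)} (ha : IsUnit a)
    (b : ZMod (p ^ wd p)) :
    ∑ ψ : DirichletCharacter ℂ_[p] (p ^ wd p), (if ψ (-1) = s then ψ a⁻¹ * ψ b else 0) =
      (t : ℂ_[p]) * ((if a = b then 1 else 0) + s * (if -a = b then 1 else 0)) := by
  have hp : p.Prime := Fact.out
  have : NeZero (p ^ wd p) := ⟨pow_ne_zero _ hp.ne_zero⟩
  have : NeZero ((Monoid.exponent (ZMod (p ^ wd p))ˣ : ℕ) : ℂ_[p]) :=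
    ⟨Nat.cast_ne_zero.2 Monoid.exponent_ne_zero_of_finite⟩
  have h12 : (1 : ℂ_[p]) ≠ -1 := by norm_num
  have key : ∀ ψ : DirichletCharacter ℂ_[p] (p ^ wd p),
      (if ψ (-1) = s then ψ a⁻¹ * ψ b else 0) =
        2⁻¹ * (ψ a⁻¹ * ψ b) + 2⁻¹ * s * (ψ a⁻¹ * ψ (-b)) := by
    intro ψ
    have hb : ψ (-b) = ψ (-1) * ψ b := by rw [← map_mul]; simp
    rw [hb]
    rcases ser4_neg_one ψ with h | h <;> rcases hs with rfl | rfl
    · rw [if_pos h, h]; ring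
    · rw [if_neg (by rw [h]; exact h12), h]; ring
    · rw [if_neg (by rw [h]; exact h12.symm), h]; ring
    · rw [if_pos h, h]; ring
  simp only [key, Finset.sum_add_distrib, ← Finset.mul_sum,
    DirichletCharacter.sum_char_inv_mul_char_eq ℂ_[p] ha, ht, neg_eq_iff_eq_neg]
  push_cast
  split_ifs <;> ring

lemma exists_char (p : ℕ) [Fact p.Prime] {s : ℂ_[p]} (hs : s = 1 ∨ s = -1) :
    ∃ ψ : DirichletCharacter ℂ_[p] (p ^ wd p), ψ (-1) = s := by
  classical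
  have hp : p.Prime := Fact.out
  obtain ⟨t, ht, hpt⟩ := totient_half hp
  by_contra hc
  push Not at hc
  have h := ser4_sum hs ht (a := 1) isUnit_one 1
  have : Fact (2 < p ^ wd p) := ⟨ser4_two_lt hp⟩
  rw [if_pos rfl, if_neg ZMod.neg_one_ne_one, Finset.sum_eq_zero fun ψ _ => if_neg (hc ψ)] at h
  have h0 : (t : ℂ_[p]) = 0 := by simpa using h.symm
  have h1 : t = 0 := by exact_mod_cast h0
  exact hpt (h1 ▸ dvd_zero p)

open Classical in
/-- orthogonality for the characters of a given sign -/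
lemma sum_char_sign {s : ℂ_[p]} (hs : s = 1 ∨ s = -1) {t : ℕ}
    (ht : (p ^ wd p).totient = 2 * t) {a : ZMod (p ^ wd p)} (ha : IsUnit a)
    (b : ZMod (p ^ wd p)) :
    ∑ ψ : DirichletCharacter ℂ_[p] (p ^ wd p), (if ψ (-1) = s then ψ a⁻¹ * ψ b else 0) =
      (t : ℂ_[p]) * ((if a = b then 1 else 0) + s * (if -a = b then 1 else 0)) :=
  ser4_sum hs ht ha b

open Classical in
lemma ser4_pick (hp : p.Prime) {n j c : ℕ} (hc : c < p ^ (n + wd p)) (hl : IsLog p n c j)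
    (f : ℕ → ℂ_[p]) :
    ∑ x ∈ Finset.range (p ^ (n + wd p)), (if IsLog p n x j then
      (if (c : ZMod (p ^ wd p)) = (x : ZMod (p ^ wd p)) then 1 else 0) * f x else 0) = f c := by
  rw [Finset.sum_eq_single c]
  · rw [if_pos hl, if_pos rfl, one_mul]
  · intro x hx hxc
    split_ifs with h1 h2
    · exfalso
      have h3 := isLog_inj hp hl h1 ((ZMod.natCast_eq_natCast_iff _ _ _).1 h2)
      exact hxc (Nat.ModEq.eq_of_lt_of_lt h3 hc (Finset.mem_range.1 hx)).symm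
    · rw [zero_mul]
    · rfl
  · intro h
    exact absurd (Finset.mem_range.2 hc) h

lemma nu_inv {s : ℂ_[p]} (hs : s = 1 ∨ s = -1) {C : ℝ} {n : ℕ}
    (h : ∀ ψ : DirichletCharacter ℂ_[p] (p ^ wd p), ψ (-1) = s → ∀ j, j < p ^ n →
      ‖nu μ ψ n j‖ < C) {a : ℕ} (ha : a < p ^ (n + wd p)) (hpa : ¬ p ∣ a) :
    ‖μ (n + wd p) a + s * μ (n + wd p) (p ^ (n + wd p) - a)‖ < C := by
  classical
  have hp : p.Prime := Fact.out
  obtain ⟨t, ht, hpt⟩ := totient_half hp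
  obtain ⟨j, hj, hl⟩ := isLog_exists hp n hpa
  obtain ⟨ψ₀, hψ₀⟩ := exists_char p hs
  have hC : 0 < C := (norm_nonneg _).trans_lt (h ψ₀ hψ₀ j hj)
  have hu : IsUnit (a : ZMod (p ^ wd p)) :=
    (ZMod.isUnit_iff_coprime _ _).2
      (Nat.Coprime.pow_right _ ((Nat.Prime.coprime_iff_not_dvd hp).2 hpa).symm)
  have ha0 : 0 < a := Nat.pos_of_ne_zero fun h0 => hpa (h0 ▸ dvd_zero p)
  have hneg : ((p ^ (n + wd p) - a : ℕ) : ZMod (p ^ wd p)) = -(a : ZMod (p ^ wd p)) := by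
    rw [Nat.cast_sub ha.le, (ZMod.natCast_eq_zero_iff _ _).2 (pow_dvd_pow p (by omega)), zero_sub]
  have hl' := isLog_neg hp hl ha.le
  have e : ∑ ψ : DirichletCharacter ℂ_[p] (p ^ wd p),
      (if ψ (-1) = s then ψ (a : ZMod (p ^ wd p))⁻¹ * nu μ ψ n j else 0) =
        (t : ℂ_[p]) * (μ (n + wd p) a + s * μ (n + wd p) (p ^ (n + wd p) - a)) := by
    have e1 : ∀ ψ : DirichletCharacter ℂ_[p] (p ^ wd p),
        (if ψ (-1) = s then ψ (a : ZMod (p ^ wd p))⁻¹ * nu μ ψ n j else 0) =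
          ∑ x ∈ Finset.range (p ^ (n + wd p)), if IsLog p n x j then
            (if ψ (-1) = s then ψ (a : ZMod (p ^ wd p))⁻¹ * ψ (x : ZMod (p ^ wd p)) else 0) *
              μ (n + wd p) x else 0 := by
      intro ψ
      unfold nu
      by_cases hψ : ψ (-1) = s
      · simp only [if_pos hψ, Finset.mul_sum]
        refine Finset.sum_congr rfl fun x _ => ?_
        split_ifs
        · ring
        · rw [mul_zero]
      · simp only [if_neg hψ, zero_mul, ite_self, Finset.sum_const_zero]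
    simp only [e1]
    rw [Finset.sum_comm, ← ser4_pick hp ha hl (μ (n + wd p)),
      ← ser4_pick hp (show p ^ (n + wd p) - a < p ^ (n + wd p) by omega) hl' (μ (n + wd p)),
      Finset.mul_sum, ← Finset.sum_add_distrib, Finset.mul_sum]
    refine Finset.sum_congr rfl fun x _ => ?_
    by_cases hx : IsLog p n x j
    · simp only [if_pos hx]
      rw [← Finset.sum_mul, ser4_sum hs ht hu, hneg]
      ring
    · simp only [if_neg hx, Finset.sum_const_zero, mul_zero, add_zero]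
  obtain ⟨ψ, -, hψ⟩ := IsUltrametricDist.exists_norm_finsetSum_le_of_nonempty
    (t := (Finset.univ : Finset (DirichletCharacter ℂ_[p] (p ^ wd p)))) ⟨ψ₀, Finset.mem_univ _⟩
    (fun ψ => if ψ (-1) = s then ψ (a : ZMod (p ^ wd p))⁻¹ * nu μ ψ n j else 0)
  rw [e, norm_mul, ser4_norm_nat hpt, one_mul] at hψ
  refine hψ.trans_lt ?_
  split_ifs with h1
  · rw [norm_mul]
    exact (mul_le_of_le_one_left (norm_nonneg _) (ψ.norm_le_one _)).trans_lt (h ψ h1 j hj)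
  · rwa [norm_zero]

end Pool.Agent.P.MP_20768c_nt
end

-- part Pool.Agent.P.MP_20768c_nt.Ser2b
section

open Filter Topology

namespace Pool.Agent.P.MP_20768c_nt

lemma ser2b_per {Q : ℕ} {g : ℕ → ℤ} (hg : ∀ y, g (y + Q) = g y) (k y : ℕ) :
    (fwdDiff 1)^[k] g (y + Q) = (fwdDiff 1)^[k] g y := by
  rw [← fwdDiff_iter_comp_add, show (fun r => g (r + Q)) = g from funext hg]

lemma ser2b_dvd {d : ℤ} {g : ℕ → ℤ} (hg : ∀ y, d ∣ g y) (k y : ℕ) :
    d ∣ (fwdDiff 1)^[k] g y := by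
  rw [fwdDiff_iter_eq_sum_shift]
  refine Finset.dvd_sum fun i _ => ?_
  rw [smul_eq_mul]
  exact (hg _).mul_left _

lemma ser2b_one {p : ℕ} (hp : p.Prime) (n : ℕ) {g : ℕ → ℤ} (hg : ∀ y, g (y + p ^ n) = g y)
    (y : ℕ) : (p : ℤ) ∣ (fwdDiff 1)^[p ^ n] g y := by
  rw [fwdDiff_iter_eq_sum_shift]
  obtain ⟨m, hm⟩ : ∃ m, p ^ n = m + 1 :=
    ⟨p ^ n - 1, by have := Nat.pow_pos (n := n) hp.pos; omega⟩
  rw [Finset.sum_range_succ]
  conv => enter [2, 1, 1]; rw [hm]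
  rw [Finset.sum_range_succ', add_assoc]
  refine dvd_add (Finset.dvd_sum fun i hi => ?_) ?_
  · rw [smul_eq_mul]
    have hi' : i < m := Finset.mem_range.1 hi
    have h1 : p ∣ (p ^ n).choose (i + 1) := hp.dvd_choose_pow (by omega) (by omega)
    have h2 : (p : ℤ) ∣ (((p ^ n).choose (i + 1) : ℕ) : ℤ) := by exact_mod_cast h1
    exact (h2.mul_left _).mul_right _
  · simp only [smul_eq_mul, Nat.sub_zero, Nat.choose_zero_right, Nat.sub_self, Nat.choose_self,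
      pow_zero, mul_one, Nat.cast_one, one_mul, add_zero, zero_mul, hg]
    rw [← add_one_mul]
    refine Dvd.dvd.mul_right ?_ _
    rcases Nat.even_or_odd (p ^ n) with he | ho
    · have h2 : p = 2 := by
        have := (Nat.even_pow.1 he).1
        exact (hp.even_iff).1 this
      rw [he.neg_one_pow, h2]
      norm_num
    · rw [ho.neg_one_pow]
      simp

lemma ser2b_pow {p : ℕ} (hp : p.Prime) (n i : ℕ) : ∀ g : ℕ → ℤ, (∀ y, g (y + p ^ n) = g y) →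
    ∀ y, (p : ℤ) ^ i ∣ (fwdDiff 1)^[i * p ^ n] g y := by
  induction i with
  | zero => intro g _ y; simp
  | succ i ih =>
    intro g hg y
    have hp0 : (p : ℤ) ≠ 0 := by exact_mod_cast hp.ne_zero
    choose h hh using ser2b_one hp n hg
    have hper : ∀ y, h (y + p ^ n) = h y := by
      intro z
      apply mul_left_cancel₀ hp0
      rw [← hh, ← hh, ser2b_per hg]
    have heq : (fwdDiff 1)^[p ^ n] g = (p : ℤ) • h := by
      funext z
      rw [hh, Pi.smul_apply, smul_eq_mul]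
    rw [add_one_mul, Function.iterate_add_apply, heq, fwdDiff_iter_const_smul, Pi.smul_apply,
      smul_eq_mul, pow_succ']
    exact mul_dvd_mul_left _ (ih h hper y)

/-- Mahler coefficients of the indicator of a residue class mod `p ^ n` -/
lemma mahler_ind {p : ℕ} (hp : p.Prime) (n j : ℕ) : ∃ E : ℕ → ℤ,
    (∀ x : ℕ, ∀ X : ℕ, x < X → (if x % p ^ n = j then (1 : ℤ) else 0) =
      ∑ k ∈ Finset.range X, E k * (x.choose k : ℤ)) ∧
    ∀ i k : ℕ, i * p ^ n ≤ k → (p : ℤ) ^ i ∣ E k := by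
  set f : ℕ → ℤ := fun x => if x % p ^ n = j then 1 else 0 with hf
  have hper : ∀ y, f (y + p ^ n) = f y := by
    intro y
    simp only [hf, Nat.add_mod_right]
  refine ⟨fun k => (fwdDiff 1)^[k] f 0, fun x X hx => ?_, fun i k hk => ?_⟩
  · have h1 := shift_eq_sum_fwdDiff_iter 1 f x 0
    simp only [smul_eq_mul, mul_one, zero_add, nsmul_eq_mul] at h1
    have h2 : f x = if x % p ^ n = j then (1 : ℤ) else 0 := rfl
    rw [← h2, h1]
    have h3 : Finset.range (x + 1) ⊆ Finset.range X := Finset.range_subset_range.2 hx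
    rw [← Finset.sum_subset h3]
    · exact Finset.sum_congr rfl fun k _ => mul_comm _ _
    · intro k _ hk
      have : x < k := by simpa using hk
      rw [Nat.choose_eq_zero_of_lt this]
      simp
  · obtain ⟨r, rfl⟩ := Nat.exists_eq_add_of_le' hk
    show (p : ℤ) ^ i ∣ (fwdDiff 1)^[r + i * p ^ n] f 0
    rw [Function.iterate_add_apply]
    exact ser2b_dvd (ser2b_pow hp n i f hper) r 0

variable {K : Type*} [NormedField K] [IsUltrametricDist K] {p : ℕ} {ν : ℕ → ℕ → K}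

omit [IsUltrametricDist K] in
lemma compat_iter (hp : p.Prime) (hν : Compat p ν) (n j : ℕ) (hj : j < p ^ n) (i : ℕ) :
    ν n j = ∑ x ∈ Finset.range (p ^ (n + i)), if x % p ^ n = j then ν (n + i) x else 0 := by
  induction i with
  | zero =>
    rw [add_zero, Finset.sum_eq_single j]
    · rw [if_pos (Nat.mod_eq_of_lt hj)]
    · intro x hx hne
      rw [if_neg]
      rwa [Nat.mod_eq_of_lt (Finset.mem_range.1 hx)]
    · intro h
      exact absurd (Finset.mem_range.2 hj) h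
  | succ i ih =>
    rw [ih, ← add_assoc, sum_range_succ_pow]
    refine Finset.sum_congr rfl fun x hx => ?_
    have hmod : ∀ t : ℕ, (x + t * p ^ (n + i)) % p ^ n = x % p ^ n := by
      intro t
      rw [pow_add, mul_comm (p ^ n), ← mul_assoc, Nat.add_mul_mod_self_right]
    simp only [hmod]
    split_ifs with h
    · exact hν (n + i) x (Finset.mem_range.1 hx)
    · simp

theorem ser_lt (hp : p.Prime) (hpn : ‖(p : K)‖ < 1) (hν : Compat p ν) {B : ℝ}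
    (hB : ∀ n j, j < p ^ n → ‖ν n j‖ ≤ B) {c : ℕ → K}
    (hc : ∀ k, Tendsto (Rs p ν k) atTop (𝓝 (c k))) {C : ℝ} (hC : ∀ k, ‖c k‖ < C)
    (n j : ℕ) (hj : j < p ^ n) : ‖ν n j‖ < C := by
  have hC0 : 0 < C := lt_of_le_of_lt (norm_nonneg _) (hC 0)
  have hB0 : 0 ≤ B := le_trans (norm_nonneg _) (hB n j hj)
  obtain ⟨E, hE1, hE2⟩ := mahler_ind hp n j
  obtain ⟨i, hi⟩ : ∃ i : ℕ, ‖(p : K)‖ ^ i * B < C := by
    have h1 : Tendsto (fun i : ℕ => ‖(p : K)‖ ^ i * B) atTop (𝓝 (0 * B)) :=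
      (tendsto_pow_atTop_nhds_zero_of_lt_one (norm_nonneg _) hpn).mul_const B
    rw [zero_mul] at h1
    exact (h1.eventually (gt_mem_nhds hC0)).exists
  have hev : ∀ᶠ m in atTop, ∀ k ∈ Finset.range (i * p ^ n), ‖Rs p ν k m‖ < C := by
    rw [eventually_all_finset]
    intro k _
    exact (hc k).norm.eventually (gt_mem_nhds (hC k))
  obtain ⟨m, hm, hnm⟩ := (hev.and (eventually_ge_atTop n)).exists
  obtain ⟨r, rfl⟩ := Nat.exists_eq_add_of_le hnm
  have hRs : ∀ k, ‖Rs p ν k (n + r)‖ ≤ B := by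
    intro k
    refine IsUltrametricDist.norm_sum_le_of_forall_le_of_nonneg hB0 fun x hx => ?_
    rw [norm_mul]
    calc ‖ν (n + r) x‖ * ‖(x.choose k : K)‖ ≤ B * 1 :=
          mul_le_mul (hB _ _ (Finset.mem_range.1 hx)) (IsUltrametricDist.norm_natCast_le_one K _)
            (norm_nonneg _) hB0
      _ = B := mul_one B
  have hsum : ν n j = ∑ k ∈ Finset.range (p ^ (n + r)), (E k : K) * Rs p ν k (n + r) := by
    rw [compat_iter hp hν n j hj r]
    simp only [Rs, Finset.mul_sum]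
    rw [Finset.sum_comm]
    refine Finset.sum_congr rfl fun x hx => ?_
    have h1 := hE1 x _ (Finset.mem_range.1 hx)
    have h2 : (if x % p ^ n = j then (1 : K) else 0) =
        ∑ k ∈ Finset.range (p ^ (n + r)), (E k : K) * (x.choose k : K) := by
      have := congrArg (Int.cast : ℤ → K) h1
      push_cast at this
      exact this
    have h3 : (if x % p ^ n = j then ν (n + r) x else 0) =
        ν (n + r) x * (if x % p ^ n = j then (1 : K) else 0) := by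
      split_ifs <;> simp
    rw [h3, h2, Finset.mul_sum]
    exact Finset.sum_congr rfl fun k _ => by ring
  have hne : (Finset.range (p ^ (n + r))).Nonempty :=
    ⟨0, Finset.mem_range.2 (Nat.pow_pos hp.pos)⟩
  obtain ⟨k, _, hk⟩ := IsUltrametricDist.exists_norm_finsetSum_le_of_nonempty hne
    (fun k => (E k : K) * Rs p ν k (n + r))
  rw [hsum]
  refine lt_of_le_of_lt hk ?_
  rw [norm_mul]
  rcases lt_or_ge k (i * p ^ n) with hlt | hge
  · calc ‖(E k : K)‖ * ‖Rs p ν k (n + r)‖ ≤ 1 * ‖Rs p ν k (n + r)‖ :=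
          mul_le_mul_of_nonneg_right (IsUltrametricDist.norm_intCast_le_one K _) (norm_nonneg _)
      _ = ‖Rs p ν k (n + r)‖ := one_mul _
      _ < C := hm k (Finset.mem_range.2 hlt)
  · obtain ⟨w, hw⟩ := hE2 i k hge
    have h1 : ‖(E k : K)‖ ≤ ‖(p : K)‖ ^ i := by
      rw [hw]
      push_cast
      rw [norm_mul, norm_pow]
      calc ‖(p : K)‖ ^ i * ‖(w : K)‖ ≤ ‖(p : K)‖ ^ i * 1 :=
            mul_le_mul_of_nonneg_left (IsUltrametricDist.norm_intCast_le_one K _) (by positivity)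
        _ = ‖(p : K)‖ ^ i := mul_one _
    calc ‖(E k : K)‖ * ‖Rs p ν k (n + r)‖ ≤ ‖(p : K)‖ ^ i * B :=
          mul_le_mul h1 (hRs k) (norm_nonneg _) (by positivity)
      _ < C := hi

end Pool.Agent.P.MP_20768c_nt
end

-- part Pool.Agent.P.MP_20768c_nt.Main
section

open Complex UpperHalfPlane Filter Topology CongruenceSubgroup ModularForm
open scoped MatrixGroups

namespace Pool.Agent.P.MP_20768c_nt

lemma norm_p_lt (p : ℕ) [hp : Fact p.Prime] : ‖(p : ℂ_[p])‖ < 1 := by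
  have h := PadicComplex.norm_extends' p (p : ℚ_[p])
  have h2 : (((p : ℚ_[p]) : PadicAlgCl p) : ℂ_[p]) = (p : ℂ_[p]) := by simp
  rw [h2] at h
  rw [h]
  exact Padic.norm_p_lt_one

section abstract
variable {p : ℕ} [hp : Fact p.Prime] {M : ℕ} [NeZero M] {ε : DirichletCharacter ℂ_[p] M}
  {S : ℚ → ℂ_[p]} {A α : ℂ_[p]}

omit [NeZero M] in
lemma mtt_succ (e : ℂ_[p]) (hα0 : α ≠ 0) (n a : ℕ) :
    mtt S e α (n + 1) a = α⁻¹ ^ (n + 2) *
      (α * S (((a : ℤ) : ℚ) / (p : ℚ) ^ (n + 1)) - e * S (((a : ℤ) : ℚ) / (p : ℚ) ^ n)) := by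
  simp only [mtt, Nat.add_sub_cancel, Int.cast_natCast]
  have h := inv_mul_cancel₀ hα0
  linear_combination (-(α⁻¹ ^ (n + 1) * S ((a : ℚ) / (p : ℚ) ^ (n + 1)))) * h

omit [NeZero M] in
lemma mtt_dist (hT : TLaw M ε S) (hH : HLaw p M ε A S)
    (hα : α ^ 2 - A * α + ε (p : ZMod M) * p = 0) (hα0 : α ≠ 0) (n a : ℕ) (hn : 0 < n) :
    mtt S (ε (p : ZMod M)) α n a =
      ∑ t ∈ Finset.range p, mtt S (ε (p : ZMod M)) α (n + 1) (a + t * p ^ n) := by
  obtain ⟨n, rfl⟩ : ∃ m, n = m + 1 := ⟨n - 1, by omega⟩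
  have h := dist_rel hp.out hT hH hα hα0 n (a : ℤ)
  simp only [mtt_succ _ hα0]
  rw [← Finset.mul_sum]
  have h2 : ∀ t : ℕ, (((a + t * p ^ (n + 1) : ℕ) : ℤ) : ℚ) =
      (((a : ℤ) + t * (p : ℤ) ^ (n + 1) : ℤ) : ℚ) := by
    intro t; push_cast; ring
  simp only [h2]
  rw [← h]
  have h3 := inv_mul_cancel₀ hα0
  linear_combination (-(α⁻¹ ^ (n + 2) * (α * S (((a : ℤ) : ℚ) / (p : ℚ) ^ (n + 1)) -
    ε (p : ZMod M) * S (((a : ℤ) : ℚ) / (p : ℚ) ^ n)))) * h3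

lemma mtt_bdd (hT : TLaw M ε S) (hα1 : ‖α‖ = 1) :
    ∃ B : ℝ, 0 ≤ B ∧ ∀ n a, ‖mtt S (ε (p : ZMod M)) α n a‖ ≤ B := by
  obtain ⟨B, hB⟩ := sd_bdd hT
  have hB0 : 0 ≤ B := (norm_nonneg _).trans (hB 0)
  refine ⟨2 * B, by positivity, fun n a => ?_⟩
  unfold mtt
  refine (norm_sub_le _ _).trans ?_
  simp only [norm_mul, norm_pow, norm_inv, hα1, inv_one, one_pow, one_mul, mul_one]
  have h1 := hB ((a : ℚ) / (p : ℚ) ^ n)
  have h2 := hB ((a : ℚ) / (p : ℚ) ^ (n - 1))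
  have h3 := char_norm_le ε (p : ZMod M)
  have h4 : ‖ε (p : ZMod M)‖ * ‖S ((a : ℚ) / (p : ℚ) ^ (n - 1))‖ ≤ 1 * B :=
    mul_le_mul h3 h2 (norm_nonneg _) zero_le_one
  linarith

omit [NeZero M] in
/-- the symmetrised measure is the measure of the symmetrised symbol -/
lemma mtt_symm (hT : TLaw M ε S) (e s : ℂ_[p]) (n a : ℕ) (ha : a ≤ p ^ (n + 1)) :
    mtt S e α (n + 1) a + s * mtt S e α (n + 1) (p ^ (n + 1) - a) =
      mtt (fun r => S r + s * S (-r)) e α (n + 1) a := by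
  have hp0 : (p : ℚ) ≠ 0 := by exact_mod_cast hp.out.ne_zero
  have h1 : S (((p ^ (n + 1) - a : ℕ) : ℚ) / (p : ℚ) ^ (n + 1)) =
      S (-((a : ℚ) / (p : ℚ) ^ (n + 1))) := by
    rw [← hT.per (-((a : ℚ) / (p : ℚ) ^ (n + 1))) 1]
    congr 1
    rw [Nat.cast_sub ha]; push_cast; field_simp; ring
  have h2 : S (((p ^ (n + 1) - a : ℕ) : ℚ) / (p : ℚ) ^ n) = S (-((a : ℚ) / (p : ℚ) ^ n)) := by
    rw [← hT.per (-((a : ℚ) / (p : ℚ) ^ n)) p]
    congr 1
    rw [Nat.cast_sub ha]; push_cast; field_simp; ring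
  simp only [mtt, Nat.add_sub_cancel, h1, h2]
  ring

omit [NeZero M] in
/-- from the balls of level `≥ wd p` with `0 ≤ a < p ^ n` to all balls -/
lemma small_all (hT : TLaw M ε S) (hH : HLaw p M ε A S)
    (hα : α ^ 2 - A * α + ε (p : ZMod M) * p = 0) (hα1 : ‖α‖ = 1) {c : ℝ}
    (h : ∀ n a, a < p ^ (n + wd p) → ¬ p ∣ a → ‖mtt S (ε (p : ZMod M)) α (n + wd p) a‖ < c)
    (n : ℕ) (a : ℤ) (ha : ¬ (p : ℤ) ∣ a) :
    ‖α * S (a / (p : ℚ) ^ (n + 1)) - ε (p : ZMod M) * S (a / (p : ℚ) ^ n)‖ < c := by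
  have hα0 : α ≠ 0 := by rintro rfl; simp at hα1
  have hp0 : (p : ℚ) ≠ 0 := by exact_mod_cast hp.out.ne_zero
  have key : ∀ n : ℕ, wd p ≤ n + 1 → ∀ a : ℤ, ¬ (p : ℤ) ∣ a →
      ‖α * S (a / (p : ℚ) ^ (n + 1)) - ε (p : ZMod M) * S (a / (p : ℚ) ^ n)‖ < c := by
    intro n hn a ha
    have hQ : (0 : ℤ) < (p : ℤ) ^ (n + 1) := by have := hp.out.pos; positivity
    obtain ⟨b, hb⟩ := Int.eq_ofNat_of_zero_le (Int.emod_nonneg a hQ.ne')
    have hlt : b < p ^ (n + 1) := by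
      have := Int.emod_lt_of_pos a hQ
      rw [hb] at this
      exact_mod_cast this
    have hab : a = (b : ℤ) + (p : ℤ) ^ (n + 1) * (a / (p : ℤ) ^ (n + 1)) := by
      rw [← hb]; exact (Int.emod_add_mul_ediv a _).symm
    have hpb : ¬ p ∣ b := by
      intro hd
      apply ha
      rw [hab]
      exact dvd_add (by exact_mod_cast hd) ((dvd_pow_self _ (by omega)).mul_right _)
    have h3 := h (n + 1 - wd p) b (by rwa [Nat.sub_add_cancel hn]) hpb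
    rw [Nat.sub_add_cancel hn, mtt_succ _ hα0] at h3
    simp only [norm_mul, norm_pow, norm_inv, hα1, inv_one, one_pow, one_mul] at h3
    set z := a / (p : ℤ) ^ (n + 1)
    have e1 : S (a / (p : ℚ) ^ (n + 1)) = S (((b : ℤ) : ℚ) / (p : ℚ) ^ (n + 1)) := by
      rw [← hT.per (((b : ℤ) : ℚ) / (p : ℚ) ^ (n + 1)) z]
      congr 1
      rw [hab]; push_cast; field_simp
    have e2 : S (a / (p : ℚ) ^ n) = S (((b : ℤ) : ℚ) / (p : ℚ) ^ n) := by
      rw [← hT.per (((b : ℤ) : ℚ) / (p : ℚ) ^ n) (p * z)]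
      congr 1
      rw [hab]; push_cast; field_simp; ring
    rw [e1, e2]
    exact h3
  by_cases hn : wd p ≤ n + 1
  · exact key n hn a ha
  · have hw : wd p ≤ n + 1 + 1 := by unfold wd; split_ifs <;> omega
    have h1 := dist_rel hp.out hT hH hα hα0 n a
    have h2 := congrArg norm h1
    rw [norm_mul, hα1, one_mul] at h2
    rw [h2]
    have hne : (Finset.range p).Nonempty := ⟨0, Finset.mem_range.2 hp.out.pos⟩
    obtain ⟨k, -, hk⟩ := IsUltrametricDist.exists_norm_finsetSum_le_of_nonempty hne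
      (fun k : ℕ => α * S (((a + k * (p : ℤ) ^ (n + 1) : ℤ) : ℚ) / (p : ℚ) ^ (n + 2)) -
          ε (p : ZMod M) * S (((a + k * (p : ℤ) ^ (n + 1) : ℤ) : ℚ) / (p : ℚ) ^ (n + 1)))
    refine hk.trans_lt (key (n + 1) hw _ ?_)
    intro hd
    exact ha ((dvd_add_left ((dvd_pow_self _ (by omega)).mul_left _)).1 hd)

theorem abstract_main (hT : TLaw M ε S) (hH : HLaw p M ε A S)
    (hα : α ^ 2 - A * α + ε (p : ZMod M) * p = 0) (hα1 : ‖α‖ = 1) {s : ℂ_[p]}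
    (hs : s = 1 ∨ s = -1) :
    ∃ L : DirichletCharacter ℂ_[p] (p ^ wd p) → PowerSeries ℂ_[p],
      (∀ ψ k, Tendsto (riem (mtt S (ε (p : ZMod M)) α) ψ k) atTop
        (𝓝 (PowerSeries.coeff k (L ψ)))) ∧
      ∃ P : ℝ, IsGreatest {x | ∃ b d : ℤ, IsCoprime b d ∧ (M : ℤ) ∣ d - 1 ∧
          x = ‖S (b / d) - S 0 + s * (S (-(b / d)) - S 0)‖} P ∧
        IsGreatest {x | ∃ ψ k, ψ (-1) = s ∧ x = ‖PowerSeries.coeff k (L ψ)‖} P := by
  have hα0 : α ≠ 0 := by rintro rfl; simp at hα1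
  have hpn := norm_p_lt p
  set μ := mtt S (ε (p : ZMod M)) α with hμ
  obtain ⟨B, hB0, hB⟩ := mtt_bdd hT hα1
  have hcomp : ∀ ψ, Compat p (nu μ ψ) := fun ψ =>
    nu_compat (fun n a hn _ => mtt_dist hT hH hα hα0 n a hn) ψ
  have hbd : ∀ ψ n j, j < p ^ n → ‖nu μ ψ n j‖ ≤ B := fun ψ n j _ => nu_bdd hB0 hB ψ n j
  choose c hc using fun ψ k => ser_conv hpn (hcomp ψ) (hbd ψ) k
  set S' : ℚ → ℂ_[p] := fun r => S r + s * S (-r) with hS'
  have hT' : TLaw M ε S' := hT.symm s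
  have hH' : HLaw p M ε A S' := HLaw.symm hp.out.ne_zero s hT hH
  have hper : ∀ b d : ℤ, (M : ℤ) ∣ d - 1 →
      Fv S' b d - S' 0 = S (b / d) - S 0 + s * (S (-(b / d)) - S 0) := by
    intro b d hd
    rw [Fv_sub_eq hT' hd]
    simp only [hS', neg_zero]
    ring
  have hsym : ∀ n a, a < p ^ (n + wd p) →
      μ (n + wd p) a + s * μ (n + wd p) (p ^ (n + wd p) - a) =
        mtt S' (ε (p : ZMod M)) α (n + wd p) a := by
    intro n a ha
    obtain ⟨m, hm⟩ : ∃ m, n + wd p = m + 1 := ⟨n + wd p - 1, by have := wd_pos p; omega⟩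
    rw [hm] at ha ⊢
    exact mtt_symm hT _ s m a ha.le
  obtain ⟨Λ, hΛ, hmem⟩ := sd_fg hT'
  obtain ⟨x0, ⟨b0, d0, hbd0, hd0, rfl⟩, hmax⟩ := fg_max hΛ
    (T := {x | ∃ b d : ℤ, IsCoprime b d ∧ (M : ℤ) ∣ d - 1 ∧ x = Fv S' b d - S' 0})
    (by
      rintro x ⟨b, d, -, hd, rfl⟩
      rw [Fv_sub_eq hT' hd]
      exact Λ.sub_mem (hmem _) (hmem _))
    ⟨_, 0, 1, isCoprime_one_right, by simp, rfl⟩
  set P := ‖Fv S' b0 d0 - S' 0‖ with hP
  have hP0 : 0 ≤ P := norm_nonneg _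
  have hPmax : ∀ b d : ℤ, IsCoprime b d → (M : ℤ) ∣ d - 1 → ‖Fv S' b d - S' 0‖ ≤ P :=
    fun b d h1 h2 => hmax _ ⟨b, d, h1, h2, rfl⟩
  have hup : ∀ ψ k, ψ (-1) = s → ‖c ψ k‖ ≤ P := by
    intro ψ k hψ
    refine ser_le hP0 (fun n j _ => nu_le hψ hP0 (fun a ha hpa => ?_) j) (hc ψ k)
    rw [hsym n a ha]
    obtain ⟨m, hm⟩ : ∃ m, n + wd p = m + 1 := ⟨n + wd p - 1, by have := wd_pos p; omega⟩
    rw [hm, mtt_succ _ hα0]
    simp only [norm_mul, norm_pow, norm_inv, hα1, inv_one, one_pow, one_mul]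
    exact integral_le hp.out hpn hT' hH' hα hα1 hPmax m a (by exact_mod_cast hpa)
  refine ⟨fun ψ => PowerSeries.mk (c ψ), fun ψ k => ?_, P, ⟨⟨b0, d0, hbd0, hd0, ?_⟩, ?_⟩, ?_, ?_⟩
  · rw [riem_eq, PowerSeries.coeff_mk]; exact hc ψ k
  · rw [hP, hper b0 d0 hd0]
  · rintro x ⟨b, d, h1, h2, rfl⟩
    rw [← hper b d h2]; exact hPmax b d h1 h2
  · by_contra hno
    have hlt : ∀ ψ, ψ (-1) = s → ∀ k, ‖c ψ k‖ < P := by
      intro ψ hψ k
      refine lt_of_le_of_ne (hup ψ k hψ) fun he => hno ⟨ψ, k, hψ, ?_⟩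
      rw [PowerSeries.coeff_mk, he]
    obtain ⟨ψ0, hψ0⟩ := exists_char p hs
    have hPpos : 0 < P := (norm_nonneg _).trans_lt (hlt ψ0 hψ0 0)
    have hsm := small_all hT' hH' hα hα1 (c := P) (fun n a ha hpa => by
      rw [← hsym n a ha]
      exact nu_inv hs (fun ψ hψ j hj =>
        ser_lt hp.out hpn (hcomp ψ) (hbd ψ) (hc ψ) (hlt ψ hψ) n j hj) ha hpa)
    exact lt_irrefl _ (engine hp.out hpn hT' hH' hα hα1 hPpos hsm hbd0 hd0)
  · rintro x ⟨ψ, k, hψ, rfl⟩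
    rw [PowerSeries.coeff_mk]; exact hup ψ k hψ

end abstract

theorem main (p : ℕ) [hp : Fact p.Prime] (M : ℕ) [NeZero M] (ε : DirichletCharacter ℂ M)
    (f : CuspForm (Gamma1 M) 2) (hf : f ≠ 0)
    (hε : ∀ γ ∈ Gamma0 M, ⇑f ∣[(2 : ℤ)] γ = ε ((γ 1 1 : ℤ) : ZMod M) • ⇑f) (a : ℂ)
    (hT : ∀ z : ℍ, (p : ℂ)⁻¹ * ∑ k ∈ Finset.range p, f (ofComplex (((z : ℂ) + k) / p)) +
      ε (p : ZMod M) * p * f (ofComplex (p * (z : ℂ))) = a * f z)
    (ι : ℂ →+* ℂ_[p]) (α : ℂ_[p]) (hα : α ^ 2 - ι a * α + ι (ε (p : ZMod M)) * p = 0)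
    (hα1 : ‖α‖ = 1) (s : ℤ) (hs : s = 1 ∨ s = -1) :
    ∃ L : DirichletCharacter ℂ_[p] (p ^ wd p) → PowerSeries ℂ_[p],
      (∀ ψ k, Tendsto (riem (mtt (fun r => ι (sym f r)) (ι (ε (p : ZMod M))) α) ψ k) atTop
        (𝓝 (PowerSeries.coeff k (L ψ)))) ∧
      ∃ P : ℝ, 0 < P ∧
        IsGreatest {x | ∃ b d : ℤ, IsCoprime b d ∧ (M : ℤ) ∣ d - 1 ∧
          x = ‖ι (sym f (b / d) - sym f 0 + s * (sym f (-(b / d)) - sym f 0))‖} P ∧
        IsGreatest {x | ∃ ψ k, ψ (-1) = (s : ℂ_[p]) ∧ x = ‖PowerSeries.coeff k (L ψ)‖} P := by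
  have h1 := (sym_T ε f hε).map ι
  have h2 := (sym_H hp.out.ne_zero ε f a hT).map ι
  have hs' : (s : ℂ_[p]) = 1 ∨ (s : ℂ_[p]) = -1 := by
    rcases hs with rfl | rfl <;> simp
  have hs'' : (s : ℂ) = 1 ∨ (s : ℂ) = -1 := by
    rcases hs with rfl | rfl <;> simp
  obtain ⟨L, hL, P, hP1, hP2⟩ := abstract_main h1 h2 (α := α) hα hα1 hs'
  have hP1' : IsGreatest {x | ∃ b d : ℤ, IsCoprime b d ∧ (M : ℤ) ∣ d - 1 ∧
      x = ‖ι (sym f (b / d) - sym f 0 + s * (sym f (-(b / d)) - sym f 0))‖} P := by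
    simpa only [map_add, map_sub, map_mul, map_intCast] using hP1
  refine ⟨L, hL, P, ?_, hP1', hP2⟩
  by_contra hle
  refine hf (per_pos ε f hε hs'' fun b d hbd hd => ?_)
  have h3 := (hP1'.2 ⟨b, d, hbd, hd, rfl⟩).trans (not_lt.1 hle)
  exact (map_eq_zero ι).1 (norm_le_zero_iff.1 h3)

end Pool.Agent.P.MP_20768c_nt
end
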