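import Pool.Agent.K.MP_20768c_nt.C0
import Pool.Agent.P.MP_20768c_nt.Defs2

-- part Pool.Agent.P.MP_20768c_nt.SS1
section

namespace Pool.Agent.P.MP_20768c_nt
open M2

section
variable {K : Type*} [NormedField K] [IsUltrametricDist K] {p M : ℕ}
  {ε : DirichletCharacter K M} {S : ℚ → K} {A : K} {c : ℝ}

lemma ss_add_lt {x y : K} (hx : ‖x‖ < c) (hy : ‖y‖ < c) : ‖x + y‖ < c :=
  (IsUltrametricDist.norm_add_le_max x y).trans_lt (max_lt hx hy)

lemma ss_sub_lt {x y : K} (hx : ‖x‖ < c) (hy : ‖y‖ < c) : ‖x - y‖ < c := by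
  rw [sub_eq_add_neg]; exact ss_add_lt hx (by rwa [norm_neg])

lemma ss_cop (hp : p.Prime) (hM : ¬ p ∣ M) : IsCoprime (M : ℤ) (p : ℤ) := by
  rw [Nat.isCoprime_iff_coprime]
  exact ((Nat.Prime.coprime_iff_not_dvd hp).2 hM).symm

omit [IsUltrametricDist K] in
lemma ss_eps (hp : p.Prime) (hM : ¬ p ∣ M) : ‖ε (p : ZMod M)‖ = 1 :=
  char_norm_unit ε ((ZMod.isUnit_iff_coprime p M).2 ((Nat.Prime.coprime_iff_not_dvd hp).2 hM))

omit [IsUltrametricDist K] in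
/-- the three term relation -/
lemma ss_three (hp : p.Prime) (hH : HLaw p M ε A S) (n : ℕ) (a : ℤ) :
    ε (p : ZMod M) * S (a / (p : ℚ) ^ n) = A * S (a / (p : ℚ) ^ (n + 1)) -
      ∑ k ∈ Finset.range p, S (((a + k * (p : ℤ) ^ (n + 1) : ℤ) : ℚ) / (p : ℚ) ^ (n + 2)) := by
  have hp0 : (p : ℚ) ≠ 0 := by exact_mod_cast hp.ne_zero
  have h := hH (a / (p : ℚ) ^ (n + 1))
  have h1 : (p : ℚ) * (a / (p : ℚ) ^ (n + 1)) = a / (p : ℚ) ^ n := by field_simp; ring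
  have h2 : ∀ k : ℕ, ((a : ℚ) / (p : ℚ) ^ (n + 1) + k) / p =
      ((a + k * (p : ℤ) ^ (n + 1) : ℤ) : ℚ) / (p : ℚ) ^ (n + 2) := by
    intro k; push_cast; field_simp; ring
  simp only [h1, h2] at h
  rw [h]; ring

lemma ss_ndvd {a : ℤ} (ha : ¬ (p : ℤ) ∣ a) (k n : ℕ) :
    ¬ (p : ℤ) ∣ a + k * (p : ℤ) ^ (n + 1) := fun hd =>
  ha ((dvd_add_left ((dvd_pow_self _ (by omega)).mul_left _)).1 hd)

/-- smallness at two consecutive levels descends -/
lemma ss_down (hp : p.Prime) (hM : ¬ p ∣ M) (hH : HLaw p M ε A S) (hA : ‖A‖ ≤ 1) (n : ℕ)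
    (h1 : ∀ a : ℤ, ¬ (p : ℤ) ∣ a → ‖S (a / (p : ℚ) ^ (n + 1))‖ < c)
    (h2 : ∀ a : ℤ, ¬ (p : ℤ) ∣ a → ‖S (a / (p : ℚ) ^ (n + 2))‖ < c)
    (a : ℤ) (ha : ¬ (p : ℤ) ∣ a) : ‖S (a / (p : ℚ) ^ n)‖ < c := by
  have h := congrArg norm (ss_three hp hH n a)
  rw [norm_mul, ss_eps hp hM, one_mul] at h
  rw [h]
  refine ss_sub_lt ?_ ?_
  · rw [norm_mul]
    exact (mul_le_of_le_one_left (norm_nonneg _) hA).trans_lt (h1 a ha)
  · have hne : (Finset.range p).Nonempty := ⟨0, Finset.mem_range.2 hp.pos⟩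
    obtain ⟨k, -, hk⟩ := IsUltrametricDist.exists_norm_finsetSum_le_of_nonempty hne
      (fun k : ℕ => S (((a + k * (p : ℤ) ^ (n + 1) : ℤ) : ℚ) / (p : ℚ) ^ (n + 2)))
    exact hk.trans_lt (h2 _ (ss_ndvd ha k n))

/-- if all symbols of level `≥ n0` are small then the periods are small -/
theorem engSS [NeZero M] (hp : p.Prime) (hpn : ‖(p : K)‖ < 1) (hM : ¬ p ∣ M) (hT : TLaw M ε S)
    (hH : HLaw p M ε A S) (hA : ‖A‖ ≤ 1) (n0 : ℕ)
    (hμ : ∀ n, n0 ≤ n → ∀ a : ℤ, ¬ (p : ℤ) ∣ a → ‖S (a / (p : ℚ) ^ n)‖ < c)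
    {b d : ℤ} (hbd : IsCoprime b d) (hd : (M : ℤ) ∣ d - 1) : ‖Fv S b d - S 0‖ < c := by
  have hall : ∀ n, ∀ a : ℤ, ¬ (p : ℤ) ∣ a → ‖S (a / (p : ℚ) ^ n)‖ < c := by
    induction n0 with
    | zero => exact fun n => hμ n (Nat.zero_le n)
    | succ m ih =>
      refine ih fun n hn => ?_
      rcases hn.eq_or_lt with rfl | hlt
      · exact ss_down hp hM hH hA _ (hμ _ le_rfl) (hμ _ (by omega))
      · exact hμ n hlt
  have hp1 : ¬ (p : ℤ) ∣ 1 := by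
    intro h
    exact hp.one_lt.ne' (by exact_mod_cast Int.eq_one_of_dvd_one (by positivity) h)
  have h0 : ‖S 0‖ < c := by
    have := hall 0 1 hp1
    have h2 := hT.per 0 1
    simp only [zero_add] at h2
    simpa [← h2] using this
  have hc : 0 < c := (norm_nonneg _).trans_lt h0
  have he := ss_eps (ε := ε) hp hM
  have hu : ∀ j : ℤ, ‖((1 : K) / ε (p : ZMod M)) ^ j * S 0‖ < c := by
    intro j
    rw [norm_mul, norm_zpow, norm_div, he, norm_one]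
    simpa using h0
  have hcop := ss_cop hp hM
  have hval : ∀ (n : ℕ) (a : ℤ), (n = 0 ∨ ¬ (p : ℤ) ∣ a) →
      ‖S (a / (p : ℚ) ^ n) - ((1 : K) / ε (p : ZMod M)) ^ (-(n : ℤ)) * S 0‖ < c := by
    intro n a ha
    refine ss_sub_lt ?_ (hu _)
    rcases ha with rfl | ha
    · have h2 := hT.per 0 a
      simp only [zero_add] at h2
      simpa [h2] using h0
    · exact hall n a ha
  have hcol : ∀ h ∈ Gam p M 1, ∀ j a' c', Prim p h.a h.c j a' c' →
      ‖Fv S h.b h.d - Fv S a' c'‖ < c := by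
    intro h hh j a' c' h1
    obtain ⟨j', b', d', h2⟩ := prim_col2 hp hh
    have h3 := engA_col hp hcop hT (α := 1) norm_one hval (by simpa using hc) hh h1 h2
    have h4 := ss_add_lt h3 (hu j')
    rw [one_zpow, sub_self, zero_mul, add_zero, sub_right_comm, sub_add_cancel] at h4
    exact h4
  refine eng0 hp hpn (N := M) (r := 0) hcop (by simp) hT hc (fun _ _ => S 0) rfl
    ⟨‖S 0‖, fun _ _ => le_rfl⟩ (fun _ _ _ _ => rfl) ?_ ?_ hbd hd
  · intro h hh h' hh' ha hc'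
    obtain ⟨j, a', c', h1, -⟩ := prim_col1 hp hcop hh
    have h2 := ss_sub_lt (hcol h hh j a' c' h1) (hcol h' hh' j a' c' (by rwa [← ha, ← hc']))
    simpa using h2
  · refine ⟨M.totient, Nat.totient_pos.2 (Nat.pos_of_ne_zero (NeZero.ne M)), ?_,
      fun _ _ => by simpa using hc⟩
    have h1 : p ^ M.totient ≡ 1 [MOD M] :=
      Nat.ModEq.pow_totient ((Nat.Prime.coprime_iff_not_dvd hp).2 hM)
    have h2 : (M : ℤ) ∣ (p : ℤ) ^ M.totient - 1 := by exact_mod_cast h1.symm.dvd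
    exact_mod_cast RM.of_dvd p h2

/-- integrality in the non-ordinary case -/
theorem ss_int [NeZero M] (hp : p.Prime) (hpn : ‖(p : K)‖ < 1) (hM : ¬ p ∣ M) (hT : TLaw M ε S)
    (hH : HLaw p M ε A S) (hA : ‖A‖ < 1)
    (hP : ∀ b d : ℤ, IsCoprime b d → (M : ℤ) ∣ d - 1 → ‖Fv S b d - S 0‖ ≤ c)
    (n : ℕ) (a : ℤ) (ha : ¬ (p : ℤ) ∣ a) : ‖S (a / (p : ℚ) ^ n)‖ ≤ c := by
  obtain ⟨B, hB⟩ := sd_bdd hT
  have hB0 : 0 ≤ B := (norm_nonneg _).trans (hB 0)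
  have hc0 : 0 ≤ c := (norm_nonneg _).trans (hP 0 1 isCoprime_one_right (by simp))
  set ρ := max ‖A‖ ‖(p : K)‖ with hρ
  have hρ0 : 0 ≤ ρ := (norm_nonneg _).trans (le_max_left _ _)
  have hρ1 : ρ < 1 := max_lt hA hpn
  have key : ∀ i : ℕ, ∀ n, ∀ a : ℤ, ¬ (p : ℤ) ∣ a →
      ‖S (a / (p : ℚ) ^ n)‖ ≤ max (ρ ^ i * B) c := by
    intro i
    induction i with
    | zero => intro n a _; simpa using Or.inl (hB _)
    | succ i ih =>
      intro n a ha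
      have hmul : ∀ {x y : K}, ‖x‖ ≤ ρ → ‖y‖ ≤ max (ρ ^ i * B) c →
          ‖x * y‖ ≤ max (ρ ^ (i + 1) * B) c := by
        intro x y hx hy
        rw [norm_mul]
        refine (mul_le_mul hx hy (norm_nonneg _) hρ0).trans ?_
        rw [mul_max_of_nonneg _ _ hρ0]
        refine max_le_max (le_of_eq (by ring)) (mul_le_of_le_one_left hc0 hρ1.le)
      have h := congrArg norm (ss_three hp hH n a)
      rw [norm_mul, ss_eps hp hM, one_mul] at h
      rw [h]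
      have hsum : ∑ k ∈ Finset.range p,
          S (((a + k * (p : ℤ) ^ (n + 1) : ℤ) : ℚ) / (p : ℚ) ^ (n + 2)) =
          (p : K) * S (a / (p : ℚ) ^ (n + 2)) + ∑ k ∈ Finset.range p,
            (S (((a + k * (p : ℤ) ^ (n + 1) : ℤ) : ℚ) / (p : ℚ) ^ (n + 2)) -
              S (a / (p : ℚ) ^ (n + 2))) := by
        rw [Finset.sum_sub_distrib]; simp
      rw [hsum, sub_eq_add_neg]
      refine (IsUltrametricDist.norm_add_le_max _ _).trans (max_le ?_ ?_)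
      · exact hmul (le_max_left _ _) (ih _ a ha)
      · rw [norm_neg]
        refine (IsUltrametricDist.norm_add_le_max _ _).trans (max_le ?_ ?_)
        · exact hmul (le_max_right _ _) (ih _ a ha)
        · refine le_max_of_le_right ?_
          refine IsUltrametricDist.norm_sum_le_of_forall_le_of_nonneg hc0 fun k _ => ?_
          exact orbit_le hp (N := M) (r := 0) (ss_cop hp hM) (by simp) hT hP (Nat.zero_le _) ha
            (ss_ndvd ha k n) (by simp)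
  have hlim : Filter.Tendsto (fun i : ℕ => max (ρ ^ i * B) c) Filter.atTop (nhds (max (0 * B) c)) :=
    ((tendsto_pow_atTop_nhds_zero_of_lt_one hρ0 hρ1).mul_const B).max tendsto_const_nhds
  have := ge_of_tendsto' hlim (fun i => key i n a ha)
  simpa [hc0] using this

end

end Pool.Agent.P.MP_20768c_nt
end

-- part Pool.Agent.P.MP_20768c_nt.SS2
section

namespace Pool.Agent.P.MP_20768c_nt

variable {p : ℕ}

/-- exactly one lift of `a` has the logarithm `j + t p ^ n` -/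
lemma ss2_lift (hp : p.Prime) {n a j : ℕ} (h : IsLog p n a j) (hj : j < p ^ n) {t : ℕ}
    (ht : t < p) :
    ∃ u, u < p ∧ IsLog p (n + 1) (a + u * p ^ (n + wd p)) (j + t * p ^ n) ∧
      ∀ u', u' < p → IsLog p (n + 1) (a + u' * p ^ (n + wd p)) (j + t * p ^ n) → u' = u := by
  classical
  have hQ : 0 < p ^ n := pow_pos hp.pos n
  have hinj : ∀ u u' i, u < p → u' < p → IsLog p (n + 1) (a + u * p ^ (n + wd p)) i →
      IsLog p (n + 1) (a + u' * p ^ (n + wd p)) i → u = u' := by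
    intro u u' i hu hu' h1 h2
    have h3 : a + u * p ^ (n + wd p) ≡ a + u' * p ^ (n + wd p) [MOD p ^ wd p] := by
      refine Nat.ModEq.add_left _ ?_
      have : p ^ wd p ∣ p ^ (n + wd p) := pow_dvd_pow _ (by omega)
      exact ((Nat.modEq_zero_iff_dvd.2 (this.mul_left u))).trans
        (Nat.modEq_zero_iff_dvd.2 (this.mul_left u')).symm
    have h4 := Nat.ModEq.add_left_cancel' _ (isLog_inj hp h1 h2 h3)
    rw [show n + 1 + wd p = (n + wd p) + 1 by ring, pow_succ'] at h4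
    exact (Nat.ModEq.mul_right_cancel' (pow_pos hp.pos _).ne' h4).eq_of_lt_of_lt hu hu'
  have hex : ∀ u, ∃ t', t' < p ∧ IsLog p (n + 1) (a + u * p ^ (n + wd p)) (j + t' * p ^ n) := by
    intro u
    have hlog : IsLog p n (a + u * p ^ (n + wd p)) j :=
      isLog_cong hp h (by simp [Nat.ModEq])
    obtain ⟨i, hi, hl⟩ := isLog_exists hp (n + 1) (isLog_not_dvd hp hlog)
    have h1 : i % p ^ n = j := by
      have := isLog_unique hp (isLog_succ hl) hlog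
      rwa [Nat.ModEq, Nat.mod_eq_of_lt hj] at this
    refine ⟨i / p ^ n, ?_, ?_⟩
    · rw [Nat.div_lt_iff_lt_mul hQ]; rwa [pow_succ'] at hi
    · rwa [← h1, Nat.mod_add_div' i (p ^ n)]
  choose g hg1 hg2 using hex
  obtain ⟨u, hu, hut⟩ := Finset.surj_on_of_inj_on_of_card_le (s := Finset.range p)
    (t := Finset.range p) (fun u _ => g u) (fun u _ => Finset.mem_range.2 (hg1 u))
    (fun u u' hu hu' he => hinj u u' _ (Finset.mem_range.1 hu) (Finset.mem_range.1 hu') (hg2 u)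
      (by rw [he]; exact hg2 u')) le_rfl t (Finset.mem_range.2 ht)
  have hu' := Finset.mem_range.1 hu
  refine ⟨u, hu', by rw [hut]; exact hg2 u, fun u' h1 h2 => ?_⟩
  exact hinj u' u _ h1 hu' h2 (by rw [hut]; exact hg2 u)

variable [hp : Fact p.Prime]

lemma ss2_psi (ψ : DirichletCharacter ℂ_[p] (p ^ wd p)) (a u n : ℕ) :
    ψ ((a + u * p ^ (n + wd p) : ℕ) : ZMod (p ^ wd p)) = ψ (a : ZMod (p ^ wd p)) := by
  congr 1
  rw [pow_add, ← mul_assoc, Nat.cast_add, Nat.cast_mul, ZMod.natCast_self, mul_zero, add_zero]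

open Classical in
/-- a function of `a` mod `q p ^ n`, summed over a fibre of the next level -/
lemma ss2_fibre (ψ : DirichletCharacter ℂ_[p] (p ^ wd p)) (g : ℕ → ℂ_[p]) {n j t : ℕ}
    (hg : ∀ a u, g (a + u * p ^ (n + wd p)) = g a) (hj : j < p ^ n) (ht : t < p) :
    (∑ a ∈ Finset.range (p ^ (n + 1 + wd p)),
      if IsLog p (n + 1) a (j + t * p ^ n) then ψ (a : ZMod (p ^ wd p)) * g a else 0) =
    ∑ a ∈ Finset.range (p ^ (n + wd p)),
      if IsLog p n a j then ψ (a : ZMod (p ^ wd p)) * g a else 0 := by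
  rw [show n + 1 + wd p = (n + wd p) + 1 by ring, sum_range_succ_pow]
  refine Finset.sum_congr rfl fun a _ => ?_
  simp only [ss2_psi, hg]
  by_cases h : IsLog p n a j
  · obtain ⟨u, hu, h1, h2⟩ := ss2_lift hp.out h hj ht
    rw [if_pos h, Finset.sum_eq_single u, if_pos h1]
    · intro u' hu' hne
      exact if_neg fun h3 => hne (h2 u' (Finset.mem_range.1 hu') h3)
    · intro h3; exact absurd (Finset.mem_range.2 hu) h3
  · rw [if_neg h]
    refine Finset.sum_eq_zero fun u _ => if_neg fun h3 => h ?_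
    exact isLog_of_modEq hp.out (isLog_cong hp.out (isLog_succ h3) (by simp [Nat.ModEq]))
      (by simp [Nat.ModEq])

open Classical in
/-- the sum over the lifts, at one level -/
lemma ss2_up (ψ : DirichletCharacter ℂ_[p] (p ^ wd p)) (g : ℕ → ℂ_[p]) {n j : ℕ}
    (hj : j < p ^ n) :
    (∑ a ∈ Finset.range (p ^ (n + wd p)), if IsLog p n a j then ψ (a : ZMod (p ^ wd p)) *
      ∑ u ∈ Finset.range p, g (a + u * p ^ (n + wd p)) else 0) =
    ∑ t ∈ Finset.range p, ∑ a ∈ Finset.range (p ^ (n + 1 + wd p)),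
      if IsLog p (n + 1) a (j + t * p ^ n) then ψ (a : ZMod (p ^ wd p)) * g a else 0 := by
  rw [Finset.sum_comm, show n + 1 + wd p = (n + wd p) + 1 by ring, sum_range_succ_pow]
  refine Finset.sum_congr rfl fun a _ => ?_
  simp only [ss2_psi]
  by_cases h : IsLog p n a j
  · rw [if_pos h, Finset.mul_sum]
    refine Finset.sum_congr rfl fun u _ => ?_
    have hQ : 0 < p ^ n := pow_pos hp.out.pos n
    have hlog : IsLog p n (a + u * p ^ (n + wd p)) j :=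
      isLog_cong hp.out h (by simp [Nat.ModEq])
    obtain ⟨i, hi, hl⟩ := isLog_exists hp.out (n + 1) (isLog_not_dvd hp.out hlog)
    have h1 : i % p ^ n = j := by
      have := isLog_unique hp.out (isLog_succ hl) hlog
      rwa [Nat.ModEq, Nat.mod_eq_of_lt hj] at this
    have h2 : j + i / p ^ n * p ^ n = i := by rw [← h1, Nat.mod_add_div' i (p ^ n)]
    have h3 : i / p ^ n < p := by rw [Nat.div_lt_iff_lt_mul hQ]; rwa [pow_succ'] at hi
    rw [Finset.sum_eq_single (i / p ^ n), h2, if_pos hl]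
    · intro t ht hne
      refine if_neg fun h4 => hne ?_
      have h5 := isLog_unique hp.out h4 hl
      rw [← h2, pow_succ'] at h5
      have h6 := Nat.ModEq.mul_right_cancel' hQ.ne' (Nat.ModEq.add_left_cancel' _ h5)
      exact h6.eq_of_lt_of_lt (Finset.mem_range.1 ht) h3
    · intro h4; exact absurd (Finset.mem_range.2 h3) h4
  · rw [if_neg h]
    refine (Finset.sum_eq_zero fun u _ => Finset.sum_eq_zero fun t _ => if_neg fun h3 => h ?_).symm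
    exact isLog_of_modEq hp.out (isLog_cong hp.out (isLog_succ h3) (by simp [Nat.ModEq]))
      (by simp [Nat.ModEq])

end Pool.Agent.P.MP_20768c_nt
end

-- part Pool.Agent.P.MP_20768c_nt.SS
section

open Complex UpperHalfPlane Filter Topology CongruenceSubgroup ModularForm
open scoped MatrixGroups

namespace Pool.Agent.P.MP_20768c_nt

section abstract
variable {p : ℕ} [hp : Fact p.Prime] {M : ℕ} {ε : DirichletCharacter ℂ_[p] M}
  {S : ℚ → ℂ_[p]} {A : ℂ_[p]}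

lemma theta_eq (ψ : DirichletCharacter ℂ_[p] (p ^ wd p)) (n j : ℕ) :
    theta S ψ n j = nu (fun n a => S ((a : ℚ) / (p : ℚ) ^ n)) ψ n j := rfl

/-- the three term relation between Mazur, Tate elements -/
lemma theta_three (hT : TLaw M ε S) (hH : HLaw p M ε A S)
    (ψ : DirichletCharacter ℂ_[p] (p ^ wd p)) {n j : ℕ} (hj : j < p ^ n) :
    ε (p : ZMod M) * theta S ψ n j = A * theta S ψ (n + 1) j -
      ∑ t ∈ Finset.range p, theta S ψ (n + 2) (j + t * p ^ (n + 1)) := by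
  classical
  have hp0 : (p : ℚ) ≠ 0 := by exact_mod_cast hp.out.ne_zero
  have hj1 : j < p ^ (n + 1) := hj.trans (Nat.pow_lt_pow_right hp.out.one_lt (by omega))
  have h1 := ss2_fibre ψ (fun a => S ((a : ℚ) / (p : ℚ) ^ (n + wd p))) (n := n) (j := j) (t := 0)
    (fun a u => by
      rw [← hT.per ((a : ℚ) / (p : ℚ) ^ (n + wd p)) u]
      congr 1; push_cast; field_simp) hj hp.out.pos
  have h2 := ss2_up ψ (fun a => S ((a : ℚ) / (p : ℚ) ^ (n + 2 + wd p))) (n := n + 1) hj1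
  simp only [zero_mul, add_zero] at h1
  unfold theta
  rw [← h1, ← h2, Finset.mul_sum, Finset.mul_sum, ← Finset.sum_sub_distrib]
  refine Finset.sum_congr rfl fun a _ => ?_
  split_ifs with h
  · have h3 := ss_three hp.out hH (n + wd p) (a : ℤ)
    have e1 : n + wd p + 1 = n + 1 + wd p := by ring
    have e2 : n + wd p + 2 = n + 2 + wd p := by ring
    rw [e1, e2] at h3
    push_cast at h3 ⊢
    linear_combination ψ (a : ZMod (p ^ wd p)) * h3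
  · simp

theorem abstract_ss [NeZero M] (hM : ¬ p ∣ M) (hT : TLaw M ε S) (hH : HLaw p M ε A S)
    (hA : ‖A‖ < 1) {s : ℂ_[p]} (hs : s = 1 ∨ s = -1) :
    ∃ P : ℝ, IsGreatest {x | ∃ b d : ℤ, IsCoprime b d ∧ (M : ℤ) ∣ d - 1 ∧
        x = ‖S (b / d) - S 0 + s * (S (-(b / d)) - S 0)‖} P ∧
      (∀ ψ n j, ψ (-1) = s → ‖theta S ψ n j‖ ≤ P) ∧
      ∃ ψ n0, ψ (-1) = s ∧ ∀ m, ∃ j, j < p ^ (n0 + 2 * m) ∧ ‖theta S ψ (n0 + 2 * m) j‖ = P := by
  have hpn := norm_p_lt p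
  have hp0 : (p : ℚ) ≠ 0 := by exact_mod_cast hp.out.ne_zero
  set S' : ℚ → ℂ_[p] := fun r => S r + s * S (-r) with hS'
  have hT' : TLaw M ε S' := hT.symm s
  have hH' : HLaw p M ε A S' := HLaw.symm hp.out.ne_zero s hT hH
  have hper : ∀ b d : ℤ, (M : ℤ) ∣ d - 1 →
      Fv S' b d - S' 0 = S (b / d) - S 0 + s * (S (-(b / d)) - S 0) := by
    intro b d hd
    rw [Fv_sub_eq hT' hd]
    simp only [hS', neg_zero]
    ring
  have hsym : ∀ n a : ℕ, a < p ^ n →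
      S ((a : ℚ) / (p : ℚ) ^ n) + s * S (((p ^ n - a : ℕ) : ℚ) / (p : ℚ) ^ n) =
        S' (((a : ℤ) : ℚ) / (p : ℚ) ^ n) := by
    intro n a ha
    have h1 : S (((p ^ n - a : ℕ) : ℚ) / (p : ℚ) ^ n) = S (-((a : ℚ) / (p : ℚ) ^ n)) := by
      rw [← hT.per (-((a : ℚ) / (p : ℚ) ^ n)) 1]
      congr 1
      rw [Nat.cast_sub ha.le]; push_cast; field_simp; ring
    simp only [hS', h1, Int.cast_natCast]
  obtain ⟨Λ, hΛ, hmem⟩ := sd_fg hT'
  obtain ⟨x0, ⟨b0, d0, hbd0, hd0, rfl⟩, hmax⟩ := fg_max hΛ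
    (T := {x | ∃ b d : ℤ, IsCoprime b d ∧ (M : ℤ) ∣ d - 1 ∧ x = Fv S' b d - S' 0})
    (by
      rintro x ⟨b, d, -, hd, rfl⟩
      rw [Fv_sub_eq hT' hd]
      exact Λ.sub_mem (hmem _) (hmem _))
    ⟨_, 0, 1, isCoprime_one_right, by simp, rfl⟩
  set P := ‖Fv S' b0 d0 - S' 0‖ with hP
  have hP0 : 0 ≤ P := norm_nonneg _
  have hPmax : ∀ b d : ℤ, IsCoprime b d → (M : ℤ) ∣ d - 1 → ‖Fv S' b d - S' 0‖ ≤ P :=
    fun b d h1 h2 => hmax _ ⟨b, d, h1, h2, rfl⟩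
  have hup : ∀ ψ n j, ψ (-1) = s → ‖theta S ψ n j‖ ≤ P := by
    intro ψ n j hψ
    rw [theta_eq]
    refine nu_le hψ hP0 (fun a ha hpa => ?_) j
    rw [hsym _ a ha]
    exact ss_int hp.out hpn hM hT' hH' hA hPmax _ a (by exact_mod_cast hpa)
  have hex : ∃ ψ n j, ψ (-1) = s ∧ j < p ^ n ∧ ‖theta S ψ n j‖ = P := by
    by_contra hno
    have hlt : ∀ ψ n j, ψ (-1) = s → j < p ^ n → ‖theta S ψ n j‖ < P := fun ψ n j h1 h2 =>
      lt_of_le_of_ne (hup ψ n j h1) fun he => hno ⟨ψ, n, j, h1, h2, he⟩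
    refine lt_irrefl _ (engSS hp.out hpn hM hT' hH' hA.le (wd p) (c := P) ?_ hbd0 hd0)
    intro n hn a ha
    have hQ : (0 : ℤ) < (p : ℤ) ^ n := by have := hp.out.pos; positivity
    obtain ⟨b, hb⟩ := Int.eq_ofNat_of_zero_le (Int.emod_nonneg a hQ.ne')
    have hlt' : b < p ^ n := by
      have := Int.emod_lt_of_pos a hQ
      rw [hb] at this
      exact_mod_cast this
    have hab : a = (b : ℤ) + (p : ℤ) ^ n * (a / (p : ℤ) ^ n) := by
      rw [← hb]; exact (Int.emod_add_mul_ediv a _).symm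
    have hpb : ¬ p ∣ b := by
      intro hd
      apply ha
      rw [hab]
      have := wd_pos p
      exact dvd_add (by exact_mod_cast hd) ((dvd_pow_self _ (by omega)).mul_right _)
    have h3 := nu_inv (μ := fun n a => S ((a : ℚ) / (p : ℚ) ^ n)) hs (C := P) (n := n - wd p)
      (fun ψ hψ j hj => hlt ψ _ j hψ hj) (a := b) (by rwa [Nat.sub_add_cancel hn]) hpb
    rw [Nat.sub_add_cancel hn, hsym n b hlt'] at h3
    set z := a / (p : ℤ) ^ n
    have e1 : S' (a / (p : ℚ) ^ n) = S' (((b : ℤ) : ℚ) / (p : ℚ) ^ n) := by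
      rw [← hT'.per (((b : ℤ) : ℚ) / (p : ℚ) ^ n) z]
      congr 1
      rw [hab]; push_cast; field_simp
    rwa [e1]
  have hstep : ∀ ψ n j, ψ (-1) = s → j < p ^ n → ‖theta S ψ n j‖ = P →
      ∃ j', j' < p ^ (n + 2) ∧ ‖theta S ψ (n + 2) j'‖ = P := by
    intro ψ n j hψ hj he
    by_contra hno
    have hjt : ∀ t, t < p → j + t * p ^ (n + 1) < p ^ (n + 2) := by
      intro t ht
      have h1 : j < p ^ (n + 1) := hj.trans (Nat.pow_lt_pow_right hp.out.one_lt (by omega))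
      calc j + t * p ^ (n + 1) < p ^ (n + 1) + t * p ^ (n + 1) := by omega
        _ = (t + 1) * p ^ (n + 1) := by ring
        _ ≤ p * p ^ (n + 1) := Nat.mul_le_mul_right _ ht
        _ = p ^ (n + 2) := by ring
    have hlt : ∀ t, t < p → ‖theta S ψ (n + 2) (j + t * p ^ (n + 1))‖ < P := fun t ht =>
      lt_of_le_of_ne (hup ψ _ _ hψ) fun h => hno ⟨_, hjt t ht, h⟩
    have hPpos : 0 < P := (norm_nonneg _).trans_lt (hlt 0 hp.out.pos)
    have h := congrArg norm (theta_three hT hH ψ hj)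
    rw [norm_mul, ss_eps hp.out hM, one_mul, he] at h
    refine lt_irrefl P (h.trans_lt (ss_sub_lt ?_ ?_))
    · rw [norm_mul]
      exact (mul_le_mul_of_nonneg_left (hup ψ _ _ hψ) (norm_nonneg _)).trans_lt
        (mul_lt_of_lt_one_left hPpos hA)
    · have hne : (Finset.range p).Nonempty := ⟨0, Finset.mem_range.2 hp.out.pos⟩
      obtain ⟨t, ht, hk⟩ := IsUltrametricDist.exists_norm_finsetSum_le_of_nonempty hne
        (fun t : ℕ => theta S ψ (n + 2) (j + t * p ^ (n + 1)))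
      exact hk.trans_lt (hlt t (Finset.mem_range.1 ht))
  obtain ⟨ψ, n0, j0, hψ, hj0, he0⟩ := hex
  refine ⟨P, ⟨⟨b0, d0, hbd0, hd0, by rw [hP, hper b0 d0 hd0]⟩, ?_⟩, hup, ψ, n0, hψ, fun m => ?_⟩
  · rintro x ⟨b, d, h1, h2, rfl⟩
    rw [← hper b d h2]; exact hPmax b d h1 h2
  · induction m with
    | zero => exact ⟨j0, hj0, he0⟩
    | succ m ih =>
      obtain ⟨j, hj, he⟩ := ih
      exact hstep ψ _ j hψ hj he

end abstract

theorem main_ss (p : ℕ) [hp : Fact p.Prime] (M : ℕ) [NeZero M] (hM : ¬ p ∣ M)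
    (ε : DirichletCharacter ℂ M) (f : CuspForm (Gamma1 M) 2) (hf : f ≠ 0)
    (hε : ∀ γ ∈ Gamma0 M, ⇑f ∣[(2 : ℤ)] γ = ε ((γ 1 1 : ℤ) : ZMod M) • ⇑f) (a : ℂ)
    (hT : ∀ z : ℍ, (p : ℂ)⁻¹ * ∑ k ∈ Finset.range p, f (ofComplex (((z : ℂ) + k) / p)) +
      ε (p : ZMod M) * p * f (ofComplex (p * (z : ℂ))) = a * f z)
    (ι : ℂ →+* ℂ_[p]) (ha : ‖ι a‖ < 1) (s : ℤ) (hs : s = 1 ∨ s = -1) :
    ∃ P : ℝ, 0 < P ∧
      IsGreatest {x | ∃ b d : ℤ, IsCoprime b d ∧ (M : ℤ) ∣ d - 1 ∧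
        x = ‖ι (sym f (b / d) - sym f 0 + s * (sym f (-(b / d)) - sym f 0))‖} P ∧
      (∀ ψ n j, ψ (-1) = (s : ℂ_[p]) → ‖theta (fun r => ι (sym f r)) ψ n j‖ ≤ P) ∧
      ∃ ψ n0, ψ (-1) = (s : ℂ_[p]) ∧ ∀ m, ∃ j, j < p ^ (n0 + 2 * m) ∧
        ‖theta (fun r => ι (sym f r)) ψ (n0 + 2 * m) j‖ = P := by
  have h1 := (sym_T ε f hε).map ι
  have h2 := (sym_H hp.out.ne_zero ε f a hT).map ι
  have hs' : (s : ℂ_[p]) = 1 ∨ (s : ℂ_[p]) = -1 := by
    rcases hs with rfl | rfl <;> simp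
  have hs'' : (s : ℂ) = 1 ∨ (s : ℂ) = -1 := by
    rcases hs with rfl | rfl <;> simp
  obtain ⟨P, hP1, hP2⟩ := abstract_ss hM h1 h2 ha hs'
  have hP1' : IsGreatest {x | ∃ b d : ℤ, IsCoprime b d ∧ (M : ℤ) ∣ d - 1 ∧
      x = ‖ι (sym f (b / d) - sym f 0 + s * (sym f (-(b / d)) - sym f 0))‖} P := by
    simpa only [map_add, map_sub, map_mul, map_intCast] using hP1
  refine ⟨P, ?_, hP1', hP2⟩
  by_contra hle
  refine hf (per_pos ε f hε hs'' fun b d hbd hd => ?_)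
  have h3 := (hP1'.2 ⟨b, d, hbd, hd, rfl⟩).trans (not_lt.1 hle)
  exact (map_eq_zero ι).1 (norm_le_zero_iff.1 h3)

end Pool.Agent.P.MP_20768c_nt
end

-- part Pool.Agent.P.MP_20768c_nt.Par1
section

namespace Pool.Agent.P.MP_20768c_nt

section
variable {K : Type*} [NormedField K] [IsUltrametricDist K] {p M : ℕ}
  {ε : DirichletCharacter K M} {S : ℚ → K} {A : K} {c : ℝ}

omit [IsUltrametricDist K] in
/-- the four cusps `∞`, `a / p^n`, `b / (p^n d)`, `(a + p) / p^n` with `d = 1 - p^μ`,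
`b = a d + p` -/
lemma par_cycle (hp : p.Prime) (hT : TLaw M ε S) {μ : ℕ} (hμ0 : 0 < μ)
    (hμ : (M : ℤ) ∣ 1 - (p : ℤ) ^ μ) {n : ℕ} (hn : 0 < n) {a : ℤ} (ha : ¬ (p : ℤ) ∣ a) :
    ∃ x y δ : ℤ, ¬ (p : ℤ) ∣ x ∧ ¬ (p : ℤ) ∣ y ∧
      S (((a + p : ℤ) : ℚ) / (p : ℚ) ^ n) - S (a / (p : ℚ) ^ n) =
        ε (δ : ZMod M) * (S (y / (p : ℚ) ^ (n + 1 + μ)) - S (x / (p : ℚ) ^ (n + 1))) := by
  have hp0 : (p : ℚ) ≠ 0 := by exact_mod_cast hp.ne_zero
  have hq := Nat.prime_iff_prime_int.1 hp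
  set d : ℤ := 1 - (p : ℤ) ^ μ with hd
  have hpd : IsCoprime (p : ℤ) d := by
    obtain ⟨m, rfl⟩ : ∃ m, μ = m + 1 := ⟨μ - 1, by omega⟩
    exact ⟨(p : ℤ) ^ m, 1, by rw [hd]; ring⟩
  have hpa : IsCoprime (p : ℤ) a := hq.irreducible.coprime_iff_not_dvd.2 ha
  have h1 : IsCoprime (a * d + p) (p : ℤ) := by
    have := (hpa.mul_right hpd).symm
    simpa using this.add_mul_left_left 1
  have h2 : IsCoprime (a * d + p) d := by
    have := hpd.add_mul_right_left a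
    rwa [add_comm] at this
  obtain ⟨δ, β, h3⟩ := (h1.pow_right (n := n)).mul_right h2
  have hc : (M : ℤ) ∣ (p : ℤ) ^ n * d := hμ.mul_left _
  have hdet : (a * d + p) * δ - (-β) * ((p : ℤ) ^ n * d) = 1 := by linear_combination h3
  have hδ : ¬ (p : ℤ) ∣ δ := by
    intro h
    apply hq.not_isUnit
    refine isUnit_of_dvd_one ?_
    rw [← h3]
    exact (h.mul_right _).add (((dvd_pow_self _ hn.ne').mul_right _).mul_left _)
  have hpn : (p : ℤ) ∣ β * (p : ℤ) ^ n := (dvd_pow_self _ hn.ne').mul_left _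
  have h3q : (δ : ℚ) * (a * (1 - (p : ℚ) ^ μ) + p) + β * ((p : ℚ) ^ n * (1 - (p : ℚ) ^ μ)) = 1 := by
    rw [hd] at h3; exact_mod_cast h3
  refine ⟨δ * a + β * (p : ℤ) ^ n, δ * (a + p) + β * (p : ℤ) ^ n, δ, ?_, ?_, ?_⟩
  · intro h
    rcases hq.dvd_or_dvd ((dvd_add_left hpn).1 h) with h | h
    · exact hδ h
    · exact ha h
  · intro h
    rcases hq.dvd_or_dvd ((dvd_add_left hpn).1 h) with h | h
    · exact hδ h
    · exact ha ((dvd_add_left dvd_rfl).1 h)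
  · have e1 := hT _ _ _ _ hdet hc ((δ * a + β * (p : ℤ) ^ n : ℤ) : ℚ) ((p : ℚ) ^ (n + 1))
      (Or.inr (pow_ne_zero _ hp0))
    have e2 := hT _ _ _ _ hdet hc ((δ * (a + p) + β * (p : ℤ) ^ n : ℤ) : ℚ) ((p : ℚ) ^ (n + 1 + μ))
      (Or.inr (pow_ne_zero _ hp0))
    have a1 : ((a * d + p : ℤ) : ℚ) * ((δ * a + β * (p : ℤ) ^ n : ℤ) : ℚ) +
        ((-β : ℤ) : ℚ) * (p : ℚ) ^ (n + 1) = a := by
      rw [hd]; push_cast; linear_combination (a : ℚ) * h3q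
    have a2 : (((p : ℤ) ^ n * d : ℤ) : ℚ) * ((δ * a + β * (p : ℤ) ^ n : ℤ) : ℚ) +
        (δ : ℚ) * (p : ℚ) ^ (n + 1) = (p : ℚ) ^ n := by
      rw [hd]; push_cast; linear_combination (p : ℚ) ^ n * h3q
    have b1 : ((a * d + p : ℤ) : ℚ) * ((δ * (a + p) + β * (p : ℤ) ^ n : ℤ) : ℚ) +
        ((-β : ℤ) : ℚ) * (p : ℚ) ^ (n + 1 + μ) = ((a + p : ℤ) : ℚ) := by
      rw [hd]; push_cast; linear_combination ((a : ℚ) + p) * h3q
    have b2 : (((p : ℤ) ^ n * d : ℤ) : ℚ) * ((δ * (a + p) + β * (p : ℤ) ^ n : ℤ) : ℚ) +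
        (δ : ℚ) * (p : ℚ) ^ (n + 1 + μ) = (p : ℚ) ^ n := by
      rw [hd]; push_cast; linear_combination (p : ℚ) ^ n * h3q
    rw [a1, a2, Fv_of_ne S _ (pow_ne_zero _ hp0), Fv_of_ne S _ (pow_ne_zero (n + 1) hp0)] at e1
    rw [b1, b2, Fv_of_ne S _ (pow_ne_zero _ hp0), Fv_of_ne S _ (pow_ne_zero (n + 1 + μ) hp0)] at e2
    rw [e1, e2]; ring

/-- smallness at the levels `n + 1` and `n + 1 + μ` makes level `n` constant on classes mod `p` -/
lemma par_flat (hp : p.Prime) (hT : TLaw M ε S) {μ : ℕ} (hμ0 : 0 < μ)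
    (hμ : (M : ℤ) ∣ 1 - (p : ℤ) ^ μ) {n : ℕ} (hn : 0 < n)
    (h1 : ∀ a : ℤ, ¬ (p : ℤ) ∣ a → ‖S (a / (p : ℚ) ^ (n + 1))‖ < c)
    (h2 : ∀ a : ℤ, ¬ (p : ℤ) ∣ a → ‖S (a / (p : ℚ) ^ (n + 1 + μ))‖ < c)
    {a : ℤ} (ha : ¬ (p : ℤ) ∣ a) (t : ℕ) :
    ‖S (((a + t * p : ℤ) : ℚ) / (p : ℚ) ^ n) - S (a / (p : ℚ) ^ n)‖ < c := by
  induction t with
  | zero => simpa using (norm_nonneg _).trans_lt (h1 a ha)
  | succ t ih =>
    have ha' : ¬ (p : ℤ) ∣ a + t * p := fun h => ha ((dvd_add_left (dvd_mul_left _ _)).1 h)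
    obtain ⟨x, y, δ, hx, hy, he⟩ := par_cycle hp hT hμ0 hμ hn ha'
    have h3 : ‖S (((a + t * p + p : ℤ) : ℚ) / (p : ℚ) ^ n) -
        S (((a + t * p : ℤ) : ℚ) / (p : ℚ) ^ n)‖ < c := by
      rw [he, norm_mul]
      exact (mul_le_of_le_one_left (norm_nonneg _) (char_norm_le ε _)).trans_lt
        (ss_sub_lt (h2 y hy) (h1 x hx))
    have h4 := ss_add_lt h3 ih
    rw [sub_add_sub_cancel] at h4
    have e : (a + ((t + 1 : ℕ) : ℤ) * p : ℤ) = a + t * p + p := by push_cast; ring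
    rwa [e]

/-- smallness at all large levels of one parity gives smallness at all large levels -/
theorem par_fill [NeZero M] (hp : p.Prime) (hpn : ‖(p : K)‖ < 1) (hM : ¬ p ∣ M) (hT : TLaw M ε S)
    (hH : HLaw p M ε A S) (hA : ‖A‖ ≤ 1)
    (hint : ∀ (n : ℕ) (a : ℤ), ¬ (p : ℤ) ∣ a → ‖S (a / (p : ℚ) ^ n)‖ ≤ c) (n0 : ℕ)
    (hs : ∀ m : ℕ, ∀ a : ℤ, ¬ (p : ℤ) ∣ a → ‖S (a / (p : ℚ) ^ (n0 + 2 * m))‖ < c)
    (n : ℕ) (hn : n0 ≤ n) (a : ℤ) (ha : ¬ (p : ℤ) ∣ a) : ‖S (a / (p : ℚ) ^ n)‖ < c := by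
  obtain ⟨k, rfl⟩ := Nat.exists_eq_add_of_le hn
  obtain ⟨m, rfl | rfl⟩ := Nat.even_or_odd' k
  · exact hs m a ha
  have hc : 0 < c := (norm_nonneg _).trans_lt (hs 0 a ha)
  have hφ : 0 < M.totient := Nat.totient_pos.2 (Nat.pos_of_ne_zero (NeZero.ne M))
  have hμ : (M : ℤ) ∣ 1 - (p : ℤ) ^ (2 * M.totient) := by
    have h1 : p ^ M.totient ≡ 1 [MOD M] :=
      Nat.ModEq.pow_totient ((Nat.Prime.coprime_iff_not_dvd hp).2 hM)
    have h2 : (M : ℤ) ∣ 1 - (p : ℤ) ^ M.totient := by exact_mod_cast h1.dvd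
    have h3 : 1 - (p : ℤ) ^ (2 * M.totient) =
        (1 - (p : ℤ) ^ M.totient) * (1 + (p : ℤ) ^ M.totient) := by ring
    rw [h3]; exact h2.mul_right _
  set n := n0 + (2 * m + 1) with hnn
  have h := congrArg norm (ss_three hp hH n a)
  rw [norm_mul, ss_eps hp hM, one_mul] at h
  rw [h]
  refine ss_sub_lt ?_ ?_
  · rw [norm_mul]
    refine (mul_le_of_le_one_left (norm_nonneg _) hA).trans_lt ?_
    rw [show n + 1 = n0 + 2 * (m + 1) by omega]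
    exact hs _ a ha
  · have hsum : ∑ k ∈ Finset.range p,
        S (((a + k * (p : ℤ) ^ (n + 1) : ℤ) : ℚ) / (p : ℚ) ^ (n + 2)) =
        (p : K) * S (a / (p : ℚ) ^ (n + 2)) + ∑ k ∈ Finset.range p,
          (S (((a + k * (p : ℤ) ^ (n + 1) : ℤ) : ℚ) / (p : ℚ) ^ (n + 2)) -
            S (a / (p : ℚ) ^ (n + 2))) := by
      rw [Finset.sum_sub_distrib]; simp
    rw [hsum]
    refine ss_add_lt ?_ ?_
    · rw [norm_mul]
      exact (mul_le_mul_of_nonneg_left (hint _ a ha) (norm_nonneg _)).trans_lt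
        (mul_lt_of_lt_one_left hc hpn)
    · have hne : (Finset.range p).Nonempty := ⟨0, Finset.mem_range.2 hp.pos⟩
      obtain ⟨k, -, hk⟩ := IsUltrametricDist.exists_norm_finsetSum_le_of_nonempty hne
        (fun k : ℕ => S (((a + k * (p : ℤ) ^ (n + 1) : ℤ) : ℚ) / (p : ℚ) ^ (n + 2)) -
          S (a / (p : ℚ) ^ (n + 2)))
      refine hk.trans_lt ?_
      have h5 := par_flat (c := c) hp hT (μ := 2 * M.totient) (by omega) hμ (n := n + 2)
        (by omega) (by rw [show n + 2 + 1 = n0 + 2 * (m + 2) by omega]; exact hs _)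
        (by rw [show n + 2 + 1 + 2 * M.totient = n0 + 2 * (m + 2 + M.totient) by omega]
            exact hs _) ha (k * p ^ n)
      have e : (a + ((k * p ^ n : ℕ) : ℤ) * p : ℤ) = a + k * (p : ℤ) ^ (n + 1) := by
        push_cast; ring
      rwa [e] at h5

end

end Pool.Agent.P.MP_20768c_nt
end

-- part Pool.Agent.P.MP_20768c_nt.Par2
section

open Complex UpperHalfPlane Filter Topology CongruenceSubgroup ModularForm
open scoped MatrixGroups

namespace Pool.Agent.P.MP_20768c_nt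

section abstract
variable {p : ℕ} [hp : Fact p.Prime] {M : ℕ} {ε : DirichletCharacter ℂ_[p] M}
  {S : ℚ → ℂ_[p]} {A : ℂ_[p]}

theorem abstract_par [NeZero M] (hM : ¬ p ∣ M) (hT : TLaw M ε S) (hH : HLaw p M ε A S)
    (hA : ‖A‖ < 1) {s : ℂ_[p]} (hs : s = 1 ∨ s = -1) :
    ∃ P : ℝ, IsGreatest {x | ∃ b d : ℤ, IsCoprime b d ∧ (M : ℤ) ∣ d - 1 ∧
        x = ‖S (b / d) - S 0 + s * (S (-(b / d)) - S 0)‖} P ∧
      (∀ ψ n j, ψ (-1) = s → ‖theta S ψ n j‖ ≤ P) ∧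
      ∀ e, e < 2 → ∃ ψ n0, ψ (-1) = s ∧ ∀ n, n0 ≤ n → n % 2 = e →
        ∃ j, j < p ^ n ∧ ‖theta S ψ n j‖ = P := by
  have hpn := norm_p_lt p
  have hp0 : (p : ℚ) ≠ 0 := by exact_mod_cast hp.out.ne_zero
  set S' : ℚ → ℂ_[p] := fun r => S r + s * S (-r) with hS'
  have hT' : TLaw M ε S' := hT.symm s
  have hH' : HLaw p M ε A S' := HLaw.symm hp.out.ne_zero s hT hH
  have hper : ∀ b d : ℤ, (M : ℤ) ∣ d - 1 →
      Fv S' b d - S' 0 = S (b / d) - S 0 + s * (S (-(b / d)) - S 0) := by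
    intro b d hd
    rw [Fv_sub_eq hT' hd]
    simp only [hS', neg_zero]
    ring
  have hsym : ∀ n a : ℕ, a < p ^ n →
      S ((a : ℚ) / (p : ℚ) ^ n) + s * S (((p ^ n - a : ℕ) : ℚ) / (p : ℚ) ^ n) =
        S' (((a : ℤ) : ℚ) / (p : ℚ) ^ n) := by
    intro n a ha
    have h1 : S (((p ^ n - a : ℕ) : ℚ) / (p : ℚ) ^ n) = S (-((a : ℚ) / (p : ℚ) ^ n)) := by
      rw [← hT.per (-((a : ℚ) / (p : ℚ) ^ n)) 1]
      congr 1
      rw [Nat.cast_sub ha.le]; push_cast; field_simp; ring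
    simp only [hS', h1, Int.cast_natCast]
  obtain ⟨Λ, hΛ, hmem⟩ := sd_fg hT'
  obtain ⟨x0, ⟨b0, d0, hbd0, hd0, rfl⟩, hmax⟩ := fg_max hΛ
    (T := {x | ∃ b d : ℤ, IsCoprime b d ∧ (M : ℤ) ∣ d - 1 ∧ x = Fv S' b d - S' 0})
    (by
      rintro x ⟨b, d, -, hd, rfl⟩
      rw [Fv_sub_eq hT' hd]
      exact Λ.sub_mem (hmem _) (hmem _))
    ⟨_, 0, 1, isCoprime_one_right, by simp, rfl⟩
  set P := ‖Fv S' b0 d0 - S' 0‖ with hP
  have hP0 : 0 ≤ P := norm_nonneg _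
  have hPmax : ∀ b d : ℤ, IsCoprime b d → (M : ℤ) ∣ d - 1 → ‖Fv S' b d - S' 0‖ ≤ P :=
    fun b d h1 h2 => hmax _ ⟨b, d, h1, h2, rfl⟩
  have hup : ∀ ψ n j, ψ (-1) = s → ‖theta S ψ n j‖ ≤ P := by
    intro ψ n j hψ
    rw [theta_eq]
    refine nu_le hψ hP0 (fun a ha hpa => ?_) j
    rw [hsym _ a ha]
    exact ss_int hp.out hpn hM hT' hH' hA hPmax _ a (by exact_mod_cast hpa)
  have hex : ∀ e : ℕ, ∃ ψ m j, ψ (-1) = s ∧ j < p ^ (e + 2 * m) ∧
      ‖theta S ψ (e + 2 * m) j‖ = P := by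
    intro e
    by_contra hno
    have hlt : ∀ ψ m j, ψ (-1) = s → j < p ^ (e + 2 * m) → ‖theta S ψ (e + 2 * m) j‖ < P :=
      fun ψ m j h1 h2 => lt_of_le_of_ne (hup ψ _ j h1) fun he => hno ⟨ψ, m, j, h1, h2, he⟩
    refine lt_irrefl _ (engSS hp.out hpn hM hT' hH' hA.le (e + wd p) (c := P) ?_ hbd0 hd0)
    refine par_fill hp.out hpn hM hT' hH' hA.le
      (ss_int hp.out hpn hM hT' hH' hA hPmax) (e + wd p) ?_
    intro m a ha
    obtain ⟨n, hnd⟩ : ∃ n, n = e + wd p + 2 * m := ⟨_, rfl⟩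
    rw [← hnd]
    have hn : wd p ≤ n := by omega
    have hn2 : n - wd p = e + 2 * m := by omega
    have hQ : (0 : ℤ) < (p : ℤ) ^ n := by have := hp.out.pos; positivity
    obtain ⟨b, hb⟩ := Int.eq_ofNat_of_zero_le (Int.emod_nonneg a hQ.ne')
    have hlt' : b < p ^ n := by
      have := Int.emod_lt_of_pos a hQ
      rw [hb] at this
      exact_mod_cast this
    have hab : a = (b : ℤ) + (p : ℤ) ^ n * (a / (p : ℤ) ^ n) := by
      rw [← hb]; exact (Int.emod_add_mul_ediv a _).symm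
    have hpb : ¬ p ∣ b := by
      intro hd
      apply ha
      rw [hab]
      have := wd_pos p
      exact dvd_add (by exact_mod_cast hd) ((dvd_pow_self _ (by omega)).mul_right _)
    have h3 := nu_inv (μ := fun n a => S ((a : ℚ) / (p : ℚ) ^ n)) hs (C := P) (n := n - wd p)
      (fun ψ hψ j hj => by rw [hn2] at hj ⊢; exact hlt ψ m j hψ hj) (a := b) (by rwa [Nat.sub_add_cancel hn]) hpb
    rw [Nat.sub_add_cancel hn, hsym n b hlt'] at h3
    set z := a / (p : ℤ) ^ n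
    have e1 : S' (a / (p : ℚ) ^ n) = S' (((b : ℤ) : ℚ) / (p : ℚ) ^ n) := by
      rw [← hT'.per (((b : ℤ) : ℚ) / (p : ℚ) ^ n) z]
      congr 1
      rw [hab]; push_cast; field_simp
    rwa [e1]
  have hstep : ∀ ψ n j, ψ (-1) = s → j < p ^ n → ‖theta S ψ n j‖ = P →
      ∃ j', j' < p ^ (n + 2) ∧ ‖theta S ψ (n + 2) j'‖ = P := by
    intro ψ n j hψ hj he
    by_contra hno
    have hjt : ∀ t, t < p → j + t * p ^ (n + 1) < p ^ (n + 2) := by
      intro t ht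
      have h1 : j < p ^ (n + 1) := hj.trans (Nat.pow_lt_pow_right hp.out.one_lt (by omega))
      calc j + t * p ^ (n + 1) < p ^ (n + 1) + t * p ^ (n + 1) := by omega
        _ = (t + 1) * p ^ (n + 1) := by ring
        _ ≤ p * p ^ (n + 1) := Nat.mul_le_mul_right _ ht
        _ = p ^ (n + 2) := by ring
    have hlt : ∀ t, t < p → ‖theta S ψ (n + 2) (j + t * p ^ (n + 1))‖ < P := fun t ht =>
      lt_of_le_of_ne (hup ψ _ _ hψ) fun h => hno ⟨_, hjt t ht, h⟩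
    have hPpos : 0 < P := (norm_nonneg _).trans_lt (hlt 0 hp.out.pos)
    have h := congrArg norm (theta_three hT hH ψ hj)
    rw [norm_mul, ss_eps hp.out hM, one_mul, he] at h
    refine lt_irrefl P (h.trans_lt (ss_sub_lt ?_ ?_))
    · rw [norm_mul]
      exact (mul_le_mul_of_nonneg_left (hup ψ _ _ hψ) (norm_nonneg _)).trans_lt
        (mul_lt_of_lt_one_left hPpos hA)
    · have hne : (Finset.range p).Nonempty := ⟨0, Finset.mem_range.2 hp.out.pos⟩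
      obtain ⟨t, ht, hk⟩ := IsUltrametricDist.exists_norm_finsetSum_le_of_nonempty hne
        (fun t : ℕ => theta S ψ (n + 2) (j + t * p ^ (n + 1)))
      exact hk.trans_lt (hlt t (Finset.mem_range.1 ht))
  refine ⟨P, ⟨⟨b0, d0, hbd0, hd0, by rw [hP, hper b0 d0 hd0]⟩, ?_⟩, hup, fun e he => ?_⟩
  · rintro x ⟨b, d, h1, h2, rfl⟩
    rw [← hper b d h2]; exact hPmax b d h1 h2
  · obtain ⟨ψ, m0, j0, hψ, hj0, he0⟩ := hex e
    have hall : ∀ m, ∃ j, j < p ^ (e + 2 * m0 + 2 * m) ∧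
        ‖theta S ψ (e + 2 * m0 + 2 * m) j‖ = P := by
      intro m
      induction m with
      | zero => exact ⟨j0, hj0, he0⟩
      | succ m ih =>
        obtain ⟨j, hj, he⟩ := ih
        exact hstep ψ _ j hψ hj he
    refine ⟨ψ, e + 2 * m0, hψ, fun n hn hne => ?_⟩
    obtain ⟨m, rfl⟩ : ∃ m, n = e + 2 * m0 + 2 * m := ⟨(n - (e + 2 * m0)) / 2, by omega⟩
    exact hall m

end abstract

theorem main_par (p : ℕ) [hp : Fact p.Prime] (M : ℕ) [NeZero M] (hM : ¬ p ∣ M)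
    (ε : DirichletCharacter ℂ M) (f : CuspForm (Gamma1 M) 2) (hf : f ≠ 0)
    (hε : ∀ γ ∈ Gamma0 M, ⇑f ∣[(2 : ℤ)] γ = ε ((γ 1 1 : ℤ) : ZMod M) • ⇑f) (a : ℂ)
    (hT : ∀ z : ℍ, (p : ℂ)⁻¹ * ∑ k ∈ Finset.range p, f (ofComplex (((z : ℂ) + k) / p)) +
      ε (p : ZMod M) * p * f (ofComplex (p * (z : ℂ))) = a * f z)
    (ι : ℂ →+* ℂ_[p]) (ha : ‖ι a‖ < 1) (s : ℤ) (hs : s = 1 ∨ s = -1) :
    ∃ P : ℝ, 0 < P ∧
      IsGreatest {x | ∃ b d : ℤ, IsCoprime b d ∧ (M : ℤ) ∣ d - 1 ∧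
        x = ‖ι (sym f (b / d) - sym f 0 + s * (sym f (-(b / d)) - sym f 0))‖} P ∧
      (∀ ψ n j, ψ (-1) = (s : ℂ_[p]) → ‖theta (fun r => ι (sym f r)) ψ n j‖ ≤ P) ∧
      ∀ e, e < 2 → ∃ ψ n0, ψ (-1) = (s : ℂ_[p]) ∧ ∀ n, n0 ≤ n → n % 2 = e →
        ∃ j, j < p ^ n ∧ ‖theta (fun r => ι (sym f r)) ψ n j‖ = P := by
  have h1 := (sym_T ε f hε).map ι
  have h2 := (sym_H hp.out.ne_zero ε f a hT).map ι
  have hs' : (s : ℂ_[p]) = 1 ∨ (s : ℂ_[p]) = -1 := by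
    rcases hs with rfl | rfl <;> simp
  have hs'' : (s : ℂ) = 1 ∨ (s : ℂ) = -1 := by
    rcases hs with rfl | rfl <;> simp
  obtain ⟨P, hP1, hP2⟩ := abstract_par hM h1 h2 ha hs'
  have hP1' : IsGreatest {x | ∃ b d : ℤ, IsCoprime b d ∧ (M : ℤ) ∣ d - 1 ∧
      x = ‖ι (sym f (b / d) - sym f 0 + s * (sym f (-(b / d)) - sym f 0))‖} P := by
    simpa only [map_add, map_sub, map_mul, map_intCast] using hP1
  refine ⟨P, ?_, hP1', hP2⟩
  by_contra hle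
  refine hf (per_pos ε f hε hs'' fun b d hbd hd => ?_)
  have h3 := (hP1'.2 ⟨b, d, hbd, hd, rfl⟩).trans (not_lt.1 hle)
  exact (map_eq_zero ι).1 (norm_le_zero_iff.1 h3)

end Pool.Agent.P.MP_20768c_nt
end
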